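import Pool.Agent.STF.Cf

/-!
# Project STF, module Cg: runs of digits two below the second letter (helper67)

`top_run`: a word which starts with `(s, 2)` starts with the digits two at `s, s - 1, ..., m`, and has no digit two
at `m - 1`.  `run_ct`: for `s % 12 ≤ 5` the numbers of digits two in the classes `10` and `9` in such a run differ
by `0` or `1`.  `other_two`: if the counts of the digits two are `- e_10` then there is another digit two, with no
digit two above it.
-/

set_option autoImplicit false

namespace Pool.Agent.STF

open Pool.Agent.STN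

/-- digits two at `m + k - 1, ..., m` -/
def rl (m k : ℕ) : List (ℕ × Bool) := (dn k).map (fun j => (m + j, true))

theorem rl_zero (m : ℕ) : rl m 0 = [] := rfl

theorem rl_succ (m k : ℕ) : rl m (k + 1) = (m + k, true) :: rl m k := by
  rw [rl, dn_succ]
  rfl

theorem rl_mem {m k : ℕ} {t : ℕ × Bool} (h : t ∈ rl m k) : t.2 = true ∧ m ≤ t.1 ∧ t.1 < m + k := by
  rw [rl, List.mem_map] at h
  obtain ⟨j, hj, rfl⟩ := h
  rw [mem_dn] at hj
  exact ⟨rfl, by simp, by simpa using hj⟩

theorem rl_ct (m k s : ℕ) : ct (dn (m + k)) s = n2 (rl m k) s + ct (dn m) s := by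
  induction k with
  | zero => rw [rl_zero, n2_nil, add_zero, zero_add]
  | succ k ih =>
    rw [← add_assoc, dn_succ, ct_cons, ih, rl_succ, n2_cons_true]
    ring

/-- the counts of a run of digits two whose top has a class at most five -/
theorem run_ct {m k : ℕ} (hk : 0 < k) (hs : (m + k - 1) % 12 ≤ 5) :
    n2 (rl m k) 10 = n2 (rl m k) 9 ∨ n2 (rl m k) 10 = n2 (rl m k) 9 + 1 := by
  have h9 := rl_ct m k 9
  have h10 := rl_ct m k 10
  rw [ct_dn, ct_dn, ej_val (by norm_num), ej_val (by norm_num)] at h9 h10
  rw [if_neg (by omega), add_zero] at h9 h10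
  by_cases h : m % 12 = 10
  · right
    rw [if_neg (by omega), add_zero] at h10
    rw [if_pos (by omega)] at h9
    linear_combination h9 - h10
  · left
    by_cases h' : 9 < m % 12
    · rw [if_pos (by omega)] at h9 h10
      linear_combination h9 - h10
    · rw [if_neg (by omega)] at h9 h10
      linear_combination h9 - h10

/-- splitting off the run of digits two at the top -/
theorem top_run {s : ℕ} {W : List (ℕ × Bool)} (h : SD (pos ((s, true) :: W))) :
    ∃ m R, m ≤ s ∧ (s, true) :: W = rl m (s + 1 - m) ++ R ∧ (∀ q ∈ pos R, q < m) ∧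
      ∀ q, (q, true) ∈ R → q + 1 ≠ m := by
  induction s generalizing W with
  | zero =>
    refine ⟨0, W, le_refl _, ?_, ?_, ?_⟩
    · rw [show 0 + 1 - 0 = 0 + 1 from rfl, rl_succ, rl_zero]
      rfl
    · intro q hq
      rw [pos_cons, sd_cons] at h
      exact h.1 q hq
    · intro q _
      omega
  | succ s ih =>
    have h1 := h
    rw [pos_cons, sd_cons] at h1
    by_cases hW : ∃ W', W = (s, true) :: W'
    · obtain ⟨W', rfl⟩ := hW
      obtain ⟨m, R, h2, h3, h4, h5⟩ := ih h1.2
      refine ⟨m, R, by omega, ?_, h4, h5⟩
      rw [show s + 1 + 1 - m = (s + 1 - m) + 1 by omega, rl_succ, show m + (s + 1 - m) = s + 1 by omega, h3]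
      rfl
    · refine ⟨s + 1, W, le_refl _, ?_, h1.1, ?_⟩
      · rw [show s + 1 + 1 - (s + 1) = 0 + 1 by omega, rl_succ, rl_zero]
        rfl
      · intro q hq hqs
        have hqs' : q = s := by omega
        subst hqs'
        cases W with
        | nil => simp at hq
        | cons w W' =>
          obtain ⟨p, d⟩ := w
          rcases List.mem_cons.1 hq with hq | hq
          · exact hW ⟨W', by rw [hq]⟩
          · have h6 := h1.2
            rw [pos_cons, sd_cons] at h6
            have h7 : q < p := h6.1 q (List.mem_map.2 ⟨(q, true), hq, rfl⟩)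
            have h8 : p < q + 1 := h1.1 p (by rw [pos_cons]; simp)
            omega

/-- another digit two without a digit two above it -/
theorem other_two {s : ℕ} {W : List (ℕ × Bool)} (h : SD (pos ((s, true) :: W))) (hs : s % 12 ≤ 5)
    (hn : ∀ c < 12, n2 ((s, true) :: W) c + ee 10 c = 0) :
    ∃ A p B, W = A ++ (p, true) :: B ∧ (p + 1, true) ∉ (s, true) :: A := by
  obtain ⟨m, R, h2, h3, h4, h5⟩ := top_run h
  have hlen : rl m (s + 1 - m) = (s, true) :: rl m (s - m) := by
    rw [show s + 1 - m = (s - m) + 1 by omega, rl_succ, show m + (s - m) = s by omega]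
  by_cases hR : ∀ t ∈ R, t.2 = false
  · exfalso
    have hR0 : ∀ c, n2 R c = 0 := by
      intro c
      have h6 : R.countP (fun t => t.2 && decide (t.1 % 12 = c)) = 0 := by
        rw [List.countP_eq_zero]
        intro t ht
        rw [hR t ht]
        simp
      rw [n2, h6, Nat.cast_zero]
    have h9 := hn 9 (by norm_num)
    have h10 := hn 10 (by norm_num)
    rw [h3, n2_append, hR0] at h9 h10
    rw [ee_ne (by norm_num)] at h9
    rw [ee_self] at h10
    have := run_ct (m := m) (k := s + 1 - m) (by omega) (by rw [show m + (s + 1 - m) - 1 = s by omega]; exact hs)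
    rcases this with h6 | h6
    · rw [h6] at h10
      have : (1 : ZMod 3) = 0 := by linear_combination h10 - h9
      exact absurd this (by decide)
    · rw [h6] at h10
      have : (2 : ZMod 3) = 0 := by linear_combination h10 - h9
      exact absurd this (by decide)
  · obtain ⟨A, p, B, rfl, hA⟩ := split_two hR
    rw [hlen, List.cons_append, List.cons.injEq] at h3
    refine ⟨rl m (s - m) ++ A, p, B, by rw [h3.2, List.append_assoc], ?_⟩
    intro hmem
    have hp : p < m := h4 p (by rw [pos_append, pos_cons]; simp)
    have hp1 : p + 1 ≠ m := h5 p (by simp)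
    rcases List.mem_cons.1 hmem with h6 | h6
    · have : p + 1 = s := by simpa using congrArg Prod.fst h6
      omega
    · rcases List.mem_append.1 h6 with h7 | h7
      · have := (rl_mem h7).2.1
        omega
      · have := hA _ h7
        simp at this

end Pool.Agent.STF
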