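import Pool.Agent.STF.Lc

/-!
# Project STF, module Ld: general words

General words are lists of pairs (position, digit two). `exists_w`: every number has one, by strong induction (append a letter at the
position `0` to the shifted word of `n / 3`); `ofw_inj`: it is unique. The other statements by induction on the word.
-/

set_option autoImplicit false

namespace Pool.Agent.STF

open Pool.Agent.STN

/-- number of digits two of the class `s`, modulo `3` -/
def n2 (W : List (ℕ × Bool)) (s : ℕ) : ZMod 3 := ((W.countP (fun t => t.2 && decide (t.1 % 12 = s)) : ℕ) : ZMod 3)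

private def ld_sh (W : List (ℕ × Bool)) : List (ℕ × Bool) := W.map fun t => (t.1 + 1, t.2)

private theorem ld_sh_ofw (W : List (ℕ × Bool)) : ofw (ld_sh W) = 3 * ofw W := by
  induction W with
  | nil => rfl
  | cons t W ih =>
    have e1 : ofw (ld_sh (t :: W)) = (if t.2 then 2 else 1) * 3 ^ (t.1 + 1) + ofw (ld_sh W) := rfl
    have e2 : ofw (t :: W) = (if t.2 then 2 else 1) * 3 ^ t.1 + ofw W := rfl
    rw [e1, e2, ih]
    ring

private theorem ld_sh_pos (W : List (ℕ × Bool)) : pos (ld_sh W) = (pos W).map (· + 1) := by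
  unfold pos ld_sh
  rw [List.map_map, List.map_map]
  rfl

private theorem ld_sh_sd {W : List (ℕ × Bool)} (h : SD (pos W)) : SD (pos (ld_sh W)) := by
  rw [ld_sh_pos]
  unfold SD at h ⊢
  rw [List.pairwise_map]
  exact h.imp fun h1 => by omega

theorem pos_nil : pos [] = [] := rfl

theorem pos_cons (p : ℕ) (d : Bool) (W : List (ℕ × Bool)) : pos ((p, d) :: W) = p :: pos W := rfl

theorem pos_append (A B : List (ℕ × Bool)) : pos (A ++ B) = pos A ++ pos B := by
  unfold pos
  rw [List.map_append]

private theorem ld_ofw_app (A B : List (ℕ × Bool)) : ofw (A ++ B) = ofw A + ofw B := by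
  unfold ofw
  rw [List.map_append, List.sum_append]

private theorem ld_app {W : List (ℕ × Bool)} (h : SD (pos W)) (d : Bool) :
    SD (pos (ld_sh W ++ [(0, d)])) := by
  rw [pos_append, sd_append]
  refine ⟨ld_sh_sd h, ?_, ?_⟩
  · rw [pos_cons, pos_nil, sd_cons]
    exact ⟨fun b hb => absurd hb (List.not_mem_nil), sd_nil⟩
  · intro a ha b hb
    rw [ld_sh_pos, List.mem_map] at ha
    obtain ⟨c, _, rfl⟩ := ha
    rw [pos_cons, pos_nil, List.mem_singleton] at hb
    omega

theorem exists_w (n : ℕ) : ∃ W : List (ℕ × Bool), SD (pos W) ∧ n = ofw W := by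
  induction n using Nat.strong_induction_on with
  | _ n ih =>
    rcases Nat.eq_zero_or_pos n with rfl | hn
    · exact ⟨[], sd_nil, rfl⟩
    · obtain ⟨W, h1, h2⟩ := ih (n / 3) (by omega)
      have h3 : n % 3 = 0 ∨ n % 3 = 1 ∨ n % 3 = 2 := by omega
      have e0 : ofw [(0, false)] = 1 := rfl
      have e1 : ofw [(0, true)] = 2 := rfl
      rcases h3 with h3 | h3 | h3
      · refine ⟨ld_sh W, ld_sh_sd h1, ?_⟩
        rw [ld_sh_ofw, ← h2]
        omega
      · refine ⟨ld_sh W ++ [(0, false)], ld_app h1 false, ?_⟩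
        rw [ld_ofw_app, ld_sh_ofw, ← h2, e0]
        omega
      · refine ⟨ld_sh W ++ [(0, true)], ld_app h1 true, ?_⟩
        rw [ld_ofw_app, ld_sh_ofw, ← h2, e1]
        omega

theorem one_nil : one [] = [] := rfl

theorem one_cons_false (p : ℕ) (W : List (ℕ × Bool)) : one ((p, false) :: W) = p :: one W := rfl

theorem one_cons_true (p : ℕ) (W : List (ℕ × Bool)) : one ((p, true) :: W) = one W := rfl

theorem one_append (A B : List (ℕ × Bool)) : one (A ++ B) = one A ++ one B := by
  unfold one
  rw [List.filter_append, List.map_append]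

theorem ofw_nil : ofw [] = 0 := rfl

theorem ofw_cons_false (p : ℕ) (W : List (ℕ × Bool)) : ofw ((p, false) :: W) = 3 ^ p + ofw W := by
  have e : ofw ((p, false) :: W) = 1 * 3 ^ p + ofw W := rfl
  rw [e, one_mul]

theorem ofw_cons_true (p : ℕ) (W : List (ℕ × Bool)) : ofw ((p, true) :: W) = 2 * 3 ^ p + ofw W := rfl

theorem ofw_append (A B : List (ℕ × Bool)) : ofw (A ++ B) = ofw A + ofw B := ld_ofw_app A B

private theorem ld_sub (W : List (ℕ × Bool)) : List.Sublist (one W) (pos W) :=
  List.Sublist.map _ List.filter_sublist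

theorem sub_one (W : List (ℕ × Bool)) (p : ℕ) (h : p ∈ one W) : p ∈ pos W := (ld_sub W).subset h

theorem sd_one {W : List (ℕ × Bool)} (h : SD (pos W)) : SD (one W) := List.Pairwise.sublist (ld_sub W) h

theorem w_can (W : List (ℕ × Bool)) : ofl (one W) + ofw W = 2 * ofl (pos W) := by
  induction W with
  | nil => rfl
  | cons t W ih =>
    obtain ⟨p, d⟩ := t
    cases d
    · rw [one_cons_false, ofw_cons_false, pos_cons, ofl_cons, ofl_cons]
      omega
    · rw [one_cons_true, ofw_cons_true, pos_cons, ofl_cons]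
      omega

theorem w_le (W : List (ℕ × Bool)) : ofl (one W) ≤ ofl (pos W) := by
  induction W with
  | nil => exact le_rfl
  | cons t W ih =>
    obtain ⟨p, d⟩ := t
    cases d
    · rw [one_cons_false, pos_cons, ofl_cons, ofl_cons]
      omega
    · rw [one_cons_true, pos_cons, ofl_cons]
      exact ih.trans (Nat.le_add_left _ _)

theorem n2_nil (s : ℕ) : n2 [] s = 0 := rfl

theorem n2_cons_false (p : ℕ) (W : List (ℕ × Bool)) (s : ℕ) : n2 ((p, false) :: W) s = n2 W s := by
  unfold n2
  rw [List.countP_cons]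
  simp

theorem n2_cons_true (p : ℕ) (W : List (ℕ × Bool)) (s : ℕ) : n2 ((p, true) :: W) s = ee (p % 12) s + n2 W s := by
  unfold n2 ee
  rw [List.countP_cons]
  by_cases h : p % 12 = s
  · rw [if_pos h.symm]
    simp only [Bool.true_and, decide_eq_true_eq, h, if_true]
    push_cast
    ring
  · rw [if_neg (Ne.symm h)]
    simp only [Bool.true_and, decide_eq_true_eq, h, if_false]
    push_cast
    ring

theorem n2_append (A B : List (ℕ × Bool)) (s : ℕ) : n2 (A ++ B) s = n2 A s + n2 B s := by
  unfold n2
  rw [List.countP_append]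
  push_cast
  rfl

theorem ct_can (W : List (ℕ × Bool)) (s : ℕ) : ct (pos W) s = ct (one W) s + n2 W s := by
  induction W with
  | nil => rw [pos_nil, one_nil, n2_nil, add_zero]
  | cons t W ih =>
    obtain ⟨p, d⟩ := t
    cases d
    · rw [one_cons_false, n2_cons_false, pos_cons, ct_cons, ct_cons, ih]
      ring
    · rw [one_cons_true, n2_cons_true, pos_cons, ct_cons, ih]
      ring

/-- no digit two -/
theorem ofw_all_one {W : List (ℕ × Bool)} (h : ∀ t ∈ W, t.2 = false) : ofw W = ofl (pos W) ∧ one W = pos W := by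
  induction W with
  | nil => exact ⟨rfl, rfl⟩
  | cons t W ih =>
    obtain ⟨p, d⟩ := t
    have hd : d = false := h (p, d) List.mem_cons_self
    subst hd
    obtain ⟨h1, h2⟩ := ih fun t ht => h t (List.mem_cons_of_mem _ ht)
    rw [ofw_cons_false, one_cons_false, pos_cons, ofl_cons, h1, h2]
    exact ⟨rfl, rfl⟩

/-- the highest digit two -/
theorem split_two {W : List (ℕ × Bool)} (h : ¬ ∀ t ∈ W, t.2 = false) :
    ∃ A p B, W = A ++ (p, true) :: B ∧ ∀ t ∈ A, t.2 = false := by
  induction W with
  | nil => exact absurd (fun t ht => absurd ht List.not_mem_nil) h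
  | cons t W ih =>
    obtain ⟨p, d⟩ := t
    cases d
    · have h1 : ¬ ∀ t ∈ W, t.2 = false := by
        intro h2
        apply h
        intro t ht
        rcases List.mem_cons.1 ht with rfl | ht
        · rfl
        · exact h2 t ht
      obtain ⟨A, q, B, h3, h4⟩ := ih h1
      refine ⟨(p, false) :: A, q, B, by rw [h3, List.cons_append], ?_⟩
      intro t ht
      rcases List.mem_cons.1 ht with rfl | ht
      · rfl
      · exact h4 t ht
    · exact ⟨[], p, W, rfl, fun t ht => absurd ht List.not_mem_nil⟩

/-- the lowest digit two -/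
theorem split_two_low {W : List (ℕ × Bool)} (h : ¬ ∀ t ∈ W, t.2 = false) :
    ∃ A p B, W = A ++ (p, true) :: B ∧ ∀ t ∈ B, t.2 = false := by
  have h1 : ¬ ∀ t ∈ W.reverse, t.2 = false := by
    intro h2
    exact h fun t ht => h2 t (List.mem_reverse.2 ht)
  obtain ⟨A, p, B, h3, h4⟩ := split_two h1
  refine ⟨B.reverse, p, A.reverse, ?_, fun t ht => h4 t (List.mem_reverse.1 ht)⟩
  have h5 := congrArg List.reverse h3
  rw [List.reverse_reverse, List.reverse_append, List.reverse_cons, List.append_assoc] at h5
  exact h5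

theorem ofw_lt {W : List (ℕ × Bool)} {p : ℕ} (h : SD (pos W)) (hp : ∀ q ∈ pos W, q < p) : ofw W < 3 ^ p := by
  have h1 := w_can W
  have h2 := ofl_lt h hp
  omega

private theorem ld_cons (p : ℕ) (d : Bool) (W : List (ℕ × Bool)) :
    ofw ((p, d) :: W) = (if d then 2 else 1) * 3 ^ p + ofw W := rfl

private theorem ld_lt {p q : ℕ} {d d' : Bool} {V V' : List (ℕ × Bool)} (h : SD (pos ((p, d) :: V)))
    (he : ofw ((p, d) :: V) = ofw ((q, d') :: V')) : q ≤ p := by
  by_contra hlt
  rw [pos_cons, sd_cons] at h
  have h1 := ofw_lt h.2 h.1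
  rw [ld_cons, ld_cons] at he
  have h2 : 3 ^ (p + 1) ≤ 3 ^ q := Nat.pow_le_pow_right (by norm_num) (by omega)
  rw [pow_succ] at h2
  cases d <;> cases d' <;> simp only [if_true, if_false, Bool.false_eq_true] at he <;> omega

/-- uniqueness of the general word -/
theorem ofw_inj {W W' : List (ℕ × Bool)} (h : SD (pos W)) (h' : SD (pos W')) (he : ofw W = ofw W') : W = W' := by
  induction W generalizing W' with
  | nil =>
    cases W' with
    | nil => rfl
    | cons t W' =>
      exfalso
      obtain ⟨p, d⟩ := t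
      rw [ofw_nil, ld_cons] at he
      have h1 : 0 < 3 ^ p := by positivity
      cases d <;> simp only [if_true, if_false, Bool.false_eq_true] at he <;> omega
  | cons t V ih =>
    obtain ⟨p, d⟩ := t
    cases W' with
    | nil =>
      exfalso
      rw [ofw_nil, ld_cons] at he
      have h1 : 0 < 3 ^ p := by positivity
      cases d <;> simp only [if_true, if_false, Bool.false_eq_true] at he <;> omega
    | cons t' V' =>
      obtain ⟨q, d'⟩ := t'
      have h1 : q = p := le_antisymm (ld_lt h he) (ld_lt h' he.symm)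
      subst h1
      rw [pos_cons, sd_cons] at h h'
      have h2 := ofw_lt h.2 h.1
      have h3 := ofw_lt h'.2 h'.1
      rw [ld_cons, ld_cons] at he
      cases d <;> cases d' <;> simp only [if_true, if_false, Bool.false_eq_true] at he
      · rw [ih h.2 h'.2 (by omega)]
      · omega
      · omega
      · rw [ih h.2 h'.2 (by omega)]

end Pool.Agent.STF
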