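import Pool.Agent.STF.Le

/-!
# Project STF, module Lf: the relations with `κ = 1`

The relation `X + Z = 2 Y + 1` between words, and the relation with a mark (`hop1`): comparison of digits.
-/

set_option autoImplicit false

namespace Pool.Agent.STF

open Pool.Agent.STN

private theorem lf_dvd {L : List ℕ} (h : SD L) {j : ℕ} (hd : 3 ^ (j + 1) ∣ ofl L) : ∀ p ∈ L, j < p := by
  intro p hp
  by_contra hlt
  have h1 := dg_ofl h p
  rw [if_pos hp] at h1
  unfold dg at h1
  obtain ⟨c, hc⟩ := hd
  have h2 : (3 : ℕ) ^ (j + 1) = 3 ^ p * (3 * 3 ^ (j - p)) := by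
    rw [← pow_succ', ← pow_add]
    congr 1
    omega
  rw [hc, h2, mul_assoc, Nat.mul_div_cancel_left _ (by positivity), mul_assoc, Nat.mul_mod_right] at h1
  exact absurd h1 (by norm_num)

theorem kapl {X Y Z : List ℕ} (hX : SD X) (hY : SD Y) (hZ : SD Z) (h : ofl X + ofl Z = 2 * ofl Y + 1) :
    ∃ M j, SD (M ++ [j]) ∧ Y = M ++ dn j ∧ ((X = M ∧ Z = M ++ [j]) ∨ (X = M ++ [j] ∧ Z = M)) := by
  obtain ⟨x, j, hx, hd, h1, h2⟩ := kap (ofl_mem hX) (ofl_mem hY) (ofl_mem hZ) h
  obtain ⟨M, hM, rfl⟩ := exists_list hx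
  have hlt := lf_dvd hM hd
  have hs : SD (M ++ [j]) := by
    refine sd_append.2 ⟨hM, List.pairwise_singleton _ _, fun a ha b hb => ?_⟩
    rw [List.mem_singleton.1 hb]
    exact hlt a ha
  have hs' : SD (M ++ dn j) := by
    refine sd_append.2 ⟨hM, sd_dn j, fun a ha b hb => ?_⟩
    exact lt_trans (mem_dn.1 hb) (hlt a ha)
  have e1 : ofl (M ++ [j]) = ofl M + 3 ^ j := by
    rw [ofl_append, ofl_cons, ofl_nil, Nat.add_zero]
  refine ⟨M, j, hs, ?_, ?_⟩
  · refine ofl_inj hY hs' ?_
    have h3 := ofl_dn j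
    rw [ofl_append]
    omega
  · rcases h2 with ⟨h3, h4⟩ | ⟨h3, h4⟩
    · exact Or.inl ⟨ofl_inj hX hM h3, ofl_inj hZ hs (by rw [e1]; exact h4)⟩
    · exact Or.inr ⟨ofl_inj hX hs (by rw [e1]; exact h3), ofl_inj hZ hM h4⟩

private theorem lf_uniq (f g : ℕ → ℕ) (N : ℕ) (hf : ∀ p, f p ≤ 2) (hg : ∀ p, g p ≤ 2)
    (h : ∑ p ∈ Finset.range N, f p * 3 ^ p = ∑ p ∈ Finset.range N, g p * 3 ^ p) :
    ∀ p < N, f p = g p := by
  induction N generalizing f g with
  | zero => exact fun p hp => absurd hp (Nat.not_lt_zero p)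
  | succ N ih =>
    have e : ∀ F : ℕ → ℕ, ∑ p ∈ Finset.range (N + 1), F p * 3 ^ p =
        3 * ∑ p ∈ Finset.range N, F (p + 1) * 3 ^ p + F 0 := by
      intro F
      rw [Finset.sum_range_succ', Finset.mul_sum]
      congr 1
      · refine Finset.sum_congr rfl fun p _ => ?_
        rw [pow_succ]
        ring
      · rw [pow_zero, mul_one]
    rw [e f, e g] at h
    have h1 := hf 0
    have h2 := hg 0
    have h3 : f 0 = g 0 := by omega
    have h4 := ih (fun p => f (p + 1)) (fun p => g (p + 1)) (fun p => hf _) (fun p => hg _) (by omega)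
    intro p hp
    rcases p with _ | p
    · exact h3
    · exact h4 p (by omega)

private theorem lf_sum {L : List ℕ} (h : SD L) {N : ℕ} (hN : ∀ p ∈ L, p < N) :
    ofl L = ∑ p ∈ Finset.range N, (if p ∈ L then 1 else 0) * 3 ^ p := by
  induction L with
  | nil =>
    rw [ofl_nil]
    symm
    refine Finset.sum_eq_zero fun p _ => ?_
    rw [if_neg List.not_mem_nil, zero_mul]
  | cons a L ih =>
    obtain ⟨h1, h2⟩ := sd_cons.1 h
    have ha : a ∉ L := fun hh => lt_irrefl a (h1 a hh)
    rw [ofl_cons, ih h2 (fun p hp => hN p (List.mem_cons_of_mem _ hp))]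
    have e1 : (3 : ℕ) ^ a = ∑ p ∈ Finset.range N, (if p = a then 1 else 0) * 3 ^ p := by
      rw [Finset.sum_eq_single a]
      · rw [if_pos rfl, one_mul]
      · intro p _ hp
        rw [if_neg hp, zero_mul]
      · intro hh
        exact absurd (Finset.mem_range.2 (hN a List.mem_cons_self)) hh
    rw [e1, ← Finset.sum_add_distrib]
    refine Finset.sum_congr rfl fun p _ => ?_
    rw [← add_mul]
    congr 1
    by_cases hp : p = a
    · subst hp
      rw [if_pos rfl, if_neg ha, if_pos List.mem_cons_self]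
    · by_cases hp' : p ∈ L
      · rw [if_neg hp, if_pos hp', if_pos (List.mem_cons_of_mem _ hp')]
      · rw [if_neg hp, if_neg hp', if_neg]
        intro hh
        rcases List.mem_cons.1 hh with hh | hh
        · exact hp hh
        · exact hp' hh

private theorem lf_low {B : List ℕ} (hB : SD B) (m : ℕ) (hm : m ∉ B) :
    ∃ B1 j, B = B1 ++ dn j ∧ SD (B1 ++ [j]) ∧ j ≤ m := by
  classical
  have hex : ∃ j, j ∉ B := ⟨m, hm⟩
  have h1 := Nat.find_spec hex
  have h2 : ∀ q < Nat.find hex, q ∈ B := fun q hq => not_not.1 (Nat.find_min hex hq)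
  have h3 := Nat.find_min' hex hm
  generalize Nat.find hex = j at h1 h2 h3
  have hF : SD (B.filter (fun p => j < p)) := List.Pairwise.filter _ hB
  have hmem : ∀ p, p ∈ B.filter (fun p => j < p) ↔ p ∈ B ∧ j < p := by
    intro p
    rw [List.mem_filter, decide_eq_true_eq]
  refine ⟨B.filter (fun p => j < p), j, ?_, ?_, h3⟩
  · refine sd_ext hB (sd_append.2 ⟨hF, sd_dn j, fun a ha b hb => ?_⟩) fun p => ?_
    · exact lt_trans (mem_dn.1 hb) ((hmem a).1 ha).2
    · rw [List.mem_append, hmem, mem_dn]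
      constructor
      · intro hp
        rcases lt_trichotomy p j with h4 | h4 | h4
        · exact Or.inr h4
        · exact absurd (h4 ▸ hp) h1
        · exact Or.inl ⟨hp, h4⟩
      · rintro (h4 | h4)
        · exact h4.1
        · exact h2 p h4
  · refine sd_append.2 ⟨hF, List.pairwise_singleton _ _, fun a ha b hb => ?_⟩
    rw [List.mem_singleton.1 hb]
    exact ((hmem a).1 ha).2

private theorem lf_rec {A B1 X : List ℕ} {i j : ℕ} (hs : SD (A ++ (i + 1) :: i :: (B1 ++ [j]))) (hX : SD X)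
    (a b c : Bool) (h : ∀ p, p ∈ X ↔ p ∈ A ∨ (c = true ∧ p = i + 1) ∨ (b = true ∧ p = i) ∨ p ∈ B1 ∨
      (a = true ∧ p = j)) :
    X = A ++ ((if c then [i + 1] else []) ++ ((if b then [i] else []) ++ (B1 ++ (if a then [j] else [])))) := by
  refine sd_ext hX (List.Pairwise.sublist ?_ hs) fun p => ?_
  · refine List.Sublist.append (List.Sublist.refl A) ?_
    have e : (i + 1) :: i :: (B1 ++ [j]) = [i + 1] ++ ([i] ++ (B1 ++ [j])) := rfl
    rw [e]
    refine List.Sublist.append ?_ (List.Sublist.append ?_ (List.Sublist.append (List.Sublist.refl B1) ?_))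
    · cases c <;> simp
    · cases b <;> simp
    · cases a <;> simp
  · rw [h p]
    cases a <;> cases b <;> cases c <;> simp

theorem hop1 {A B X Z : List ℕ} {i : ℕ} (h : SD (A ++ i :: B)) (hi : i + 1 ∉ A) (hi0 : 1 ≤ i) (hi1 : i - 1 ∉ B)
    (hX : SD X) (hZ : SD Z) (he : ofl X + ofl Z = 2 * (ofl (A ++ B) + 2 * 3 ^ i) + 1) :
    ∃ B1 j, B = B1 ++ dn j ∧ SD (B1 ++ [j]) ∧ j < i ∧ ∃ a b c : Bool,
      X = A ++ ((if c then [i + 1] else []) ++ ((if b then [i] else []) ++ (B1 ++ (if a then [j] else [])))) ∧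
      Z = A ++ ((if c then [] else [i + 1]) ++ ((if b then [] else [i]) ++ (B1 ++ (if a then [] else [j])))) := by
  classical
  obtain ⟨hA, hB, hAi, hBi, hAB⟩ := sd_mid.1 h
  obtain ⟨B1, j, hB1, hs1, hj⟩ := lf_low hB (i - 1) hi1
  have hji : j < i := by omega
  have hB1B : ∀ p ∈ B1, p ∈ B := fun p hp => by rw [hB1]; exact List.mem_append_left _ hp
  obtain ⟨hSB1, -, hB1j⟩ := sd_append.1 hs1
  have hAi' : ∀ a ∈ A, i + 1 < a := by
    intro a ha
    have h1 := hAi a ha
    rcases Nat.lt_or_ge (i + 1) a with h2 | h2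
    · exact h2
    · have h3 : a = i + 1 := by omega
      exact absurd (h3 ▸ ha) hi
  have hs : SD (A ++ (i + 1) :: i :: (B1 ++ [j])) := by
    have h1 : ∀ q ∈ B1 ++ [j], q < i := by
      intro q hq
      rcases List.mem_append.1 hq with hq | hq
      · exact hBi q (hB1B q hq)
      · rw [List.mem_singleton.1 hq]
        exact hji
    have h2 : SD (i :: (B1 ++ [j])) := sd_cons.2 ⟨h1, hs1⟩
    have h3 : SD ((i + 1) :: i :: (B1 ++ [j])) := by
      refine sd_cons.2 ⟨fun q hq => ?_, h2⟩
      rcases List.mem_cons.1 hq with hq | hq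
      · omega
      · have := h1 q hq
        omega
    refine sd_append.2 ⟨hA, h3, fun a ha q hq => ?_⟩
    have h4 := hAi' a ha
    rcases List.mem_cons.1 hq with hq | hq
    · omega
    · rcases List.mem_cons.1 hq with hq | hq
      · omega
      · have := h1 q hq
        omega
  have hAB1 : SD (A ++ B1) := by
    refine sd_append.2 ⟨hA, hSB1, fun a ha q hq => hAB a ha q (hB1B q hq)⟩
  -- a common bound
  obtain ⟨N, hN⟩ : ∃ N, ∀ p, p ∈ X ∨ p ∈ Z ∨ p ∈ A ++ B1 ∨ p ∈ [i + 1] ∨ p ∈ [i] ∨ p ∈ [j] → p < N := by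
    refine ⟨(X ++ Z ++ (A ++ B1) ++ [i + 1] ++ [i] ++ [j]).sum + 1, fun p hp => ?_⟩
    have h1 : p ∈ X ++ Z ++ (A ++ B1) ++ [i + 1] ++ [i] ++ [j] := by
      simp only [List.mem_append] at hp ⊢
      tauto
    exact Nat.lt_succ_of_le (List.le_sum_of_mem h1)
  have sing : ∀ q : ℕ, SD [q] := fun q => List.pairwise_singleton _ _
  have o1 : ∀ q : ℕ, ofl [q] = 3 ^ q := fun q => by rw [ofl_cons, ofl_nil, Nat.add_zero]
  have hsum : ofl X + ofl Z = 2 * ofl (A ++ B1) + ofl [j] + ofl [i] + ofl [i + 1] := by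
    rw [he, o1, o1, o1, hB1, ← List.append_assoc, ofl_append (A ++ B1) (dn j)]
    have h3 := ofl_dn j
    have h4 : (3 : ℕ) ^ (i + 1) = 3 * 3 ^ i := by rw [pow_succ]; ring
    omega
  rw [lf_sum hX (fun p hp => hN p (by tauto)), lf_sum hZ (fun p hp => hN p (by tauto)),
    lf_sum hAB1 (fun p hp => hN p (by tauto)), lf_sum (sing j) (fun p hp => hN p (by tauto)),
    lf_sum (sing i) (fun p hp => hN p (by tauto)), lf_sum (sing (i + 1)) (fun p hp => hN p (by tauto)),
    Finset.mul_sum, ← Finset.sum_add_distrib, ← Finset.sum_add_distrib, ← Finset.sum_add_distrib,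
    ← Finset.sum_add_distrib] at hsum
  have hjn : j ∉ A ++ B1 := by
    intro hh
    rcases List.mem_append.1 hh with hh | hh
    · have := hAi' j hh
      omega
    · exact lt_irrefl j (hB1j j hh j (List.mem_singleton.2 rfl))
  have hin : i ∉ A ++ B1 := by
    intro hh
    rcases List.mem_append.1 hh with hh | hh
    · have := hAi' i hh
      omega
    · have := hBi i (hB1B i hh)
      omega
  have hin' : i + 1 ∉ A ++ B1 := by
    intro hh
    rcases List.mem_append.1 hh with hh | hh
    · exact hi hh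
    · have := hBi (i + 1) (hB1B _ hh)
      omega
  have key : ∀ p, ((if p ∈ X then 1 else 0) + (if p ∈ Z then 1 else 0) : ℕ) =
      2 * (if p ∈ A ++ B1 then 1 else 0) + (if p ∈ [j] then 1 else 0) + (if p ∈ [i] then 1 else 0) +
        (if p ∈ [i + 1] then 1 else 0) := by
    intro p
    by_cases hp : p < N
    · refine lf_uniq (fun p => (if p ∈ X then 1 else 0) + (if p ∈ Z then 1 else 0))
        (fun p => 2 * (if p ∈ A ++ B1 then 1 else 0) + (if p ∈ [j] then 1 else 0) +
          (if p ∈ [i] then 1 else 0) + (if p ∈ [i + 1] then 1 else 0)) N ?_ ?_ ?_ p hp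
      · intro p
        show ((if p ∈ X then 1 else 0) + (if p ∈ Z then 1 else 0) : ℕ) ≤ 2
        split_ifs <;> omega
      · intro p
        show (2 * (if p ∈ A ++ B1 then 1 else 0) + (if p ∈ [j] then 1 else 0) +
          (if p ∈ [i] then 1 else 0) + (if p ∈ [i + 1] then 1 else 0) : ℕ) ≤ 2
        simp only [List.mem_singleton]
        by_cases h1 : p ∈ A ++ B1
        · have h2 : p ≠ j := fun hh => hjn (hh ▸ h1)
          have h3 : p ≠ i := fun hh => hin (hh ▸ h1)
          have h4 : p ≠ i + 1 := fun hh => hin' (hh ▸ h1)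
          rw [if_pos h1, if_neg h2, if_neg h3, if_neg h4]
        · rw [if_neg h1]
          split_ifs <;> omega
      · refine Eq.trans (Finset.sum_congr rfl fun p _ => ?_) (hsum.trans
          (Finset.sum_congr rfl fun p _ => ?_))
        · ring
        · ring
    · have h1 : p ∉ X := fun hh => hp (hN p (by tauto))
      have h2 : p ∉ Z := fun hh => hp (hN p (by tauto))
      have h3 : p ∉ A ++ B1 := fun hh => hp (hN p (by tauto))
      have h4 : p ∉ [j] := fun hh => hp (hN p (by tauto))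
      have h5 : p ∉ [i] := fun hh => hp (hN p (by tauto))
      have h6 : p ∉ [i + 1] := fun hh => hp (hN p (by tauto))
      rw [if_neg h1, if_neg h2, if_neg h3, if_neg h4, if_neg h5, if_neg h6]
  -- membership
  have both : ∀ p ∈ A ++ B1, p ∈ X ∧ p ∈ Z := by
    intro p hp
    have h1 := key p
    rw [if_pos hp] at h1
    constructor
    · by_contra hh
      rw [if_neg hh] at h1
      split_ifs at h1 <;> omega
    · by_contra hh
      rw [if_neg hh] at h1
      split_ifs at h1 <;> omega
  have none' : ∀ p, p ∉ A ++ B1 → p ≠ j → p ≠ i → p ≠ i + 1 → p ∉ X ∧ p ∉ Z := by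
    intro p hp h2 h3 h4
    have h1 := key p
    simp only [List.mem_singleton] at h1
    rw [if_neg hp, if_neg h2, if_neg h3, if_neg h4] at h1
    constructor
    · intro hh
      rw [if_pos hh] at h1
      omega
    · intro hh
      rw [if_pos hh] at h1
      omega
  have one' : ∀ p, p ∉ A ++ B1 → (p = j ∨ p = i ∨ p = i + 1) → (p ∈ Z ↔ ¬ p ∈ X) := by
    intro p hp h2
    have h1 := key p
    simp only [List.mem_singleton] at h1
    have h3 : (if p = j then 1 else 0) + (if p = i then 1 else 0) + (if p = i + 1 then 1 else 0) = 1 := by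
      rcases h2 with rfl | rfl | rfl
      · rw [if_pos rfl, if_neg (by omega), if_neg (by omega)]
      · rw [if_neg (by omega), if_pos rfl, if_neg (by omega)]
      · rw [if_neg (by omega), if_neg (by omega), if_pos rfl]
    rw [if_neg hp] at h1
    by_cases h4 : p ∈ X <;> by_cases h5 : p ∈ Z
    · rw [if_pos h4, if_pos h5] at h1
      omega
    · simp [h4, h5]
    · simp [h4, h5]
    · rw [if_neg h4, if_neg h5] at h1
      omega
  refine ⟨B1, j, hB1, hs1, hji, decide (j ∈ X), decide (i ∈ X), decide (i + 1 ∈ X), ?_, ?_⟩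
  · refine lf_rec hs hX _ _ _ fun p => ?_
    simp only [decide_eq_true_eq]
    constructor
    · intro hp
      by_cases h1 : p ∈ A ++ B1
      · rcases List.mem_append.1 h1 with h1 | h1
        · exact Or.inl h1
        · exact Or.inr (Or.inr (Or.inr (Or.inl h1)))
      · by_cases h2 : p = j
        · exact Or.inr (Or.inr (Or.inr (Or.inr ⟨h2 ▸ hp, h2⟩)))
        · by_cases h3 : p = i
          · exact Or.inr (Or.inr (Or.inl ⟨h3 ▸ hp, h3⟩))
          · by_cases h4 : p = i + 1
            · exact Or.inr (Or.inl ⟨h4 ▸ hp, h4⟩)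
            · exact absurd hp (none' p h1 h2 h3 h4).1
    · rintro (h1 | ⟨h1, rfl⟩ | ⟨h1, rfl⟩ | h1 | ⟨h1, rfl⟩)
      · exact (both p (List.mem_append_left _ h1)).1
      · exact h1
      · exact h1
      · exact (both p (List.mem_append_right _ h1)).1
      · exact h1
  · have e : ∀ (a b c : Bool), (A ++ ((if c then [] else [i + 1]) ++ ((if b then [] else [i]) ++
        (B1 ++ (if a then [] else [j]))))) = A ++ ((if (!c) then [i + 1] else []) ++
          ((if (!b) then [i] else []) ++ (B1 ++ (if (!a) then [j] else [])))) := by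
      intro a b c
      cases a <;> cases b <;> cases c <;> rfl
    rw [e]
    refine lf_rec hs hZ _ _ _ fun p => ?_
    simp only [Bool.not_eq_true', decide_eq_false_iff_not]
    have hj' := one' j hjn (Or.inl rfl)
    have hi' := one' i hin (Or.inr (Or.inl rfl))
    have hi'' := one' (i + 1) hin' (Or.inr (Or.inr rfl))
    constructor
    · intro hp
      by_cases h1 : p ∈ A ++ B1
      · rcases List.mem_append.1 h1 with h1 | h1
        · exact Or.inl h1
        · exact Or.inr (Or.inr (Or.inr (Or.inl h1)))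
      · by_cases h2 : p = j
        · exact Or.inr (Or.inr (Or.inr (Or.inr ⟨hj'.1 (h2 ▸ hp), h2⟩)))
        · by_cases h3 : p = i
          · exact Or.inr (Or.inr (Or.inl ⟨hi'.1 (h3 ▸ hp), h3⟩))
          · by_cases h4 : p = i + 1
            · exact Or.inr (Or.inl ⟨hi''.1 (h4 ▸ hp), h4⟩)
            · exact absurd hp (none' p h1 h2 h3 h4).2
    · rintro (h1 | ⟨h1, rfl⟩ | ⟨h1, rfl⟩ | h1 | ⟨h1, rfl⟩)
      · exact (both p (List.mem_append_left _ h1)).2
      · exact hi''.2 h1
      · exact hi'.2 h1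
      · exact (both p (List.mem_append_right _ h1)).2
      · exact hj'.2 h1

end Pool.Agent.STF
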