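import Pool.Agent.STF.Lg
import Pool.Agent.STF.Ld
import Pool.Agent.STF.Lf
import Pool.Agent.STF.Cg

/-!
# Project STF, module Cz: the contents `C_(0,b)` are complete by pairs in `S0` (interface; section lead helper67)
-/

set_option autoImplicit false

namespace Pool.Agent.STF

open Pool.Agent.STN

/-- other first letters -/
theorem run_bad {t : ℕ} (L : List ℕ) (h : t % 12 ≠ 11) (h' : t % 12 ≠ 10) : run (t :: L) = .bad := by
  rw [run, rn_cons]
  have : stp .ini (t % 12) = .bad := by
    rw [stp, if_neg h, if_neg h']
  rw [this]
  exact (rn_abs L).1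

theorem run_ini {L : List ℕ} (h : run L = .ini) : L = [] := by
  cases L with
  | nil => rfl
  | cons t L =>
    exfalso
    by_cases h1 : t % 12 = 11
    · have : un (run (t :: L)) := run_un.2 ⟨t, L, rfl, h1⟩
      rw [h] at this
      exact this
    · by_cases h2 : t % 12 = 10
      · have : flg (run (t :: L)) := run_flg.2 ⟨t, L, rfl, h2⟩
        rw [h] at this
        exact this
      · rw [run_bad L h1 h2] at h
        exact St.noConfusion h

/-- the word `O, O', ...` -/
theorem run_oo {i : ℕ} (B : List ℕ) (hi : i % 12 = 10) : run ((i + 1) :: i :: B) = .db false := by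
  rw [run, rn_cons, rn_cons]
  have h1 : stp .ini ((i + 1) % 12) = .hd false 0 := by
    rw [stp, if_pos (by omega)]
  have h2 : stp (.hd false 0) (i % 12) = .db false := by
    rw [hi]
    rfl
  rw [h1, h2]
  exact (rn_abs B).2.1 false

/-- the pairs which are illegal for `C_(0,b)` -/
theorem cz_leg {b : SG} (hb : tb b.2.1) {X Y : List ℕ}
    (h1 : ¬ (sgl Y = b ∧ run X = .bad ∧ ∀ s < 12, ct Y s = ct X s + ee 10 s))
    (h2 : ¬ (run X = .db false ∧ un (run Y) ∧ tb (fg (run Y)) ∧ ∀ s < 12, ct X s = ct Y s + ee 10 s)) :
    Leg 0 (GG (sgl X)) (GG (sgl Y)) (CC 0 b) := by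
  rintro x ⟨X', hX', hsX, rfl⟩ y ⟨Y', hY', hsY, rfl⟩ z ⟨A, i, B, hSD, hi, hev, hsb, rfl⟩ he
  have hA : run A = .ini ∧ i % 12 = 10 := by
    rcases hev with ⟨_, h3, h4⟩ | ⟨h3, _⟩ | ⟨h3, _⟩
    · exact ⟨h3, h4⟩
    · omega
    · omega
  have hA0 := run_ini hA.1
  subst hA0
  rw [List.nil_append] at hsb hSD
  have hrX : run X' = run X := congrArg (fun v : SG => v.2.1) hsX
  have hrY : run Y' = run Y := congrArg (fun v : SG => v.2.1) hsY
  have hrb : run (i :: B) = b.2.1 := congrArg (fun v : SG => v.2.1) hsb
  have htb : tb (run (i :: B)) := by rw [hrb]; exact hb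
  obtain ⟨t', s', L', h3, h4, h5⟩ := tb_iff.1 htb
  rw [List.cons.injEq] at h3
  obtain ⟨rfl, rfl⟩ := h3
  rcases reps2 (A := []) (by simpa using hSD) (by simp) hX' hY' (by simpa using he) with ⟨e1, e2⟩ | ⟨e1, e2⟩
  · rw [List.nil_append] at e1 e2
    apply h1
    refine ⟨?_, ?_, ?_⟩
    · rw [← hsY, e2, hsb]
    · rw [← hrX, e1]
      exact run_bad L' (by omega) (by omega)
    · intro s hs
      rw [← ct_of_sgl hsY s hs, ← ct_of_sgl hsX s hs, e2, e1, ct_cons, hA.2]
      ring
  · rw [List.nil_append] at e1 e2
    apply h2
    have hun : un (run ((i + 1) :: s' :: L')) := run_un.2 ⟨i + 1, s' :: L', rfl, by omega⟩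
    have hfg := run_fg (t := i + 1) (t' := i) (L := s' :: L') (by omega) hA.2
    refine ⟨?_, ?_, ?_, ?_⟩
    · rw [← hrX, e1]
      exact run_oo _ hA.2
    · rw [← hrY, e2]
      exact hun
    · rw [← hrY, e2, ← hfg]
      exact htb
    · intro s hs
      rw [← ct_of_sgl hsY s hs, ← ct_of_sgl hsX s hs, e2, e1]
      simp only [ct_cons, hA.2]
      ring

/-- the conclusion for a pair `X, Y` -/
def Good0 (b : SG) (n : ℕ) : Prop :=
  ∃ X Y, SD X ∧ SD Y ∧ ofl X + n = 2 * ofl Y ∧ ofl X ≤ ofl Y ∧ Leg 0 (GG (sgl X)) (GG (sgl Y)) (CC 0 b)

theorem top_can {b : SG} (hb : tb b.2.1) {W : List (ℕ × Bool)} (h : SD (pos W))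
    (h1 : ¬ (sgl (pos W) = b ∧ run (one W) = .bad ∧ ∀ s < 12, ct (pos W) s = ct (one W) s + ee 10 s))
    (h2 : ¬ (run (one W) = .db false ∧ un (run (pos W)) ∧ tb (fg (run (pos W))) ∧
      ∀ s < 12, ct (one W) s = ct (pos W) s + ee 10 s)) : Good0 b (ofw W) :=
  ⟨one W, pos W, sd_one h, h, w_can W, w_le W, cz_leg hb h1 h2⟩

private theorem one_ne : (1 : ZMod 3) ≠ 0 := by decide

/-- first letter of the class `10` -/
theorem top_ten {b : SG} (hb : tb b.2.1) {t : ℕ} {d : Bool} {W : List (ℕ × Bool)}
    (h : SD (pos ((t, d) :: W))) (ht : t % 12 = 10) (hn : ofw ((t, d) :: W) ∉ CC 0 b) :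
    Good0 b (ofw ((t, d) :: W)) := by
  have hposY : pos ((t, d) :: W) = t :: pos W := pos_cons t d W
  have hflg : ∀ L, flg (run (t :: L)) := fun L => run_flg.2 ⟨t, L, rfl, ht⟩
  have hun : ∀ L, ¬ un (run (t :: L)) := by
    intro L hu
    obtain ⟨t', L', h1, h2⟩ := run_un.1 hu
    rw [List.cons.injEq] at h1
    rw [← h1.1] at h2
    omega
  cases d with
  | false =>
    apply top_can hb h
    · rintro ⟨_, h1, _⟩
      rw [one_cons_false] at h1
      have := hflg (one W)
      rw [h1] at this
      exact this
    · rintro ⟨h1, _⟩
      rw [one_cons_false] at h1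
      have := hflg (one W)
      rw [h1] at this
      exact this
  | true =>
    by_cases hc : sgl (pos ((t, true) :: W)) = b ∧ run (one ((t, true) :: W)) = .bad ∧
        ∀ s < 12, ct (pos ((t, true) :: W)) s = ct (one ((t, true) :: W)) s + ee 10 s
    · obtain ⟨h1, h2, h3⟩ := hc
      have htb : tb (run (t :: pos W)) := by
        have h4 : run (pos ((t, true) :: W)) = b.2.1 := congrArg (fun v : SG => v.2.1) h1
        rw [← hposY, h4]
        exact hb
      obtain ⟨t', s, L', h4, _, h5⟩ := tb_iff.1 htb
      rw [List.cons.injEq] at h4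
      obtain ⟨rfl, h4⟩ := h4
      have hsd := h
      rw [hposY, sd_cons] at hsd
      have hst : s + 5 ≤ t := by
        have := hsd.1 s (by rw [h4]; simp)
        omega
      have hle : ∀ q ∈ pos W, q ≤ s := by
        intro q hq
        have h6 := hsd.2
        rw [h4] at hq h6
        rcases List.mem_cons.1 hq with h7 | h7
        · omega
        · have := (sd_cons.1 h6).1 q h7
          omega
      have hn2 : ∀ c < 12, n2 W c = 0 := by
        intro c hc
        have h6 := h3 c hc
        rw [ct_can, n2_cons_true, ht] at h6
        linear_combination h6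
      by_cases hall : ∀ u ∈ W, u.2 = false
      · exfalso
        apply hn
        have h6 := (ofw_all_one hall).1
        refine ⟨[], t, pos W, by simpa [hposY] using h, by simp, Or.inl ⟨rfl, run_nil, ht⟩, ?_, ?_⟩
        · rw [List.nil_append, ← hposY]
          exact h1
        · rw [ofw_cons_true, h6, List.nil_append]
          ring
      · obtain ⟨A, p, B, rfl, hA⟩ := split_two hall
        obtain ⟨A1, X1, Y1, g1, g2, g3, g4, g5, g6, g7, g8⟩ := flip_one hsd.2 (fun h7 => by
          have := hA _ h7
          simp at this)
        have hps : p ≤ s := hle p (by rw [pos_append, pos_cons]; simp)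
        have hA1 : ∀ q ∈ pos A1, q ≤ s := by
          intro q hq
          apply hle
          rw [pos_append]
          apply List.mem_append_left
          rcases g2 with g2 | g2
          · rw [g2]
            exact hq
          · rw [g2, pos_append]
            exact List.mem_append_left _ hq
        have hYt : ∀ q ∈ pos A1 ++ Y1, q < t := by
          intro q hq
          rcases List.mem_append.1 hq with h7 | h7
          · have := hA1 q h7
            omega
          · have := g4 q h7
            omega
        have hXt : ∀ q ∈ one A1 ++ X1, q < t := by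
          intro q hq
          rcases List.mem_append.1 hq with h7 | h7
          · have := hA1 q (sub_one _ q h7)
            omega
          · have := g3 q h7
            omega
        refine ⟨one A1 ++ X1, t :: (pos A1 ++ Y1), g5, sd_cons.2 ⟨hYt, g6⟩, ?_, ?_, ?_⟩
        · rw [ofw_cons_true, ofl_cons]
          omega
        · have h7 := ofl_lt g5 hXt
          rw [ofl_cons]
          omega
        · apply cz_leg hb
          · rintro ⟨_, _, h7⟩
            have h8 := h7 (p % 12) (by omega)
            rw [ct_cons, g8, ht, hn2 _ (by omega)] at h8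
            apply one_ne
            linear_combination h8
          · rintro ⟨_, h7, _⟩
            exact hun _ h7
    · apply top_can hb h hc
      rintro ⟨_, h1, _⟩
      rw [hposY] at h1
      exact hun _ h1

/-- first letter of the class `11` -/
theorem top_eleven {b : SG} (hb : tb b.2.1) {t : ℕ} {d : Bool} {W : List (ℕ × Bool)}
    (h : SD (pos ((t, d) :: W))) (ht : t % 12 = 11) : Good0 b (ofw ((t, d) :: W)) := by
  have hposY : pos ((t, d) :: W) = t :: pos W := pos_cons t d W
  have h1no : ∀ L, sgl (t :: L) ≠ b := by
    intro L h1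
    have h2 : run (t :: L) = b.2.1 := congrArg (fun v : SG => v.2.1) h1
    rw [← h2] at hb
    obtain ⟨t', s, L', h3, h4, _⟩ := tb_iff.1 hb
    rw [List.cons.injEq] at h3
    rw [← h3.1] at h4
    omega
  have hfg : ∀ L, run ((t - 1) :: L) = fg (run (t :: L)) := fun L => run_fg ht (by omega)
  by_cases hc : run (one ((t, d) :: W)) = .db false ∧ un (run (pos ((t, d) :: W))) ∧
      tb (fg (run (pos ((t, d) :: W)))) ∧
      ∀ s < 12, ct (one ((t, d) :: W)) s = ct (pos ((t, d) :: W)) s + ee 10 s
  · obtain ⟨h1, _, h3, h4⟩ := hc
    rw [hposY, ← hfg] at h3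
    obtain ⟨t', s, L', h5, _, h6⟩ := tb_iff.1 h3
    rw [List.cons.injEq] at h5
    obtain ⟨rfl, h5⟩ := h5
    cases W with
    | nil =>
      rw [pos_nil] at h5
      exact absurd h5 (by simp)
    | cons w W =>
      obtain ⟨s0, ds⟩ := w
      rw [pos_cons, List.cons.injEq] at h5
      obtain ⟨rfl, h5⟩ := h5
      have hsd := h
      rw [hposY, sd_cons] at hsd
      have hst : s0 + 5 < t := by
        have := hsd.1 s0 (by rw [pos_cons]; simp)
        omega
      have hsd2 := hsd.2
      rw [pos_cons, sd_cons] at hsd2
      cases d with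
      | true =>
        cases ds with
        | false =>
          exfalso
          rw [one_cons_true, one_cons_false, run_bad _ (by omega) (by omega)] at h1
          exact St.noConfusion h1
        | true =>
          obtain ⟨g1, g2⟩ := flip_b_sd (A := []) (B := W) (p := s0) hsd.2 (by rw [pos_nil]; simp)
          have g3 := flip_b_eq [] W s0
          rw [one_nil, pos_nil, List.nil_append, List.nil_append, List.nil_append] at g3
          rw [one_nil, List.nil_append] at g1
          rw [pos_nil, List.nil_append] at g2
          have hXt : ∀ q ∈ (s0 + 1) :: s0 :: one W, q < t := by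
            intro q hq
            simp only [List.mem_cons] at hq
            rcases hq with hq | hq | hq
            · omega
            · omega
            · have := hsd2.1 q (sub_one _ q hq)
              omega
          have hYt : ∀ q ∈ (s0 + 1) :: pos W, q < t := by
            intro q hq
            simp only [List.mem_cons] at hq
            rcases hq with hq | hq
            · omega
            · have := hsd2.1 q hq
              omega
          refine ⟨(s0 + 1) :: s0 :: one W, t :: (s0 + 1) :: pos W, g1, sd_cons.2 ⟨hYt, g2⟩, ?_, ?_, ?_⟩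
          · rw [ofw_cons_true, ofl_cons (a := t)]
            omega
          · have h7 := ofl_lt g1 hXt
            rw [ofl_cons (a := t)]
            omega
          · apply cz_leg hb
            · rintro ⟨h7, _⟩
              exact h1no _ h7
            · rintro ⟨h7, _⟩
              rw [run_bad _ (by omega) (by omega)] at h7
              exact St.noConfusion h7
      | false =>
        cases ds with
        | false =>
          exfalso
          rw [one_cons_false, one_cons_false] at h1
          have h7 : tb (run ((t - 1) :: s0 :: one W)) :=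
            tb_iff.2 ⟨t - 1, s0, one W, rfl, by omega, h6⟩
          rw [hfg, h1] at h7
          exact h7
        | true =>
          have hn2 : ∀ c < 12, n2 ((s0, true) :: W) c + ee 10 c = 0 := by
            intro c hc
            have h7 := h4 c hc
            rw [ct_can, n2_cons_false] at h7
            linear_combination -h7
          obtain ⟨A, p, B, rfl, hA⟩ := other_two hsd.2 h6 hn2
          have hps : p < s0 := hsd2.1 p (by rw [pos_append, pos_cons]; simp)
          have hps1 : p + 1 ≠ s0 := by
            rintro rfl
            exact hA (by simp)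
          have hsdW : SD (pos (((s0, true) :: A) ++ (p, true) :: B)) := by
            simpa using hsd.2
          obtain ⟨A1, X1, Y1, g1, g2, g3, g4, g5, g6, g7, g8⟩ := flip_one hsdW hA
          obtain ⟨A2, rfl⟩ : ∃ A2, A1 = (s0, true) :: A2 := by
            rcases g2 with g2 | g2
            · exact ⟨A, g2.symm⟩
            · cases A1 with
              | nil => simp at g2
              | cons a A2 =>
                rw [List.cons_append, List.cons.injEq] at g2
                exact ⟨A2, by rw [g2.1]⟩
          rw [one_cons_true] at g5 g7 g8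
          rw [pos_cons, List.cons_append] at g6 g7 g8
          rw [List.cons_append] at g7 g8
          have hA2 : ∀ q ∈ pos A2, q < s0 := by
            intro q hq
            have := (sd_cons.1 g6).1 q (List.mem_append_left _ hq)
            exact this
          have hXs : ∀ q ∈ one A2 ++ X1, q < s0 := by
            intro q hq
            rcases List.mem_append.1 hq with h7 | h7
            · exact hA2 q (sub_one _ q h7)
            · have := g3 q h7
              omega
          have hYt : ∀ q ∈ s0 :: (pos A2 ++ Y1), q < t := by
            intro q hq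
            rcases List.mem_cons.1 hq with h7 | h7
            · omega
            · have := (sd_cons.1 g6).1 q h7
              omega
          refine ⟨t :: (one A2 ++ X1), t :: s0 :: (pos A2 ++ Y1),
            sd_cons.2 ⟨fun q hq => (hXs q hq).trans (by omega), g5⟩, sd_cons.2 ⟨hYt, g6⟩, ?_, ?_, ?_⟩
          · rw [ofw_cons_false, ofl_cons (a := t), ofl_cons (a := t)]
            omega
          · have h7 := ofl_lt g5 hXs
            rw [ofl_cons (a := t), ofl_cons (a := t), ofl_cons (a := s0)]
            omega
          · apply cz_leg hb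
            · rintro ⟨h7, _⟩
              exact h1no _ h7
            · rintro ⟨_, _, _, h7⟩
              have h8 := h7 (p % 12) (by omega)
              rw [ct_cons (a := t), ct_cons (a := t), g8] at h8
              have h9 := hn2 (p % 12) (by omega)
              apply one_ne
              linear_combination -h8 - h9
  · refine top_can hb h ?_ hc
    rintro ⟨h1, _⟩
    rw [hposY] at h1
    exact h1no _ h1

theorem top_compl {b : SG} (hb : okm 0 b) {n : ℕ} (hn : n ∉ CC 0 b) :
    ∃ X Y, SD X ∧ SD Y ∧ ofl X + n = 2 * ofl Y ∧ ofl X ≤ ofl Y ∧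
      Leg 0 (GG (sgl X)) (GG (sgl Y)) (CC 0 b) := by
  have hb' : tb b.2.1 := by
    rcases hb with ⟨_, h⟩ | h | h | ⟨h, _⟩
    · exact h
    · omega
    · omega
    · omega
  obtain ⟨W, hW, rfl⟩ := exists_w n
  change Good0 b (ofw W)
  cases W with
  | nil =>
    apply top_can hb' hW
    · rintro ⟨h1, _⟩
      have h2 : run (pos []) = b.2.1 := congrArg (fun v : SG => v.2.1) h1
      rw [pos_nil, run_nil] at h2
      rw [← h2] at hb'
      exact hb'
    · rintro ⟨_, h1, _⟩
      rw [pos_nil, run_nil] at h1
      exact h1
  | cons w W =>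
    obtain ⟨t, d⟩ := w
    by_cases h10 : t % 12 = 10
    · exact top_ten hb' hW h10 hn
    · by_cases h11 : t % 12 = 11
      · exact top_eleven hb' hW h11
      · apply top_can hb' hW
        · rintro ⟨h1, _⟩
          have h2 : run (pos ((t, d) :: W)) = b.2.1 := congrArg (fun v : SG => v.2.1) h1
          rw [pos_cons, run_bad _ h11 h10] at h2
          rw [← h2] at hb'
          exact hb'
        · rintro ⟨_, h1, _⟩
          rw [pos_cons, run_bad _ h11 h10] at h1
          exact h1

end Pool.Agent.STF
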