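import Pool.Agent.STF.Ez1

/-!
# Project STF, module Ez2: representations with a good difference of the class counts (order free)

`free_rep` (text, section 5): let `W` have the first position `s`; `N = n2 W` = difference of the canonical pair.
1. `N ≠ ee cl` and `N ≠ - ee cl` on the classes `< 12`: the canonical pair (`w_can`, `ct_can`).
2. Otherwise some digit two exists (`N ≠ 0` at `cl`: `N cl = ± 1`); let `p` be the highest (`split_two`: `W = A ++ (p, true) :: B`,
   all digits of `A` one).
 2a. `p + 1 ∈ pos A`: then it is the last of `A` (`A = A' ++ [(p + 1, false)]`, by `SD`): `flip_b`: `D = N + ee p + ee (p + 1)`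
     is neither `ee cl` nor `- ee cl` (the classes of `p` and `p + 1` are different, `N = ± ee cl`).
 2b. `p + 1 ∉ pos A`, `N = - ee cl`: `flip_a`: `D = - ee cl + ee p`.
 2c. `p + 1 ∉ pos A`, `N = ee cl`, `p % 12 ≠ cl`: `flip_a`: `D = ee cl + ee p`.
 2d. `p + 1 ∉ pos A`, `N = ee cl`, `p % 12 = cl`.  If `B` has no digit two: the right alternative.
     Otherwise let `q` be the highest two of `B` (`B = B1 ++ (q, true) :: B2`, all digits of `B1` one).
     `q + 1 = p` (then `B1 = []`): `flip_c`: `D = N + ee q - ee p = ee q`.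
     `q + 1 ∈ pos B1` (last of `B1`): `flip_b` at `q` (with `A ++ (p, true) :: B1'` in place of `A`): `D = N + ee q + ee (q + 1)`.
     else `q % 12 ≠ cl`: `flip_a` at `q`: `D = ee cl + ee q`; `q % 12 = cl`: `flip_d`: `D = 3 ee cl = 0`.
The comparison of the functions: evaluate at `cl` and at the classes of `p`, `p + 1`, `q`, `q + 1`; `ee` has values `0, 1` in `ZMod 3`.
The first letters: every flip changes the head `s` of `pos W` only into `s + 1` (if `p = s`); all elements of `X` are `≤ s + 1`.
-/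

set_option autoImplicit false

namespace Pool.Agent.STF

open Pool.Agent.STN

/-- the difference `D` of class counts is neither `ee cl` nor `- ee cl` -/
def Gd (cl : ℕ) (X Y : List ℕ) : Prop :=
  (¬ ∀ c < 12, ct Y c = ct X c + ee cl c) ∧ ¬ ∀ c < 12, ct X c = ct Y c + ee cl c

private theorem ez2_gd {cl : ℕ} {X Y : List ℕ} {D : ℕ → ZMod 3} (h : ∀ c, ct Y c = ct X c + D c)
    (h1 : ¬ ∀ c < 12, D c = ee cl c) (h2 : ¬ ∀ c < 12, D c = - ee cl c) : Gd cl X Y := by
  constructor
  · intro h3
    refine h1 fun c hc => ?_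
    have h4 := h3 c hc
    rw [h c] at h4
    exact add_left_cancel h4
  · intro h3
    refine h2 fun c hc => ?_
    have h4 := h3 c hc
    rw [h c] at h4
    linear_combination (-1 : ZMod 3) * h4

private theorem ez2_le {s : ℕ} {d : Bool} {W : List (ℕ × Bool)} (h : SD (pos ((s, d) :: W))) :
    ∀ x ∈ pos ((s, d) :: W), x ≤ s := by
  intro x hx
  rw [pos_cons] at h hx
  rcases List.mem_cons.1 hx with rfl | hx
  · exact le_rfl
  · exact ((sd_cons.1 h).1 x hx).le

private theorem ez2_head {s : ℕ} {d : Bool} {W A B : List (ℕ × Bool)} {t : ℕ × Bool}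
    (hW : (s, d) :: W = A ++ t :: B) (Z : List ℕ) :
    ∃ Y', pos A ++ (t.1 + 1) :: Z = s :: Y' ∨ pos A ++ (t.1 + 1) :: Z = (s + 1) :: Y' := by
  cases A with
  | nil =>
    rw [List.nil_append] at hW
    injection hW with h1 h2
    refine ⟨Z, Or.inr ?_⟩
    rw [← h1, pos_nil, List.nil_append]
  | cons a A =>
    rw [List.cons_append] at hW
    injection hW with h1 h2
    refine ⟨pos A ++ (t.1 + 1) :: Z, Or.inl ?_⟩
    rw [← h1, pos_cons, List.cons_append]

private theorem ez2_head0 {s : ℕ} {d : Bool} {W A B : List (ℕ × Bool)} {t : ℕ × Bool}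
    (hW : (s, d) :: W = A ++ t :: B) (Z : List ℕ) :
    ∃ Y', pos A ++ t.1 :: Z = s :: Y' ∨ pos A ++ t.1 :: Z = (s + 1) :: Y' := by
  cases A with
  | nil =>
    rw [List.nil_append] at hW
    injection hW with h1 h2
    refine ⟨Z, Or.inl ?_⟩
    rw [← h1, pos_nil, List.nil_append]
  | cons a A =>
    rw [List.cons_append] at hW
    injection hW with h1 h2
    refine ⟨pos A ++ t.1 :: Z, Or.inl ?_⟩
    rw [← h1, pos_cons, List.cons_append]

/-- the position `p + 1` is the last one before `p` -/
private theorem ez2_last {A B : List (ℕ × Bool)} {p : ℕ} {e : Bool} (h : SD (pos (A ++ (p, e) :: B)))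
    (hA : ∀ t ∈ A, t.2 = false) (hp : p + 1 ∈ pos A) : ∃ A', A = A' ++ [(p + 1, false)] := by
  rcases List.eq_nil_or_concat A with rfl | ⟨A', t, rfl⟩
  · rw [pos_nil] at hp
    exact absurd hp List.not_mem_nil
  · refine ⟨A', ?_⟩
    have h1 : t.2 = false := hA t (by simp)
    rw [List.concat_eq_append, pos_append, List.mem_append] at hp
    rw [List.concat_eq_append, pos_append, pos_append, sd_append] at h
    obtain ⟨h2, h3, h4⟩ := h
    rw [sd_append] at h2
    obtain ⟨h5, h6, h7⟩ := h2
    obtain ⟨q, f⟩ := t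
    have h8 : p < q := h4 q (by simp [pos]) p (by simp [pos])
    rcases hp with hp | hp
    · exfalso
      have h9 := h7 (p + 1) hp q (by simp [pos])
      omega
    · rw [pos_cons, pos_nil, List.mem_singleton] at hp
      rw [List.concat_eq_append, hp]
      have h10 : f = false := h1
      rw [h10]

private theorem ez2_val (c s : ℕ) : (s = c ∧ ee c s = 1) ∨ (s ≠ c ∧ ee c s = 0) := by
  by_cases h : s = c
  · left
    exact ⟨h, by rw [h]; exact ee_self c⟩
  · right
    exact ⟨h, ee_ne h⟩

private theorem ez2_lt (p : ℕ) : p % 12 < 12 := Nat.mod_lt _ (by norm_num)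

/-- `N = ± ee cl`, `D = N + ee p + ee (p + 1)` -/
private theorem ez2_a {cl p : ℕ} {N : ℕ → ZMod 3}
    (hN : (∀ c < 12, N c = ee cl c) ∨ ∀ c < 12, N c = - ee cl c) :
    (¬ ∀ c < 12, N c + ee (p % 12) c + ee ((p + 1) % 12) c = ee cl c) ∧
      ¬ ∀ c < 12, N c + ee (p % 12) c + ee ((p + 1) % 12) c = - ee cl c := by
  have hp : p % 12 ≠ (p + 1) % 12 := by omega
  have v1 : ee (p % 12) (p % 12) = 1 := ee_self _
  have v2 : ee ((p + 1) % 12) (p % 12) = 0 := ee_ne hp
  have v3 : ee (p % 12) ((p + 1) % 12) = 0 := ee_ne hp.symm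
  have v4 : ee ((p + 1) % 12) ((p + 1) % 12) = 1 := ee_self _
  rcases hN with hN | hN
  · constructor
    · intro h
      have e1 := h (p % 12) (ez2_lt _)
      rw [hN _ (ez2_lt _), v1, v2] at e1
      rcases ez2_val cl (p % 12) with ⟨_, w1⟩ | ⟨_, w1⟩ <;> rw [w1] at e1 <;> revert e1 <;> decide
    · intro h
      have e1 := h (p % 12) (ez2_lt _)
      have e2 := h ((p + 1) % 12) (ez2_lt _)
      rw [hN _ (ez2_lt _), v1, v2] at e1
      rw [hN _ (ez2_lt _), v3, v4] at e2
      rcases ez2_val cl (p % 12) with ⟨u1, w1⟩ | ⟨u1, w1⟩ <;>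
        rcases ez2_val cl ((p + 1) % 12) with ⟨u2, w2⟩ | ⟨u2, w2⟩ <;>
        rw [w1] at e1 <;> rw [w2] at e2
      · exact hp (u1.trans u2.symm)
      · revert e2; decide
      · revert e1; decide
      · revert e1; decide
  · constructor
    · intro h
      have e1 := h (p % 12) (ez2_lt _)
      have e2 := h ((p + 1) % 12) (ez2_lt _)
      rw [hN _ (ez2_lt _), v1, v2] at e1
      rw [hN _ (ez2_lt _), v3, v4] at e2
      rcases ez2_val cl (p % 12) with ⟨u1, w1⟩ | ⟨u1, w1⟩ <;>
        rcases ez2_val cl ((p + 1) % 12) with ⟨u2, w2⟩ | ⟨u2, w2⟩ <;>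
        rw [w1] at e1 <;> rw [w2] at e2
      · exact hp (u1.trans u2.symm)
      · revert e2; decide
      · revert e1; decide
      · revert e1; decide
    · intro h
      have e1 := h (p % 12) (ez2_lt _)
      rw [hN _ (ez2_lt _), v1, v2] at e1
      rcases ez2_val cl (p % 12) with ⟨_, w1⟩ | ⟨_, w1⟩ <;> rw [w1] at e1 <;> revert e1 <;> decide

/-- `N = - ee cl`, `D = N + ee p` -/
private theorem ez2_b {cl p : ℕ} {N : ℕ → ZMod 3} (hN : ∀ c < 12, N c = - ee cl c) :
    (¬ ∀ c < 12, N c + ee (p % 12) c = ee cl c) ∧ ¬ ∀ c < 12, N c + ee (p % 12) c = - ee cl c := by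
  have v1 : ee (p % 12) (p % 12) = 1 := ee_self _
  constructor
  · intro h
    have e1 := h (p % 12) (ez2_lt _)
    rw [hN _ (ez2_lt _), v1] at e1
    rcases ez2_val cl (p % 12) with ⟨_, w1⟩ | ⟨_, w1⟩ <;> rw [w1] at e1 <;> revert e1 <;> decide
  · intro h
    have e1 := h (p % 12) (ez2_lt _)
    rw [hN _ (ez2_lt _), v1] at e1
    rcases ez2_val cl (p % 12) with ⟨_, w1⟩ | ⟨_, w1⟩ <;> rw [w1] at e1 <;> revert e1 <;> decide

/-- `N = ee cl`, `D = N + ee p`, the class of `p` is not `cl` -/
private theorem ez2_c {cl p : ℕ} {N : ℕ → ZMod 3} (hN : ∀ c < 12, N c = ee cl c) (hp : p % 12 ≠ cl) :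
    (¬ ∀ c < 12, N c + ee (p % 12) c = ee cl c) ∧ ¬ ∀ c < 12, N c + ee (p % 12) c = - ee cl c := by
  have v1 : ee (p % 12) (p % 12) = 1 := ee_self _
  have v2 : ee cl (p % 12) = 0 := ee_ne hp
  constructor
  · intro h
    have e1 := h (p % 12) (ez2_lt _)
    rw [hN _ (ez2_lt _), v1, v2] at e1
    revert e1
    decide
  · intro h
    have e1 := h (p % 12) (ez2_lt _)
    rw [hN _ (ez2_lt _), v1, v2] at e1
    revert e1
    decide

/-- `N = ee cl`, `D = N + ee q - ee (q + 1)`, the class of `q + 1` is `cl` -/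
private theorem ez2_d {cl q : ℕ} {N : ℕ → ZMod 3} (hN : ∀ c < 12, N c = ee cl c) (hq : (q + 1) % 12 = cl) :
    (¬ ∀ c < 12, N c + ee (q % 12) c - ee ((q + 1) % 12) c = ee cl c) ∧
      ¬ ∀ c < 12, N c + ee (q % 12) c - ee ((q + 1) % 12) c = - ee cl c := by
  have v1 : ee (q % 12) (q % 12) = 1 := ee_self _
  have v2 : ee cl (q % 12) = 0 := ee_ne (by omega)
  have v3 : ee ((q + 1) % 12) (q % 12) = 0 := ee_ne (by omega)
  constructor
  · intro h
    have e1 := h (q % 12) (ez2_lt _)
    rw [hN _ (ez2_lt _), v1, v2, v3] at e1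
    revert e1
    decide
  · intro h
    have e1 := h (q % 12) (ez2_lt _)
    rw [hN _ (ez2_lt _), v1, v2, v3] at e1
    revert e1
    decide

/-- `N = ee cl`, `D = N + ee p + ee q`, the classes of `p` and `q` are `cl` -/
private theorem ez2_e {cl p q : ℕ} {N : ℕ → ZMod 3} (hcl : cl < 12) (hN : ∀ c < 12, N c = ee cl c)
    (hp : p % 12 = cl) (hq : q % 12 = cl) :
    (¬ ∀ c < 12, N c + ee (p % 12) c + ee (q % 12) c = ee cl c) ∧
      ¬ ∀ c < 12, N c + ee (p % 12) c + ee (q % 12) c = - ee cl c := by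
  have v1 : ee cl cl = 1 := ee_self _
  constructor
  · intro h
    have e1 := h cl hcl
    rw [hN _ hcl, hp, hq, v1] at e1
    revert e1
    decide
  · intro h
    have e1 := h cl hcl
    rw [hN _ hcl, hp, hq, v1] at e1
    revert e1
    decide

/-- the flips `a` (digit zero above the digit two) -/
private theorem ez2_fa {s : ℕ} {d : Bool} {W A B : List (ℕ × Bool)} {p cl : ℕ}
    (h : SD (pos ((s, d) :: W))) (hW : (s, d) :: W = A ++ (p, true) :: B) (hp : p + 1 ∉ pos A)
    (hD : (¬ ∀ c < 12, n2 ((s, d) :: W) c + ee (p % 12) c = ee cl c) ∧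
      ¬ ∀ c < 12, n2 ((s, d) :: W) c + ee (p % 12) c = - ee cl c) :
    ∃ X Y, SD X ∧ SD Y ∧ ofl X + ofw ((s, d) :: W) = 2 * ofl Y ∧ (∀ x ∈ X, x ≤ s + 1) ∧
      (∃ Y', Y = s :: Y' ∨ Y = (s + 1) :: Y') ∧ Gd cl X Y := by
  have hle := ez2_le h
  obtain ⟨Y', hY⟩ := ez2_head hW (pos B)
  rw [hW] at h hle hD ⊢
  obtain ⟨h1, h2, h3, h4⟩ := flip_a h hp
  refine ⟨_, _, h1, h2, h3, ?_, ⟨Y', hY⟩, ez2_gd h4 hD.1 hD.2⟩
  have hps : p ≤ s := hle p (by rw [pos_append, pos_cons]; simp)
  intro x hx
  rw [List.mem_append, List.mem_cons, List.mem_cons] at hx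
  rcases hx with hx | rfl | rfl | hx
  · have := hle x (by rw [pos_append]; exact List.mem_append_left _ (sub_one A x hx))
    omega
  · omega
  · omega
  · have := hle x (by
      rw [pos_append, pos_cons]
      exact List.mem_append_right _ (List.mem_cons_of_mem _ (sub_one B x hx)))
    omega

/-- the flips `b` (digit one above the digit two) -/
private theorem ez2_fb {s : ℕ} {d : Bool} {W A B : List (ℕ × Bool)} {p cl : ℕ}
    (h : SD (pos ((s, d) :: W))) (hW : (s, d) :: W = A ++ (p + 1, false) :: (p, true) :: B)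
    (hD : (¬ ∀ c < 12, n2 ((s, d) :: W) c + ee (p % 12) c + ee ((p + 1) % 12) c = ee cl c) ∧
      ¬ ∀ c < 12, n2 ((s, d) :: W) c + ee (p % 12) c + ee ((p + 1) % 12) c = - ee cl c) :
    ∃ X Y, SD X ∧ SD Y ∧ ofl X + ofw ((s, d) :: W) = 2 * ofl Y ∧ (∀ x ∈ X, x ≤ s + 1) ∧
      (∃ Y', Y = s :: Y' ∨ Y = (s + 1) :: Y') ∧ Gd cl X Y := by
  have hle := ez2_le h
  obtain ⟨Y', hY⟩ := ez2_head0 hW (pos B)
  rw [hW] at h hle hD ⊢
  obtain ⟨h1, h2, h3, h4⟩ := flip_b h
  refine ⟨_, _, h1, h2, h3, ?_, ⟨Y', hY⟩, ez2_gd h4 hD.1 hD.2⟩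
  have hps : p ≤ s := hle p (by rw [pos_append, pos_cons, pos_cons]; simp)
  intro x hx
  rw [List.mem_append, List.mem_cons] at hx
  rcases hx with hx | rfl | hx
  · have := hle x (by rw [pos_append]; exact List.mem_append_left _ (sub_one A x hx))
    omega
  · omega
  · have := hle x (by
      rw [pos_append, pos_cons, pos_cons]
      exact List.mem_append_right _
        (List.mem_cons_of_mem _ (List.mem_cons_of_mem _ (sub_one B x hx))))
    omega

theorem free_rep {s : ℕ} {d : Bool} {W : List (ℕ × Bool)} (h : SD (pos ((s, d) :: W))) {cl : ℕ} (hcl : cl < 12) :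
    (∃ X Y, SD X ∧ SD Y ∧ ofl X + ofw ((s, d) :: W) = 2 * ofl Y ∧ (∀ x ∈ X, x ≤ s + 1) ∧
      (∃ Y', Y = s :: Y' ∨ Y = (s + 1) :: Y') ∧ Gd cl X Y) ∨
    ∃ A p B, (s, d) :: W = A ++ (p, true) :: B ∧ (∀ t ∈ A, t.2 = false) ∧ (∀ t ∈ B, t.2 = false) ∧
      p % 12 = cl ∧ p + 1 ∉ pos A := by
  have hle := ez2_le h
  by_cases hN1 : ∀ c < 12, n2 ((s, d) :: W) c = ee cl c
  swap
  · by_cases hN2 : ∀ c < 12, n2 ((s, d) :: W) c = - ee cl c
    swap
    · left
      refine ⟨one ((s, d) :: W), pos ((s, d) :: W), sd_one h, h, w_can _, ?_, ⟨pos W, Or.inl rfl⟩,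
        ez2_gd (ct_can _) hN1 hN2⟩
      intro x hx
      have := hle x (sub_one _ x hx)
      omega
    · have hex : ¬ ∀ t ∈ (s, d) :: W, t.2 = false := by
        intro h0
        have h1 := hN2 cl hcl
        rw [ee_self] at h1
        have h2 : n2 ((s, d) :: W) cl = 0 := by
          have h3 := ct_can ((s, d) :: W) cl
          rw [(ofw_all_one h0).2] at h3
          linear_combination (-1 : ZMod 3) * h3
        rw [h2] at h1
        revert h1
        decide
      obtain ⟨A, p, B, hW, hA⟩ := split_two hex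
      left
      by_cases hp : p + 1 ∈ pos A
      · obtain ⟨A', rfl⟩ := ez2_last (by rw [← hW]; exact h) hA hp
        have hW' : (s, d) :: W = A' ++ (p + 1, false) :: (p, true) :: B := by
          rw [hW, List.append_assoc]
          rfl
        exact ez2_fb h hW' (ez2_a (Or.inr hN2))
      · exact ez2_fa h hW hp (ez2_b hN2)
  · have hex : ¬ ∀ t ∈ (s, d) :: W, t.2 = false := by
      intro h0
      have h1 := hN1 cl hcl
      rw [ee_self] at h1
      have h2 : n2 ((s, d) :: W) cl = 0 := by
        have h3 := ct_can ((s, d) :: W) cl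
        rw [(ofw_all_one h0).2] at h3
        linear_combination (-1 : ZMod 3) * h3
      rw [h2] at h1
      revert h1
      decide
    obtain ⟨A, p, B, hW, hA⟩ := split_two hex
    by_cases hp : p + 1 ∈ pos A
    · left
      obtain ⟨A', rfl⟩ := ez2_last (by rw [← hW]; exact h) hA hp
      have hW' : (s, d) :: W = A' ++ (p + 1, false) :: (p, true) :: B := by
        rw [hW, List.append_assoc]
        rfl
      exact ez2_fb h hW' (ez2_a (Or.inl hN1))
    by_cases hc : p % 12 = cl
    swap
    · left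
      exact ez2_fa h hW hp (ez2_c hN1 hc)
    by_cases hB : ∀ t ∈ B, t.2 = false
    · right
      exact ⟨A, p, B, hW, hA, hB, hc, hp⟩
    left
    obtain ⟨B1, q, B2, rfl, hB1⟩ := split_two hB
    have hsd : SD (pos (A ++ (p, true) :: (B1 ++ (q, true) :: B2))) := by rw [← hW]; exact h
    have hsd2 := hsd
    rw [pos_append, sd_append] at hsd2
    obtain ⟨hs1, hs2, hs3⟩ := hsd2
    rw [pos_cons, sd_cons] at hs2
    obtain ⟨hs4, hs5⟩ := hs2
    have hqp : q < p := hs4 q (by rw [pos_append, pos_cons]; simp)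
    have hAp : ∀ x ∈ pos A, p < x := fun x hx => hs3 x hx p (by rw [pos_cons]; simp)
    by_cases hqp1 : q + 1 = p
    · -- adjacent digits two
      have hB10 : B1 = [] := by
        rcases List.eq_nil_or_concat B1 with h0 | ⟨B', t, h0⟩
        · exact h0
        · exfalso
          rw [List.concat_eq_append] at h0
          have h6 : t.1 < p := hs4 t.1 (by rw [h0, pos_append, pos_append]; simp [pos])
          rw [pos_append, sd_append] at hs5
          have h7 : q < t.1 := hs5.2.2 t.1 (by rw [h0, pos_append]; simp [pos]) q (by rw [pos_cons]; simp)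
          omega
      subst hB10
      subst hqp1
      rw [List.nil_append] at hW hsd
      have hq2 : q + 2 ∉ pos A := hp
      obtain ⟨Y', hY⟩ := ez2_head hW (pos B2)
      have hD := ez2_d (N := n2 ((s, d) :: W)) hN1 hc
      rw [hW] at hle hD ⊢
      obtain ⟨h1, h2, h3, h4⟩ := flip_c hsd hq2
      refine ⟨_, _, h1, h2, h3, ?_, ⟨Y', hY⟩, ez2_gd h4 ?_ ?_⟩
      · have hps : q + 1 ≤ s := hle (q + 1) (by rw [pos_append, pos_cons]; simp)
        intro x hx
        rw [List.mem_append, List.mem_cons, List.mem_cons] at hx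
        rcases hx with hx | rfl | rfl | hx
        · have := hle x (by rw [pos_append]; exact List.mem_append_left _ (sub_one A x hx))
          omega
        · omega
        · omega
        · have := hle x (by
            rw [pos_append, pos_cons, pos_cons]
            exact List.mem_append_right _
              (List.mem_cons_of_mem _ (List.mem_cons_of_mem _ (sub_one B2 x hx))))
          omega
      · intro h5
        refine hD.1 fun c hc' => ?_
        rw [← h5 c hc']
        try ring
      · intro h5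
        refine hD.2 fun c hc' => ?_
        rw [← h5 c hc']
        try ring
    by_cases hq : q + 1 ∈ pos B1
    · have hsd3 : SD (pos (B1 ++ (q, true) :: B2)) := hs5
      obtain ⟨B', rfl⟩ := ez2_last hsd3 hB1 hq
      have hW' : (s, d) :: W = (A ++ (p, true) :: B') ++ (q + 1, false) :: (q, true) :: B2 := by
        rw [hW]
        simp
      exact ez2_fb h hW' (ez2_a (Or.inl hN1))
    by_cases hqc : q % 12 = cl
    · -- two digits two of the class `cl`
      obtain ⟨h1, h2, h3, h4⟩ := flip_d hsd hp hq (by omega)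
      obtain ⟨Y', hY⟩ := ez2_head hW (pos B1 ++ (q + 1) :: pos B2)
      have hD := ez2_e (N := n2 ((s, d) :: W)) hcl hN1 hc hqc
      rw [hW] at hle hD ⊢
      refine ⟨_, _, h1, h2, h3, ?_, ⟨Y', hY⟩, ez2_gd h4 ?_ ?_⟩
      · have hps : p ≤ s := hle p (by rw [pos_append, pos_cons]; simp)
        intro x hx
        rw [List.mem_append, List.mem_cons, List.mem_cons, List.mem_append, List.mem_cons,
          List.mem_cons] at hx
        rcases hx with hx | rfl | rfl | hx | rfl | rfl | hx
        · have := hle x (by rw [pos_append]; exact List.mem_append_left _ (sub_one A x hx))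
          omega
        · omega
        · omega
        · have := hle x (by
            rw [pos_append, pos_cons, pos_append]
            exact List.mem_append_right _
              (List.mem_cons_of_mem _ (List.mem_append_left _ (sub_one B1 x hx))))
          omega
        · omega
        · omega
        · have := hle x (by
            rw [pos_append, pos_cons, pos_append, pos_cons]
            exact List.mem_append_right _
              (List.mem_cons_of_mem _ (List.mem_append_right _ (List.mem_cons_of_mem _ (sub_one B2 x hx)))))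
          omega
      · intro h5
        refine hD.1 fun c hc' => ?_
        rw [← h5 c hc']
        try ring
      · intro h5
        refine hD.2 fun c hc' => ?_
        rw [← h5 c hc']
        try ring
    · have hW' : (s, d) :: W = (A ++ (p, true) :: B1) ++ (q, true) :: B2 := by
        rw [hW]
        simp
      refine ez2_fa h hW' ?_ (ez2_c hN1 hqc)
      rw [pos_append, pos_cons, List.mem_append, List.mem_cons]
      rintro (h6 | h6 | h6)
      · have := hAp _ h6
        omega
      · exact hqp1 h6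
      · exact hq h6

end Pool.Agent.STF
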