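import Pool.Agent.STF.Defs

/-!
# Project STF, module La: lists and the numbers `ofl`

Everything by induction on the lists. `ofl_lt`: geometric sum; `2 * ofl L + 1 ≤ 3 ^ p` if all positions are `< p`.
-/

set_option autoImplicit false

namespace Pool.Agent.STF

open Pool.Agent.STN

theorem sd_nil : SD [] := List.Pairwise.nil

theorem sd_cons {a : ℕ} {L : List ℕ} : SD (a :: L) ↔ (∀ b ∈ L, b < a) ∧ SD L :=
  List.pairwise_cons

theorem sd_append {A B : List ℕ} : SD (A ++ B) ↔ SD A ∧ SD B ∧ ∀ a ∈ A, ∀ b ∈ B, b < a :=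
  List.pairwise_append

/-- the form used most -/
theorem sd_mid {A B : List ℕ} {i : ℕ} : SD (A ++ i :: B) ↔
    SD A ∧ SD B ∧ (∀ a ∈ A, i < a) ∧ (∀ b ∈ B, b < i) ∧ ∀ a ∈ A, ∀ b ∈ B, b < a := by
  rw [sd_append, sd_cons]
  constructor
  · rintro ⟨h1, ⟨h2, h3⟩, h4⟩
    exact ⟨h1, h3, fun a ha => h4 a ha i List.mem_cons_self, h2,
      fun a ha b hb => h4 a ha b (List.mem_cons_of_mem i hb)⟩
  · rintro ⟨h1, h2, h3, h4, h5⟩
    refine ⟨h1, ⟨h4, h2⟩, fun a ha b hb => ?_⟩
    rcases List.mem_cons.1 hb with rfl | hb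
    · exact h3 a ha
    · exact h5 a ha b hb

theorem sd_dn (j : ℕ) : SD (dn j) :=
  List.pairwise_reverse.2 List.pairwise_lt_range

theorem mem_dn {j p : ℕ} : p ∈ dn j ↔ p < j := by
  simp [dn]

theorem dn_succ (j : ℕ) : dn (j + 1) = j :: dn j := by
  simp [dn, List.range_succ]

/-- strictly decreasing lists are determined by their elements -/
theorem sd_ext {L L' : List ℕ} (h : SD L) (h' : SD L') (he : ∀ p, p ∈ L ↔ p ∈ L') : L = L' := by
  induction L generalizing L' with
  | nil =>
    cases L' with
    | nil => rfl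
    | cons a' L' => exact absurd ((he a').2 List.mem_cons_self) (List.not_mem_nil)
  | cons a L ih =>
    cases L' with
    | nil => exact absurd ((he a).1 List.mem_cons_self) (List.not_mem_nil)
    | cons a' L' =>
      obtain ⟨h1, h2⟩ := sd_cons.1 h
      obtain ⟨h1', h2'⟩ := sd_cons.1 h'
      have e : a = a' := by
        rcases List.mem_cons.1 ((he a).1 List.mem_cons_self) with e | e
        · exact e
        · rcases List.mem_cons.1 ((he a').2 List.mem_cons_self) with f | f
          · exact f.symm
          · have := h1 _ f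
            have := h1' _ e
            omega
      subst e
      have : L = L' := ih h2 h2' (fun p => by
        constructor
        · intro hp
          rcases List.mem_cons.1 ((he p).1 (List.mem_cons_of_mem a hp)) with e | e
          · have := h1 p hp
            omega
          · exact e
        · intro hp
          rcases List.mem_cons.1 ((he p).2 (List.mem_cons_of_mem a hp)) with e | e
          · have := h1' p hp
            omega
          · exact e)
      rw [this]

theorem ofl_nil : ofl [] = 0 := rfl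

theorem ofl_cons (a : ℕ) (L : List ℕ) : ofl (a :: L) = 3 ^ a + ofl L := by
  simp [ofl]

theorem ofl_append (A B : List ℕ) : ofl (A ++ B) = ofl A + ofl B := by
  simp [ofl]

theorem ofl_dn (j : ℕ) : 2 * ofl (dn j) + 1 = 3 ^ j := by
  induction j with
  | zero => rfl
  | succ j ih =>
    rw [dn_succ, ofl_cons, pow_succ]
    omega

theorem ofl_lt {L : List ℕ} {p : ℕ} (h : SD L) (hp : ∀ q ∈ L, q < p) : 2 * ofl L + 1 ≤ 3 ^ p := by
  induction L generalizing p with
  | nil =>
    rw [ofl_nil]
    exact Nat.one_le_pow _ _ (by norm_num)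
  | cons a L ih =>
    obtain ⟨h1, h2⟩ := sd_cons.1 h
    have h3 := ih h2 h1
    have h4 : 3 ^ (a + 1) ≤ 3 ^ p :=
      Nat.pow_le_pow_right (by norm_num) (hp a List.mem_cons_self)
    rw [pow_succ] at h4
    rw [ofl_cons]
    omega

/-- the head gives the size -/
theorem ofl_head {a : ℕ} {L : List ℕ} (h : SD (a :: L)) : 3 ^ a ≤ ofl (a :: L) ∧ 2 * ofl (a :: L) + 1 ≤ 3 ^ (a + 1) := by
  constructor
  · rw [ofl_cons]
    exact Nat.le_add_right _ _
  · apply ofl_lt h
    intro q hq
    rcases List.mem_cons.1 hq with rfl | hq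
    · exact Nat.lt_succ_self _
    · exact ((sd_cons.1 h).1 q hq).trans (Nat.lt_succ_self _)

end Pool.Agent.STF
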