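import Pool.Agent.STF.Lg
import Pool.Agent.STF.La

/-!
# Project STF, module Ez4: moving a letter which is not the mark (lemma (N) of the text)

Case analysis of the state before the moved letter: the recorded classes and the flag are kept by the automaton, so the word with
the moved letter records a different class, or it ends in an absorbing state.
-/

set_option autoImplicit false

namespace Pool.Agent.STF

open Pool.Agent.STN

private theorem ez4_e_ini (c : ℕ) :
    stp .ini c = if c = 11 then .hd false 0 else if c = 10 then .hd true 0 else .bad := rfl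

private theorem ez4_e_hd (f : Bool) (j c : ℕ) : stp (.hd f j) c =
    if j = 0 ∨ j = 5 then
      (if c = 4 then .hd f 1 else if c = 3 then .ac f else if c = 1 then .v0 f
        else if j = 0 ∧ 6 ≤ c then .db f else .dk f)
    else if (j = 1 ∨ j = 3) ∧ c = 8 then .hd f (j + 1)
    else if (j = 2 ∨ j = 4) ∧ c = 6 then .hd f (j + 1)
    else .dk f := rfl

private theorem ez4_e_al (f : Bool) (a k c : ℕ) : stp (.al f a k) c =
    if k = 0 then (if c = 6 then .al f a 1 else .al f a 2) else if k = 1 then .be f a c 0 else .al f a 2 := rfl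

/-- absorbing states -/
private def ez4_abs : St → Prop
  | .bad => True
  | .db _ => True
  | .v0 _ => True
  | .dk _ => True
  | _ => False

private theorem ez4_abs_rn {q : St} (h : ez4_abs q) (L : List ℕ) : rn q L = q := by
  obtain ⟨h1, h2, h3, h4⟩ := rn_abs L
  cases q with
  | bad => exact h1
  | db f => exact h2 f
  | v0 f => exact h3 f
  | dk f => exact h4 f
  | ini => exact absurd h (by simp [ez4_abs])
  | hd f j => exact absurd h (by simp [ez4_abs])
  | ac f => exact absurd h (by simp [ez4_abs])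
  | al f a k => exact absurd h (by simp [ez4_abs])
  | be f a b k => exact absurd h (by simp [ez4_abs])

/-- the flag is `f` -/
private def ez4_fl (f : Bool) : St → Prop
  | .ini => False
  | .bad => False
  | .db g => g = f
  | .hd g _ => g = f
  | .v0 g => g = f
  | .dk g => g = f
  | .ac g => g = f
  | .al g _ _ => g = f
  | .be g _ _ _ => g = f

private theorem ez4_fl_stp {f : Bool} {q : St} (h : ez4_fl f q) (c : ℕ) : ez4_fl f (stp q c) := by
  cases q with
  | ini => exact h.elim
  | bad => exact h.elim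
  | db g => exact h
  | hd g j =>
    have h' : g = f := h
    subst h'
    rw [ez4_e_hd]
    split_ifs <;> rfl
  | v0 g => exact h
  | dk g => exact h
  | ac g => exact h
  | al g a k =>
    have h' : g = f := h
    subst h'
    rw [ez4_e_al]
    split_ifs <;> rfl
  | be g a b k => exact h

private theorem ez4_fl_rn {f : Bool} (L : List ℕ) : ∀ {q : St}, ez4_fl f q → ez4_fl f (rn q L) := by
  induction L with
  | nil =>
    intro q h
    rw [rn_nil]
    exact h
  | cons p L ih =>
    intro q h
    rw [rn_cons]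
    exact ih (ez4_fl_stp h _)

/-- the flag is `f` and the first recorded class is `a` -/
private def ez4_r1 (f : Bool) (a : ℕ) : St → Prop
  | .al g b _ => g = f ∧ b = a
  | .be g b _ _ => g = f ∧ b = a
  | _ => False

private theorem ez4_r1_rn {f : Bool} {a : ℕ} {q : St} (h : ez4_r1 f a q) (L : List ℕ) : ez4_r1 f a (rn q L) := by
  cases q with
  | al g b k =>
    obtain ⟨h1, h2⟩ := h
    subst h1 h2
    rcases rn_al g b k L with ⟨k', h3⟩ | ⟨b', k', h3⟩
    · rw [h3]
      exact ⟨rfl, rfl⟩
    · rw [h3]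
      exact ⟨rfl, rfl⟩
  | be g b d k =>
    obtain ⟨h1, h2⟩ := h
    subst h1 h2
    obtain ⟨k', h3⟩ := rn_be g b d k L
    rw [h3]
    exact ⟨rfl, rfl⟩
  | bad => exact h.elim
  | db f => exact h.elim
  | v0 f => exact h.elim
  | dk f => exact h.elim
  | ini => exact h.elim
  | hd f j => exact h.elim
  | ac f => exact h.elim

private theorem ez4_r1_uni {f g : Bool} {a b : ℕ} {q : St} (h : ez4_r1 f a q) (h' : ez4_r1 g b q) : f = g ∧ a = b := by
  cases q with
  | al e d k => exact ⟨h.1.symm.trans h'.1, h.2.symm.trans h'.2⟩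
  | be e d i k => exact ⟨h.1.symm.trans h'.1, h.2.symm.trans h'.2⟩
  | bad => exact h.elim
  | db f => exact h.elim
  | v0 f => exact h.elim
  | dk f => exact h.elim
  | ini => exact h.elim
  | hd f j => exact h.elim
  | ac f => exact h.elim

private theorem ez4_r1_abs {f : Bool} {a : ℕ} {q : St} (h : ez4_r1 f a q) (h' : ez4_abs q) : False := by
  cases q with
  | al e d k => exact h'.elim
  | be e d i k => exact h'.elim
  | bad => exact h.elim
  | db f => exact h.elim
  | v0 f => exact h.elim
  | dk f => exact h.elim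
  | ini => exact h.elim
  | hd f j => exact h.elim
  | ac f => exact h.elim

private theorem ez4_r1_fl {f g : Bool} {a : ℕ} {q : St} (h : ez4_r1 f a q) (h' : ez4_fl g q) : f = g := by
  cases q with
  | al e d k => exact h.1.symm.trans h'
  | be e d i k => exact h.1.symm.trans h'
  | bad => exact h.elim
  | db f => exact h.elim
  | v0 f => exact h.elim
  | dk f => exact h.elim
  | ini => exact h.elim
  | hd f j => exact h.elim
  | ac f => exact h.elim

private theorem ez4_hd (f : Bool) (j c : ℕ) : ((j = 0 ∨ j = 5) ∧ c = 4 ∧ stp (.hd f j) c = .hd f 1) ∨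
    ((j = 0 ∨ j = 5) ∧ c = 3 ∧ stp (.hd f j) c = .ac f) ∨ ez4_abs (stp (.hd f j) c) ∨
    ((j = 1 ∨ j = 3) ∧ c = 8) ∨ ((j = 2 ∨ j = 4) ∧ c = 6) := by
  rw [ez4_e_hd]
  split_ifs with h1 h2 h3 h4 h5 h6 h7
  · exact Or.inl ⟨h1, h2, rfl⟩
  · exact Or.inr (Or.inl ⟨h1, h3, rfl⟩)
  · exact Or.inr (Or.inr (Or.inl trivial))
  · exact Or.inr (Or.inr (Or.inl trivial))
  · exact Or.inr (Or.inr (Or.inl trivial))
  · exact Or.inr (Or.inr (Or.inr (Or.inl h6)))
  · exact Or.inr (Or.inr (Or.inr (Or.inr h7)))
  · exact Or.inr (Or.inr (Or.inl trivial))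

private theorem ez4_hd5 (f : Bool) {j : ℕ} (h : j = 0 ∨ j = 5) : stp (.hd f j) 5 = .dk f := by
  rcases h with rfl | rfl <;> simp [stp]

private theorem ez4_hd4 (f : Bool) {j : ℕ} (h : j = 0 ∨ j = 5) : stp (.hd f j) 4 = .hd f 1 := by
  rcases h with rfl | rfl <;> simp [stp]

private theorem ez4_hd9 (f : Bool) {j : ℕ} (h : j = 1 ∨ j = 3) : stp (.hd f j) 9 = .dk f := by
  rcases h with rfl | rfl <;> simp [stp]

private theorem ez4_hd7 (f : Bool) {j : ℕ} (h : j = 2 ∨ j = 4) : stp (.hd f j) 7 = .dk f := by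
  rcases h with rfl | rfl <;> simp [stp]

/-- dead states stay dead -/
private theorem ez4_dead (f : Bool) (a k : ℕ) (hk : 2 ≤ k) (L : List ℕ) : ∃ k', rn (.al f a k) L = .al f a k' := by
  induction L generalizing k with
  | nil => exact ⟨k, rn_nil _⟩
  | cons p L ih =>
    rw [rn_cons]
    have h1 : stp (.al f a k) (p % 12) = .al f a 2 := by
      rw [ez4_e_al, if_neg (by omega), if_neg (by omega)]
    rw [h1]
    exact ih 2 (le_refl 2)

private theorem ez4_n1 (q0 : St) (c : ℕ) (hc : c < 12) (B B2 : List ℕ)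
    (h : rn (stp q0 c) B = rn (.al false c 0) B2) (hne : q0 ≠ .ac false) :
    rn (stp q0 ((c + 1) % 12)) B ≠ rn (.al false ((c + 1) % 12) 0) B2 := by
  have hv : ez4_r1 false c (rn (stp q0 c) B) := by
    rw [h]
    exact ez4_r1_rn (q := .al false c 0) ⟨rfl, rfl⟩ B2
  have hr : ez4_r1 false ((c + 1) % 12) (rn (.al false ((c + 1) % 12) 0) B2) :=
    ez4_r1_rn (q := .al false ((c + 1) % 12) 0) ⟨rfl, rfl⟩ B2
  have hcc : c ≠ (c + 1) % 12 := by omega
  -- it suffices that the left side does not record the class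
  intro heq
  rw [← heq] at hr
  have habs : ez4_abs (stp q0 c) → False := fun h1 => by
    rw [ez4_abs_rn h1] at hv
    exact ez4_r1_abs hv h1
  have habs' : ez4_abs (stp q0 ((c + 1) % 12)) → False := fun h1 => by
    rw [ez4_abs_rn h1] at hr
    exact ez4_r1_abs hr h1
  cases q0 with
  | bad => exact habs trivial
  | db f => exact habs trivial
  | v0 f => exact habs trivial
  | dk f => exact habs trivial
  | ini =>
    by_cases h11 : c = 11
    · subst h11
      exact habs' trivial
    · by_cases h10 : c = 10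
      · subst h10
        have h1 : ez4_fl true (stp .ini 10) := rfl
        have h2 := ez4_r1_fl hv (ez4_fl_rn B h1)
        exact absurd h2 (by decide)
      · refine habs ?_
        have h1 : stp .ini c = .bad := by
          rw [ez4_e_ini, if_neg h11, if_neg h10]
        rw [h1]
        trivial
  | hd f j =>
    rcases ez4_hd f j c with ⟨hj, h1, _⟩ | ⟨hj, h1, h2⟩ | h1 | ⟨hj, h1⟩ | ⟨hj, h1⟩
    · subst h1
      refine habs' ?_
      rw [ez4_hd5 f hj]
      trivial
    · subst h1
      have h3 := ez4_hd4 f hj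
      rw [h2] at hv
      have h4 : rn (stp (.hd f j) ((3 + 1) % 12)) B = rn (.hd f 1) B := by
        rw [show (3 + 1) % 12 = 4 from rfl, h3]
      rw [h4] at hr
      cases B with
      | nil =>
        rw [rn_nil] at hv
        exact hv
      | cons x B =>
        rw [rn_cons] at hv hr
        have h5 : ez4_r1 f (x % 12) (stp (.ac f) (x % 12)) := ⟨rfl, rfl⟩
        have h6 := ez4_r1_uni hv (ez4_r1_rn h5 B)
        rw [← h6.2] at hr
        have h7 : stp (.hd f 1) 3 = .dk f := by simp [stp]
        rw [h7] at hr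
        have h8 : ez4_abs (.dk f) := trivial
        rw [ez4_abs_rn h8] at hr
        exact hr
    · exact habs h1
    · subst h1
      refine habs' ?_
      rw [show (8 + 1) % 12 = 9 from rfl, ez4_hd9 f hj]
      trivial
    · subst h1
      refine habs' ?_
      rw [show (6 + 1) % 12 = 7 from rfl, ez4_hd7 f hj]
      trivial
  | ac f =>
    have h1 : ez4_r1 f c (stp (.ac f) c) := ⟨rfl, rfl⟩
    have h2 := ez4_r1_uni hv (ez4_r1_rn h1 B)
    rw [← h2.1] at hne
    exact hne rfl
  | al f a k =>
    have h1 : ∀ d, ez4_r1 f a (stp (.al f a k) d) := by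
      intro d
      rw [ez4_e_al]
      split_ifs <;> exact ⟨rfl, rfl⟩
    have h2 := ez4_r1_uni hv (ez4_r1_rn (h1 c) B)
    have h3 := ez4_r1_uni hr (ez4_r1_rn (h1 ((c + 1) % 12)) B)
    exact hcc (h2.2.trans h3.2.symm)
  | be f a b k =>
    have h1 : ∀ d, ez4_r1 f a (stp (.be f a b k) d) := fun d => ⟨rfl, rfl⟩
    have h2 := ez4_r1_uni hv (ez4_r1_rn (h1 c) B)
    have h3 := ez4_r1_uni hr (ez4_r1_rn (h1 ((c + 1) % 12)) B)
    exact hcc (h2.2.trans h3.2.symm)

private theorem ez4_n2 (q0 : St) (a c : ℕ) (hc : c < 12) (B B2 : List ℕ)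
    (h : rn (stp q0 c) B = rn (.be false a c 0) B2) (hne : ∀ a', q0 ≠ .al false a' 1) :
    rn (stp q0 ((c + 1) % 12)) B ≠ rn (.be false a ((c + 1) % 12) 0) B2 := by
  obtain ⟨k1, hk1⟩ := rn_be false a c 0 B2
  obtain ⟨k2, hk2⟩ := rn_be false a ((c + 1) % 12) 0 B2
  have hcc : c ≠ (c + 1) % 12 := by omega
  rw [hk1] at h
  rw [hk2]
  intro hr
  have hv1 : ez4_r1 false a (rn (stp q0 c) B) := by
    rw [h]
    exact ⟨rfl, rfl⟩
  have hr1 : ez4_r1 false a (rn (stp q0 ((c + 1) % 12)) B) := by
    rw [hr]
    exact ⟨rfl, rfl⟩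
  have habs : ez4_abs (stp q0 c) → False := fun h1 => by
    rw [ez4_abs_rn h1] at hv1
    exact ez4_r1_abs hv1 h1
  have habs' : ez4_abs (stp q0 ((c + 1) % 12)) → False := fun h1 => by
    rw [ez4_abs_rn h1] at hr1
    exact ez4_r1_abs hr1 h1
  have hdead : ∀ f a' k, 2 ≤ k → ∀ L b' k', rn (.al f a' k) L = .be false a b' k' → False := by
    intro f a' k hk L b' k' h1
    obtain ⟨k'', h2⟩ := ez4_dead f a' k hk L
    rw [h2] at h1
    exact St.noConfusion h1
  cases q0 with
  | bad => exact habs trivial
  | db f => exact habs trivial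
  | v0 f => exact habs trivial
  | dk f => exact habs trivial
  | ini =>
    by_cases h11 : c = 11
    · subst h11
      exact habs' trivial
    · by_cases h10 : c = 10
      · subst h10
        have h1 : ez4_fl true (stp .ini 10) := rfl
        have h2 := ez4_r1_fl hv1 (ez4_fl_rn B h1)
        exact absurd h2 (by decide)
      · refine habs ?_
        have h1 : stp .ini c = .bad := by
          rw [ez4_e_ini, if_neg h11, if_neg h10]
        rw [h1]
        trivial
  | hd f j =>
    rcases ez4_hd f j c with ⟨hj, h1, _⟩ | ⟨hj, h1, h2⟩ | h1 | ⟨hj, h1⟩ | ⟨hj, h1⟩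
    · subst h1
      refine habs' ?_
      rw [ez4_hd5 f hj]
      trivial
    · subst h1
      have h3 := ez4_hd4 f hj
      rw [h2] at h
      have h4 : rn (stp (.hd f j) ((3 + 1) % 12)) B = rn (.hd f 1) B := by
        rw [show (3 + 1) % 12 = 4 from rfl, h3]
      rw [h4] at hr hr1
      match B with
      | [] =>
        rw [rn_nil] at h
        exact St.noConfusion h
      | [x] =>
        rw [rn_cons, rn_nil] at h
        exact St.noConfusion h
      | [x, y] =>
        rw [rn_cons, rn_cons, rn_nil] at h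
        have h5 : stp (.ac f) (x % 12) = .al f (x % 12) 0 := rfl
        rw [h5] at h
        rw [ez4_e_al, if_pos rfl] at h
        split_ifs at h
      | x :: y :: z :: B =>
        rw [rn_cons, rn_cons, rn_cons] at h hr
        have h5 : stp (.ac f) (x % 12) = .al f (x % 12) 0 := rfl
        rw [h5] at h
        have h6 : y % 12 = 6 := by
          by_contra hy
          have h7 : stp (.al f (x % 12) 0) (y % 12) = .al f (x % 12) 2 := by
            rw [ez4_e_al, if_pos rfl, if_neg hy]
          have h8 : stp (.al f (x % 12) 2) (z % 12) = .al f (x % 12) 2 := by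
            rw [ez4_e_al, if_neg (by omega), if_neg (by omega)]
          rw [h7, h8] at h
          exact hdead _ _ 2 (le_refl 2) _ _ _ h
        have h7 : stp (.al f (x % 12) 0) (y % 12) = .al f (x % 12) 1 := by
          rw [ez4_e_al, if_pos rfl, if_pos h6]
        have h8 : stp (.al f (x % 12) 1) (z % 12) = .be f (x % 12) (z % 12) 0 := by
          rw [ez4_e_al, if_neg (by omega), if_pos rfl]
        rw [h7, h8] at h
        obtain ⟨k3, h9⟩ := rn_be f (x % 12) (z % 12) 0 B
        rw [h9] at h
        have h10 : z % 12 = 3 := by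
          injection h
        by_cases hx : x % 12 = 8
        · have e1 : stp (.hd f 1) (x % 12) = .hd f 2 := by
            rw [hx]
            simp [stp]
          have e2 : stp (.hd f 2) (y % 12) = .hd f 3 := by
            rw [h6]
            simp [stp]
          have e3 : stp (.hd f 3) (z % 12) = .dk f := by
            rw [h10]
            simp [stp]
          have e4 : ez4_abs (.dk f) := trivial
          rw [e1, e2, e3, ez4_abs_rn e4] at hr
          exact St.noConfusion hr
        · have e1 : stp (.hd f 1) (x % 12) = .dk f := by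
            rw [ez4_e_hd]
            simp [hx]
          have e4 : ez4_abs (.dk f) := trivial
          have e5 : ∀ d, stp (.dk f) d = .dk f := fun d => rfl
          rw [e1, e5, e5, ez4_abs_rn e4] at hr
          exact St.noConfusion hr
    · exact habs h1
    · subst h1
      refine habs' ?_
      rw [show (8 + 1) % 12 = 9 from rfl, ez4_hd9 f hj]
      trivial
    · subst h1
      refine habs' ?_
      rw [show (6 + 1) % 12 = 7 from rfl, ez4_hd7 f hj]
      trivial
  | ac f =>
    have h1 : ∀ d, ez4_r1 f d (stp (.ac f) d) := fun d => ⟨rfl, rfl⟩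
    have h2 := ez4_r1_uni hv1 (ez4_r1_rn (h1 c) B)
    have h3 := ez4_r1_uni hr1 (ez4_r1_rn (h1 ((c + 1) % 12)) B)
    exact hcc (h2.2.symm.trans h3.2)
  | al f a' k =>
    by_cases hk : k = 1
    · subst hk
      have h1 : ez4_r1 f a' (stp (.al f a' 1) c) := ⟨rfl, rfl⟩
      have h2 := ez4_r1_uni hv1 (ez4_r1_rn h1 B)
      refine hne a' ?_
      rw [← h2.1]
    · by_cases hk0 : k = 0
      · subst hk0
        by_cases hc6 : c = 6
        · subst hc6
          have h7 : stp (.al f a' 0) ((6 + 1) % 12) = .al f a' 2 := by simp [stp]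
          rw [h7] at hr
          exact hdead _ _ 2 (le_refl 2) _ _ _ hr
        · have h7 : stp (.al f a' 0) c = .al f a' 2 := by
            rw [ez4_e_al, if_pos rfl, if_neg hc6]
          rw [h7] at h
          exact hdead _ _ 2 (le_refl 2) _ _ _ h
      · have h7 : stp (.al f a' k) c = .al f a' 2 := by
          rw [ez4_e_al, if_neg hk0, if_neg hk]
        rw [h7] at h
        exact hdead _ _ 2 (le_refl 2) _ _ _ h
  | be f a' b' k =>
    have h1 : ∀ d, stp (.be f a' b' k) d = .be f a' b' (nx k d) := fun d => rfl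
    rw [h1] at h hr
    obtain ⟨k3, h3⟩ := rn_be f a' b' (nx k c) B
    obtain ⟨k4, h4⟩ := rn_be f a' b' (nx k ((c + 1) % 12)) B
    rw [h3] at h
    rw [h4] at hr
    have h5 : b' = c := by injection h
    have h6 : b' = (c + 1) % 12 := by injection hr
    exact hcc (h5.symm.trans h6)

/-- the phase `8` is dead -/
private theorem ez4_be8 (f : Bool) (a b : ℕ) (L : List ℕ) : rn (.be f a b 8) L = .be f a b 8 := by
  induction L with
  | nil => exact rn_nil _
  | cons p L ih =>
    rw [rn_cons]
    have h1 : stp (.be f a b 8) (p % 12) = .be f a b 8 := by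
      have : nx 8 (p % 12) = 8 := by simp [nx]
      show St.be f a b (nx 8 (p % 12)) = _
      rw [this]
    rw [h1]
    exact ih

/-- the phases of a word which is read from `be false 8 8 1` and from `hd false 5` -/
private def ez4_R (k : ℕ) (q : St) : Prop :=
  (k = 1 ∧ q = .hd false 5) ∨ (k = 2 ∧ q = .hd false 1) ∨ (k = 3 ∧ q = .hd false 2) ∨ (k = 4 ∧ q = .hd false 3) ∨
    (k = 5 ∧ q = .hd false 4) ∨ ((k = 6 ∨ k = 7) ∧ q = .v0 false)

private theorem ez4_R_stp {k : ℕ} {q : St} (h : ez4_R k q) (c : ℕ) (hc : nx k c ≠ 8) : ez4_R (nx k c) (stp q c) := by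
  rcases h with ⟨rfl, rfl⟩ | ⟨rfl, rfl⟩ | ⟨rfl, rfl⟩ | ⟨rfl, rfl⟩ | ⟨rfl, rfl⟩ | ⟨rfl | rfl, rfl⟩
  · by_cases h4 : c = 4
    · subst h4
      exact Or.inr (Or.inl ⟨by simp [nx], by simp [stp]⟩)
    · by_cases h1 : c = 1
      · subst h1
        exact Or.inr (Or.inr (Or.inr (Or.inr (Or.inr ⟨Or.inl (by simp [nx]), by simp [stp]⟩))))
      · exact absurd (by simp [nx, h4, h1]) hc
  · by_cases h8 : c = 8
    · subst h8
      exact Or.inr (Or.inr (Or.inl ⟨by simp [nx], by simp [stp]⟩))
    · exact absurd (by simp [nx, h8]) hc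
  · by_cases h6 : c = 6
    · subst h6
      exact Or.inr (Or.inr (Or.inr (Or.inl ⟨by simp [nx], by simp [stp]⟩)))
    · exact absurd (by simp [nx, h6]) hc
  · by_cases h8 : c = 8
    · subst h8
      exact Or.inr (Or.inr (Or.inr (Or.inr (Or.inl ⟨by simp [nx], by simp [stp]⟩))))
    · exact absurd (by simp [nx, h8]) hc
  · by_cases h6 : c = 6
    · subst h6
      exact Or.inl ⟨by simp [nx], by simp [stp]⟩
    · exact absurd (by simp [nx, h6]) hc
  · exact Or.inr (Or.inr (Or.inr (Or.inr (Or.inr ⟨Or.inr (by simp [nx]), rfl⟩))))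
  · exact Or.inr (Or.inr (Or.inr (Or.inr (Or.inr ⟨Or.inr (by simp [nx]), rfl⟩))))

private theorem ez4_R_rn (L : List ℕ) : ∀ {k : ℕ} {q : St}, ez4_R k q → ∀ k', k' ≠ 8 →
    rn (.be false 8 8 k) L = .be false 8 8 k' → ez4_R k' (rn q L) := by
  induction L with
  | nil =>
    intro k q h k' hk' he
    rw [rn_nil] at he ⊢
    have : k = k' := by injection he
    rw [← this]
    exact h
  | cons p L ih =>
    intro k q h k' hk' he
    rw [rn_cons] at he ⊢
    have h1 : stp (.be false 8 8 k) (p % 12) = .be false 8 8 (nx k (p % 12)) := rfl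
    rw [h1] at he
    refine ih (ez4_R_stp h _ fun h8 => ?_) k' hk' he
    rw [h8, ez4_be8] at he
    have : 8 = k' := by injection he
    exact hk' this.symm

/-- the right side in the third case -/
private theorem ez4_n3r (B2 : List ℕ) (k : ℕ) (hk : k = 6 ∨ k = 7) (h : rn (.ac false) B2 = .be false 8 8 k) :
    rn (.hd false 1) B2 = .v0 false := by
  match B2, h with
  | [], h =>
    rw [rn_nil] at h
    exact St.noConfusion h
  | [x], h =>
    rw [rn_cons, rn_nil] at h
    exact St.noConfusion h
  | [x, y], h =>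
    exfalso
    rw [rn_cons, rn_cons, rn_nil] at h
    have h5 : stp (.ac false) (x % 12) = .al false (x % 12) 0 := rfl
    rw [h5] at h
    rw [ez4_e_al, if_pos rfl] at h
    split_ifs at h
  | [x, y, z], h =>
    exfalso
    rw [rn_cons, rn_cons, rn_cons, rn_nil] at h
    have h5 : stp (.ac false) (x % 12) = .al false (x % 12) 0 := rfl
    rw [h5] at h
    by_cases hy : y % 12 = 6
    · have h7 : stp (.al false (x % 12) 0) (y % 12) = .al false (x % 12) 1 := by
        rw [ez4_e_al, if_pos rfl, if_pos hy]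
      have h8 : stp (.al false (x % 12) 1) (z % 12) = .be false (x % 12) (z % 12) 0 := by
        rw [ez4_e_al, if_neg (by omega), if_pos rfl]
      rw [h7, h8] at h
      have h9 : 0 = k := by injection h
      omega
    · have h7 : stp (.al false (x % 12) 0) (y % 12) = .al false (x % 12) 2 := by
        rw [ez4_e_al, if_pos rfl, if_neg hy]
      have h8 : stp (.al false (x % 12) 2) (z % 12) = .al false (x % 12) 2 := by
        rw [ez4_e_al, if_neg (by omega), if_neg (by omega)]
      rw [h7, h8] at h
      exact St.noConfusion h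
  | x :: y :: z :: w :: B, h =>
    rw [rn_cons, rn_cons, rn_cons, rn_cons] at h ⊢
    have h5 : stp (.ac false) (x % 12) = .al false (x % 12) 0 := rfl
    rw [h5] at h
    have hy : y % 12 = 6 := by
      by_contra hy
      have h7 : stp (.al false (x % 12) 0) (y % 12) = .al false (x % 12) 2 := by
        rw [ez4_e_al, if_pos rfl, if_neg hy]
      have h8 : ∀ d, stp (.al false (x % 12) 2) d = .al false (x % 12) 2 := by
        intro d
        rw [ez4_e_al, if_neg (by omega), if_neg (by omega)]
      rw [h7, h8, h8] at h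
      obtain ⟨k'', h9⟩ := ez4_dead false (x % 12) 2 (le_refl 2) B
      rw [h9] at h
      exact St.noConfusion h
    have h7 : stp (.al false (x % 12) 0) (y % 12) = .al false (x % 12) 1 := by
      rw [ez4_e_al, if_pos rfl, if_pos hy]
    have h8 : stp (.al false (x % 12) 1) (z % 12) = .be false (x % 12) (z % 12) 0 := by
      rw [ez4_e_al, if_neg (by omega), if_pos rfl]
    have h9 : stp (.be false (x % 12) (z % 12) 0) (w % 12) = .be false (x % 12) (z % 12) (nx 0 (w % 12)) := rfl
    rw [h7, h8, h9] at h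
    obtain ⟨k3, h10⟩ := rn_be false (x % 12) (z % 12) (nx 0 (w % 12)) B
    have h11 := h10.symm.trans h
    have hx : x % 12 = 8 := by injection h11
    have hz : z % 12 = 8 := by injection h11
    rw [hx, hz] at h
    have hw : w % 12 = 6 := by
      by_contra hw
      have h12 : nx 0 (w % 12) = 8 := by simp [nx, hw]
      rw [h12, ez4_be8] at h
      have : 8 = k := by injection h
      omega
    have h12 : nx 0 (w % 12) = 1 := by simp [nx, hw]
    rw [h12] at h
    have e1 : stp (.hd false 1) (x % 12) = .hd false 2 := by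
      rw [hx]
      simp [stp]
    have e2 : stp (.hd false 2) (y % 12) = .hd false 3 := by
      rw [hy]
      simp [stp]
    have e3 : stp (.hd false 3) (z % 12) = .hd false 4 := by
      rw [hz]
      simp [stp]
    have e4 : stp (.hd false 4) (w % 12) = .hd false 5 := by
      rw [hw]
      simp [stp]
    rw [e1, e2, e3, e4]
    rcases ez4_R_rn B (Or.inl ⟨rfl, rfl⟩) k (by omega) h with h13 | h13 | h13 | h13 | h13 | h13
    · omega
    · omega
    · omega
    · omega
    · omega
    · exact h13.2

private theorem ez4_n3 (q0 : St) (B : List ℕ) (k : ℕ) (h : rn (stp q0 3) B = .be false 8 8 k)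
    (hne : ¬ bd q0) : rn (stp q0 4) B ≠ .v0 false := by
  have hv1 : ez4_r1 false 8 (rn (stp q0 3) B) := by
    rw [h]
    exact ⟨rfl, rfl⟩
  have habs : ez4_abs (stp q0 3) → False := fun h1 => by
    rw [ez4_abs_rn h1] at hv1
    exact ez4_r1_abs hv1 h1
  cases q0 with
  | bad => exact fun _ => habs trivial
  | db f => exact fun _ => habs trivial
  | v0 f => exact fun _ => habs trivial
  | dk f => exact fun _ => habs trivial
  | ini => exact fun _ => habs trivial
  | hd f j =>
    intro _
    rcases ez4_hd f j 3 with ⟨hj, h1, _⟩ | ⟨hj, _, _⟩ | h1 | ⟨hj, h1⟩ | ⟨hj, h1⟩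
    · omega
    · have h2 : ez4_fl f (stp (.hd f j) 3) := ez4_fl_stp (q := .hd f j) rfl 3
      have h3 := ez4_r1_fl hv1 (ez4_fl_rn B h2)
      rw [← h3] at hne
      rcases hj with rfl | rfl
      · exact hne (Or.inl rfl)
      · exact hne (Or.inr rfl)
    · exact habs h1
    · omega
    · omega
  | ac f =>
    intro _
    have h1 : ez4_r1 f 3 (stp (.ac f) 3) := ⟨rfl, rfl⟩
    have h2 := ez4_r1_uni hv1 (ez4_r1_rn h1 B)
    exact absurd h2.2 (by decide)
  | al f a k' =>
    intro _
    by_cases hk : k' = 1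
    · subst hk
      have h8 : stp (.al f a 1) 3 = .be f a 3 0 := by simp [stp]
      rw [h8] at h
      obtain ⟨k3, h9⟩ := rn_be f a 3 0 B
      rw [h9] at h
      have h10 : 3 = 8 := by injection h
      omega
    · have h8 : stp (.al f a k') 3 = .al f a 2 := by
        rw [ez4_e_al]
        by_cases hk0 : k' = 0
        · rw [if_pos hk0, if_neg (by omega)]
        · rw [if_neg hk0, if_neg hk]
      rw [h8] at h
      obtain ⟨k3, h9⟩ := ez4_dead f a 2 (le_refl 2) B
      rw [h9] at h
      exact St.noConfusion h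
  | be f a b k' =>
    intro hr
    have h1 : stp (.be f a b k') 4 = .be f a b (nx k' 4) := rfl
    rw [h1] at hr
    obtain ⟨k3, h9⟩ := rn_be f a b (nx k' 4) B
    rw [h9] at hr
    exact St.noConfusion hr

theorem lemN1 {A B A2 B2 : List ℕ} {p i2 : ℕ} (he : slot 1 (run A2)) (hs : run (A ++ p :: B) = run (A2 ++ i2 :: B2))
    (hc : p % 12 = i2 % 12) (hne : ¬ slot 1 (run A)) :
    run (A ++ (p + 1) :: B) ≠ run (A2 ++ (i2 + 1) :: B2) := by
  have he' : run A2 = .ac false := by
    rcases he with h | h
    · exact h.2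
    · exact absurd h.1 (by decide)
  have h1 : (p + 1) % 12 = (p % 12 + 1) % 12 := by omega
  have h2 : (i2 + 1) % 12 = (p % 12 + 1) % 12 := by omega
  rw [run_append, rn_cons, run_append, rn_cons, he', ← hc] at hs
  rw [run_append, rn_cons, run_append, rn_cons, he', h1, h2]
  exact ez4_n1 (run A) (p % 12) (by omega) B B2 hs fun h => hne (Or.inl ⟨rfl, h⟩)

theorem lemN2 {A B A2 B2 : List ℕ} {p i2 : ℕ} (he : slot 2 (run A2)) (hs : run (A ++ p :: B) = run (A2 ++ i2 :: B2))
    (hc : p % 12 = i2 % 12) (hne : ¬ slot 2 (run A)) {a b k : ℕ} (hv : run (A ++ p :: B) = .be false a b k) :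
    run (A ++ (p + 1) :: B) ≠ run (A2 ++ (i2 + 1) :: B2) := by
  have he' : ∃ a', run A2 = .al false a' 1 := by
    rcases he with h | h
    · exact absurd h.1 (by decide)
    · exact h.2
  obtain ⟨a', he'⟩ := he'
  have h1 : (p + 1) % 12 = (p % 12 + 1) % 12 := by omega
  have h2 : (i2 + 1) % 12 = (p % 12 + 1) % 12 := by omega
  rw [run_append, rn_cons, run_append, rn_cons, he', ← hc] at hs
  rw [run_append, rn_cons, run_append, rn_cons, he', h1, h2]
  exact ez4_n2 (run A) a' (p % 12) (by omega) B B2 hs fun a'' h => hne (Or.inr ⟨rfl, a'', h⟩)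

theorem lemN3 {A B A2 B2 : List ℕ} {p i2 : ℕ} (he : bd (run A2)) (hi : i2 % 12 = 3)
    (hs : run (A ++ p :: B) = run (A2 ++ i2 :: B2)) (hc : p % 12 = i2 % 12) (hne : ¬ bd (run A)) {k : ℕ}
    (hk : k = 6 ∨ k = 7) (hv : run (A ++ p :: B) = .be false 8 8 k) :
    run (A ++ (p + 1) :: B) ≠ run (A2 ++ (i2 + 1) :: B2) := by
  have hp : p % 12 = 3 := hc.trans hi
  have h1 : (p + 1) % 12 = 4 := by omega
  have h2 : (i2 + 1) % 12 = 4 := by omega
  rw [hs] at hv
  have hs' := hs.trans hv
  rw [run_append, rn_cons, hp] at hs'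
  rw [run_append, rn_cons, hi] at hv
  have h3 : stp (run A2) 3 = .ac false := by
    rcases he with h | h <;> rw [h] <;> simp [stp]
  have h4 : stp (run A2) 4 = .hd false 1 := by
    rcases he with h | h <;> rw [h] <;> simp [stp]
  rw [h3] at hv
  rw [run_append, rn_cons, run_append, rn_cons, h1, h2, h4, ez4_n3r B2 k hk hv]
  exact ez4_n3 (run A) B k hs' hne

/-- lemma (N) -/
theorem lemN {m : ℕ} {v : SG} {A B A2 B2 : List ℕ} {p i2 : ℕ} (hm : m = 1 ∨ m = 2 ∨ m = 3) (hv : okm m v)
    (hs : sgl (A ++ p :: B) = v) (he : ev m (run A2) (i2 % 12)) (hs2 : sgl (A2 ++ i2 :: B2) = v)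
    (hc : p % 12 = i2 % 12) (hne : ¬ ev m (run A) (p % 12)) :
    run (A ++ (p + 1) :: B) ≠ run (A2 ++ (i2 + 1) :: B2) := by
  have hr1 : run (A ++ p :: B) = v.2.1 := congrArg (fun q : SG => q.2.1) hs
  have hr2 : run (A2 ++ i2 :: B2) = v.2.1 := congrArg (fun q : SG => q.2.1) hs2
  have hr : run (A ++ p :: B) = run (A2 ++ i2 :: B2) := hr1.trans hr2.symm
  rcases hm with rfl | rfl | rfl
  · have he' : slot 1 (run A2) := by
      rcases he with h | h | h
      · exact absurd h.1 (by decide)
      · exact h.2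
      · exact absurd h.1 (by decide)
    exact lemN1 he' hr hc fun h => hne (Or.inr (Or.inl ⟨Or.inl rfl, h⟩))
  · have he' : slot 2 (run A2) := by
      rcases he with h | h | h
      · exact absurd h.1 (by decide)
      · exact h.2
      · exact absurd h.1 (by decide)
    have hv' : ∃ a b k, run (A ++ p :: B) = .be false a b k := by
      have he2 : ∃ a', run A2 = .al false a' 1 := by
        rcases he' with h | h
        · exact absurd h.1 (by decide)
        · exact h.2
      obtain ⟨a', he2⟩ := he2
      have h8 : stp (.al false a' 1) (i2 % 12) = .be false a' (i2 % 12) 0 := by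
        rw [ez4_e_al, if_neg (by omega), if_pos rfl]
      rw [hr, run_append, rn_cons, he2, h8]
      obtain ⟨k3, h9⟩ := rn_be false a' (i2 % 12) 0 B2
      exact ⟨a', i2 % 12, k3, h9⟩
    obtain ⟨a, b, k, hv'⟩ := hv'
    exact lemN2 he' hr hc (fun h => hne (Or.inr (Or.inl ⟨Or.inr rfl, h⟩))) hv'
  · have he' : bd (run A2) ∧ i2 % 12 = 3 := by
      rcases he with h | h | h
      · exact absurd h.1 (by decide)
      · exact absurd h.1 (by decide)
      · exact h.2
    have hv' : v.2.1 = .be false 8 8 6 ∨ v.2.1 = .be false 8 8 7 := by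
      rcases hv with h | h | h | h
      · exact absurd h.1 (by decide)
      · exact absurd h (by decide)
      · exact absurd h (by decide)
      · exact h.2
    have hne' : ¬ bd (run A) := fun h => hne (Or.inr (Or.inr ⟨rfl, h, hc.trans he'.2⟩))
    rcases hv' with h | h
    · exact lemN3 he'.1 he'.2 hr hc hne' (Or.inl rfl) (hr1.trans h)
    · exact lemN3 he'.1 he'.2 hr hc hne' (Or.inr rfl) (hr1.trans h)

end Pool.Agent.STF
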