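import Pool.Agent.STF.Lg
import Pool.Agent.STF.Ld
import Pool.Agent.STF.Lf

/-!
# Project STF, module Ez3: marks and illegal pairs of `C_(m,v)`, `m = 1, 2, 3`

The automaton is run on the part after the mark; for `m = 3` the header and the phase run in parallel (`ez3_par`).
-/

set_option autoImplicit false

namespace Pool.Agent.STF

open Pool.Agent.STN

/-- the class of the mark, read off the state -/
def mc (m : ℕ) (q : St) : ℕ :=
  if m = 3 then 3 else
  match q with
  | .al _ a _ => a
  | .be _ a b _ => if m = 1 then a else b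
  | _ => 0

private theorem ez3_ev1 {q : St} {c : ℕ} (h : ev 1 q c) : q = .ac false := by
  rcases h with h | h | h
  · exact absurd h.1 (by decide)
  · rcases h.2 with h | h
    · exact h.2
    · exact absurd h.1 (by decide)
  · exact absurd h.1 (by decide)

private theorem ez3_ev2 {q : St} {c : ℕ} (h : ev 2 q c) : ∃ a, q = .al false a 1 := by
  rcases h with h | h | h
  · exact absurd h.1 (by decide)
  · rcases h.2 with h | h
    · exact absurd h.1 (by decide)
    · exact h.2
  · exact absurd h.1 (by decide)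

private theorem ez3_ev3 {q : St} {c : ℕ} (h : ev 3 q c) : bd q ∧ c = 3 := by
  rcases h with h | h | h
  · exact absurd h.1 (by decide)
  · exact absurd h.1 (by decide)
  · exact h.2

private theorem ez3_ac (f : Bool) (c : ℕ) : stp (.ac f) c = .al f c 0 := rfl

private theorem ez3_al1 (f : Bool) (a c : ℕ) : stp (.al f a 1) c = .be f a c 0 := rfl

theorem mc_eq {m : ℕ} {A B : List ℕ} {i : ℕ} (hm : m = 1 ∨ m = 2 ∨ m = 3) (h : ev m (run A) (i % 12)) :
    mc m (run (A ++ i :: B)) = i % 12 := by
  rcases hm with rfl | rfl | rfl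
  · rw [run_append, ez3_ev1 h, rn_cons, ez3_ac]
    rcases rn_al false (i % 12) 0 B with ⟨k, hk⟩ | ⟨b, k, hk⟩
    · rw [hk]
      rfl
    · rw [hk]
      rfl
  · obtain ⟨a, ha⟩ := ez3_ev2 h
    rw [run_append, ha, rn_cons, ez3_al1]
    obtain ⟨k, hk⟩ := rn_be false a (i % 12) 0 B
    rw [hk]
    rfl
  · rw [(ez3_ev3 h).2]
    rfl

private theorem ez3_pal (a k : ℕ) (L : List ℕ) : pr (rn (.al false a k) L) := by
  rcases rn_al false a k L with ⟨k', hk⟩ | ⟨b, k', hk⟩
  · rw [hk]
    exact trivial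
  · rw [hk]
    exact trivial

private theorem ez3_pbe (a b k : ℕ) (L : List ℕ) : pr (rn (.be false a b k) L) := by
  obtain ⟨k', hk⟩ := rn_be false a b k L
  rw [hk]
  exact trivial

private theorem ez3_pac (L : List ℕ) : pr (rn (.ac false) L) := by
  cases L with
  | nil => exact trivial
  | cons p L => exact ez3_pal _ _ _

/-- the state of a header which runs in parallel with the phase -/
private def ez3_s (k : ℕ) : St :=
  if k = 1 then .hd false 5 else if k = 2 then .hd false 1 else if k = 3 then .hd false 2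
    else if k = 4 then .hd false 3 else if k = 5 then .hd false 4 else if k = 6 ∨ k = 7 then .v0 false else .bad

private theorem ez3_k8 (L : List ℕ) : rn (.be false 8 8 8) L = .be false 8 8 8 := by
  induction L with
  | nil => rfl
  | cons p L ih =>
    rw [rn_cons]
    exact ih

private theorem ez3_k7 (L : List ℕ) (k : ℕ) (hk : k = 6 ∨ k = 7) :
    rn (ez3_s k) L = .v0 false := by
  have : ez3_s k = .v0 false := by
    rcases hk with rfl | rfl <;> rfl
  rw [this]
  exact (rn_abs L).2.2.1 false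

private theorem ez3_par (L : List ℕ) : ∀ k, 1 ≤ k → k ≤ 7 →
    (rn (.be false 8 8 k) L = .be false 8 8 6 ∨ rn (.be false 8 8 k) L = .be false 8 8 7) →
    rn (ez3_s k) L = .v0 false := by
  induction L with
  | nil =>
    intro k h1 h7 h
    rw [rn_nil, St.be.injEq, St.be.injEq] at h
    have h6 : k = 6 ∨ k = 7 := by
      rcases h with h | h
      · exact Or.inl h.2.2.2
      · exact Or.inr h.2.2.2
    exact ez3_k7 [] k h6
  | cons p L ih =>
    intro k h1 h7 h
    by_cases h67 : k = 6 ∨ k = 7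
    · exact ez3_k7 _ k h67
    · rw [rn_cons] at h ⊢
      have e : stp (.be false 8 8 k) (p % 12) = .be false 8 8 (nx k (p % 12)) := rfl
      rw [e] at h
      have h8 : nx k (p % 12) ≠ 8 := by
        intro h9
        rw [h9, ez3_k8, St.be.injEq, St.be.injEq] at h
        rcases h with h | h
        · exact absurd h.2.2.2 (by decide)
        · exact absurd h.2.2.2 (by decide)
      have hk : k = 1 ∨ k = 2 ∨ k = 3 ∨ k = 4 ∨ k = 5 := by omega
      generalize p % 12 = c at h h8 e ⊢
      have key : 1 ≤ nx k c ∧ nx k c ≤ 7 ∧ stp (ez3_s k) c = ez3_s (nx k c) := by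
        rcases hk with rfl | rfl | rfl | rfl | rfl
        · by_cases c4 : c = 4
          · subst c4
            exact ⟨by decide, by decide, rfl⟩
          · by_cases c1 : c = 1
            · subst c1
              exact ⟨by decide, by decide, rfl⟩
            · exact absurd (by simp [nx, c4, c1]) h8
        · by_cases c8 : c = 8
          · subst c8
            exact ⟨by decide, by decide, rfl⟩
          · exact absurd (by simp [nx, c8]) h8
        · by_cases c6 : c = 6
          · subst c6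
            exact ⟨by decide, by decide, rfl⟩
          · exact absurd (by simp [nx, c6]) h8
        · by_cases c8 : c = 8
          · subst c8
            exact ⟨by decide, by decide, rfl⟩
          · exact absurd (by simp [nx, c8]) h8
        · by_cases c6 : c = 6
          · subst c6
            exact ⟨by decide, by decide, rfl⟩
          · exact absurd (by simp [nx, c6]) h8
      rw [key.2.2]
      exact ih _ key.1 key.2.1 h

/-- both second components of illegal pairs have states in `pr` -/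
theorem ev_pr {m : ℕ} {A B : List ℕ} {i : ℕ} (hm : m = 1 ∨ m = 2 ∨ m = 3) (h : ev m (run A) (i % 12))
    (hv : okm m (sgl (A ++ i :: B))) : pr (run (A ++ i :: B)) ∧ pr (run (A ++ (i + 1) :: B)) := by
  rcases hm with rfl | rfl | rfl
  · rw [run_append, run_append, ez3_ev1 h, rn_cons, rn_cons, ez3_ac, ez3_ac]
    exact ⟨ez3_pal _ _ _, ez3_pal _ _ _⟩
  · obtain ⟨a, ha⟩ := ez3_ev2 h
    rw [run_append, run_append, ha, rn_cons, rn_cons, ez3_al1, ez3_al1]
    exact ⟨ez3_pbe _ _ _ _, ez3_pbe _ _ _ _⟩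
  · obtain ⟨hb, hc⟩ := ez3_ev3 h
    have e1 : stp (run A) 3 = .ac false ∧ stp (run A) 4 = .hd false 1 := by
      rcases hb with hb | hb
      · rw [hb]
        exact ⟨rfl, rfl⟩
      · rw [hb]
        exact ⟨rfl, rfl⟩
    have e2 : (i + 1) % 12 = 4 := by omega
    have hv' : run (A ++ i :: B) = .be false 8 8 6 ∨ run (A ++ i :: B) = .be false 8 8 7 := by
      rcases hv with hv | hv | hv | hv
      · exact absurd hv.1 (by decide)
      · exact absurd hv (by decide)
      · exact absurd hv (by decide)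
      · exact hv.2
    rw [run_append, rn_cons, hc, e1.1] at hv' ⊢
    rw [run_append, rn_cons, e2, e1.2]
    refine ⟨ez3_pac B, ?_⟩
    rcases B with _ | ⟨b1, _ | ⟨b2, _ | ⟨b3, _ | ⟨b4, B⟩⟩⟩⟩
    · rw [rn_nil] at hv'
      rcases hv' with h1 | h1 <;> exact absurd h1 (by simp)
    · rw [rn_cons, rn_nil, ez3_ac] at hv'
      rcases hv' with h1 | h1 <;> exact absurd h1 (by simp)
    · rw [rn_cons, rn_cons, rn_nil, ez3_ac] at hv'
      have e3 : ∃ k, stp (.al false (b1 % 12) 0) (b2 % 12) = .al false (b1 % 12) k := by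
        by_cases c6 : b2 % 12 = 6
        · exact ⟨1, by simp [stp, c6]⟩
        · exact ⟨2, by simp [stp, c6]⟩
      obtain ⟨k, hk⟩ := e3
      rw [hk] at hv'
      rcases hv' with h1 | h1 <;> exact absurd h1 (by simp)
    · rw [rn_cons, rn_cons, rn_cons, rn_nil, ez3_ac] at hv'
      by_cases c6 : b2 % 12 = 6
      · rw [c6] at hv'
        have e3 : stp (.al false (b1 % 12) 0) 6 = .al false (b1 % 12) 1 := rfl
        rw [e3, ez3_al1, St.be.injEq, St.be.injEq] at hv'
        rcases hv' with h1 | h1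
        · exact absurd h1.2.2.2 (by decide)
        · exact absurd h1.2.2.2 (by decide)
      · have e3 : stp (.al false (b1 % 12) 0) (b2 % 12) = .al false (b1 % 12) 2 := by simp [stp, c6]
        have e4 : stp (.al false (b1 % 12) 2) (b3 % 12) = .al false (b1 % 12) 2 := rfl
        rw [e3, e4] at hv'
        rcases hv' with h1 | h1 <;> exact absurd h1 (by simp)
    · rw [rn_cons, rn_cons, rn_cons, ez3_ac] at hv'
      by_cases c6 : b2 % 12 = 6
      · rw [c6] at hv'
        have e3 : stp (.al false (b1 % 12) 0) 6 = .al false (b1 % 12) 1 := rfl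
        rw [e3, ez3_al1, rn_cons] at hv'
        have e5 : stp (.be false (b1 % 12) (b3 % 12) 0) (b4 % 12) =
            .be false (b1 % 12) (b3 % 12) (nx 0 (b4 % 12)) := rfl
        rw [e5] at hv'
        obtain ⟨k', hk'⟩ := rn_be false (b1 % 12) (b3 % 12) (nx 0 (b4 % 12)) B
        have h88 : b1 % 12 = 8 ∧ b3 % 12 = 8 := by
          rw [hk', St.be.injEq, St.be.injEq] at hv'
          rcases hv' with h1 | h1
          · exact ⟨h1.2.1, h1.2.2.1⟩
          · exact ⟨h1.2.1, h1.2.2.1⟩
        rw [h88.1, h88.2] at hv'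
        by_cases d6 : b4 % 12 = 6
        · rw [d6] at hv'
          have e6 : nx 0 6 = 1 := rfl
          rw [e6] at hv'
          have e7 := ez3_par B 1 le_rfl (by norm_num) hv'
          rw [rn_cons, rn_cons, rn_cons, rn_cons, h88.1, h88.2, c6, d6]
          have e8 : stp (stp (stp (stp (.hd false 1) 8) 6) 8) 6 = ez3_s 1 := rfl
          rw [e8, e7]
          exact trivial
        · have e6 : nx 0 (b4 % 12) = 8 := by simp [nx, d6]
          rw [e6, ez3_k8, St.be.injEq, St.be.injEq] at hv'
          rcases hv' with h1 | h1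
          · exact absurd h1.2.2.2 (by decide)
          · exact absurd h1.2.2.2 (by decide)
      · exfalso
        have e3 : stp (.al false (b1 % 12) 0) (b2 % 12) = .al false (b1 % 12) 2 := by simp [stp, c6]
        have e4 : ∀ L, rn (.al false (b1 % 12) 2) L = .al false (b1 % 12) 2 := by
          intro L
          induction L with
          | nil => rfl
          | cons p L ih =>
            rw [rn_cons]
            exact ih
        have e5 : stp (.al false (b1 % 12) 2) (b3 % 12) = .al false (b1 % 12) 2 := rfl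
        rw [e3, e5, e4] at hv'
        rcases hv' with h1 | h1 <;> exact absurd h1 (by simp)

/-- the prefix before a mark `m = 1, 2, 3` starts with `O` -/
theorem ev_head {m : ℕ} {A : List ℕ} {c : ℕ} (hm : m = 1 ∨ m = 2 ∨ m = 3) (h : ev m (run A) c) :
    ∃ t A', A = t :: A' ∧ t % 12 = 11 := by
  refine run_un.1 ?_
  rcases hm with rfl | rfl | rfl
  · rw [ez3_ev1 h]
    exact trivial
  · obtain ⟨a, ha⟩ := ez3_ev2 h
    rw [ha]
    exact trivial
  · rcases (ez3_ev3 h).1 with hb | hb
    · rw [hb]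
      exact trivial
    · rw [hb]
      exact trivial

/-- the second letter of words with a mark is far below the first -/
theorem ev_second {m : ℕ} {A B : List ℕ} {i : ℕ} (hm : m = 1 ∨ m = 2 ∨ m = 3) (hSD : SD (A ++ i :: B))
    (h : ev m (run A) (i % 12)) (hv : okm m (sgl (A ++ i :: B))) :
    ∃ t A', A = t :: A' ∧ t % 12 = 11 ∧ ofl (A' ++ B) + 2 * 3 ^ i < 3 ^ (t - 5) := by
  obtain ⟨t, A', hA, ht⟩ := ev_head hm h
  refine ⟨t, A', hA, ht, ?_⟩
  obtain ⟨t', s, L, hL, ht', hs⟩ := pr_run (ev_pr hm h hv).1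
  rw [hA] at hL hSD
  have h1 : t = t' ∧ A' ++ i :: B = s :: L := by
    rw [List.cons_append] at hL
    exact ⟨(List.cons.inj hL).1, (List.cons.inj hL).2⟩
  rw [List.cons_append, h1.2] at hSD
  obtain ⟨h2, h3⟩ := sd_cons.1 hSD
  have h4 : s < t := h2 s List.mem_cons_self
  have h5 := (ofl_head h3).2
  have h6 : ofl (A' ++ B) + 3 ^ i = ofl (s :: L) := by
    rw [← h1.2, ofl_append, ofl_append, ofl_cons]
    ring
  have h7 : 3 ^ (s + 1) ≤ 3 ^ (t - 5) := Nat.pow_le_pow_right (by norm_num) (by omega)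
  have h8 : 0 < 3 ^ i := by positivity
  omega

/-- illegal pairs of states -/
def Ill (m : ℕ) (v q r : SG) : Prop :=
  ∃ A i B, SD (A ++ i :: B) ∧ i + 1 ∉ A ∧ ev m (run A) (i % 12) ∧ sgl (A ++ i :: B) = v ∧
    ((q = sgl (A ++ B) ∧ r = v) ∨ (q = sgl (A ++ (i + 1) :: i :: B) ∧ r = sgl (A ++ (i + 1) :: B)))

/-- `reps2` -/
theorem leg_of_not_ill {m : ℕ} {v q r : SG} (h : ¬ Ill m v q r) : Leg 0 (GG q) (GG r) (CC m v) := by
  rintro x ⟨X, hX, hXq, rfl⟩ y ⟨Y, hY, hYr, rfl⟩ z ⟨A, i, B, hSD, hi, hev, hv, rfl⟩ he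
  refine h ⟨A, i, B, hSD, hi, hev, hv, ?_⟩
  rw [Nat.add_zero] at he
  rcases reps2 hSD hi hX hY he with ⟨h1, h2⟩ | ⟨h1, h2⟩
  · left
    rw [← hXq, ← hYr, h1, h2]
    exact ⟨rfl, hv⟩
  · right
    rw [← hXq, ← hYr, h1, h2]
    exact ⟨rfl, rfl⟩

/-- class counts of illegal pairs -/
theorem ill_ct {m : ℕ} {v : SG} {X Y : List ℕ} (hm : m = 1 ∨ m = 2 ∨ m = 3) (h : Ill m v (sgl X) (sgl Y)) :
    ((∀ c < 12, ct Y c = ct X c + ee (mc m v.2.1) c) ∧ sgl Y = v) ∨
    (∀ c < 12, ct X c = ct Y c + ee (mc m v.2.1) c) := by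
  obtain ⟨A, i, B, hSD, hi, hev, hv, h1⟩ := h
  have hmc : mc m v.2.1 = i % 12 := by
    rw [← hv]
    exact mc_eq hm hev
  rw [hmc]
  rcases h1 with ⟨h1, h2⟩ | ⟨h1, h2⟩
  · left
    refine ⟨fun c hc => ?_, h2⟩
    rw [ct_of_sgl h1 c hc, ct_of_sgl (h2.trans hv.symm) c hc, ct_append, ct_append, ct_cons]
    ring
  · right
    intro c hc
    rw [ct_of_sgl h1 c hc, ct_of_sgl h2 c hc, ct_append, ct_append, ct_cons, ct_cons, ct_cons]
    ring

/-- the first component of an illegal pair starts with `O` -/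
theorem ill_un {m : ℕ} {v : SG} {X Y : List ℕ} (hm : m = 1 ∨ m = 2 ∨ m = 3) (h : Ill m v (sgl X) (sgl Y)) :
    un (run X) := by
  obtain ⟨A, i, B, hSD, hi, hev, hv, h1⟩ := h
  obtain ⟨t, A', hA, ht⟩ := ev_head hm hev
  have key : ∀ L, sgl X = sgl (A ++ L) → un (run X) := by
    intro L hL
    have e : run X = run (A ++ L) := congrArg (fun q : SG => q.2.1) hL
    rw [e, hA]
    exact run_un.2 ⟨t, A' ++ L, rfl, ht⟩
  rcases h1 with ⟨h1, _⟩ | ⟨h1, _⟩
  · exact key _ h1
  · exact key _ h1

/-- the second component of an illegal pair has a state in `pr` -/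
theorem ill_pr {m : ℕ} {v : SG} {X Y : List ℕ} (hm : m = 1 ∨ m = 2 ∨ m = 3) (hv : okm m v)
    (h : Ill m v (sgl X) (sgl Y)) : pr (run Y) := by
  obtain ⟨A, i, B, hSD, hi, hev, hv', h1⟩ := h
  rw [← hv'] at hv
  obtain ⟨p1, p2⟩ := ev_pr hm hev hv
  rcases h1 with ⟨_, h2⟩ | ⟨_, h2⟩
  · have e : run Y = run (A ++ i :: B) := congrArg (fun q : SG => q.2.1) (h2.trans hv'.symm)
    rw [e]
    exact p1
  · have e : run Y = run (A ++ (i + 1) :: B) := congrArg (fun q : SG => q.2.1) h2
    rw [e]
    exact p2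

end Pool.Agent.STF
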