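import Pool.Agent.STF.Al
import Pool.Agent.STF.Ez3

/-!
# Project STF, module Ez5: legality of the top mark lines for `C_(m,v)`

`Z ∈ CC m v`: `Z = ofl (A ++ B) + 2 * 3^i`, `A = o :: A'` (`ev_second`), `Z = 3^o + z`, `z < 3^(o-5)`.  `align`: `o = t + 1`,
`X = ofl (t :: x1)`, `Y = ofl M + 2 * 3^t`, `ofl x1 + z = 2 * ofl M`; so `ofl (o :: x1) + Z = 2 * ofl (o :: M)` and
`reps2` gives `(o :: x1, o :: M) = (A ++ B, A ++ i :: B)` or `(A ++ (i+1) :: i :: B, A ++ (i+1) :: B)`.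
Counts: `ct (o :: M) - ct (o :: x1) = ct (t :: M) - ct (t :: x1)`; `run (t :: M) = fg (run (o :: M))` (`run_fg`).
-/

set_option autoImplicit false

namespace Pool.Agent.STF

open Pool.Agent.STN

theorem leg_top {m : ℕ} {v q b : SG} (hm : m = 1 ∨ m = 2 ∨ m = 3) (hv : okm m v) (hq : flg q.2.1) (hb : okm 0 b)
    (h1 : ¬ ∀ c : Fin 12, b.1 c = q.1 c + ee (mc m v.2.1) c)
    (h2 : (¬ ∀ c : Fin 12, q.1 c = b.1 c + ee (mc m v.2.1) c) ∨
      ¬ ∃ A i B, SD (A ++ i :: B) ∧ i + 1 ∉ A ∧ ev m (run A) (i % 12) ∧ sgl (A ++ i :: B) = v ∧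
        b.2.1 = fg (run (A ++ (i + 1) :: B)) ∧ un (run (A ++ (i + 1) :: B))) :
    Leg 0 (GG q) (CC 0 b) (CC m v) := by
  intro X hX Y hY Z hZ he
  obtain ⟨A, i, B, hSD, hi, hev, hsg, hZe⟩ := hZ
  have hv' : okm m (sgl (A ++ i :: B)) := by rw [hsg]; exact hv
  obtain ⟨o, A', hA, ho, hlt⟩ := ev_second hm hSD hev hv'
  have hmc : mc m v.2.1 = i % 12 := by
    rw [← hsg]
    exact mc_eq hm hev
  have hAB : ofl (A ++ B) = 3 ^ o + ofl (A' ++ B) := by
    rw [hA, List.cons_append, ofl_cons]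
  have he1 : X + (3 ^ o + (ofl (A' ++ B) + 2 * 3 ^ i)) = 2 * Y := by
    rw [hZe, hAB] at he
    omega
  obtain ⟨t, x1, M, hot, hSx, hqx, -, hSM, hbM, -, hxM⟩ := align hq hX hb hY ho hlt he1
  have hSox : SD (o :: x1) := by
    rw [sd_cons] at hSx ⊢
    exact ⟨fun p hp => by have := hSx.1 p hp; omega, hSx.2⟩
  have hSoM : SD (o :: M) := by
    rw [sd_cons] at hSM ⊢
    exact ⟨fun p hp => by have := hSM.1 p hp; omega, hSM.2⟩
  have he2 : ofl (o :: x1) + (ofl (A ++ B) + 2 * 3 ^ i) = 2 * ofl (o :: M) := by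
    rw [hAB, ofl_cons, ofl_cons]
    omega
  have hq1 : ∀ c : Fin 12, q.1 c = ct (t :: x1) c := by
    intro c
    rw [← hqx]
    rfl
  have hb1 : ∀ c : Fin 12, b.1 c = ct (t :: M) c := by
    intro c
    rw [← hbM]
    rfl
  have hb2 : b.2.1 = fg (run (o :: M)) := by
    rw [← hbM]
    exact run_fg ho (by omega)
  have hun : un (run (o :: M)) := run_un.2 ⟨o, M, rfl, ho⟩
  rcases reps2 hSD hi hSox hSoM he2 with ⟨h3, h4⟩ | ⟨h3, h4⟩
  · apply h1
    intro c
    rw [hq1, hb1, hmc, ct_cons, ct_cons]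
    have h5 : ct (o :: x1) c = ct (A ++ B) c := by rw [h3]
    have h6 : ct (o :: M) c = ct (A ++ i :: B) c := by rw [h4]
    rw [ct_cons, ct_append] at h5
    rw [ct_cons, ct_append, ct_cons] at h6
    linear_combination h6 - h5
  · rcases h2 with h2 | h2
    · apply h2
      intro c
      rw [hq1, hb1, hmc, ct_cons, ct_cons]
      have h5 : ct (o :: x1) c = ct (A ++ (i + 1) :: i :: B) c := by rw [h3]
      have h6 : ct (o :: M) c = ct (A ++ (i + 1) :: B) c := by rw [h4]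
      rw [ct_cons, ct_append, ct_cons, ct_cons] at h5
      rw [ct_cons, ct_append, ct_cons] at h6
      linear_combination h5 - h6
    · apply h2
      refine ⟨A, i, B, hSD, hi, hev, hsg, ?_, ?_⟩
      · rw [← h4]
        exact hb2
      · rw [← h4]
        exact hun

end Pool.Agent.STF
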