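import Pool.Agent.STF.Al
import Pool.Agent.STF.Ez2
import Pool.Agent.STF.Ez4
import Pool.Agent.STF.Ez5

/-!
# Project STF, module Ez: the contents `C_(m,v)`, `m = 1, 2, 3`, are complete (interface; section lead helper71)
-/

set_option autoImplicit false

namespace Pool.Agent.STF

open Pool.Agent.STN

private theorem ez_ee_val (c s : ℕ) : ee c s = 0 ∨ ee c s = 1 := by
  unfold ee; split <;> simp

/-- the left component of a pair whose first letter has class at most six is never part of an illegal pair -/
private theorem ez_not_un {s : ℕ} {L : List ℕ} (hs : s % 12 ≠ 11) : ¬ un (run (s :: L)) := by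
  intro h
  obtain ⟨t, L', hL, ht⟩ := run_un.1 h
  have : s = t := by
    have := List.cons.inj hL
    exact this.1
  omega

private theorem ez_n2_zero {A : List (ℕ × Bool)} (h : ∀ t ∈ A, t.2 = false) (c : ℕ) : n2 A c = 0 := by
  have h1 := ct_can A c
  rw [(ofw_all_one h).2] at h1
  linear_combination -h1

private theorem ez_mc_lt {m : ℕ} {v : SG} {A B : List ℕ} {i : ℕ} (hm : m = 1 ∨ m = 2 ∨ m = 3)
    (he : ev m (run A) (i % 12)) (hs : sgl (A ++ i :: B) = v) : mc m v.2.1 = i % 12 := by
  rw [← hs]
  exact mc_eq hm he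

theorem cc_compl {m : ℕ} {v : SG} (hm : m = 1 ∨ m = 2 ∨ m = 3) (hv : okm m v) {n : ℕ} (hn : n ∉ CC m v) :
    (∃ X Y, SD X ∧ SD Y ∧ ofl X + n = 2 * ofl Y ∧ ofl X ≤ ofl Y ∧
      Leg 0 (GG (sgl X)) (GG (sgl Y)) (CC m v)) ∨
    ∃ b X Y, okm 0 b ∧ Ok b ∧ SD X ∧ Y ∈ CC 0 b ∧ ofl X + n = 2 * Y ∧ ofl X < Y ∧
      Leg 0 (GG (sgl X)) (CC 0 b) (CC m v) := by
  obtain ⟨W, hW, rfl⟩ := exists_w n
  -- the canonical pair
  have hcan : ¬ Ill m v (sgl (one W)) (sgl (pos W)) →
      (∃ X Y, SD X ∧ SD Y ∧ ofl X + ofw W = 2 * ofl Y ∧ ofl X ≤ ofl Y ∧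
        Leg 0 (GG (sgl X)) (GG (sgl Y)) (CC m v)) := fun h =>
    ⟨one W, pos W, sd_one hW, hW, w_can W, w_le W, leg_of_not_ill h⟩
  by_cases hill : Ill m v (sgl (one W)) (sgl (pos W))
  swap
  · exact Or.inl (hcan hill)
  have hpr : pr (run (pos W)) := ill_pr hm hv hill
  have hun : un (run (one W)) := ill_un hm hill
  obtain ⟨t, s, L', hL, ht, hs⟩ := pr_run hpr
  -- the word
  obtain ⟨dt, W1, rfl⟩ : ∃ dt W1, W = (t, dt) :: W1 := by
    cases W with
    | nil => simp [pos_nil] at hL
    | cons x W1 =>
      obtain ⟨p, d⟩ := x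
      rw [pos_cons] at hL
      have := (List.cons.inj hL).1
      subst this
      exact ⟨d, W1, rfl⟩
  rw [pos_cons] at hL
  have hL1 : pos W1 = s :: L' := (List.cons.inj hL).2
  obtain ⟨ds, W2, rfl⟩ : ∃ ds W2, W1 = (s, ds) :: W2 := by
    cases W1 with
    | nil => simp [pos_nil] at hL1
    | cons x W2 =>
      obtain ⟨p, d⟩ := x
      rw [pos_cons] at hL1
      have := (List.cons.inj hL1).1
      subst this
      exact ⟨d, W2, rfl⟩
  rw [pos_cons] at hL1
  have hL2 : pos W2 = L' := (List.cons.inj hL1).2
  have hW' := hW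
  rw [pos_cons, pos_cons, sd_cons, sd_cons] at hW'
  obtain ⟨hts, hsb, hSDW2⟩ := hW'
  have hst : s < t := hts s (by simp)
  have hst2 : s + 7 ≤ t := by omega
  have hSD1 : SD (pos ((s, ds) :: W2)) := by
    rw [pos_cons, sd_cons]; exact ⟨hsb, hSDW2⟩
  cases dt with
  | true =>
    left
    rw [one_cons_true] at hun
    cases ds with
    | false =>
      rw [one_cons_false] at hun
      exact absurd hun (ez_not_un (by omega))
    | true =>
      -- flip `s`
      obtain ⟨h1, h2, h3, -⟩ := flip_a (A := [(t, true)]) (B := W2) (p := s) (by simpa using hW)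
        (by rw [pos_cons, pos_nil]; simp; omega)
      rw [one_cons_true, one_nil, List.nil_append] at h1 h3
      refine ⟨_, _, h1, h2, h3, ?_, leg_of_not_ill ?_⟩
      · have e1 := (ofl_head h1).2
        have e2 : 3 ^ t ≤ ofl (pos [(t, true)] ++ (s + 1) :: pos W2) := by
          rw [pos_cons, pos_nil, List.singleton_append, ofl_cons]; omega
        have e3 : 3 ^ (s + 1 + 1) ≤ 3 ^ t := Nat.pow_le_pow_right (by norm_num) (by omega)
        omega
      · intro hi
        have := ill_un hm hi
        exact absurd this (ez_not_un (by omega))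
  | false =>
    -- the class of the mark
    have hcl : mc m v.2.1 < 12 := by
      obtain ⟨A, i, B, -, -, he, hs1, -⟩ := hill
      rw [ez_mc_lt hm he hs1]; omega
    have key : ∀ X1 Y1 : List ℕ, SD X1 → SD Y1 → ofl X1 + ofw ((s, ds) :: W2) = 2 * ofl Y1 →
        (∀ x ∈ X1, x ≤ s + 1) → (∃ Y', Y1 = s :: Y' ∨ Y1 = (s + 1) :: Y') →
        Leg 0 (GG (sgl ((t - 1) :: X1))) (CC 0 (sgl ((t - 1) :: Y1))) (CC m v) →
        ∃ b X Y, okm 0 b ∧ Ok b ∧ SD X ∧ Y ∈ CC 0 b ∧ ofl X + ofw ((t, false) :: (s, ds) :: W2) = 2 * Y ∧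
          ofl X < Y ∧ Leg 0 (GG (sgl X)) (CC 0 b) (CC m v) := by
      intro X1 Y1 hX1 hY1 he hx hy hleg
      have hyl : ∀ y ∈ Y1, y < t - 1 := by
        intro y hy1
        obtain ⟨Y', hY' | hY'⟩ := hy
        · subst hY'
          rcases List.mem_cons.1 hy1 with h | h
          · omega
          · have := (sd_cons.1 hY1).1 y h; omega
        · subst hY'
          rcases List.mem_cons.1 hy1 with h | h
          · omega
          · have := (sd_cons.1 hY1).1 y h; omega
      have hSDY : SD ((t - 1) :: Y1) := sd_cons.2 ⟨hyl, hY1⟩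
      have hSDX : SD ((t - 1) :: X1) := sd_cons.2 ⟨fun x hx1 => by have := hx x hx1; omega, hX1⟩
      have hpt : 3 ^ t = 3 * 3 ^ (t - 1) := by
        rw [← pow_succ']; congr 1; omega
      refine ⟨sgl ((t - 1) :: Y1), (t - 1) :: X1, ofl Y1 + 2 * 3 ^ (t - 1), ?_, ⟨_, hSDY, rfl⟩, hSDX, ?_, ?_, ?_, hleg⟩
      · left
        refine ⟨rfl, ?_⟩
        change tb (run ((t - 1) :: Y1))
        rw [tb_iff]
        obtain ⟨Y', hY' | hY'⟩ := hy
        · exact ⟨t - 1, s, Y', by rw [hY'], by omega, by omega⟩
        · exact ⟨t - 1, s + 1, Y', by rw [hY'], by omega, by omega⟩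
      · refine ⟨[], t - 1, Y1, by simpa using hSDY, by simp, ?_, rfl, ?_⟩
        · left
          exact ⟨rfl, run_nil, by omega⟩
        · simp
      · rw [ofw_cons_false, ofl_cons]; omega
      · rw [ofl_cons]
        have e1 := ofl_lt hX1 (p := s + 2) (fun q hq => by have := hx q hq; omega)
        have e3 : 3 ^ (s + 2) ≤ 3 ^ (t - 1) := Nat.pow_le_pow_right (by norm_num) (by omega)
        omega
    have hfl : ∀ X1 : List ℕ, flg (run ((t - 1) :: X1)) := fun X1 =>
      run_flg.2 ⟨t - 1, X1, rfl, by omega⟩
    right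
    rcases free_rep hSD1 hcl with ⟨X1, Y1, hX1, hY1, he, hx, hy, hG1, hG2⟩ | ⟨A, p, B, hAB, hA, hB, hp, hpA⟩
    · refine key X1 Y1 hX1 hY1 he hx hy ?_
      refine leg_top hm hv (hfl X1) ?_ ?_ (Or.inl ?_)
      · left
        refine ⟨rfl, ?_⟩
        change tb (run ((t - 1) :: Y1))
        rw [tb_iff]
        obtain ⟨Y', hY' | hY'⟩ := hy
        · exact ⟨t - 1, s, Y', by rw [hY'], by omega, by omega⟩
        · exact ⟨t - 1, s + 1, Y', by rw [hY'], by omega, by omega⟩
      · intro hh
        apply hG1
        intro c hc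
        have := hh ⟨c, hc⟩
        change ct ((t - 1) :: Y1) c = ct ((t - 1) :: X1) c + ee _ c at this
        rw [ct_cons, ct_cons] at this
        linear_combination this
      · intro hh
        apply hG2
        intro c hc
        have := hh ⟨c, hc⟩
        change ct ((t - 1) :: X1) c = ct ((t - 1) :: Y1) c + ee _ c at this
        rw [ct_cons, ct_cons] at this
        linear_combination this
    · -- exactly one digit two
      have hW2 : ((t, false) :: (s, ds) :: W2 : List (ℕ × Bool)) = ((t, false) :: A) ++ (p, true) :: B := by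
        rw [hAB]; rfl
      have hn2 : ∀ c, n2 ((t, false) :: (s, ds) :: W2) c = ee (p % 12) c := by
        intro c
        rw [hW2, n2_append, n2_cons_false, n2_cons_true, ez_n2_zero hA, ez_n2_zero hB]
        ring
      have hposW : pos ((t, false) :: (s, ds) :: W2) = (t :: pos A) ++ p :: pos B := by
        rw [hW2, pos_append, pos_cons, pos_cons]
      have hple : p ≤ s := by
        have : p ∈ pos ((s, ds) :: W2) := by
          rw [hAB, pos_append, pos_cons]; simp
        rw [pos_cons] at this
        rcases List.mem_cons.1 this with h | h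
        · omega
        · have := hsb p h; omega
      have hsv : sgl ((t :: pos A) ++ p :: pos B) = v := by
        rcases ill_ct hm hill with ⟨-, h⟩ | h
        · rw [hposW] at h; exact h
        · exfalso
          have h1 := h _ hcl
          have h2 := ct_can ((t, false) :: (s, ds) :: W2) (mc m v.2.1)
          rw [hn2, hp, ee_self] at h2
          rw [ee_self, h2] at h1
          have h3 : (2 : ZMod 3) = 0 := by linear_combination -h1
          exact absurd h3 (by decide)
      have hSDm : SD ((t :: pos A) ++ p :: pos B) := by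
        rw [← hposW]; exact hW
      have hpA' : p + 1 ∉ t :: pos A := by
        simp only [List.mem_cons, not_or]
        exact ⟨by omega, hpA⟩
      by_cases hev : ev m (run (t :: pos A)) (p % 12)
      · exfalso
        apply hn
        refine ⟨t :: pos A, p, pos B, hSDm, hpA', hev, hsv, ?_⟩
        rw [hW2, ofw_append, ofw_cons_false, ofw_cons_true, ofl_append, ofl_cons, (ofw_all_one hA).1,
          (ofw_all_one hB).1]
        ring
      · have hSDA : SD (pos (A ++ (p, true) :: B)) := by rw [← hAB]; exact hSD1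
        obtain ⟨h1, h2, h3, h4⟩ := flip_a hSDA hpA
        have hA0 : A = [] ∧ p = s ∨ ∃ A', A = (s, ds) :: A' := by
          cases A with
          | nil =>
            left
            refine ⟨rfl, ?_⟩
            have := (List.cons.inj hAB).1
            exact ((Prod.mk.inj this).1).symm
          | cons x A' =>
            right
            exact ⟨A', by rw [← (List.cons.inj hAB).1]⟩
        have hAle : ∀ x ∈ pos A, x ≤ s := by
          intro x hx
          have : x ∈ pos ((s, ds) :: W2) := by
            rw [hAB, pos_append]; exact List.mem_append_left _ hx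
          rw [pos_cons] at this
          rcases List.mem_cons.1 this with h | h
          · omega
          · have := hsb x h; omega
        have hBle : ∀ x ∈ pos B, x ≤ s := by
          intro x hx
          have : x ∈ pos ((s, ds) :: W2) := by
            rw [hAB, pos_append, pos_cons]; exact List.mem_append_right _ (List.mem_cons_of_mem _ hx)
          rw [pos_cons] at this
          rcases List.mem_cons.1 this with h | h
          · omega
          · have := hsb x h; omega
        have hx : ∀ x ∈ one A ++ (p + 1) :: p :: one B, x ≤ s + 1 := by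
          intro x hx
          rcases List.mem_append.1 hx with h | h
          · have := hAle x (sub_one A x h); omega
          · rcases List.mem_cons.1 h with h | h
            · omega
            · rcases List.mem_cons.1 h with h | h
              · omega
              · have := hBle x (sub_one B x h); omega
        have hy : ∃ Y', pos A ++ (p + 1) :: pos B = s :: Y' ∨ pos A ++ (p + 1) :: pos B = (s + 1) :: Y' := by
          rcases hA0 with ⟨rfl, rfl⟩ | ⟨A', rfl⟩
          · exact ⟨pos B, Or.inr rfl⟩
          · exact ⟨pos A' ++ (p + 1) :: pos B, Or.inl (by rw [pos_cons]; rfl)⟩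
        rw [← hAB] at h3 h4
        refine key _ _ h1 h2 h3 hx hy ?_
        refine leg_top hm hv (hfl _) ?_ ?_ (Or.inr ?_)
        · left
          refine ⟨rfl, ?_⟩
          change tb (run ((t - 1) :: (pos A ++ (p + 1) :: pos B)))
          rw [tb_iff]
          obtain ⟨Y', hY' | hY'⟩ := hy
          · exact ⟨t - 1, s, Y', by rw [hY'], by omega, by omega⟩
          · exact ⟨t - 1, s + 1, Y', by rw [hY'], by omega, by omega⟩
        · intro hh
          have h5 := hh ⟨_, hcl⟩
          change ct ((t - 1) :: (pos A ++ (p + 1) :: pos B)) (mc m v.2.1) =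
            ct ((t - 1) :: (one A ++ (p + 1) :: p :: one B)) (mc m v.2.1) + ee _ (mc m v.2.1) at h5
          have h6 := h4 (mc m v.2.1)
          have h7 := hn2 (mc m v.2.1)
          rw [n2_cons_false] at h7
          rw [ct_cons, ct_cons, h6, h7, hp, ee_self] at h5
          have h8 : (1 : ZMod 3) = 0 := by linear_combination h5
          exact absurd h8 (by decide)
        · rintro ⟨A2, i2, B2, hS2, hi2, he2, hs2, hb2, hu2⟩
          have hpc : p % 12 = i2 % 12 := by rw [hp]; exact ez_mc_lt hm he2 hs2
          refine lemN hm hv hsv he2 hs2 hpc hev ?_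
          change run ((t - 1) :: (pos A ++ (p + 1) :: pos B)) = _ at hb2
          rw [run_fg ht (by omega)] at hb2
          exact fg_inj (run_un.2 ⟨t, _, rfl, ht⟩) hu2 hb2

end Pool.Agent.STF
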