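import Pool.Agent.STF.Lb

/-!
# Project STF, module Lc: class counts

`ct_eq_cs`: induction on `L` from the top (`cs_add_pow` of `STN.Ma`), or both are additive.
`ct_dn`: `ct (dn j) s = cs 12 s 0 (ofl (dn j))` and `cs_Y` with `x = 0`.
-/

set_option autoImplicit false

namespace Pool.Agent.STF

open Pool.Agent.STN

theorem ct_nil (s : ℕ) : ct [] s = 0 := by
  simp [ct]

theorem ct_cons (a : ℕ) (L : List ℕ) (s : ℕ) : ct (a :: L) s = ee (a % 12) s + ct L s := by
  unfold ct ee
  rw [List.countP_cons]
  by_cases h : a % 12 = s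
  · rw [if_pos (by simpa using h), if_pos h.symm]
    push_cast
    ring
  · rw [if_neg (by simpa using h), if_neg (fun e => h e.symm)]
    push_cast
    ring

theorem ct_append (A B : List ℕ) (s : ℕ) : ct (A ++ B) s = ct A s + ct B s := by
  unfold ct
  rw [List.countP_append]
  push_cast
  ring

theorem ct_eq_cs {L : List ℕ} (h : SD L) (s : ℕ) : ct L s = cs 12 s 0 (ofl L) := by
  induction L with
  | nil => rw [ct_nil, ofl_nil, cs_zero]
  | cons a L ih =>
    obtain ⟨h1, h2⟩ := sd_cons.1 h
    have ha : a ∉ L := fun hm => lt_irrefl a (h1 a hm)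
    have h3 : dg (ofl L) a ≤ 1 := ofl_mem h2 a
    rw [ct_cons, ofl_cons, add_comm (3 ^ a), cs_add_pow h3, ih h2]
    unfold ee
    by_cases hs : a % 12 = s
    · rw [if_pos hs, if_pos hs.symm]
      ring
    · rw [if_neg hs, if_neg (fun e => hs e.symm)]
      ring

theorem ct_dn (j s : ℕ) : ct (dn j) s = ej 12 s j := by
  unfold ej
  induction j with
  | zero => simp [dn, ct_nil]
  | succ j ih =>
    rw [dn_succ, ct_cons, ih, Finset.range_add_one, Finset.filter_insert]
    unfold ee
    by_cases hs : j % 12 = s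
    · rw [if_pos hs.symm, if_pos hs, Finset.card_insert_of_notMem (by simp)]
      push_cast
      ring
    · rw [if_neg (fun e => hs e.symm), if_neg hs]
      ring

/-- equality of the counts read off the states -/
theorem ct_of_sgl {L L' : List ℕ} (h : sgl L = sgl L') (s : ℕ) (hs : s < 12) : ct L s = ct L' s := by
  have h1 := congrArg Prod.fst h
  exact congrFun h1 (⟨s, hs⟩ : Fin 12)

theorem ee_self (c : ℕ) : ee c c = 1 := if_pos rfl

theorem ee_ne {c s : ℕ} (h : s ≠ c) : ee c s = 0 := if_neg h

end Pool.Agent.STF
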