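import Pool.Agent.STF.Lg
import Pool.Agent.STF.Lc

/-!
# Project STF, module Fi: finitely many states
-/

set_option autoImplicit false

namespace Pool.Agent.STF

open Pool.Agent.STN

theorem ok_fin : {q : SG | Ok q}.Finite := by
  have h1 : ((Set.univ : Set (Fin 12 → ZMod 3)) ×ˢ
      ((Set.range run) ×ˢ (Set.univ : Set (Prop × Prop)))).Finite :=
    Set.finite_univ.prod (run_fin.prod Set.finite_univ)
  refine h1.subset ?_
  rintro q ⟨L, -, rfl⟩
  exact ⟨Set.mem_univ _, ⟨L, rfl⟩, Set.mem_univ _⟩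

end Pool.Agent.STF
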