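import Pool.Agent.STF.La

/-!
# Project STF, module Lh: indices and gaps
-/

set_option autoImplicit false

namespace Pool.Agent.STF

open Pool.Agent.STN

theorem ix_nil : ix [] = 0 := by simp [ix]

theorem ix_append (A B : List ℕ) : ix (A ++ B) = ix A + ix B := by simp [ix]

private theorem lh_cons (a : ℕ) (L : List ℕ) : ix (a :: L) = 2 ^ a + ix L := by simp [ix]

theorem ix_dn (j : ℕ) : ix (dn j) + 1 = 2 ^ j := by
  induction j with
  | zero => simp [dn, ix]
  | succ j ih =>
    rw [dn_succ, lh_cons, pow_succ]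
    omega

/-- the predecessor -/
theorem ix_pred (C : List ℕ) (j : ℕ) : ix (C ++ [j]) = ix (C ++ dn j) + 1 := by
  rw [ix_append, ix_append, lh_cons, ix_nil]
  have := ix_dn j
  omega

theorem ix_zero {C : List ℕ} : ix C = 0 ↔ C = [] := by
  cases C with
  | nil => simp [ix_nil]
  | cons a L =>
    rw [lh_cons]
    have : 0 < 2 ^ a := by positivity
    constructor
    · intro h
      omega
    · intro h
      exact absurd h (List.cons_ne_nil _ _)

private theorem lh_lt {L : List ℕ} {p : ℕ} (h : SD L) (hp : ∀ q ∈ L, q < p) : ix L + 1 ≤ 2 ^ p := by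
  induction L generalizing p with
  | nil =>
    rw [ix_nil]
    have : 0 < 2 ^ p := by positivity
    omega
  | cons a L ih =>
    have hs := sd_cons.1 h
    have h1 := ih hs.2 hs.1
    have ha : a + 1 ≤ p := hp a List.mem_cons_self
    have h2 : 2 ^ (a + 1) ≤ 2 ^ p := Nat.pow_le_pow_right (by norm_num) ha
    rw [pow_succ] at h2
    rw [lh_cons]
    omega

/-- binary expansions are unique -/
theorem ix_inj {P Q : List ℕ} (h : SD P) (h' : SD Q) (he : ix P = ix Q) : P = Q := by
  induction P generalizing Q with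
  | nil =>
    rw [ix_nil] at he
    exact (ix_zero.1 he.symm).symm
  | cons a P ih =>
    cases Q with
    | nil =>
      rw [ix_nil] at he
      exact ix_zero.1 he
    | cons b Q =>
      have hs := sd_cons.1 h
      have hs' := sd_cons.1 h'
      have h1 := lh_lt hs.2 hs.1
      have h2 := lh_lt hs'.2 hs'.1
      rw [lh_cons, lh_cons] at he
      have hab : a = b := by
        rcases lt_trichotomy a b with hlt | heq | hgt
        · have h3 : 2 ^ (a + 1) ≤ 2 ^ b := Nat.pow_le_pow_right (by norm_num) hlt
          rw [pow_succ] at h3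
          omega
        · exact heq
        · have h3 : 2 ^ (b + 1) ≤ 2 ^ a := Nat.pow_le_pow_right (by norm_num) hgt
          rw [pow_succ] at h3
          omega
      subst hab
      rw [ih hs.2 hs'.2 (by omega)]

private theorem lh_mem {L : List ℕ} {p : ℕ} (h : p ∈ L) : 2 ^ p ≤ ix L := by
  induction L with
  | nil => exact absurd h List.not_mem_nil
  | cons a L ih =>
    rw [lh_cons]
    rcases List.mem_cons.1 h with h | h
    · subst h
      omega
    · exact le_trans (ih h) (Nat.le_add_left _ _)

/-- every number is an index -/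
theorem ix_surj (n : ℕ) : ∃ P, SD P ∧ ix P = n := by
  induction n using Nat.strong_induction_on with
  | _ n ih =>
    rcases Nat.eq_zero_or_pos n with h0 | h0
    · subst h0
      exact ⟨[], sd_nil, ix_nil⟩
    · obtain ⟨a, ha⟩ : ∃ a, a = Nat.log 2 n := ⟨_, rfl⟩
      have h1 : 2 ^ a ≤ n := by
        rw [ha]
        exact Nat.pow_log_le_self 2 (by omega)
      have h2 : n < 2 ^ (a + 1) := by
        rw [ha]
        exact Nat.lt_pow_succ_log_self (by norm_num) n
      have hpos : 0 < 2 ^ a := by positivity
      obtain ⟨P, hP, hPn⟩ := ih (n - 2 ^ a) (by omega)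
      refine ⟨a :: P, sd_cons.2 ⟨?_, hP⟩, ?_⟩
      · intro b hb
        by_contra hba
        have h3 := lh_mem hb
        have h4 : 2 ^ a ≤ 2 ^ b := Nat.pow_le_pow_right (by norm_num) (by omega)
        rw [pow_succ] at h2
        omega
      · rw [lh_cons]
        omega

/-- adjacent letters -/
theorem uu_adj (r : ℕ) : uu (r + 1) r = 0 := by
  unfold uu
  rw [Finset.card_eq_zero, Finset.filter_eq_empty_iff]
  intro x hx
  rw [Finset.mem_Ioo] at hx
  omega

/-- moving the upper letter down by one -/
theorem uu_step {i r : ℕ} (h : r < i) : uu (i + 1) r = uu i r + (if i % 12 = 8 then 1 else 0) := by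
  unfold uu
  have h1 : Finset.Ioo r (i + 1) = insert i (Finset.Ioo r i) := by
    ext x
    rw [Finset.mem_insert, Finset.mem_Ioo, Finset.mem_Ioo]
    omega
  rw [h1, Finset.filter_insert]
  split_ifs with h2
  · rw [Finset.card_insert_of_notMem]
    intro h3
    rw [Finset.mem_filter, Finset.mem_Ioo] at h3
    omega
  · rfl

/-- gaps in the format: `T` at `8 + 12 (b + n)`, `R` at `6 + 12 b` -/
theorem uu_fmt (b n : ℕ) : uu (8 + 12 * (b + n)) (6 + 12 * b) = n := by
  unfold uu
  have h1 : (Finset.Ioo (6 + 12 * b) (8 + 12 * (b + n))).filter (fun p => p % 12 = 8)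
      = (Finset.range n).image (fun k => 8 + 12 * (b + k)) := by
    ext x
    rw [Finset.mem_filter, Finset.mem_Ioo, Finset.mem_image]
    constructor
    · rintro ⟨⟨h1, h2⟩, h3⟩
      refine ⟨x / 12 - b, ?_, ?_⟩
      · rw [Finset.mem_range]
        omega
      · show 8 + 12 * (b + (x / 12 - b)) = x
        omega
    · rintro ⟨k, hk, rfl⟩
      rw [Finset.mem_range] at hk
      refine ⟨⟨?_, ?_⟩, ?_⟩ <;> omega
  rw [h1, Finset.card_image_of_injective, Finset.card_range]
  intro x y hxy
  have hxy' : 8 + 12 * (b + x) = 8 + 12 * (b + y) := hxy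
  omega

theorem uu_shift (i r h : ℕ) : uu (i + 12 * h) (r + 12 * h) = uu i r := by
  unfold uu
  have h1 : (Finset.Ioo (r + 12 * h) (i + 12 * h)).filter (fun p => p % 12 = 8)
      = ((Finset.Ioo r i).filter (fun p => p % 12 = 8)).image (fun k => k + 12 * h) := by
    ext x
    rw [Finset.mem_filter, Finset.mem_Ioo, Finset.mem_image]
    constructor
    · rintro ⟨⟨h1, h2⟩, h3⟩
      refine ⟨x - 12 * h, ?_, ?_⟩
      · rw [Finset.mem_filter, Finset.mem_Ioo]
        omega
      · show x - 12 * h + 12 * h = x
        omega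
    · rintro ⟨k, hk, rfl⟩
      rw [Finset.mem_filter, Finset.mem_Ioo] at hk
      refine ⟨⟨?_, ?_⟩, ?_⟩ <;> omega
  rw [h1, Finset.card_image_of_injective]
  intro x y hxy
  have hxy' : x + 12 * h = y + 12 * h := hxy
  omega

end Pool.Agent.STF
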