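import Pool.Agent.STF.Lg
import Pool.Agent.STF.Lf
import Pool.Agent.STF.Lh

/-!
# Project STF, module Fr: `C_(m,v)` is free of progressions

Three elements `a + c = 2 b`; `I` is the highest of the three positions of the digit two.  The parts from `I + 2` on are
equal, so the same state is reached there; it is the state before a mark of type `m`.  Hence the digits at `I + 1, I`
are `00`, `02` or (for `m = 3`) `10`.
-/

set_option autoImplicit false

namespace Pool.Agent.STF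

open Pool.Agent.STN

private theorem fr_stp_ini (q : St) (c : ℕ) : stp q c ≠ .ini := by
  cases q <;> simp only [stp] <;> (try split_ifs) <;> simp

private theorem fr_ini {L : List ℕ} (h : run L = .ini) : L = [] := by
  rcases List.eq_nil_or_concat L with h1 | ⟨A, p, rfl⟩
  · exact h1
  · exfalso
    rw [List.concat_eq_append, run_append, rn_cons, rn_nil] at h
    exact fr_stp_ini _ _ h

/-- the class of the mark is determined by the state of the word -/
private theorem fr_cls {m : ℕ} {A B A' B' : List ℕ} {i i' : ℕ} (h : ev m (run A) (i % 12))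
    (h' : ev m (run A') (i' % 12)) (he : run (A ++ i :: B) = run (A' ++ i' :: B')) :
    i % 12 = i' % 12 := by
  rcases h with ⟨rfl, -, h1⟩ | ⟨-, h1⟩ | ⟨rfl, -, h1⟩
  · rcases h' with ⟨-, -, h2⟩ | ⟨h2, -⟩ | ⟨h2, -⟩
    · rw [h1, h2]
    · omega
    · omega
  · rcases h' with ⟨h2, -⟩ | ⟨-, h2⟩ | ⟨h2, -⟩
    · subst h2
      rcases h1 with ⟨h3, -⟩ | ⟨h3, -⟩ <;> omega
    · rw [run_append, run_append, rn_cons, rn_cons] at he
      rcases h1 with ⟨rfl, h3⟩ | ⟨rfl, a, h3⟩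
      · rcases h2 with ⟨-, h4⟩ | ⟨h4, -⟩
        · rw [h3, h4] at he
          simp only [stp] at he
          rcases rn_al false (i % 12) 0 B with ⟨k, e1⟩ | ⟨b, k, e1⟩ <;>
            rcases rn_al false (i' % 12) 0 B' with ⟨k', e2⟩ | ⟨b', k', e2⟩ <;>
            rw [e1, e2] at he
          · injection he
          · exact absurd he (by simp)
          · exact absurd he (by simp)
          · injection he
        · omega
      · rcases h2 with ⟨h4, -⟩ | ⟨-, a', h4⟩
        · omega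
        · rw [h3, h4] at he
          have e3 : stp (.al false a 1) (i % 12) = .be false a (i % 12) 0 := by simp [stp]
          have e4 : stp (.al false a' 1) (i' % 12) = .be false a' (i' % 12) 0 := by simp [stp]
          rw [e3, e4] at he
          obtain ⟨k, e1⟩ := rn_be false a (i % 12) 0 B
          obtain ⟨k', e2⟩ := rn_be false a' (i' % 12) 0 B'
          rw [e1, e2] at he
          injection he
    · subst h2
      rcases h1 with ⟨h3, -⟩ | ⟨h3, -⟩ <;> omega
  · rcases h' with ⟨h2, -⟩ | ⟨h2, -⟩ | ⟨-, -, h2⟩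
    · omega
    · omega
    · rw [h1, h2]

private theorem fr_bd_abs {R : List ℕ} {q : St} (h : bd (rn q R)) :
    (∀ f, q ≠ .ac f) ∧ q ≠ .bad ∧ (∀ f, q ≠ .v0 f) ∧ (∀ f, q ≠ .db f) ∧ (∀ f, q ≠ .dk f) := by
  refine ⟨?_, ?_, ?_, ?_, ?_⟩
  · rintro f rfl
    rcases R with _ | ⟨g, R⟩
    · rw [rn_nil] at h
      rcases h with h | h <;> exact absurd h (by simp)
    · rw [rn_cons] at h
      simp only [stp] at h
      rcases rn_al f (g % 12) 0 R with ⟨k, e1⟩ | ⟨b, k, e1⟩ <;> rw [e1] at h <;>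
        rcases h with h | h <;> exact absurd h (by simp)
  · rintro rfl
    rw [(rn_abs R).1] at h
    rcases h with h | h <;> exact absurd h (by simp)
  · rintro f rfl
    rw [(rn_abs R).2.2.1] at h
    rcases h with h | h <;> exact absurd h (by simp)
  · rintro f rfl
    rw [(rn_abs R).2.1] at h
    rcases h with h | h <;> exact absurd h (by simp)
  · rintro f rfl
    rw [(rn_abs R).2.2.2] at h
    rcases h with h | h <;> exact absurd h (by simp)

/-- what can follow a prefix whose state is the state before a mark -/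
private theorem fr_next {m : ℕ} {H A : List ℕ} {c d : ℕ} (hH : ev m (run H) c) (hA : ev m (run (H ++ A)) d) :
    A = [] ∨ (m = 3 ∧ c = 3 ∧ ∃ f g R, A = f :: g :: R ∧ f % 12 = 4 ∧ g % 12 = 8) := by
  rcases hA with ⟨rfl, h1, -⟩ | ⟨h0, h1⟩ | ⟨rfl, h1, -⟩
  · left
    have h2 := fr_ini h1
    exact (List.append_eq_nil_iff.1 h2).2
  · left
    rcases A with _ | ⟨f, R⟩
    · rfl
    · exfalso
      rcases hH with ⟨h2, -⟩ | ⟨-, h2⟩ | ⟨h2, -⟩
      · omega
      · rw [run_append, rn_cons] at h1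
        rcases h2 with ⟨rfl, h3⟩ | ⟨rfl, a, h3⟩
        · rw [h3] at h1
          simp only [stp] at h1
          rcases h1 with ⟨-, h4⟩ | ⟨h4, -⟩
          · rcases rn_al false (f % 12) 0 R with ⟨k, e1⟩ | ⟨b, k, e1⟩ <;> rw [e1] at h4 <;>
              exact absurd h4 (by simp)
          · omega
        · rw [h3] at h1
          have e3 : stp (.al false a 1) (f % 12) = .be false a (f % 12) 0 := by simp [stp]
          rw [e3] at h1
          rcases h1 with ⟨h4, -⟩ | ⟨-, a', h4⟩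
          · omega
          · obtain ⟨k, e1⟩ := rn_be false a (f % 12) 0 R
            rw [e1] at h4
            exact absurd h4 (by simp)
      · omega
  · rcases A with _ | ⟨f, R⟩
    · left
      rfl
    · right
      rcases hH with ⟨h2, -⟩ | ⟨h2, -⟩ | ⟨-, h2, h3⟩
      · omega
      · omega
      · refine ⟨rfl, h3, ?_⟩
        rw [run_append, rn_cons] at h1
        obtain ⟨j, hj, h4⟩ : ∃ j, (j = 0 ∨ j = 5) ∧ run H = .hd false j := by
          rcases h2 with h2 | h2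
          · exact ⟨0, Or.inl rfl, h2⟩
          · exact ⟨5, Or.inr rfl, h2⟩
        rw [h4] at h1
        have hb := fr_bd_abs h1
        have h5 : f % 12 = 4 := by
          by_contra h6
          simp only [stp, if_pos hj, if_neg h6] at hb
          split_ifs at hb
          · exact hb.1 false rfl
          · exact hb.2.2.1 false rfl
          · exact hb.2.2.2.1 false rfl
          · exact hb.2.2.2.2 false rfl
        have h6 : stp (.hd false j) (f % 12) = .hd false 1 := by simp only [stp, if_pos hj, if_pos h5]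
        rw [h6] at h1
        rcases R with _ | ⟨g, R⟩
        · rw [rn_nil] at h1
          rcases h1 with h1 | h1 <;> exact absurd h1 (by simp)
        · refine ⟨f, g, R, rfl, h5, ?_⟩
          by_contra h7
          rw [rn_cons] at h1
          have hb' := fr_bd_abs h1
          have h8 : stp (.hd false 1) (g % 12) = .dk false := by simp [stp, h7]
          rw [h8] at hb'
          exact hb'.2.2.2.2 false rfl

/-- the size of a lower part with a digit two -/
private theorem fr_low {A B : List ℕ} {i k : ℕ} (h : SD (A ++ i :: B)) (hi : i + 1 ∉ A) (hk : i + 1 < k)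
    (hA : ∀ a ∈ A, a < k) : 2 * (ofl (A ++ B) + 2 * 3 ^ i) + 1 ≤ 3 ^ k := by
  have h1 := (sd_up h hi).2.1
  have h2 : ofl (A ++ (i + 1) :: B) = ofl (A ++ B) + 3 * 3 ^ i := by
    rw [ofl_append, ofl_append, ofl_cons, pow_succ]
    ring
  have h3 := ofl_lt (p := k) h1 (by
    intro q hq
    rcases List.mem_append.1 hq with hq | hq
    · exact hA q hq
    · rcases List.mem_cons.1 hq with rfl | hq
      · exact hk
      · have := (sd_mid.1 h).2.2.2.1 q hq
        omega)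
  have h4 : 0 < 3 ^ i := by positivity
  omega

private theorem fr_tri {m I i : ℕ} {H A B : List ℕ} (hI : ev m (run H) (I % 12))
    (hA : ev m (run (H ++ A)) (i % 12)) (hc : i % 12 = I % 12) (hi : i ≤ I) (hsd : SD (A ++ i :: B))
    (hi1 : i + 1 ∉ A) (hlt : ∀ p ∈ A, p < I + 2) :
    (i = I ∧ A = []) ∨ 2 * (ofl (A ++ B) + 2 * 3 ^ i) + 1 ≤ 3 ^ I ∨
      (3 ^ (I + 1) ≤ ofl (A ++ B) + 2 * 3 ^ i ∧
        2 * (ofl (A ++ B) + 2 * 3 ^ i - 3 ^ (I + 1)) + 1 ≤ 3 ^ I) := by
  rcases fr_next hI hA with rfl | ⟨-, hc3, f, g, R, rfl, hf, hg⟩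
  · by_cases h1 : i = I
    · exact Or.inl ⟨h1, rfl⟩
    · exact Or.inr (Or.inl (fr_low hsd hi1 (by omega) (fun a ha => absurd ha List.not_mem_nil)))
  · right
    have h1 := sd_mid.1 hsd
    have h2 := sd_cons.1 h1.1
    have h3 := sd_cons.1 h2.2
    have hgf : g < f := h2.1 g List.mem_cons_self
    have hig : i < g := h1.2.2.1 g (List.mem_cons_of_mem _ List.mem_cons_self)
    have hfI : f < I + 2 := hlt f List.mem_cons_self
    by_cases h4 : f = I + 1
    · right
      have h5 : SD ((g :: R) ++ i :: B) := by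
        rw [List.cons_append] at hsd
        exact (sd_cons.1 hsd).2
      have h6 : i + 1 ∉ g :: R := fun h => hi1 (List.mem_cons_of_mem _ h)
      have h7 := fr_low (k := I) h5 h6 (by omega) (by
        intro a ha
        rcases List.mem_cons.1 ha with rfl | ha
        · omega
        · have := h3.1 a ha
          omega)
      have h8 : ofl ((f :: g :: R) ++ B) = 3 ^ (I + 1) + ofl ((g :: R) ++ B) := by
        rw [List.cons_append, ofl_cons, h4]
      rw [h8]
      refine ⟨by omega, ?_⟩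
      have h9 : 3 ^ (I + 1) + ofl ((g :: R) ++ B) + 2 * 3 ^ i - 3 ^ (I + 1) =
          ofl ((g :: R) ++ B) + 2 * 3 ^ i := by omega
      rw [h9]
      exact h7
    · left
      refine fr_low hsd hi1 (by omega) ?_
      intro a ha
      rcases List.mem_cons.1 ha with rfl | ha
      · omega
      · have := h2.1 a ha
        omega

/-- the common argument -/
private theorem fr_main {m I : ℕ} {A1 A2 A3 B1 B2 B3 : List ℕ} {i1 i2 i3 : ℕ}
    (s1 : SD (A1 ++ i1 :: B1)) (n1 : i1 + 1 ∉ A1) (e1 : ev m (run A1) (i1 % 12)) (c1 : i1 % 12 = I % 12)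
    (l1 : i1 ≤ I)
    (s2 : SD (A2 ++ i2 :: B2)) (n2 : i2 + 1 ∉ A2) (e2 : ev m (run A2) (i2 % 12)) (c2 : i2 % 12 = I % 12)
    (l2 : i2 ≤ I)
    (s3 : SD (A3 ++ i3 :: B3)) (n3 : i3 + 1 ∉ A3) (e3 : ev m (run A3) (i3 % 12)) (c3 : i3 % 12 = I % 12)
    (l3 : i3 ≤ I) (hI : I = i1 ∨ I = i2 ∨ I = i3)
    (h : (ofl (A1 ++ B1) + 2 * 3 ^ i1) + (ofl (A3 ++ B3) + 2 * 3 ^ i3) =
      2 * (ofl (A2 ++ B2) + 2 * 3 ^ i2)) :
    ofl (A1 ++ B1) + 2 * 3 ^ i1 = ofl (A3 ++ B3) + 2 * 3 ^ i3 := by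
  obtain ⟨H1, K1, rfl, p1, q1⟩ := sd_split (sd_mid.1 s1).1 (I + 2)
  obtain ⟨H2, K2, rfl, p2, q2⟩ := sd_split (sd_mid.1 s2).1 (I + 2)
  obtain ⟨H3, K3, rfl, p3, q3⟩ := sd_split (sd_mid.1 s3).1 (I + 2)
  have dv : ∀ {H : List ℕ}, SD H → (∀ a ∈ H, I + 2 ≤ a) → ∃ t, ofl H = 3 ^ (I + 2) * t := by
    intro H hs hp
    have h1 := (ofl_divmod (A := H) (B := []) (p := I + 2) (by rw [List.append_nil]; exact hs) hp
      (fun b hb => absurd hb List.not_mem_nil)).2
    exact ⟨_, h1⟩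
  have sh : ∀ {H K B : List ℕ} {i : ℕ}, SD ((H ++ K) ++ i :: B) → SD H ∧ SD (K ++ i :: B) := by
    intro H K B i hs
    rw [List.append_assoc] at hs
    exact ⟨(sd_append.1 hs).1, (sd_append.1 hs).2.1⟩
  obtain ⟨t1, g1⟩ := dv (sh s1).1 p1
  obtain ⟨t2, g2⟩ := dv (sh s2).1 p2
  obtain ⟨t3, g3⟩ := dv (sh s3).1 p3
  have m1 : i1 + 1 ∉ K1 := fun h4 => n1 (List.mem_append_right _ h4)
  have m2 : i2 + 1 ∉ K2 := fun h4 => n2 (List.mem_append_right _ h4)
  have m3 : i3 + 1 ∉ K3 := fun h4 => n3 (List.mem_append_right _ h4)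
  have b1 := fr_low (k := I + 2) (sh s1).2 m1 (by omega) q1
  have b2 := fr_low (k := I + 2) (sh s2).2 m2 (by omega) q2
  have b3 := fr_low (k := I + 2) (sh s3).2 m3 (by omega) q3
  have u1 : ofl ((H1 ++ K1) ++ B1) = ofl H1 + ofl (K1 ++ B1) := by rw [List.append_assoc, ofl_append]
  have u2 : ofl ((H2 ++ K2) ++ B2) = ofl H2 + ofl (K2 ++ B2) := by rw [List.append_assoc, ofl_append]
  have u3 : ofl ((H3 ++ K3) ++ B3) = ofl H3 + ofl (K3 ++ B3) := by rw [List.append_assoc, ofl_append]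
  rw [u1, u2, u3] at h
  have hh : t1 + t3 = 2 * t2 := by
    rw [g1, g2, g3] at h
    have hpos : 0 < 3 ^ (I + 2) := by positivity
    set P := 3 ^ (I + 2) with hP
    have e4 : P * (t1 + t3) + (ofl (K1 ++ B1) + 2 * 3 ^ i1) + (ofl (K3 ++ B3) + 2 * 3 ^ i3) =
        P * (2 * t2) + 2 * (ofl (K2 ++ B2) + 2 * 3 ^ i2) := by
      have : P * (t1 + t3) = P * t1 + P * t3 := by ring
      have : P * (2 * t2) = 2 * (P * t2) := by ring
      omega
    by_contra hne
    rcases lt_or_gt_of_ne hne with h5 | h5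
    · have h6 : P * (t1 + t3 + 1) ≤ P * (2 * t2) := Nat.mul_le_mul_left _ h5
      have h7 : P * (t1 + t3 + 1) = P * (t1 + t3) + P := by ring
      omega
    · have h6 : P * (2 * t2 + 1) ≤ P * (t1 + t3) := Nat.mul_le_mul_left _ h5
      have h7 : P * (2 * t2 + 1) = P * (2 * t2) + P := by ring
      omega
  have hH : ofl H1 + ofl H3 = 2 * ofl H2 := by
    rw [g1, g2, g3, ← mul_add, hh]
    ring
  obtain ⟨r1, r3⟩ := rel0 (sh s1).1 (sh s2).1 (sh s3).1 hH
  subst r1
  subst r3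
  have hlow : (ofl (K1 ++ B1) + 2 * 3 ^ i1) + (ofl (K3 ++ B3) + 2 * 3 ^ i3) =
      2 * (ofl (K2 ++ B2) + 2 * 3 ^ i2) := by omega
  have hnil : ∀ {K B : List ℕ} {i : ℕ}, SD (K ++ i :: B) → i + 1 ∉ K → (∀ p ∈ K, p < I + 2) → I = i →
      K = [] := by
    intro K B i hs hn hq hii
    rcases K with _ | ⟨f, R⟩
    · rfl
    · exfalso
      have h4 := (sd_mid.1 hs).2.2.1 f List.mem_cons_self
      have h5 := hq f List.mem_cons_self
      have h6 : f ≠ i + 1 := fun h7 => hn (h7 ▸ List.mem_cons_self)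
      omega
  have hev : ev m (run H3) (I % 12) := by
    rcases hI with h4 | h4 | h4
    · have h5 := hnil (sh s1).2 m1 q1 h4
      rw [h5, List.append_nil] at e1
      rw [← c1]
      exact e1
    · have h5 := hnil (sh s2).2 m2 q2 h4
      rw [h5, List.append_nil] at e2
      rw [← c2]
      exact e2
    · have h5 := hnil (sh s3).2 m3 q3 h4
      rw [h5, List.append_nil] at e3
      rw [← c3]
      exact e3
  -- the trichotomy in numbers
  have tri : ∀ {K B : List ℕ} {i : ℕ}, SD (K ++ i :: B) → i + 1 ∉ K → (∀ p ∈ K, p < I + 2) →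
      ev m (run (H3 ++ K)) (i % 12) → i % 12 = I % 12 → i ≤ I →
      (i = I ∧ K = [] ∧ 2 * 3 ^ I ≤ ofl (K ++ B) + 2 * 3 ^ i ∧
        2 * (ofl (K ++ B) + 2 * 3 ^ i) + 1 ≤ 5 * 3 ^ I) ∨
      (i ≠ I ∧ 2 * (ofl (K ++ B) + 2 * 3 ^ i) + 1 ≤ 3 ^ I) ∨
      (i ≠ I ∧ 3 * 3 ^ I ≤ ofl (K ++ B) + 2 * 3 ^ i ∧
        2 * (ofl (K ++ B) + 2 * 3 ^ i) + 1 ≤ 7 * 3 ^ I) := by
    intro K B i hs hn hq he hc hl
    by_cases hii : i = I
    · left
      have h4 := hnil hs hn hq hii.symm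
      have h5 := ofl_lt (sd_mid.1 hs).2.1 (sd_mid.1 hs).2.2.2.1
      refine ⟨hii, h4, ?_, ?_⟩
      · rw [hii]
        omega
      · rw [h4, List.nil_append, hii]
        rw [hii] at h5
        omega
    · rcases fr_tri hev he hc hl hs hn hq with h4 | h4 | h4
      · exact absurd h4.1 hii
      · exact Or.inr (Or.inl ⟨hii, h4⟩)
      · refine Or.inr (Or.inr ⟨hii, ?_, ?_⟩)
        · rw [pow_succ] at h4
          omega
        · rw [pow_succ] at h4
          omega
  have T1 := tri (sh s1).2 m1 q1 e1 c1 l1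
  have T2 := tri (sh s2).2 m2 q2 e2 c2 l2
  have T3 := tri (sh s3).2 m3 q3 e3 c3 l3
  have hP : 0 < 3 ^ I := by positivity
  have fin : (i1 = I ∧ K1 = []) ∧ (i2 = I ∧ K2 = []) ∧ (i3 = I ∧ K3 = []) := by
    rcases T1 with ⟨v1, w1, x1, y1⟩ | ⟨v1, w1⟩ | ⟨v1, w1, x1⟩ <;>
      rcases T2 with ⟨v2, w2, x2, y2⟩ | ⟨v2, w2⟩ | ⟨v2, w2, x2⟩ <;>
      rcases T3 with ⟨v3, w3, x3, y3⟩ | ⟨v3, w3⟩ | ⟨v3, w3, x3⟩ <;>
      first
        | exact ⟨⟨v1, w1⟩, ⟨v2, w2⟩, ⟨v3, w3⟩⟩
        | (exfalso; omega)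
  obtain ⟨⟨a1, z1⟩, ⟨a2, z2⟩, ⟨a3, z3⟩⟩ := fin
  subst z1
  subst z2
  subst z3
  simp only [List.nil_append] at hlow
  have sB : ∀ {K B : List ℕ} {i : ℕ}, SD (K ++ i :: B) → SD B := fun hs => (sd_mid.1 hs).2.1
  have hB : ofl B1 + ofl B3 = 2 * ofl B2 := by
    rw [a1, a2, a3] at hlow
    omega
  obtain ⟨r1, r3⟩ := rel0 (sB (sh s1).2) (sB (sh s2).2) (sB (sh s3).2) hB
  rw [r1, r3, a1, a3]

theorem cc_fre {m : ℕ} {v : SG} (hm : okm m v) : Fre (CC m v) := by
  intro a ha b hb c hc h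
  obtain ⟨A1, i1, B1, s1, n1, e1, g1, rfl⟩ := ha
  obtain ⟨A2, i2, B2, s2, n2, e2, g2, rfl⟩ := hb
  obtain ⟨A3, i3, B3, s3, n3, e3, g3, rfl⟩ := hc
  have r12 : run (A1 ++ i1 :: B1) = run (A2 ++ i2 :: B2) := congrArg (fun q : SG => q.2.1) (g1.trans g2.symm)
  have r32 : run (A3 ++ i3 :: B3) = run (A2 ++ i2 :: B2) := congrArg (fun q : SG => q.2.1) (g3.trans g2.symm)
  have k1 := fr_cls e1 e2 r12
  have k3 := fr_cls e3 e2 r32
  obtain ⟨I, h1, h2, h3, h4⟩ : ∃ I, i1 ≤ I ∧ i2 ≤ I ∧ i3 ≤ I ∧ (I = i1 ∨ I = i2 ∨ I = i3) := by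
    refine ⟨max i1 (max i2 i3), by omega, by omega, by omega, by omega⟩
  exact fr_main (I := I) s1 n1 e1 (by omega) h1 s2 n2 e2 (by omega) h2 s3 n3 e3 (by omega) h3 h4 h

end Pool.Agent.STF
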