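import Pool.Agent.STF.Pz2
import Pool.Agent.STF.Lf
import Pool.Agent.STF.Lh

/-!
# Project STF, module Pz4 (section lead helper90): the slot letter is adjacent to the next letter

`X = A ++ D`, `Y = ofl (A ++ D) + 2 * 3^r`, `D = B ++ e :: C`, `v = sgl (A ++ r :: D)`.
Legality: `X'`, `Z'` lists, `Y'` given by `A' i' B'`, `sgl (A' ++ i' :: B') = v`, `slot z (run A')` (from `ev`), `i' % 12 = 6` by
`rc_run` for both words.  `hop4`; counts: `ct X' = ct (A ++ D)`, `ct (A' ++ i' :: B') = ct (A ++ D) + ee 6`: only the first case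
of `hop4` is possible (look at the classes `6` and `7`), `Z' = A' ++ (i' + 1) :: i' :: B'`.
`run Z' = run L` is `be _ _ _ k` (`run_par`); `parse_at` for `Z'`: `i' :: B' = r' :: (B1 ++ e' :: C')`, so `r' = i'`;
`bt_par` and `uu_adj`: `bt z Z' ↔ ix C' = 0 ↔ C' = [] ↔ k = 6`, and in the same way `bt z L ↔ k = 6`.
-/

set_option autoImplicit false

namespace Pool.Agent.STF

open Pool.Agent.STN

private theorem pz4_ev {z c : ℕ} {q : St} (hz : z = 1 ∨ z = 2) (h : ev z q c) : slot z q := by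
  rcases h with ⟨h0, -⟩ | ⟨-, h1⟩ | ⟨h0, -⟩
  · omega
  · exact h1
  · omega

private theorem pz4_ct (A D : List ℕ) (i s : ℕ) : ct (A ++ i :: D) s = ct (A ++ D) s + ee (i % 12) s := by
  rw [ct_append, ct_append, ct_cons]
  ring

private theorem pz4_bt {z : ℕ} {A D : List ℕ} {i : ℕ} (hs : slot z (run A)) (hi : i % 12 = 6) {a b k : ℕ}
    (h : run (A ++ (i + 1) :: i :: D) = .be false a b k) (hk : k = 6 ∨ k = 7) :
    bt z (A ++ (i + 1) :: i :: D) ↔ k = 6 := by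
  obtain ⟨r, B, e, C, h1, h2, h3, h4, h5⟩ := parse_at hs h hk
  obtain ⟨h6, h7⟩ := List.cons.inj h1
  subst h6
  rw [h7, bt_par hs hi h3 h4, uu_adj, ix_zero, h5]

theorem adj_line {L A B C : List ℕ} {r e z : ℕ} {q : SG} (hL : SD L) (hz : z = 1 ∨ z = 2)
    (hLe : L = A ++ (r + 1) :: r :: (B ++ e :: C)) (hs : slot z (run A)) (hr : r % 12 = 6) (he : e % 12 = 1)
    (hK : KK z (r :: B) 1)
    (hq : ∀ L', SD L' → sgl L' = q → run L' = run L ∧ ¬ (bt z L' ↔ bt z L)) :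
    ∃ v X Y, Ok v ∧ SD X ∧ Y ∈ CC z v ∧ ofl X + ofl L = 2 * Y ∧ ofl X + 2 ≤ Y ∧
      Leg 0 (GG (sgl X)) (CC z v) (GG q) := by
  obtain ⟨a, b, k, hrun, hk, -⟩ := run_par (i := r + 1) (C := C) hs he hK
  rw [← hLe] at hrun
  generalize hD : B ++ e :: C = D at hLe
  obtain ⟨hA, hrD, hA1, -, hAD⟩ := sd_mid.1 (hLe ▸ hL)
  have hD1 : SD D := (sd_cons.1 hrD).2
  have hX : SD (A ++ D) := sd_append.2 ⟨hA, hD1, fun x hx y hy => hAD x hx y (List.mem_cons_of_mem _ hy)⟩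
  have hR : SD (A ++ r :: D) := sd_append.2 ⟨hA, hrD, hAD⟩
  have hA2 : r + 1 ∉ A := fun h => lt_irrefl _ (hA1 _ h)
  have hpos : 0 < 3 ^ r := by positivity
  have hoL : ofl L = ofl (A ++ D) + 4 * 3 ^ r := by
    rw [hLe, ofl_append, ofl_append, ofl_cons, ofl_cons, pow_succ]
    ring
  refine ⟨sgl (A ++ r :: D), A ++ D, ofl (A ++ D) + 2 * 3 ^ r, ⟨_, hR, rfl⟩, hX,
    ⟨A, r, D, hR, hA2, Or.inr (Or.inl ⟨hz, hs⟩), rfl, rfl⟩, by rw [hoL]; ring, by omega, ?_⟩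
  rintro x ⟨LX, hX1, hX2, rfl⟩ y ⟨A', i', B', hs1, hi1, hev, hv, rfl⟩ w ⟨LZ, hZ1, hZ2, rfl⟩ heq
  have hs' := pz4_ev hz hev
  have hrn : run (A' ++ i' :: B') = run (A ++ r :: D) := by
    have h1 : (sgl (A' ++ i' :: B')).2.1 = (sgl (A ++ r :: D)).2.1 := by rw [hv]
    exact h1
  have hi6 : i' % 12 = 6 := by
    have h1 := rc_run (D := B') (i := i') hs'
    rw [hrn, rc_run (D := D) (i := r) hs] at h1
    have h2 := Option.some.inj h1
    omega
  have hi7 : (i' + 1) % 12 = 7 := by omega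
  have hct : ∀ s < 12, ct (A' ++ B') s = ct (A ++ D) s := by
    intro s hs2
    have h1 := ct_of_sgl hv s hs2
    rw [pz4_ct, pz4_ct, hi6, hr] at h1
    exact add_right_cancel h1
  have hcx : ∀ s < 12, ct LX s = ct (A' ++ B') s := fun s hs2 => by
    rw [ct_of_sgl hX2 s hs2, hct s hs2]
  have one3 : (1 : ZMod 3) ≠ 0 := by decide
  have heq' : ofl LX + ofl LZ = 2 * ofl (A' ++ B') + 4 * 3 ^ i' := by
    rw [heq]
    ring
  rcases hop4 hs1 hi1 hX1 hZ1 heq' with ⟨-, h2⟩ | ⟨h1, -⟩ | ⟨h1, -⟩ | ⟨h1, -⟩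
  · obtain ⟨h3, h4⟩ := hq LZ hZ1 hZ2
    apply h4
    rw [hrun, h2] at h3
    rw [h2, pz4_bt hs' hi6 h3 hk, hLe]
    rw [hLe] at hrun
    rw [pz4_bt hs hr hrun hk]
  · have h3 := hcx 6 (by norm_num)
    rw [h1, pz4_ct, hi6, ee_self] at h3
    exact one3 (by linear_combination h3)
  · have h3 := hcx 7 (by norm_num)
    rw [h1, pz4_ct, hi7, ee_self] at h3
    exact one3 (by linear_combination h3)
  · have h3 := hcx 6 (by norm_num)
    have h4 : A' ++ (i' + 1) :: i' :: B' = A' ++ (i' + 1) :: (i' :: B') := rfl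
    rw [h1, pz4_ct, hi7, ee_ne (by decide), pz4_ct, hi6, ee_self] at h3
    exact one3 (by linear_combination h3)

end Pool.Agent.STF
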