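import Pool.Agent.STF.Pz2
import Pool.Agent.STF.Lf
import Pool.Agent.STF.Lh

/-!
# Project STF, module Pz5 (section lead helper90): the slot letter moves down by one, `κ = 0`

`i = p + 1`.  `X = A ++ p :: D`, `Y = ofl (A ++ D) + 2 * 3^p`, `D = r :: (B ++ e :: C)`, `v = sgl X`.
Legality: `X'`, `Z'` lists, `Y'` given by `A' i' B'`, `sgl (A' ++ i' :: B') = v`, `slot z (run A')`, `i' % 12 = p % 12` by `rc_run`.
`hop4`; counts: `ct X' = ct (A' ++ i' :: B')`: only the second case of `hop4` is possible (`i' % 12`, `(i' + 1) % 12` are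
different classes), `Z' = A' ++ (i' + 1) :: B'`.  `parse_at` for `Z'` and its tail `B' = r' :: (B1 ++ e' :: C')`, with
`C' = []` iff `C = []` because `run Z' = run L`; `bt_par` for `Z'`, for `A' ++ i' :: B'` (the bit is the one of `v`, i.e. of `X`),
for `X` and for `L`.  Class of `p` not `8`: `uu_step` gives `uu (i' + 1) r' = uu i' r'`, `uu (p + 1) r = uu p r`:
`bt z Z' ↔ bt z (A' ++ i' :: B') ↔ bt z X ↔ bt z L`.
`C = []`, class `8`: `uu (i' + 1) r' = uu i' r' + 1 ≠ 0 = ix []`: `bt z Z'` and `bt z L` are false.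
-/

set_option autoImplicit false

namespace Pool.Agent.STF

open Pool.Agent.STN

private theorem pz5_run {L L' : List ℕ} (h : sgl L = sgl L') : run L = run L' :=
  congrArg (fun v : SG => v.2.1) h

private theorem pz5_bit {L L' : List ℕ} (h : sgl L = sgl L') {z : ℕ} (hz : z = 1 ∨ z = 2) : bt z L ↔ bt z L' := by
  have h1 : (sgl L).2.2 = (sgl L').2.2 := by rw [h]
  rcases hz with rfl | rfl
  · have h2 : bt 1 L = bt 1 L' := congrArg Prod.fst h1
    rw [h2]
  · have h2 : bt 2 L = bt 2 L' := congrArg Prod.snd h1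
    rw [h2]

private theorem pz5_sd {A D : List ℕ} {p : ℕ} (h : SD (A ++ (p + 1) :: D)) (hD : ∀ b ∈ D, b < p) :
    SD (A ++ p :: D) ∧ p + 1 ∉ A := by
  obtain ⟨h1, h2, h3, h4, h5⟩ := sd_mid.1 h
  have hA : ∀ a ∈ A, p < a := fun a ha => by
    have := h3 a ha
    omega
  refine ⟨sd_mid.2 ⟨h1, h2, hA, hD, fun a ha b hb => (hD b hb).trans (hA a ha)⟩, fun hmem => ?_⟩
  have := h3 _ hmem
  omega

theorem hop0_line {L A B C : List ℕ} {p r e z : ℕ} {q : SG} (hL : SD L) (hz : z = 1 ∨ z = 2)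
    (hLe : L = A ++ (p + 1) :: r :: (B ++ e :: C)) (hs : slot z (run A)) (hr : r % 12 = 6) (he : e % 12 = 1)
    (hK : KK z (r :: B) 1) (hp : r < p) (h8 : p % 12 ≠ 8 ∨ C = [])
    (hq : ∀ L', SD L' → sgl L' = q → run L' = run L ∧ ¬ (bt z L' ↔ bt z L)) :
    ∃ v X Y, Ok v ∧ SD X ∧ Y ∈ CC z v ∧ ofl X + ofl L = 2 * Y ∧ ofl X + 2 ≤ Y ∧
      Leg 0 (GG (sgl X)) (CC z v) (GG q) := by
  obtain ⟨D, hD⟩ : ∃ D, D = r :: (B ++ e :: C) := ⟨_, rfl⟩
  have hL1 : L = A ++ (p + 1) :: D := by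
    rw [hLe, hD]
  have hL' := hL
  rw [hL1] at hL'
  have hDp : ∀ b ∈ D, b < p := by
    obtain ⟨-, h3, -, -, -⟩ := sd_mid.1 hL'
    rw [hD] at h3
    intro b hb
    rw [hD] at hb
    rcases List.mem_cons.1 hb with rfl | hb
    · exact hp
    · exact ((sd_cons.1 h3).1 b hb).trans hp
  obtain ⟨sX, hpA⟩ := pz5_sd hL' hDp
  have hLo : ofl L = ofl A + (3 ^ (p + 1) + ofl D) := by
    rw [hL1, ofl_append, ofl_cons]
  have hXo : ofl (A ++ p :: D) = ofl A + (3 ^ p + ofl D) := by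
    rw [ofl_append, ofl_cons]
  have hYo : ofl (A ++ D) = ofl A + ofl D := ofl_append A D
  have h3p : 3 ^ (p + 1) = 3 * 3 ^ p := pow_succ' 3 p
  have hp3 : 3 ≤ 3 ^ p := by
    calc 3 = 3 ^ 1 := (pow_one 3).symm
      _ ≤ 3 ^ p := Nat.pow_le_pow_right (by norm_num) (by omega)
  refine ⟨sgl (A ++ p :: D), A ++ p :: D, ofl (A ++ D) + 2 * 3 ^ p, ⟨_, sX, rfl⟩, sX,
    ⟨A, p, D, sX, hpA, Or.inr (Or.inl ⟨hz, hs⟩), rfl, rfl⟩, ?_, ?_, ?_⟩
  · rw [hLo, hXo, hYo, h3p]
    omega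
  · rw [hXo, hYo]
    omega
  rintro X' ⟨LX, hLX, hsX, rfl⟩ Y' ⟨A', i', B', hSD', hi', hev, hsv, rfl⟩ Z' ⟨LZ, hLZ, hsZ, rfl⟩ heq
  have hs' : slot z (run A') := by
    rcases hev with ⟨h, -⟩ | ⟨-, h⟩ | ⟨h, -⟩
    · omega
    · exact h
    · omega
  -- the class of `i'`
  have hc1 : i' % 12 = p % 12 := by
    have h1 := rc_run (D := B') (i := i') hs'
    rw [pz5_run hsv, rc_run (D := D) (i := p) hs] at h1
    exact (Option.some.inj h1).symm
  have hct : ∀ s < 12, ct LX s = ct A' s + (ee (i' % 12) s + ct B' s) := by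
    intro s hs12
    have h1 := ct_of_sgl (hsX.trans hsv.symm) s hs12
    rw [h1, ct_append, ct_cons]
  have heq' : ofl LX + ofl LZ = 2 * ofl (A' ++ B') + 4 * 3 ^ i' := by omega
  have hZ : LZ = A' ++ (i' + 1) :: B' := by
    rcases hop4 hSD' hi' hLX hLZ heq' with ⟨h1, h2⟩ | ⟨h1, h2⟩ | ⟨h1, h2⟩ | ⟨h1, h2⟩
    · exfalso
      have h3 := hct (i' % 12) (by omega)
      rw [h1, ct_append, ee_self] at h3
      have h4 : (1 : ZMod 3) = 0 := by linear_combination -h3
      exact absurd h4 (by decide)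
    · exact h2
    · exfalso
      have h3 := hct (i' % 12) (by omega)
      rw [h1, ct_append, ct_cons, ee_self, ee_ne (by omega)] at h3
      have h4 : (1 : ZMod 3) = 0 := by linear_combination -h3
      exact absurd h4 (by decide)
    · exfalso
      have h3 := hct ((i' + 1) % 12) (by omega)
      rw [h1, ct_append, ct_cons, ct_cons, ee_self] at h3
      have h4 : (1 : ZMod 3) = 0 := by linear_combination h3
      exact absurd h4 (by decide)
  -- parse of `LZ`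
  obtain ⟨hrZ, hbZ⟩ := hq LZ hLZ hsZ
  obtain ⟨a, b, k, hrL, hk, hkC⟩ := run_par (A := A) (i := p + 1) (r := r) (B := B) (e := e) (C := C) hs he hK
  rw [← hLe] at hrL
  have hrZ1 : run (A' ++ (i' + 1) :: B') = .be false a b k := by
    rw [← hZ, hrZ, hrL]
  obtain ⟨r', B1, e', C', hB', hr', he', hK', hkC'⟩ := parse_at hs' hrZ1 hk
  have hri : r' < i' := (sd_mid.1 hSD').2.2.2.1 r' (by rw [hB']; simp)
  have e1 : bt z LZ ↔ ix C' = uu (i' + 1) r' := by
    rw [hZ, hB']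
    exact bt_par hs' hr' he' hK'
  have e2 : bt z (A' ++ i' :: B') ↔ ix C' = uu i' r' := by
    rw [hB']
    exact bt_par hs' hr' he' hK'
  have e3 : bt z (A ++ p :: D) ↔ ix C = uu p r := by
    rw [hD]
    exact bt_par hs hr he hK
  have e4 : bt z L ↔ ix C = uu (p + 1) r := by
    rw [hLe]
    exact bt_par hs hr he hK
  have hb := pz5_bit hsv hz
  rw [e2, e3] at hb
  refine hbZ ?_
  rw [e1, e4, uu_step hri, uu_step hp, hc1]
  by_cases h9 : p % 12 = 8
  · have hC : C = [] := h8.resolve_left (fun h => h h9)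
    have hC' : C' = [] := hkC'.1 (hkC.2 hC)
    rw [if_pos h9, hC, hC', ix_nil]
    constructor
    · intro h
      omega
    · intro h
      omega
  · rw [if_neg h9, add_zero, add_zero]
    exact hb

end Pool.Agent.STF
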