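import Pool.Agent.STF.Pz2
import Pool.Agent.STF.Lf
import Pool.Agent.STF.Lh

/-!
# Project STF, module Pz6 (section lead helper90): the slot letter moves down by one, `κ = 1`

`C = C1 ++ [j]`, `D = r :: (B ++ e :: C1)`: `X = A ++ p :: D`, `V = A ++ p :: (D ++ dn j)`, `Y = ofl (A ++ (D ++ dn j)) + 2 * 3^p`,
`v = sgl V`.
Legality: `Y'` given by `A' i' B'`, `sgl (A' ++ i' :: B') = v`, `slot z (run A')`, `i' % 12 = 8`.  `parse_at`:
`B' = r' :: ..` with `r' % 12 = 6`, so `i' - 1 ∉ B'`.  `hop1`: `B' = B1 ++ dn j'`, Booleans `a b c`.  `B1 ≠ []` (`B'` is not of the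
form `dn j'`: classes of the first letters), so its first letter is `r'`.  The recorded class of `X'` is `8`:
`c = true` gives `9`, `b = c = false` gives `6`.  So `c = false`, `b = true`.  Counts: `ct (dn j') - [a] ee (j') = ct (dn j)`:
`a = false` by `STN.ej_ne`.  `X' = A' ++ i' :: B1`, `Z' = A' ++ (i' + 1) :: (B1 ++ [j'])`.  `parse_at` for `X'`:
`B1 = r' :: (B2 ++ e' :: C2)`; `bt_par` for `Z'`, `A' ++ i' :: B'`, `V`, `L`; `ix_pred`, `uu_step`.
-/

set_option autoImplicit false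

namespace Pool.Agent.STF

open Pool.Agent.STN

private theorem pz6_run {L L' : List ℕ} (h : sgl L = sgl L') : run L = run L' :=
  congrArg (fun v : SG => v.2.1) h

private theorem pz6_bit {L L' : List ℕ} (h : sgl L = sgl L') {z : ℕ} (hz : z = 1 ∨ z = 2) : bt z L ↔ bt z L' := by
  have h1 : (sgl L).2.2 = (sgl L').2.2 := by rw [h]
  rcases hz with rfl | rfl
  · have h2 : bt 1 L = bt 1 L' := congrArg Prod.fst h1
    rw [h2]
  · have h2 : bt 2 L = bt 2 L' := congrArg Prod.snd h1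
    rw [h2]

private theorem pz6_fk8 (D : List ℕ) : fk 8 D = 8 := by
  induction D with
  | nil => exact fk_nil 8
  | cons d D ih =>
    rw [fk_cons]
    have h1 : nx 8 (d % 12) = 8 := by simp [nx]
    rw [h1, ih]

private theorem pz6_dn {z m k : ℕ} (h : KK z (dn m) k) (hk : k = 6 ∨ k = 7) : False := by
  rcases h with ⟨-, r, b, D', h1, h2, h3⟩ | ⟨-, h3⟩
  · rcases D' with _ | ⟨d, D''⟩
    · rw [fk_nil] at h3
      omega
    · rcases m with _ | _ | _ | m
      · have h5 := congrArg List.length h1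
        simp [dn] at h5
      · have h5 := congrArg List.length h1
        simp [dn] at h5
      · have h5 := congrArg List.length h1
        simp [dn] at h5
      · rw [dn_succ, dn_succ, dn_succ] at h1
        simp only [List.cons.injEq] at h1
        obtain ⟨e1, -, e3, -⟩ := h1
        rw [fk_cons] at h3
        have h4 : nx 0 (d % 12) = 8 := by
          have : d % 12 ≠ 6 := by omega
          simp [nx, this]
        rw [h4, pz6_fk8] at h3
        omega
  · rcases m with _ | m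
    · have : dn 0 = [] := by simp [dn]
      rw [this, fk_nil] at h3
      omega
    · rw [dn_succ, fk_cons] at h3
      by_cases hm : m % 12 = 6
      · have h4 : nx 0 (m % 12) = 1 := by simp [nx, hm]
        rw [h4] at h3
        obtain ⟨m', rfl⟩ : ∃ m', m = m' + 1 := ⟨m - 1, by omega⟩
        rw [dn_succ, fk_cons] at h3
        have h5 : nx 1 (m' % 12) = 8 := by
          have h6 : m' % 12 = 5 := by omega
          simp [nx, h6]
        rw [h5, pz6_fk8] at h3
        omega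
      · have h4 : nx 0 (m % 12) = 8 := by simp [nx, hm]
        rw [h4, pz6_fk8] at h3
        omega

private theorem pz6_sd {A D : List ℕ} {p j : ℕ} (h : SD (A ++ (p + 1) :: (D ++ [j]))) (hD : ∀ b ∈ D, b < p) :
    SD (A ++ p :: D) ∧ SD (A ++ p :: (D ++ dn j)) ∧ p + 1 ∉ A := by
  obtain ⟨h1, h2, h3, h4, h5⟩ := sd_mid.1 h
  obtain ⟨g1, -, g3⟩ := sd_append.1 h2
  have hj : ∀ a ∈ D, j < a := fun a ha => g3 a ha j (by simp)
  have hjp : j < p + 1 := h4 j (by simp)
  have hA : ∀ a ∈ A, p < a := fun a ha => by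
    have := h3 a ha
    omega
  refine ⟨sd_mid.2 ⟨h1, g1, hA, hD, fun a ha b hb => (hD b hb).trans (hA a ha)⟩, ?_, fun hmem => ?_⟩
  · have hb : ∀ b ∈ D ++ dn j, b < p := by
      intro b hb
      rcases List.mem_append.1 hb with hb | hb
      · exact hD b hb
      · have := mem_dn.1 hb
        omega
    refine sd_mid.2 ⟨h1, sd_append.2 ⟨g1, sd_dn j, ?_⟩, hA, hb, fun a ha b hb' => (hb b hb').trans (hA a ha)⟩
    intro a ha b hb'
    have h6 := hj a ha
    have h7 := mem_dn.1 hb'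
    omega
  · have := h3 _ hmem
    omega

theorem hop1_line {L A B C1 : List ℕ} {p r e j z : ℕ} {q : SG} (hL : SD L) (hz : z = 1 ∨ z = 2)
    (hLe : L = A ++ (p + 1) :: r :: (B ++ e :: (C1 ++ [j]))) (hs : slot z (run A)) (hr : r % 12 = 6)
    (he : e % 12 = 1) (hK : KK z (r :: B) 1) (hp : r < p) (h8 : p % 12 = 8)
    (hq : ∀ L', SD L' → sgl L' = q → run L' = run L ∧ ¬ (bt z L' ↔ bt z L)) :
    ∃ v X Y, Ok v ∧ SD X ∧ Y ∈ CC z v ∧ ofl X + ofl L = 2 * Y + 1 ∧ ofl X + 2 ≤ Y ∧
      Leg 1 (GG (sgl X)) (CC z v) (GG q) := by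
  obtain ⟨D, hD⟩ : ∃ D, D = r :: (B ++ e :: C1) := ⟨_, rfl⟩
  have hL1 : L = A ++ (p + 1) :: (D ++ [j]) := by
    rw [hLe, hD]
    simp
  have hV1 : D ++ dn j = r :: (B ++ e :: (C1 ++ dn j)) := by
    rw [hD]
    simp
  have hL' := hL
  rw [hL1] at hL'
  have hDp : ∀ b ∈ D, b < p := by
    obtain ⟨-, h2, -, -, -⟩ := sd_mid.1 hL'
    have h3 := (sd_append.1 h2).1
    rw [hD] at h3
    intro b hb
    rw [hD] at hb
    rcases List.mem_cons.1 hb with rfl | hb
    · exact hp
    · exact ((sd_cons.1 h3).1 b hb).trans hp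
  obtain ⟨sX, sV, hpA⟩ := pz6_sd hL' hDp
  have hdn := ofl_dn j
  have hLo : ofl L = ofl A + (3 ^ (p + 1) + (ofl D + 3 ^ j)) := by
    rw [hL1, ofl_append, ofl_cons, ofl_append, ofl_cons, ofl_nil]
    omega
  have hXo : ofl (A ++ p :: D) = ofl A + (3 ^ p + ofl D) := by
    rw [ofl_append, ofl_cons]
  have hYo : ofl (A ++ (D ++ dn j)) = ofl A + (ofl D + ofl (dn j)) := by
    rw [ofl_append, ofl_append]
  have h3p : 3 ^ (p + 1) = 3 * 3 ^ p := pow_succ' 3 p
  have hp3 : 3 ≤ 3 ^ p := by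
    calc 3 = 3 ^ 1 := (pow_one 3).symm
      _ ≤ 3 ^ p := Nat.pow_le_pow_right (by norm_num) (by omega)
  refine ⟨sgl (A ++ p :: (D ++ dn j)), A ++ p :: D, ofl (A ++ (D ++ dn j)) + 2 * 3 ^ p, ⟨_, sV, rfl⟩, sX,
    ⟨A, p, D ++ dn j, sV, hpA, Or.inr (Or.inl ⟨hz, hs⟩), rfl, rfl⟩, ?_, ?_, ?_⟩
  · rw [hLo, hXo, hYo, h3p]
    omega
  · rw [hXo, hYo]
    omega
  rintro X' ⟨LX, hLX, hsX, rfl⟩ Y' ⟨A', i', B', hSD', hi', hev, hsv, rfl⟩ Z' ⟨LZ, hLZ, hsZ, rfl⟩ heq
  have hs' : slot z (run A') := by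
    rcases hev with ⟨h, -⟩ | ⟨-, h⟩ | ⟨h, -⟩
    · omega
    · exact h
    · omega
  -- the class of `i'`
  have hc1 : i' % 12 = 8 := by
    have h1 := rc_run (D := B') (i := i') hs'
    rw [pz6_run hsv, rc_run (D := D ++ dn j) (i := p) hs] at h1
    have h2 := Option.some.inj h1
    omega
  -- states
  have hrV : ∃ a b k, run (A' ++ i' :: B') = .be false a b k ∧ (k = 6 ∨ k = 7) := by
    obtain ⟨a, b, k, h1, h2, -⟩ := run_par (A := A) (i := p) (r := r) (B := B) (e := e) (C := C1 ++ dn j) hs he hK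
    rw [← hV1] at h1
    exact ⟨a, b, k, (pz6_run hsv).trans h1, h2⟩
  obtain ⟨a0, b0, k0, hrV1, hk0⟩ := hrV
  obtain ⟨r', B1, e1, C', hB', hr', he1, hK', -⟩ := parse_at hs' hrV1 hk0
  have hKB : KK z B' k0 := by
    rw [← slot_be hs' (i' % 12)]
    refine ⟨a0, b0, ?_⟩
    rw [← rn_cons, ← run_append]
    exact hrV1
  have hri : r' < i' := (sd_mid.1 hSD').2.2.2.1 r' (by rw [hB']; simp)
  have hi1 : i' - 1 ∉ B' := by
    intro hmem
    have h1 := (sd_mid.1 hSD').2.1
    rw [hB'] at h1 hmem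
    rcases List.mem_cons.1 hmem with h2 | h2
    · omega
    · have h3 := (sd_cons.1 h1).1 _ h2
      omega
  obtain ⟨B0, j', hB0, hSB, hji, a, b, c, hXf, hZf⟩ := hop1 hSD' hi' (by omega) hi1 hLX hLZ heq
  have hB0' : ∃ B3, B0 = r' :: B3 := by
    rcases B0 with _ | ⟨r0, B3⟩
    · exfalso
      rw [List.nil_append] at hB0
      rw [hB0] at hKB
      exact pz6_dn hKB hk0
    · refine ⟨B3, ?_⟩
      rw [hB'] at hB0
      simp only [List.cons_append, List.cons.injEq] at hB0
      rw [hB0.1]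
  obtain ⟨B3, hB3⟩ := hB0'
  -- the recorded class of `LX`
  have hrcX : rc z (run LX) = some 8 := by
    rw [pz6_run hsX, rc_run (D := D) (i := p) hs, h8]
  have hcf : c = false := by
    rcases c with _ | _
    · rfl
    · exfalso
      have h1 : LX = A' ++ (i' + 1) :: ((if b then [i'] else []) ++ (B0 ++ (if a then [j'] else []))) := by
        rw [hXf]
        simp
      rw [h1, rc_run hs'] at hrcX
      have := Option.some.inj hrcX
      omega
  subst hcf
  have hbt : b = true := by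
    rcases b with _ | _
    · exfalso
      have h1 : LX = A' ++ r' :: (B3 ++ (if a then [j'] else [])) := by
        rw [hXf, hB3]
        simp
      rw [h1, rc_run hs'] at hrcX
      have := Option.some.inj hrcX
      omega
    · rfl
  subst hbt
  have hX2 : LX = A' ++ i' :: (B0 ++ (if a then [j'] else [])) := by
    rw [hXf]
    simp
  have hZ2 : LZ = A' ++ (i' + 1) :: (B0 ++ (if a then [] else [j'])) := by
    rw [hZf]
    simp
  have haf : a = false := by
    rcases a with _ | _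
    · rfl
    · exfalso
      refine ej_ne (l := 12) (j := j) (j' := j') (by norm_num) fun s hs12 => ?_
      have h1 := ct_of_sgl hsX s hs12
      have h2 := ct_of_sgl hsv s hs12
      rw [hX2, if_pos rfl] at h1
      rw [hB0] at h2
      simp only [ct_append, ct_cons, ct_nil, ct_dn] at h1 h2
      have h3 : ee (j' % 12) s = if j' % 12 = s then 1 else 0 := by
        unfold ee
        by_cases h4 : s = j' % 12
        · rw [if_pos h4, if_pos h4.symm]
        · rw [if_neg h4, if_neg (Ne.symm h4)]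
      rw [← h3]
      linear_combination h1 - h2
  subst haf
  have hX3 : LX = A' ++ i' :: B0 := by
    rw [hX2]
    simp
  have hZ3 : LZ = A' ++ (i' + 1) :: (B0 ++ [j']) := by
    rw [hZ2]
    simp
  -- parse of `LX`
  have hrX : ∃ a b k, run (A' ++ i' :: B0) = .be false a b k ∧ (k = 6 ∨ k = 7) := by
    obtain ⟨a, b, k, h1, h2, -⟩ := run_par (A := A) (i := p) (r := r) (B := B) (e := e) (C := C1) hs he hK
    rw [← hD] at h1
    rw [← hX3]
    exact ⟨a, b, k, (pz6_run hsX).trans h1, h2⟩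
  obtain ⟨a2, b2, k2, hrX1, hk2⟩ := hrX
  obtain ⟨r2, B2, e2, C2, hB2, hr2, he2, hK2, -⟩ := parse_at hs' hrX1 hk2
  have hr2i : r2 < i' := by
    refine (sd_mid.1 hSD').2.2.2.1 r2 ?_
    rw [hB0, hB2]
    simp
  have e1' : bt z LZ ↔ ix (C2 ++ [j']) = uu (i' + 1) r2 := by
    have h1 : LZ = A' ++ (i' + 1) :: r2 :: (B2 ++ e2 :: (C2 ++ [j'])) := by
      rw [hZ3, hB2]
      simp
    rw [h1]
    exact bt_par hs' hr2 he2 hK2
  have e2' : bt z (A' ++ i' :: B') ↔ ix (C2 ++ dn j') = uu i' r2 := by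
    have h1 : A' ++ i' :: B' = A' ++ i' :: r2 :: (B2 ++ e2 :: (C2 ++ dn j')) := by
      rw [hB0, hB2]
      simp
    rw [h1]
    exact bt_par hs' hr2 he2 hK2
  have e3' : bt z (A ++ p :: (D ++ dn j)) ↔ ix (C1 ++ dn j) = uu p r := by
    rw [hV1]
    exact bt_par hs hr he hK
  have e4' : bt z L ↔ ix (C1 ++ [j]) = uu (p + 1) r := by
    rw [hLe]
    exact bt_par hs hr he hK
  refine (hq LZ hLZ hsZ).2 ?_
  have u1 := uu_step hr2i
  have u2 := uu_step hp
  rw [if_pos hc1] at u1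
  rw [if_pos h8] at u2
  have x1 := ix_pred C2 j'
  have x2 := ix_pred C1 j
  have hb := pz6_bit hsv hz
  rw [e2', e3'] at hb
  rw [e1', e4', u1, u2, x1, x2]
  constructor
  · intro h
    have := hb.1 (by omega)
    omega
  · intro h
    have := hb.2 (by omega)
    omega

end Pool.Agent.STF
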