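import Pool.Agent.STF.Pz3
import Pool.Agent.STF.Pz4
import Pool.Agent.STF.Pz5
import Pool.Agent.STF.Pz6

/-!
# Project STF, module Pz: lines for the contents `G_q` (interface; section lead helper90)

If every word `L'` of the state `q` has other counts or another `run` than `L`: `can_line`.  Otherwise (`GG q` is not empty)
counts and `run` of `L` agree with `q`, so a bit `z` differs; the word where it is true shows that `run L` is `be _ _ _ 6` or
`7` (`bt_run`), and `parse` gives the three cases.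
-/

set_option autoImplicit false

namespace Pool.Agent.STF

open Pool.Agent.STN

private theorem pz_bit {L L' : List ℕ} (h : sgl L = sgl L') {z : ℕ} (hz : z = 1 ∨ z = 2) : bt z L = bt z L' := by
  have h1 : (sgl L).2.2 = (sgl L').2.2 := by rw [h]
  rcases hz with rfl | rfl
  · exact congrArg Prod.fst h1
  · exact congrArg Prod.snd h1

private theorem pz_run {L L' : List ℕ} (h : sgl L = sgl L') : run L = run L' :=
  congrArg (fun v : SG => v.2.1) h

private theorem pz_last {C : List ℕ} (h : C ≠ []) : ∃ C1 j, C = C1 ++ [j] :=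
  ⟨C.dropLast, C.getLast h, (List.dropLast_append_getLast h).symm⟩

private theorem pz_line {L : List ℕ} (hL : SD L) {q : SG} {z : ℕ} (hz : z = 1 ∨ z = 2) {a b k : ℕ}
    (hr : run L = .be false a b k) (hk : k = 6 ∨ k = 7)
    (hq : ∀ L', SD L' → sgl L' = q → run L' = run L ∧ ¬ (bt z L' ↔ bt z L)) :
    ∃ κ m v X Y, (κ = 0 ∨ κ = 1) ∧ (m = 1 ∨ m = 2) ∧ Ok v ∧ SD X ∧ Y ∈ CC m v ∧
      ofl X + ofl L = 2 * Y + κ ∧ ofl X + 2 ≤ Y ∧ Leg κ (GG (sgl X)) (CC m v) (GG q) := by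
  obtain ⟨A, i, r, B, e, C, hLe, hs, hr6, he, hK, -⟩ := parse hr hk hz
  have hir : r < i := by
    rw [hLe] at hL
    exact (sd_mid.1 hL).2.2.2.1 r (List.mem_cons_self ..)
  obtain ⟨p, rfl⟩ : ∃ p, i = p + 1 := ⟨i - 1, by omega⟩
  by_cases h1 : p = r
  · subst h1
    obtain ⟨v, X, Y, h2, h3, h4, h5, h6, h7⟩ := adj_line hL hz hLe hs hr6 he hK hq
    exact ⟨0, z, v, X, Y, Or.inl rfl, hz, h2, h3, h4, h5, h6, h7⟩
  · have hp : r < p := by omega
    by_cases h8 : p % 12 ≠ 8 ∨ C = []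
    · obtain ⟨v, X, Y, h2, h3, h4, h5, h6, h7⟩ := hop0_line hL hz hLe hs hr6 he hK hp h8 hq
      exact ⟨0, z, v, X, Y, Or.inl rfl, hz, h2, h3, h4, h5, h6, h7⟩
    · push Not at h8
      obtain ⟨C1, j, rfl⟩ := pz_last h8.2
      obtain ⟨v, X, Y, h2, h3, h4, h5, h6, h7⟩ := hop1_line hL hz hLe hs hr6 he hK hp h8.1 hq
      exact ⟨1, z, v, X, Y, Or.inr rfl, hz, h2, h3, h4, h5, h6, h7⟩

theorem p_lines {L : List ℕ} (hL : SD L) (h0 : L ≠ []) {q : SG} (hq : sgl L ≠ q) :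
    (∃ X Y, SD X ∧ SD Y ∧ ofl X + ofl L = 2 * ofl Y + 1 ∧ ofl X ≤ ofl Y ∧
      Leg 1 (GG (sgl X)) (GG (sgl Y)) (GG q)) ∨
    ∃ κ m v X Y, (κ = 0 ∨ κ = 1) ∧ (m = 1 ∨ m = 2) ∧ Ok v ∧ SD X ∧ Y ∈ CC m v ∧
      ofl X + ofl L = 2 * Y + κ ∧ ofl X + 2 ≤ Y ∧ Leg κ (GG (sgl X)) (CC m v) (GG q) := by
  by_cases hc : ∀ L', SD L' → sgl L' = q → ¬ ((∀ s < 12, ct L s = ct L' s) ∧ run L = run L')
  · exact Or.inl (can_line hL h0 hc)
  · right
    push Not at hc
    obtain ⟨L', hL', hs', hct, hrun⟩ := hc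
    have hbit : ∃ z, (z = 1 ∨ z = 2) ∧ ¬ (bt z L ↔ bt z L') := by
      by_contra hno
      push Not at hno
      apply hq
      rw [← hs']
      have e1 : bt 1 L = bt 1 L' := propext (hno 1 (Or.inl rfl))
      have e2 : bt 2 L = bt 2 L' := propext (hno 2 (Or.inr rfl))
      have e3 : (fun s : Fin 12 => ct L s) = fun s : Fin 12 => ct L' s := by
        funext s
        exact hct s s.2
      unfold sgl
      rw [e1, e2, e3, hrun]
    obtain ⟨z, hz, hb⟩ := hbit
    have hbe : ∃ a b k, run L = .be false a b k ∧ (k = 6 ∨ k = 7) := by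
      by_cases h1 : bt z L
      · exact bt_run h1
      · have h2 : bt z L' := by
          by_contra h3
          exact hb ⟨fun h => absurd h h1, fun h => absurd h h3⟩
        rw [hrun]
        exact bt_run h2
    obtain ⟨a, b, k, hbe, hk⟩ := hbe
    refine pz_line hL hz hbe hk fun L'' hL'' hs'' => ?_
    have h1 : sgl L'' = sgl L' := hs''.trans hs'.symm
    refine ⟨(pz_run h1).trans hrun.symm, ?_⟩
    rw [pz_bit h1 hz]
    exact fun h => hb h.symm

end Pool.Agent.STF
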