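import Pool.Agent.STF.La

/-!
# Project STF, module Ug: all values of `2 y - x`

`2 y - x` with `x`, `y` in `S0` below `3 ^ k` takes all values from `- ofl (dn k)` to `3 ^ k - 1`.
-/

set_option autoImplicit false

namespace Pool.Agent.STF

open Pool.Agent.STN

private theorem ug_top {k : ℕ} {x : List ℕ} (h : SD x) (hx : ∀ p ∈ x, p < k) :
    SD (k :: x) ∧ ∀ p ∈ k :: x, p < k + 1 := by
  refine ⟨sd_cons.2 ⟨hx, h⟩, fun p hp => ?_⟩
  rcases List.mem_cons.1 hp with rfl | hp
  · omega
  · have := hx p hp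
    omega

private theorem ug_up {k : ℕ} {x : List ℕ} (hx : ∀ p ∈ x, p < k) : ∀ p ∈ x, p < k + 1 := fun p hp => by
  have := hx p hp
  omega

theorem rep_all (k N : ℕ) (h : N + 1 ≤ 3 ^ k + ofl (dn k)) :
    ∃ x y, SD x ∧ SD y ∧ (∀ p ∈ x, p < k) ∧ (∀ p ∈ y, p < k) ∧
      ofl x + N = 2 * ofl y + ofl (dn k) := by
  induction k generalizing N with
  | zero =>
    have h0 : ofl (dn 0) = 0 := by
      have := ofl_dn 0
      omega
    rw [h0] at h ⊢
    refine ⟨[], [], sd_nil, sd_nil, by simp, by simp, ?_⟩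
    rw [ofl_nil]
    omega
  | succ k ih =>
    rw [dn_succ, ofl_cons, pow_succ] at h
    rw [dn_succ, ofl_cons]
    have hd := ofl_dn k
    by_cases h1 : N + 1 ≤ 3 ^ k + ofl (dn k)
    · obtain ⟨x, y, hx, hy, bx, by', he⟩ := ih N h1
      refine ⟨k :: x, y, (ug_top hx bx).1, hy, (ug_top hx bx).2, ug_up by', ?_⟩
      rw [ofl_cons]
      omega
    · by_cases h2 : N - 3 ^ k + 1 ≤ 3 ^ k + ofl (dn k)
      · obtain ⟨x, y, hx, hy, bx, by', he⟩ := ih (N - 3 ^ k) h2
        refine ⟨x, y, hx, hy, ug_up bx, ug_up by', ?_⟩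
        omega
      · by_cases h3 : N - 2 * 3 ^ k + 1 ≤ 3 ^ k + ofl (dn k)
        · obtain ⟨x, y, hx, hy, bx, by', he⟩ := ih (N - 2 * 3 ^ k) h3
          refine ⟨k :: x, k :: y, (ug_top hx bx).1, (ug_top hy by').1, (ug_top hx bx).2,
            (ug_top hy by').2, ?_⟩
          rw [ofl_cons, ofl_cons]
          omega
        · obtain ⟨x, y, hx, hy, bx, by', he⟩ := ih (N - 3 * 3 ^ k) (by omega)
          refine ⟨x, k :: y, hx, (ug_top hy by').1, ug_up bx, (ug_top hy by').2, ?_⟩
          rw [ofl_cons]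
          omega

/-- no representation leaves the window -/
theorem rep_low {P Q : List ℕ} {e z : ℕ} (hP : SD P) (hQ : SD Q) (hz : 2 * z < 3 ^ e)
    (h : ofl P + z = 2 * ofl Q) : (∀ p ∈ P, p < e) ∧ ∀ p ∈ Q, p < e := by
  have hQe : ∀ p ∈ Q, p < e := by
    cases Q with
    | nil => simp
    | cons q Q =>
      have hq := ofl_head hQ
      have hqe : q < e := by
        by_contra hqe
        have h1 : 3 ^ e ≤ 3 ^ q := Nat.pow_le_pow_right (by norm_num) (by omega)
        cases P with
        | nil =>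
          rw [ofl_nil] at h
          omega
        | cons p P =>
          have hp := ofl_head hP
          have h2 : p ≤ q := by
            by_contra h2
            have h3 : 3 ^ (q + 1) ≤ 3 ^ p := Nat.pow_le_pow_right (by norm_num) (by omega)
            omega
          have h3 : 3 ^ (p + 1) ≤ 3 ^ (q + 1) := Nat.pow_le_pow_right (by norm_num) (by omega)
          have h4 : 3 ^ (q + 1) = 3 * 3 ^ q := by ring
          omega
      intro p hp
      rcases List.mem_cons.1 hp with rfl | hp
      · exact hqe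
      · have := (sd_cons.1 hQ).1 p hp
        omega
  refine ⟨?_, hQe⟩
  have hQl := ofl_lt hQ hQe
  cases P with
  | nil => simp
  | cons p P =>
    have hp := ofl_head hP
    have hpe : p < e := by
      by_contra hpe
      have h1 : 3 ^ e ≤ 3 ^ p := Nat.pow_le_pow_right (by norm_num) (by omega)
      omega
    intro r hr
    rcases List.mem_cons.1 hr with rfl | hr
    · exact hpe
    · have := (sd_cons.1 hP).1 r hr
      omega

end Pool.Agent.STF
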