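import Pool.Agent.STF.Uf
import Pool.Agent.STF.Ug

/-!
# Project STF, module Uj: excluded low parts (section 8, `z ∈ Bx H`)

PLAN.  `z ∈ Bx H`: `H = A ++ s :: t1 :: r1 :: t2 :: r2 :: B`, `bd (run A)`, `s % 12 = 4`, `P`, `Q`.  `run (A ++ [s]) = .hd false 1`, so `hdr_entry` for `t1 :: r1 :: t2 :: r2 :: B` (from `bd (run H)`): the classes are `8`, `6`, `8`,
`6` and `rn (.hd false 5) B = .hd false 5`.  All letters of `P`, `Q` are `< e` (`rep_low`).  Let `i = s - 1`, `D = t1 :: r1 :: t2 :: r2 :: B`,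
`X = A ++ i :: (D ++ e :: P)`, `v = sgl (A ++ i :: (D ++ e :: Q))`, `Y = ofl (A ++ (D ++ e :: Q)) + 2 * 3 ^ i`.
`SD`: `t1 < s`, classes `8` and `4`: `t1 + 8 ≤ s`, so `t1 < i`.  `i + 1 = s ∉ A`.  `i % 12 = 3`.  `run (A ++ i :: (D ++ e :: C)) = .be false 8 8 6` (`C = []`) or `.be false 8 8 7` (`phase`; induction on `C` for the rest).
`bt 1 X`: witnesses `A ++ [i]`, `t1`, `r1`, `t2 :: r2 :: B`, `e`, `P`.  `bt 2 (A ++ i :: (D ++ e :: Q))`: witnesses `A ++ [i, t1, r1]`, `t2`, `r2`, `B`, `e`, `Q`.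
Relation: `3 ^ s = 3 * 3 ^ i`, `ofl P + z = 2 * ofl Q`.  Order: `ofl (D ++ e :: P) < 3 ^ i` (`ofl_lt`).  Legality: `u_legs`.
-/

set_option autoImplicit false

namespace Pool.Agent.STF

open Pool.Agent.STN

private theorem uj_seven (L : List ℕ) : rn (.be false 8 8 7) L = .be false 8 8 7 := by
  induction L with
  | nil => exact rn_nil _
  | cons p L ih =>
    rw [rn_cons]
    have h : stp (.be false 8 8 7) (p % 12) = .be false 8 8 7 := by simp [stp, nx]
    rw [h]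
    exact ih

private theorem uj_six (L : List ℕ) :
    rn (.be false 8 8 6) L = .be false 8 8 6 ∨ rn (.be false 8 8 6) L = .be false 8 8 7 := by
  cases L with
  | nil => exact Or.inl (rn_nil _)
  | cons p L =>
    right
    rw [rn_cons]
    have h : stp (.be false 8 8 6) (p % 12) = .be false 8 8 7 := by simp [stp, nx]
    rw [h]
    exact uj_seven L

private theorem uj_ac {q : St} (h : bd q) : stp q 3 = .ac false := by
  rcases h with h | h <;> subst h <;> simp [stp]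

private theorem uj_hd {q : St} (h : bd q) : stp q 4 = .hd false 1 := by
  rcases h with h | h <;> subst h <;> simp [stp]

private theorem uj_run {A : List ℕ} {i : ℕ} (hA : bd (run A)) (hi : i % 12 = 3) :
    run (A ++ [i]) = .ac false := by
  rw [run_append, rn_cons, rn_nil, hi, uj_ac hA]

private theorem uj_run2 {A : List ℕ} {i t1 r1 : ℕ} (hA : bd (run A)) (hi : i % 12 = 3)
    (h1 : t1 % 12 = 8) (h2 : r1 % 12 = 6) : run (A ++ [i, t1, r1]) = .al false 8 1 := by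
  rw [run_append, rn_cons, rn_cons, rn_cons, rn_nil, hi, uj_ac hA, h1, h2]
  simp [stp]

private theorem uj_run3 {A B : List ℕ} {i t1 r1 t2 r2 : ℕ} (hA : bd (run A)) (hi : i % 12 = 3)
    (h1 : t1 % 12 = 8) (h2 : r1 % 12 = 6) (h3 : t2 % 12 = 8) (h4 : r2 % 12 = 6)
    (h5 : rn (.hd false 5) B = .hd false 5) :
    run (A ++ i :: t1 :: r1 :: t2 :: r2 :: B) = .be false 8 8 1 := by
  rw [run_append, rn_cons, rn_cons, rn_cons, rn_cons, rn_cons, hi, uj_ac hA, h1, h2, h3, h4]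
  have h : stp (stp (stp (stp (.ac false) 8) 6) 8) 6 = .be false 8 8 1 := by simp [stp, nx]
  rw [h]
  exact phase 8 8 h5

theorem u_excl {H : List ℕ} {e z : ℕ} (hH : SD (H ++ [e])) (hb : bd (run H)) (he : e % 12 = 1)
    (hz : 2 * z < 3 ^ e) (hB : z ∈ Bx H) :
    ∃ v X Y, okm 3 v ∧ Ok v ∧ SD X ∧ Y ∈ CC 3 v ∧ ofl X + (ofl (H ++ [e]) + z) = 2 * Y ∧ ofl X < Y ∧
      Leg 0 (GG (sgl X)) (CC 3 v) UU := by
  obtain ⟨A, s, t1, r1, t2, r2, B, rfl, hA, hs, P, Q, hP, hQ, hPi, hQi, hPQ⟩ := hB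
  obtain ⟨hPe, hQe⟩ := rep_low hP hQ hz hPQ
  -- classes
  have hcl : t1 % 12 = 8 ∧ r1 % 12 = 6 ∧ t2 % 12 = 8 ∧ r2 % 12 = 6 ∧
      rn (.hd false 5) B = .hd false 5 := by
    rw [run_append, rn_cons, hs, uj_hd hA] at hb
    obtain ⟨t1', r1', t2', r2', B', hD, k1, k2, k3, k4, k5⟩ := hdr_entry hb
    simp only [List.cons.injEq] at hD
    obtain ⟨e1, e2, e3, e4, e5⟩ := hD
    rw [e1, e2, e3, e4, e5]
    exact ⟨k1, k2, k3, k4, k5⟩
  obtain ⟨c1, c2, c3, c4, c5⟩ := hcl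
  -- the position i
  obtain ⟨i, hi⟩ : ∃ i, s = i + 1 := ⟨s - 1, by omega⟩
  subst hi
  have hi3 : i % 12 = 3 := by omega
  have hH' : SD (A ++ (i + 1) :: (t1 :: r1 :: t2 :: r2 :: B ++ [e])) := by
    have h : A ++ (i + 1) :: t1 :: r1 :: t2 :: r2 :: B ++ [e] =
        A ++ (i + 1) :: (t1 :: r1 :: t2 :: r2 :: B ++ [e]) := by simp
    rw [← h]
    exact hH
  rw [sd_mid] at hH'
  obtain ⟨sA, sD, hAi, hDi, hAD⟩ := hH'
  have ht1 : t1 < i + 1 := hDi t1 (by simp)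
  have ht1i : t1 < i := by omega
  have hDlt : ∀ b ∈ (t1 :: r1 :: t2 :: r2 :: B ++ [e]), b < i := by
    intro b hb'
    have h0 : t1 :: r1 :: t2 :: r2 :: B ++ [e] = t1 :: (r1 :: t2 :: r2 :: B ++ [e]) := rfl
    rw [h0] at hb' sD
    rcases List.mem_cons.1 hb' with h | h
    · rw [h]
      exact ht1i
    · exact ((sd_cons.1 sD).1 b h).trans ht1i
  have hei : e < i := hDlt e (by simp)
  have sD' := sd_append.1 sD
  have sdX : ∀ C : List ℕ, SD C → (∀ p ∈ C, p < e) →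
      SD (A ++ i :: (t1 :: r1 :: t2 :: r2 :: B ++ e :: C)) := by
    intro C hC hCe
    rw [sd_mid]
    refine ⟨sA, ?_, fun a ha => by have := hAi a ha; omega, ?_, ?_⟩
    · rw [sd_append]
      refine ⟨sD'.1, sd_cons.2 ⟨hCe, hC⟩, fun a ha b hb' => ?_⟩
      have h1 : e < a := sD'.2.2 a ha e (by simp)
      rcases List.mem_cons.1 hb' with h | h
      · rw [h]
        exact h1
      · exact (hCe b h).trans h1
    · intro b hb'
      rcases List.mem_append.1 hb' with h | h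
      · exact hDlt b (List.mem_append_left _ h)
      · rcases List.mem_cons.1 h with h | h
        · rw [h]
          exact hei
        · exact (hCe b h).trans hei
    · intro a ha b hb'
      have h1 := hAi a ha
      rcases List.mem_append.1 hb' with h | h
      · have := hDlt b (List.mem_append_left _ h)
        omega
      · rcases List.mem_cons.1 h with h | h
        · omega
        · have := hCe b h
          omega
  have hni : i + 1 ∉ A := fun h => lt_irrefl _ (hAi _ h)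
  have h3i : 3 ^ (i + 1) = 3 * 3 ^ i := by rw [pow_succ, mul_comm]
  have run1 : run (A ++ [i]) = .ac false := uj_run hA hi3
  have run2 : run (A ++ [i, t1, r1]) = .al false 8 1 := uj_run2 hA hi3 c1 c2
  have run3 : run (A ++ i :: t1 :: r1 :: t2 :: r2 :: B) = .be false 8 8 1 :=
    uj_run3 hA hi3 c1 c2 c3 c4 c5
  have runQ : run (A ++ i :: (t1 :: r1 :: t2 :: r2 :: B ++ e :: Q)) = .be false 8 8 6 ∨
      run (A ++ i :: (t1 :: r1 :: t2 :: r2 :: B ++ e :: Q)) = .be false 8 8 7 := by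
    have h : A ++ i :: (t1 :: r1 :: t2 :: r2 :: B ++ e :: Q) =
        (A ++ i :: t1 :: r1 :: t2 :: r2 :: B) ++ e :: Q := by simp
    rw [h, run_append, run3, rn_cons, he]
    have h1 : stp (.be false 8 8 1) 1 = .be false 8 8 6 := by simp [stp, nx]
    rw [h1]
    exact uj_six Q
  have bt1 : bt 1 (A ++ i :: (t1 :: r1 :: t2 :: r2 :: B ++ e :: P)) := by
    refine ⟨A ++ [i], t1, r1, t2 :: r2 :: B, e, P, by simp, Or.inl ⟨rfl, run1⟩, c2, he,
      ⟨8, 8, ?_⟩, hPi⟩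
    have h : A ++ [i] ++ t1 :: r1 :: t2 :: r2 :: B = A ++ i :: t1 :: r1 :: t2 :: r2 :: B := by simp
    rw [h]
    exact run3
  have bt2 : bt 2 (A ++ i :: (t1 :: r1 :: t2 :: r2 :: B ++ e :: Q)) := by
    refine ⟨A ++ [i, t1, r1], t2, r2, B, e, Q, by simp, Or.inr ⟨rfl, 8, run2⟩, c4, he,
      ⟨8, 8, ?_⟩, hQi⟩
    have h : A ++ [i, t1, r1] ++ t2 :: r2 :: B = A ++ i :: t1 :: r1 :: t2 :: r2 :: B := by simp
    rw [h]
    exact run3
  refine ⟨sgl (A ++ i :: (t1 :: r1 :: t2 :: r2 :: B ++ e :: Q)),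
    A ++ i :: (t1 :: r1 :: t2 :: r2 :: B ++ e :: P),
    ofl (A ++ (t1 :: r1 :: t2 :: r2 :: B ++ e :: Q)) + 2 * 3 ^ i,
    Or.inr (Or.inr (Or.inr ⟨rfl, runQ⟩)), ⟨_, sdX Q hQ hQe, rfl⟩, sdX P hP hPe,
    ⟨A, i, _, sdX Q hQ hQe, hni, Or.inr (Or.inr ⟨rfl, hA, hi3⟩), rfl, rfl⟩, ?_, ?_,
    u_legs bt1 bt2⟩
  · simp only [ofl_append, ofl_cons, ofl_nil, h3i]
    omega
  · have h1 := ofl_lt hP hPe
    have h2 : 3 ^ e ≤ 3 ^ i := Nat.pow_le_pow_right (by norm_num) hei.le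
    simp only [ofl_append, ofl_cons]
    omega

end Pool.Agent.STF
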