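import Pool.Agent.STF.Lg
import Pool.Agent.STF.Ld

/-!
# Project STF, module Uh: headers

Everything is a case analysis of one step of the automaton: the state before a letter of a header is `.hd false j`.
-/

set_option autoImplicit false

namespace Pool.Agent.STF

open Pool.Agent.STN

private theorem uh_snoc (L : List ℕ) (p : ℕ) : run (L ++ [p]) = stp (run L) (p % 12) := by
  rw [run_append, rn_cons, rn_nil]

private theorem uh_v0 {q : St} {c : ℕ} (h : stp q c = .v0 false) :
    q = .v0 false ∨ (bd q ∧ c = 1) := by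
  cases q with
  | ini => simp only [stp] at h; split_ifs at h
  | bad => simp [stp] at h
  | db f => simp [stp] at h
  | hd f j =>
    simp only [stp] at h
    split_ifs at h with h1 h2 h3 h4
    right
    rw [St.v0.injEq] at h
    subst h
    refine ⟨?_, h4⟩
    rcases h1 with h1 | h1 <;> rw [h1] <;> simp [bd]
  | v0 f => left; simpa [stp] using h
  | dk f => simp [stp] at h
  | ac f => simp [stp] at h
  | al f a k => simp only [stp] at h; split_ifs at h
  | be f a b k => simp [stp] at h

private theorem uh_ini (q : St) (c : ℕ) : stp q c ≠ .ini := by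
  cases q with
  | ini => simp only [stp]; split_ifs <;> simp
  | bad => simp [stp]
  | db f => simp [stp]
  | hd f j => simp only [stp]; split_ifs <;> simp
  | v0 f => simp [stp]
  | dk f => simp [stp]
  | ac f => simp [stp]
  | al f a k => simp only [stp]; split_ifs <;> simp
  | be f a b k => simp [stp]

private theorem uh_hd {q : St} {c j : ℕ} (h : stp q c = .hd false j) :
    q = .ini ∨ ∃ j, q = .hd false j := by
  cases q with
  | ini => exact Or.inl rfl
  | bad => simp [stp] at h
  | db f => simp [stp] at h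
  | hd f i =>
    simp only [stp] at h
    split_ifs at h <;> simp at h <;> (rw [h.1]; exact Or.inr ⟨i, rfl⟩)
  | v0 f => simp [stp] at h
  | dk f => simp [stp] at h
  | ac f => simp [stp] at h
  | al f a k => simp only [stp] at h; split_ifs at h
  | be f a b k => simp [stp] at h

private theorem uh_live (L : List ℕ) (q : St) (h : bd (rn q L)) :
    q = .ini ∨ ∃ j, q = .hd false j := by
  induction L generalizing q with
  | nil =>
    rw [rn_nil] at h
    rcases h with h | h
    · exact Or.inr ⟨_, h⟩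
    · exact Or.inr ⟨_, h⟩
  | cons p L ih =>
    rw [rn_cons] at h
    rcases ih _ h with h1 | ⟨j, h1⟩
    · exact absurd h1 (uh_ini _ _)
    · exact uh_hd h1

private theorem uh_ne {P : List ℕ} (hP : P ≠ []) : run P ≠ .ini := by
  rcases List.eq_nil_or_concat P with h | ⟨P', x, h⟩
  · exact absurd h hP
  · rw [h, List.concat_eq_append, uh_snoc]
    exact uh_ini _ _

theorem v0_dec {L : List ℕ} (h : run L = .v0 false) :
    ∃ H e x, L = H ++ e :: x ∧ bd (run H) ∧ e % 12 = 1 := by
  induction L using List.reverseRecOn with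
  | nil => rw [run_nil] at h; simp at h
  | append_singleton L p ih =>
    rw [uh_snoc] at h
    rcases uh_v0 h with h1 | ⟨h1, h2⟩
    · obtain ⟨H, e, x, h3, h4, h5⟩ := ih h1
      exact ⟨H, e, x ++ [p], by rw [h3]; simp, h4, h5⟩
    · exact ⟨L, p, [], rfl, h1, h2⟩

theorem pos_split {W : List (ℕ × Bool)} {A B : List ℕ} {p : ℕ} (h : pos W = A ++ p :: B) :
    ∃ WA d WB, W = WA ++ (p, d) :: WB ∧ pos WA = A ∧ pos WB = B := by
  obtain ⟨W1, W2, hW, h1, h2⟩ := List.map_eq_append_iff.1 h
  obtain ⟨t, WB, h3, h4, h5⟩ := List.map_eq_cons_iff.1 h2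
  refine ⟨W1, t.2, WB, ?_, h1, h5⟩
  rw [hW, h3, ← h4]

theorem hdr_top {H : List ℕ} (h : bd (run H)) : ∃ o H1, H = o :: H1 ∧ o % 12 = 11 := by
  refine run_un.1 ?_
  rcases h with h | h <;> rw [h] <;> trivial

/-- the letters of a header below the top -/
theorem hd_run {H P Q : List ℕ} {e p : ℕ} (hb : bd (run H)) (he : e % 12 = 1)
    (h : H ++ [e] = P ++ p :: Q) (hP : P ≠ []) :
    ∃ j, run P = .hd false j ∧ (((j = 0 ∨ j = 5) ∧ (p % 12 = 4 ∨ p % 12 = 1)) ∨
      ((j = 1 ∨ j = 3) ∧ p % 12 = 8) ∨ ((j = 2 ∨ j = 4) ∧ p % 12 = 6)) := by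
  rcases List.eq_nil_or_concat Q with hQ | ⟨Q', x, hQ⟩
  · subst hQ
    have h1 := List.append_inj' h rfl
    obtain ⟨h2, h3⟩ := h1
    rw [List.cons.injEq] at h3
    rw [← h2, ← h3.1]
    rcases hb with hb | hb
    · exact ⟨0, hb, Or.inl ⟨Or.inl rfl, Or.inr he⟩⟩
    · exact ⟨5, hb, Or.inl ⟨Or.inr rfl, Or.inr he⟩⟩
  · rw [hQ, List.concat_eq_append, ← List.cons_append, ← List.append_assoc] at h
    have h1 := (List.append_inj' h rfl).1
    rw [h1, run_append] at hb
    have h2 := uh_live _ _ hb
    rcases h2 with h2 | ⟨j, h2⟩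
    · exact absurd h2 (uh_ne hP)
    · refine ⟨j, h2, ?_⟩
      rw [rn_cons, h2] at hb
      have h3 := uh_live _ _ hb
      rcases h3 with h3 | ⟨j', h3⟩
      · exact absurd h3 (uh_ini _ _)
      · simp only [stp] at h3
        split_ifs at h3 with h4 h5 h6 h7 h8 h9 h10
        · exact Or.inl ⟨h4, Or.inl h5⟩
        · exact Or.inr (Or.inl h9)
        · exact Or.inr (Or.inr h10)

/-- raising a letter of a header by one breaks it -/
theorem hdr_pre {H P Q : List ℕ} {e p : ℕ} (hb : bd (run H)) (he : e % 12 = 1)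
    (h : H ++ [e] = P ++ p :: Q) (hP : P ≠ []) (L : List ℕ) : run (P ++ (p + 1) :: L) = .dk false := by
  obtain ⟨j, hj, hc⟩ := hd_run hb he h hP
  have h1 : stp (.hd false j) ((p + 1) % 12) = .dk false := by
    have h2 : (p + 1) % 12 = p % 12 + 1 := by omega
    rw [h2]
    rcases hc with ⟨hj', hc' | hc'⟩ | ⟨hj', hc'⟩ | ⟨hj', hc'⟩ <;> rcases hj' with hj' | hj' <;>
      rw [hc', hj'] <;> simp [stp]
  rw [run_append, rn_cons, hj, h1]
  exact (rn_abs L).2.2.2 false

/-- no two neighbours in a header -/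
theorem hdr_gap {H P Q : List ℕ} {e p : ℕ} (hs : SD (H ++ [e])) (hb : bd (run H)) (he : e % 12 = 1)
    (h : H ++ [e] = P ++ p :: Q) (hP : P ≠ []) : p + 1 ∉ P := by
  intro hm
  obtain ⟨j, _, hc⟩ := hd_run hb he h hP
  rcases List.eq_nil_or_concat P with h0 | ⟨P', x, h0⟩
  · exact hP h0
  · rw [List.concat_eq_append] at h0
    have hs' := hs
    rw [h] at hs'
    unfold SD at hs'
    rw [List.pairwise_append] at hs'
    have hx : p < x := hs'.2.2 x (by rw [h0]; simp) p (by simp)
    have hx' : x = p + 1 := by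
      rw [h0] at hm
      rcases List.mem_append.1 hm with h1 | h1
      · have h2 := hs'.1
        rw [h0, List.pairwise_append] at h2
        have h3 := h2.2.2 (p + 1) h1 x (by simp)
        omega
      · exact (List.mem_singleton.1 h1).symm
    by_cases hP' : P' = []
    · obtain ⟨o, H1, h4, h5⟩ := hdr_top hb
      rw [h4, h0, hP', hx'] at h
      simp only [List.cons_append, List.nil_append, List.cons.injEq] at h
      rw [h.1] at h5
      omega
    · have h4 : H ++ [e] = P' ++ (p + 1) :: (p :: Q) := by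
        rw [h, h0, hx']
        simp
      obtain ⟨j', _, hc'⟩ := hd_run hb he h4 hP'
      omega

/-- the second letter of a header -/
theorem hdr_snd {H L : List ℕ} {e o s : ℕ} (hb : bd (run H)) (he : e % 12 = 1)
    (h : H ++ [e] = o :: s :: L) : s % 12 = 4 ∨ s % 12 = 1 := by
  obtain ⟨o', H1, h4, h5⟩ := hdr_top hb
  obtain ⟨j, hj, hc⟩ := hd_run (P := [o]) (Q := L) (p := s) hb he h (by simp)
  rw [h4] at h
  simp only [List.cons_append, List.cons.injEq] at h
  rw [h.1] at h5
  have h6 : run [o] = .hd false 0 := by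
    have h7 := uh_snoc [] o
    rw [List.nil_append] at h7
    rw [h7, run_nil, h5]
    simp [stp]
  rw [h6, St.hd.injEq] at hj
  omega

end Pool.Agent.STF
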