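import Pool.Agent.STF.Ub
import Pool.Agent.STF.Uh
import Pool.Agent.STF.Ld

/-!
# Project STF, module Uk: headers with digits two, pairs in `S0` (section 8)

PLAN.
* `u_two` (a digit two at `p` in the header and another one above it): `X = one A ++ (p + 1) :: p :: one B`, `Y = pos A ++ (p + 1) :: pos B`.  `p + 1 ∉ pos A` (`hdr_gap` with `P = pos A ≠ []`), so both lists are `SD`
  (`pos W` is `SD`; `sub_one`, `sd_one`).  `ofl X + ofw W = 2 * ofl Y` from `w_can A`, `w_can B`.  Order: `A = A1 ++ (q, true) :: A2` with the highest digit two (`split_two`), `one A1 = pos A1` (`ofw_all_one`):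
  `ofl X = ofl (pos A1) + ofl (one A2 ++ (p + 1) :: p :: one B)` and the last list is `SD` with all letters `< q` (`ofl_lt`), `3 ^ q ≤ ..`.  `run Y = .dk false` (`hdr_pre`), so `u_leg0`.
* `u_top` (the top digit is the only two of the header, the second letter has the digit one): canonical pair `one W`, `pos W` (`w_can`, `w_le`, `sd_one`); the first letter of `one W` is `s` with class `4` or `1` (`hdr_snd`), so
  `run (one W) = .bad` (`stp .ini`, `rn_abs`), `u_leg0`.
-/

set_option autoImplicit false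

namespace Pool.Agent.STF

open Pool.Agent.STN

private theorem uk_sub (W : List (ℕ × Bool)) : (one W).Sublist (pos W) :=
  List.Sublist.map _ List.filter_sublist

theorem u_two {A B : List (ℕ × Bool)} {H Q : List ℕ} {e p : ℕ} (hW : SD (pos (A ++ (p, true) :: B)))
    (hb : bd (run H)) (he : e % 12 = 1) (hs : SD (H ++ [e])) (h : H ++ [e] = pos A ++ p :: Q)
    (hA : ∃ t ∈ A, t.2 = true) :
    ∃ X Y, SD X ∧ SD Y ∧ ofl X + ofw (A ++ (p, true) :: B) = 2 * ofl Y ∧ ofl X ≤ ofl Y ∧
      Leg 0 (GG (sgl X)) (GG (sgl Y)) UU := by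
  have hP : pos A ≠ [] := by
    obtain ⟨t, ht, _⟩ := hA
    intro h0
    have h1 : t.1 ∈ pos A := List.mem_map_of_mem ht
    rw [h0] at h1
    exact absurd h1 List.not_mem_nil
  have hg : p + 1 ∉ pos A := hdr_gap hs hb he h hP
  rw [pos_append, pos_cons] at hW
  obtain ⟨_, hY, hXY⟩ := sd_up hW hg
  have hsub : (one A ++ (p + 1) :: p :: one B).Sublist (pos A ++ (p + 1) :: p :: pos B) :=
    (uk_sub A).append (((uk_sub B).cons_cons p).cons_cons (p + 1))
  have hX : SD (one A ++ (p + 1) :: p :: one B) := List.Pairwise.sublist hsub hXY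
  refine ⟨one A ++ (p + 1) :: p :: one B, pos A ++ (p + 1) :: pos B, hX, hY, ?_, ?_, ?_⟩
  · have h1 := w_can A
    have h2 := w_can B
    rw [ofl_append, ofl_cons, ofl_cons, ofw_append, ofw_cons_true, ofl_append, ofl_cons, pow_succ]
    omega
  · have hn : ¬ ∀ t ∈ A, t.2 = false := by
      intro h0
      obtain ⟨t, ht, h1⟩ := hA
      rw [h0 t ht] at h1
      exact absurd h1 (by decide)
    obtain ⟨A1, q, A2, hA1, hA2⟩ := split_two hn
    obtain ⟨_, h3⟩ := ofw_all_one hA2
    subst hA1
    rw [pos_append, pos_cons, List.append_assoc, List.cons_append] at hXY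
    rw [one_append, one_cons_true, h3, List.append_assoc] at hX
    obtain ⟨_, _, _, h4, _⟩ := sd_mid.1 hXY
    have h5 : ∀ b ∈ one A2 ++ (p + 1) :: p :: one B, b < q := by
      intro b hb
      have h6 : (one A2 ++ (p + 1) :: p :: one B).Sublist (pos A2 ++ (p + 1) :: p :: pos B) :=
        (uk_sub A2).append (((uk_sub B).cons_cons p).cons_cons (p + 1))
      exact h4 b (h6.subset hb)
    have h7 := ofl_lt (sd_append.1 hX).2.1 h5
    have h8 : ofl (one (A1 ++ (q, true) :: A2) ++ (p + 1) :: p :: one B) =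
        ofl (pos A1) + ofl (one A2 ++ (p + 1) :: p :: one B) := by
      rw [one_append, one_cons_true, h3, List.append_assoc, ofl_append]
    have h9 : ofl (pos (A1 ++ (q, true) :: A2) ++ (p + 1) :: pos B) =
        ofl (pos A1) + (3 ^ q + ofl (pos A2 ++ (p + 1) :: pos B)) := by
      rw [pos_append, pos_cons, List.append_assoc, List.cons_append, ofl_append, ofl_cons]
    omega
  · refine u_leg0 ?_
    rintro ⟨_, h1⟩
    have h2 : run (pos A ++ (p + 1) :: pos B) = .v0 false := h1
    rw [hdr_pre hb he h hP (pos B)] at h2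
    cases h2

theorem u_top {W : List (ℕ × Bool)} {H L : List ℕ} {e o s : ℕ} (hW : SD (pos ((o, true) :: (s, false) :: W)))
    (hb : bd (run H)) (he : e % 12 = 1) (h : H ++ [e] = o :: s :: L) :
    ∃ X Y, SD X ∧ SD Y ∧ ofl X + ofw ((o, true) :: (s, false) :: W) = 2 * ofl Y ∧ ofl X ≤ ofl Y ∧
      Leg 0 (GG (sgl X)) (GG (sgl Y)) UU := by
  refine ⟨one ((o, true) :: (s, false) :: W), pos ((o, true) :: (s, false) :: W), sd_one hW, hW,
    w_can _, w_le _, u_leg0 ?_⟩
  rintro ⟨h1, _⟩
  have h2 : run (one ((o, true) :: (s, false) :: W)) = .v0 false := h1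
  have h3 : stp .ini (s % 12) = .bad := by
    rcases hdr_snd hb he h with h4 | h4
    · rw [h4]
      rfl
    · rw [h4]
      rfl
  rw [one_cons_true, one_cons_false] at h2
  have h4 : run (s :: one W) = rn (stp .ini (s % 12)) (one W) := rfl
  rw [h4, h3, (rn_abs (one W)).1] at h2
  cases h2

end Pool.Agent.STF
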