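import Pool.Agent.STF.Uc
import Pool.Agent.STF.Ld

/-!
# Project STF, module Ul: headers with digits two, top mark lines (section 8)

PLAN.  The word is `(o, false) :: (A ++ (p, true) :: B)`, `p` a letter of the header below the top `o` (`o % 12 = 11`).  `t = o - 1`, `M = pos A ++ (p + 1) :: pos B`,
`X = t :: (one A ++ (p + 1) :: p :: one B)`, `Y = ofl ([] ++ M) + 2 * 3 ^ t`, `b = sgl (t :: M)`.
The second letter `s` of the header has class `4` or `1` (`hdr_snd`), so `s + 7 ≤ o`, all other letters are `≤ s`, `p + 1 ≤ s + 1 < t`.  `p + 1 ∉ pos A` (`hdr_gap` with `P = o :: pos A`).  So `SD X`, `SD (t :: M)`.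
`ofl X + ofw W = 2 * Y`: `w_can A`, `w_can B`, `3 ^ o = 3 * 3 ^ t`.  `ofl X < Y`: `ofl_lt` for the tail of `X`.
`run (o :: M) = .dk false` (`hdr_pre` with `P = o :: pos A`), so `run (t :: M) = .dk true` (`run_fg`).  `okm 0 b`: `tb (.dk true)` is `True`.  `flg (run X)`: `run_flg`.  `Y ∈ CC 0 b`: `A = []`, `i = t`, `B = M`, `ev 0 (run []) 10`.
Legality: `u_legt`.
-/

set_option autoImplicit false

namespace Pool.Agent.STF

open Pool.Agent.STN

/-- the top letter and the second letter of the header -/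
private theorem ul_top {A : List ℕ} {H Q : List ℕ} {e o p : ℕ} (hb : bd (run H)) (he : e % 12 = 1)
    (hs : SD (H ++ [e])) (h : H ++ [e] = o :: (A ++ p :: Q)) :
    o % 12 = 11 ∧ (∀ a ∈ A, a + 7 ≤ o) ∧ p + 7 ≤ o := by
  obtain ⟨o1, H1, rfl, ho⟩ := hdr_top hb
  have e1 : o1 = o := by
    rw [List.cons_append] at h
    exact (List.cons.inj h).1
  subst e1
  rw [h] at hs
  obtain ⟨h1, h2⟩ := sd_cons.1 hs
  refine ⟨ho, ?_⟩
  cases A with
  | nil =>
    have h3 := hdr_snd hb he h
    have h4 := h1 p (by simp)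
    refine ⟨by simp, ?_⟩
    omega
  | cons s A =>
    have h3 := hdr_snd hb he h
    have h4 := h1 s (by simp)
    have h5 : s + 7 ≤ o1 := by omega
    have h6 : SD (s :: (A ++ p :: Q)) := h2
    obtain ⟨h7, -⟩ := sd_cons.1 h6
    refine ⟨fun a ha => ?_, ?_⟩
    · rcases List.mem_cons.1 ha with rfl | ha
      · exact h5
      · have := h7 a (by simp [ha])
        omega
    · have := h7 p (by simp)
      omega

theorem u_line {A B : List (ℕ × Bool)} {H Q : List ℕ} {e o p : ℕ}
    (hW : SD (pos ((o, false) :: (A ++ (p, true) :: B)))) (hb : bd (run H)) (he : e % 12 = 1)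
    (hs : SD (H ++ [e])) (h : H ++ [e] = o :: (pos A ++ p :: Q)) :
    ∃ b X Y, okm 0 b ∧ Ok b ∧ SD X ∧ Y ∈ CC 0 b ∧
      ofl X + ofw ((o, false) :: (A ++ (p, true) :: B)) = 2 * Y ∧ ofl X < Y ∧
      Leg 0 (GG (sgl X)) (CC 0 b) UU := by
  obtain ⟨ho, hA7, hp7⟩ := ul_top hb he hs h
  rw [pos_cons, pos_append, pos_cons] at hW
  obtain ⟨hWo, hW1⟩ := sd_cons.1 hW
  obtain ⟨hSA, hSB, hAp, hBp, hAB⟩ := sd_mid.1 hW1
  have hh : H ++ [e] = (o :: pos A) ++ p :: Q := by
    rw [h]
    rfl
  have hgap : p + 1 ∉ pos A := fun hm =>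
    hdr_gap hs hb he hh (List.cons_ne_nil _ _) (List.mem_cons_of_mem o hm)
  have hpre := hdr_pre hb he hh (List.cons_ne_nil _ _) (pos B)
  obtain ⟨t, rfl⟩ : ∃ t, o = t + 1 := ⟨o - 1, by omega⟩
  have ht : t % 12 = 10 := by omega
  have hA2 : ∀ a ∈ pos A, p + 1 < a := by
    intro a ha
    have h1 := hAp a ha
    have h2 : a ≠ p + 1 := fun hc => hgap (hc ▸ ha)
    omega
  -- the tail of `M`
  have hM : SD (t :: (pos A ++ (p + 1) :: pos B)) := by
    refine sd_cons.2 ⟨?_, sd_mid.2 ⟨hSA, hSB, hA2, fun b hb => ?_, hAB⟩⟩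
    · intro b hb
      rcases List.mem_append.1 hb with hb | hb
      · have := hA7 b hb
        omega
      · rcases List.mem_cons.1 hb with rfl | hb
        · omega
        · have := hBp b hb
          omega
    · have := hBp b hb
      omega
  have hXt : SD (one A ++ (p + 1) :: p :: one B) := by
    refine sd_mid.2 ⟨sd_one hSA, sd_cons.2 ⟨fun b hb => hBp b (sub_one B b hb), sd_one hSB⟩,
      fun a ha => hA2 a (sub_one A a ha), fun b hb => ?_, fun a ha b hb => ?_⟩
    · rcases List.mem_cons.1 hb with rfl | hb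
      · omega
      · have := hBp b (sub_one B b hb)
        omega
    · have h1 := hA2 a (sub_one A a ha)
      rcases List.mem_cons.1 hb with rfl | hb
      · omega
      · have := hBp b (sub_one B b hb)
        omega
  have hXl : ∀ b ∈ one A ++ (p + 1) :: p :: one B, b < t := by
    intro b hb
    rcases List.mem_append.1 hb with hb | hb
    · have := hA7 b (sub_one A b hb)
      omega
    · rcases List.mem_cons.1 hb with rfl | hb
      · omega
      · rcases List.mem_cons.1 hb with rfl | hb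
        · omega
        · have := hBp b (sub_one B b hb)
          omega
  have hX : SD (t :: (one A ++ (p + 1) :: p :: one B)) := sd_cons.2 ⟨hXl, hXt⟩
  have hrun : run (t :: (pos A ++ (p + 1) :: pos B)) = .dk true := by
    rw [run_fg ho ht]
    have h1 : run ((t + 1) :: (pos A ++ (p + 1) :: pos B)) = .dk false := hpre
    rw [h1]
    rfl
  have hrun' : (sgl (t :: (pos A ++ (p + 1) :: pos B))).2.1 = .dk true := hrun
  have hok : okm 0 (sgl (t :: (pos A ++ (p + 1) :: pos B))) := by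
    refine Or.inl ⟨rfl, ?_⟩
    rw [hrun']
    exact trivial
  refine ⟨sgl (t :: (pos A ++ (p + 1) :: pos B)), t :: (one A ++ (p + 1) :: p :: one B),
    ofl (pos A ++ (p + 1) :: pos B) + 2 * 3 ^ t, hok, ⟨_, hM, rfl⟩, hX, ?_, ?_, ?_, ?_⟩
  · exact ⟨[], t, pos A ++ (p + 1) :: pos B, hM, List.not_mem_nil, Or.inl ⟨rfl, rfl, ht⟩, rfl, rfl⟩
  · have h1 := w_can A
    have h2 := w_can B
    have h3 : 3 ^ (t + 1) = 3 * 3 ^ t := by rw [pow_succ, mul_comm]
    have h4 : 3 ^ (p + 1) = 3 * 3 ^ p := by rw [pow_succ, mul_comm]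
    rw [ofw_cons_false, ofw_append, ofw_cons_true, ofl_cons, ofl_append, ofl_cons, ofl_cons, ofl_append,
      ofl_cons, h3, h4]
    omega
  · have h1 := ofl_lt hXt hXl
    rw [ofl_cons]
    omega
  · refine u_legt ?_ hok ?_
    · exact run_flg.2 ⟨t, _, rfl, ht⟩
    · rw [hrun']
      exact fun hc => (by cases hc)

end Pool.Agent.STF
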