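import Pool.Agent.STF.Ui
import Pool.Agent.STF.Uj
import Pool.Agent.STF.Uk
import Pool.Agent.STF.Ul

/-!
# Project STF, module Uz: completeness outside `U` (section lead helper41)

PLAN.  `exists_w`: `n = ofw W`, `SD (pos W)`.  If `run (pos W) ≠ .v0 false`: canonical pair `one W`, `pos W` (`w_can`, `w_le`, `sd_one`, `u_leg0`).
Otherwise `v0_dec`: `pos W = H ++ e :: x`; `pos_split`: `W = WH ++ (e, d) :: WL`, `pos WH = H`; let `V = WH ++ [(e, d)]`, `W = V ++ WL`, `pos V = H ++ [e]`.
(1) All digits of `V` are one: `n = ofl (H ++ [e]) + z`, `z = ofw WL < 3 ^ e` (`ofw_all_one`, `ofw_append`, `ofw_lt`; `SD (pos W)` gives that the letters of `WL` are `< e`).  `2 * z ≠ 3 ^ e` (odd).  `3 ^ e < 2 * z`: `u_high`.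
`2 * z < 3 ^ e`: `z ∈ Bx H` (otherwise `n ∈ UU`): `u_excl`.
(2) Otherwise `H = o :: H1` (`hdr_top`), so `V = (o, d0) :: V1`, `V1 ≠ []`.
 `d0 = false`: a digit two in `V1` (`split_two`): `V1 = A ++ (p, true) :: B'`: `u_line` with `B = B' ++ WL`, `Q = pos B'`.
 `d0 = true`: if `V1` contains a digit two: `V1 = A ++ (p, true) :: B'`: `u_two` with `(o, true) :: A` and `B = B' ++ WL`; if not: `V1 = (s, false) :: V2`: `u_top` with `W = V2 ++ WL`.
-/

set_option autoImplicit false

namespace Pool.Agent.STF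

open Pool.Agent.STN

/-- the digits of the header are all one -/
private theorem uz_ones {n : ℕ} (hn : n ∉ UU) {H : List ℕ} {e : ℕ} {V WL : List (ℕ × Bool)}
    (hs : SD (H ++ [e])) (hb : bd (run H)) (he : e % 12 = 1) (hV : pos V = H ++ [e])
    (h1 : ∀ t ∈ V, t.2 = false) (hL : SD (pos WL)) (hl : ∀ q ∈ pos WL, q < e)
    (hnW : n = ofw (V ++ WL)) :
    (∃ X Y, SD X ∧ SD Y ∧ ofl X + n = 2 * ofl Y ∧ ofl X ≤ ofl Y ∧
      Leg 0 (GG (sgl X)) (GG (sgl Y)) UU) ∨
    ∃ v X Y, okm 3 v ∧ Ok v ∧ SD X ∧ Y ∈ CC 3 v ∧ ofl X + n = 2 * Y ∧ ofl X < Y ∧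
      Leg 0 (GG (sgl X)) (CC 3 v) UU := by
  have hz : ofw WL < 3 ^ e := ofw_lt hL hl
  have hn2 : n = ofl (H ++ [e]) + ofw WL := by
    rw [hnW, ofw_append, (ofw_all_one h1).1, hV]
  have hodd : 2 * ofw WL ≠ 3 ^ e := by
    intro h
    have h3 : Odd (3 ^ e) := Odd.pow (by decide)
    rw [← h] at h3
    exact (Nat.not_odd_iff_even.2 (even_two_mul _)) h3
  rcases Nat.lt_or_ge (3 ^ e) (2 * ofw WL) with hlt | hge
  · left
    rw [hn2]
    exact u_high hs hb he hlt hz
  · have h2 : 2 * ofw WL < 3 ^ e := lt_of_le_of_ne hge hodd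
    by_cases hB : ofw WL ∈ Bx H
    · right
      rw [hn2]
      exact u_excl hs hb he h2 hB
    · exact absurd ⟨H, e, ofw WL, hs, hb, he, h2, hB, hn2⟩ hn

theorem u_compl {n : ℕ} (hn : n ∉ UU) :
    (∃ X Y, SD X ∧ SD Y ∧ ofl X + n = 2 * ofl Y ∧ ofl X ≤ ofl Y ∧
      Leg 0 (GG (sgl X)) (GG (sgl Y)) UU) ∨
    (∃ b X Y, okm 0 b ∧ Ok b ∧ SD X ∧ Y ∈ CC 0 b ∧ ofl X + n = 2 * Y ∧ ofl X < Y ∧
      Leg 0 (GG (sgl X)) (CC 0 b) UU) ∨
    ∃ v X Y, okm 3 v ∧ Ok v ∧ SD X ∧ Y ∈ CC 3 v ∧ ofl X + n = 2 * Y ∧ ofl X < Y ∧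
      Leg 0 (GG (sgl X)) (CC 3 v) UU := by
  obtain ⟨W, hW, hnW⟩ := exists_w n
  by_cases hr : run (pos W) = .v0 false
  · obtain ⟨H, e, x, hHx, hb, he⟩ := v0_dec hr
    obtain ⟨WH, d, WL, hWe, hWH, hWL⟩ := pos_split hHx
    have hWV : W = (WH ++ [(e, d)]) ++ WL := by
      rw [hWe, List.append_assoc]
      rfl
    have hV : pos (WH ++ [(e, d)]) = H ++ [e] := by
      rw [pos_append, hWH, pos_cons, pos_nil]
    generalize WH ++ [(e, d)] = V at hWV hV
    have hW2 : SD (H ++ [e] ++ pos WL) := by
      rw [← hV, ← pos_append, ← hWV]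
      exact hW
    obtain ⟨hs, hL, hlt⟩ := sd_append.1 hW2
    have hl : ∀ q ∈ pos WL, q < e := fun q hq => hlt e (by simp) q hq
    by_cases h1 : ∀ t ∈ V, t.2 = false
    · rcases uz_ones hn hs hb he hV h1 hL hl (by rw [hnW, hWV]) with h | h
      · exact Or.inl h
      · exact Or.inr (Or.inr h)
    · obtain ⟨o, H1, hHo, ho⟩ := hdr_top hb
      have hV0 : pos V = [] ++ o :: (H1 ++ [e]) := by
        rw [hV, hHo]
        rfl
      obtain ⟨W0, d0, V1, hV1, hW0, hp1⟩ := pos_split hV0
      have hW0' : W0 = [] := List.map_eq_nil_iff.1 hW0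
      rw [hW0', List.nil_append] at hV1
      cases d0 with
      | false =>
        have h2 : ¬ ∀ t ∈ V1, t.2 = false := by
          intro h2
          apply h1
          intro t ht
          rw [hV1] at ht
          rcases List.mem_cons.1 ht with rfl | ht
          · rfl
          · exact h2 t ht
        obtain ⟨A, p, B, hAB, _⟩ := split_two h2
        have hWx : W = (o, false) :: (A ++ (p, true) :: (B ++ WL)) := by
          rw [hWV, hV1, hAB]
          simp only [List.cons_append, List.append_assoc]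
        have hHe : H ++ [e] = o :: (pos A ++ p :: pos B) := by
          rw [← hV, hV1, hAB, pos_cons, pos_append, pos_cons]
        right
        left
        have := u_line (A := A) (B := B ++ WL) (p := p) (o := o) (Q := pos B) (by rw [← hWx]; exact hW)
          hb he hs hHe
        rw [← hWx, ← hnW] at this
        exact this
      | true =>
        left
        by_cases h2 : ∀ t ∈ V1, t.2 = false
        · cases V1 with
          | nil =>
            exfalso
            rw [pos_nil] at hp1
            have := congrArg List.length hp1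
            simp at this
          | cons t V2 =>
            obtain ⟨s, d1⟩ := t
            have hd1 : d1 = false := h2 (s, d1) (by simp)
            rw [hd1] at hV1
            have hWx : W = (o, true) :: (s, false) :: (V2 ++ WL) := by
              rw [hWV, hV1]
              simp only [List.cons_append]
            have hHe : H ++ [e] = o :: s :: pos V2 := by
              rw [← hV, hV1, pos_cons, pos_cons]
            have := u_top (W := V2 ++ WL) (o := o) (s := s) (L := pos V2) (by rw [← hWx]; exact hW)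
              hb he hHe
            rw [← hWx, ← hnW] at this
            exact this
        · obtain ⟨A, p, B, hAB, _⟩ := split_two h2
          have hWx : W = ((o, true) :: A) ++ (p, true) :: (B ++ WL) := by
            rw [hWV, hV1, hAB]
            simp only [List.cons_append, List.append_assoc]
          have hHe : H ++ [e] = pos ((o, true) :: A) ++ p :: pos B := by
            rw [← hV, hV1, hAB, pos_cons, pos_cons, pos_append, pos_cons]
            rfl
          have := u_two (A := (o, true) :: A) (B := B ++ WL) (p := p) (Q := pos B)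
            (by rw [← hWx]; exact hW) hb he hs hHe ⟨(o, true), by simp, rfl⟩
          rw [← hWx, ← hnW] at this
          exact this
  · left
    refine ⟨one W, pos W, sd_one hW, hW, by rw [hnW]; exact w_can W, w_le W, ?_⟩
    exact u_leg0 (fun h => hr h.2)

end Pool.Agent.STF
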