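import Pool.Agent.STF.Defs

/-!
# Project STF, module Lg: the automaton, basic facts

Basic facts on the automaton `stp`: absorbing states, flags, first letters, finiteness of the set of states.
-/

set_option autoImplicit false

namespace Pool.Agent.STF

open Pool.Agent.STN

theorem rn_nil (q : St) : rn q [] = q := by
  rfl

theorem rn_cons (q : St) (p : ℕ) (L : List ℕ) : rn q (p :: L) = rn (stp q (p % 12)) L := by
  rfl

theorem rn_append (q : St) (A B : List ℕ) : rn q (A ++ B) = rn (rn q A) B := by
  unfold rn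
  rw [List.foldl_append]

theorem run_append (A B : List ℕ) : run (A ++ B) = rn (run A) B := by
  unfold run
  rw [rn_append]

theorem run_nil : run [] = .ini := by
  rfl

/-- absorbing states -/
theorem rn_abs (L : List ℕ) : rn .bad L = .bad ∧ (∀ f, rn (.db f) L = .db f) ∧ (∀ f, rn (.v0 f) L = .v0 f) ∧
    ∀ f, rn (.dk f) L = .dk f := by
  induction L with
  | nil => exact ⟨rfl, fun _ => rfl, fun _ => rfl, fun _ => rfl⟩
  | cons p L ih =>
    obtain ⟨h1, h2, h3, h4⟩ := ih
    refine ⟨?_, ?_, ?_, ?_⟩
    · rw [rn_cons]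
      exact h1
    · intro f
      rw [rn_cons]
      exact h2 f
    · intro f
      rw [rn_cons]
      exact h3 f
    · intro f
      rw [rn_cons]
      exact h4 f

private theorem lg_be (f : Bool) (a b k : ℕ) (L : List ℕ) :
    ∃ k', rn (.be f a b k) L = .be f a b k' := by
  induction L generalizing k with
  | nil => exact ⟨k, rfl⟩
  | cons p L ih => exact ih (nx k (p % 12))

/-- recorded classes are kept -/
theorem rn_al (f : Bool) (a k : ℕ) (L : List ℕ) :
    (∃ k', rn (.al f a k) L = .al f a k') ∨ ∃ b k', rn (.al f a k) L = .be f a b k' := by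
  induction L generalizing k with
  | nil => exact Or.inl ⟨k, rfl⟩
  | cons p L ih =>
    rw [rn_cons]
    by_cases h0 : k = 0
    · subst h0
      by_cases h6 : p % 12 = 6
      · have h : stp (.al f a 0) (p % 12) = .al f a 1 := by
          show (if (0 : ℕ) = 0 then (if p % 12 = 6 then St.al f a 1 else St.al f a 2)
            else if (0 : ℕ) = 1 then .be f a (p % 12) 0 else .al f a 2) = _
          rw [if_pos rfl, if_pos h6]
        rw [h]
        exact ih 1
      · have h : stp (.al f a 0) (p % 12) = .al f a 2 := by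
          show (if (0 : ℕ) = 0 then (if p % 12 = 6 then St.al f a 1 else St.al f a 2)
            else if (0 : ℕ) = 1 then .be f a (p % 12) 0 else .al f a 2) = _
          rw [if_pos rfl, if_neg h6]
        rw [h]
        exact ih 2
    · by_cases h1 : k = 1
      · subst h1
        have h : stp (.al f a 1) (p % 12) = .be f a (p % 12) 0 := rfl
        rw [h]
        obtain ⟨k', hk⟩ := lg_be f a (p % 12) 0 L
        exact Or.inr ⟨p % 12, k', hk⟩
      · have h : stp (.al f a k) (p % 12) = .al f a 2 := by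
          show (if k = 0 then (if p % 12 = 6 then St.al f a 1 else St.al f a 2)
            else if k = 1 then .be f a (p % 12) 0 else .al f a 2) = _
          rw [if_neg h0, if_neg h1]
        rw [h]
        exact ih 2

theorem rn_be (f : Bool) (a b k : ℕ) (L : List ℕ) : ∃ k', rn (.be f a b k) L = .be f a b k' := by
  exact lg_be f a b k L

/-- the change of the flag -/
def fg : St → St
  | .db _ => .db true
  | .hd _ j => .hd true j
  | .v0 _ => .v0 true
  | .dk _ => .dk true
  | .ac _ => .ac true
  | .al _ a k => .al true a k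
  | .be _ a b k => .be true a b k
  | q => q

/-- the state is unflagged and the first letter has been read -/
def un : St → Prop
  | .db false => True
  | .hd false _ => True
  | .v0 false => True
  | .dk false => True
  | .ac false => True
  | .al false _ _ => True
  | .be false _ _ _ => True
  | _ => False

/-- the flag is removed -/
private def lg_ug : St → St
  | .db _ => .db false
  | .hd _ j => .hd false j
  | .v0 _ => .v0 false
  | .dk _ => .dk false
  | .ac _ => .ac false
  | .al _ a k => .al false a k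
  | .be _ a b k => .be false a b k
  | q => q

theorem fg_inj {q q' : St} (h : un q) (h' : un q') (he : fg q = fg q') : q = q' := by
  have key : ∀ r : St, un r → lg_ug (fg r) = r := by
    intro r hr
    rcases r with _ | _ | f | ⟨f, j⟩ | f | f | f | ⟨f, a, k⟩ | ⟨f, a, b, k⟩
    · exact hr.elim
    · exact hr.elim
    all_goals
      cases f
      · rfl
      · exact hr.elim
  rw [← key q h, ← key q' h', he]

private theorem lg_ini11 {t : ℕ} (h : t % 12 = 11) : stp .ini (t % 12) = .hd false 0 := by
  show (if t % 12 = 11 then St.hd false 0 else if t % 12 = 10 then St.hd true 0 else St.bad) = _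
  rw [if_pos h]

private theorem lg_ini10 {t : ℕ} (h : t % 12 = 10) : stp .ini (t % 12) = .hd true 0 := by
  show (if t % 12 = 11 then St.hd false 0 else if t % 12 = 10 then St.hd true 0 else St.bad) = _
  rw [if_neg (by omega), if_pos h]

private theorem lg_inib {t : ℕ} (h : t % 12 ≠ 11) (h' : t % 12 ≠ 10) : stp .ini (t % 12) = .bad := by
  show (if t % 12 = 11 then St.hd false 0 else if t % 12 = 10 then St.hd true 0 else St.bad) = _
  rw [if_neg h, if_neg h']

private theorem lg_ini (c : ℕ) : stp .ini c ≠ .ini := by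
  show (if c = 11 then St.hd false 0 else if c = 10 then St.hd true 0 else St.bad) ≠ _
  split_ifs
  · exact fun h => (by cases h)
  · exact fun h => (by cases h)
  · exact fun h => (by cases h)

/-- the flag of a state -/
private def lg_fl : St → Option Bool
  | .ini => none
  | .bad => none
  | .db f => some f
  | .hd f _ => some f
  | .v0 f => some f
  | .dk f => some f
  | .ac f => some f
  | .al f _ _ => some f
  | .be f _ _ _ => some f

private theorem lg_un (q : St) : un q ↔ lg_fl q = some false := by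
  rcases q with _ | _ | f | ⟨f, j⟩ | f | f | f | ⟨f, a, k⟩ | ⟨f, a, b, k⟩
  · exact ⟨fun h => h.elim, fun h => (by cases h)⟩
  · exact ⟨fun h => h.elim, fun h => (by cases h)⟩
  all_goals
    cases f
    · exact ⟨fun _ => rfl, fun _ => trivial⟩
    · exact ⟨fun h => h.elim, fun h => (by cases h)⟩

private theorem lg_hd (f : Bool) (j c : ℕ) :
    stp (.hd f j) c = .hd f 1 ∨ stp (.hd f j) c = .ac f ∨ stp (.hd f j) c = .v0 f ∨
      stp (.hd f j) c = .db f ∨ stp (.hd f j) c = .dk f ∨ (stp (.hd f j) c = .hd f (j + 1) ∧ j ≤ 4) := by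
  have h : stp (.hd f j) c = if j = 0 ∨ j = 5 then
        (if c = 4 then .hd f 1 else if c = 3 then .ac f else if c = 1 then .v0 f
          else if j = 0 ∧ 6 ≤ c then .db f else .dk f)
      else if (j = 1 ∨ j = 3) ∧ c = 8 then .hd f (j + 1)
      else if (j = 2 ∨ j = 4) ∧ c = 6 then .hd f (j + 1)
      else .dk f := rfl
  rw [h]
  by_cases h1 : j = 0 ∨ j = 5
  · rw [if_pos h1]
    by_cases h2 : c = 4
    · rw [if_pos h2]
      exact Or.inl rfl
    · rw [if_neg h2]
      by_cases h3 : c = 3
      · rw [if_pos h3]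
        exact Or.inr (Or.inl rfl)
      · rw [if_neg h3]
        by_cases h4 : c = 1
        · rw [if_pos h4]
          exact Or.inr (Or.inr (Or.inl rfl))
        · rw [if_neg h4]
          by_cases h5 : j = 0 ∧ 6 ≤ c
          · rw [if_pos h5]
            exact Or.inr (Or.inr (Or.inr (Or.inl rfl)))
          · rw [if_neg h5]
            exact Or.inr (Or.inr (Or.inr (Or.inr (Or.inl rfl))))
  · rw [if_neg h1]
    by_cases h2 : (j = 1 ∨ j = 3) ∧ c = 8
    · rw [if_pos h2]
      exact Or.inr (Or.inr (Or.inr (Or.inr (Or.inr ⟨rfl, by omega⟩))))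
    · rw [if_neg h2]
      by_cases h3 : (j = 2 ∨ j = 4) ∧ c = 6
      · rw [if_pos h3]
        exact Or.inr (Or.inr (Or.inr (Or.inr (Or.inr ⟨rfl, by omega⟩))))
      · rw [if_neg h3]
        exact Or.inr (Or.inr (Or.inr (Or.inr (Or.inl rfl))))

private theorem lg_alc (f : Bool) (a k c : ℕ) :
    stp (.al f a k) c = .al f a 1 ∨ stp (.al f a k) c = .al f a 2 ∨ stp (.al f a k) c = .be f a c 0 := by
  have h : stp (.al f a k) c = if k = 0 then (if c = 6 then .al f a 1 else .al f a 2)
      else if k = 1 then .be f a c 0 else .al f a 2 := rfl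
  rw [h]
  by_cases h0 : k = 0
  · rw [if_pos h0]
    by_cases h1 : c = 6
    · rw [if_pos h1]
      exact Or.inl rfl
    · rw [if_neg h1]
      exact Or.inr (Or.inl rfl)
  · rw [if_neg h0]
    by_cases h1 : k = 1
    · rw [if_pos h1]
      exact Or.inr (Or.inr rfl)
    · rw [if_neg h1]
      exact Or.inr (Or.inl rfl)

private theorem lg_fls (q : St) (c : ℕ) (h : q ≠ .ini) :
    stp q c ≠ .ini ∧ lg_fl (stp q c) = lg_fl q := by
  rcases q with _ | _ | f | ⟨f, j⟩ | f | f | f | ⟨f, a, k⟩ | ⟨f, a, b, k⟩
  · exact absurd rfl h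
  · exact ⟨fun h => (by cases h), rfl⟩
  · exact ⟨fun h => (by cases h), rfl⟩
  · rcases lg_hd f j c with h1 | h1 | h1 | h1 | h1 | ⟨h1, -⟩
    all_goals
      rw [h1]
      exact ⟨fun h => (by cases h), rfl⟩
  · exact ⟨fun h => (by cases h), rfl⟩
  · exact ⟨fun h => (by cases h), rfl⟩
  · exact ⟨fun h => (by cases h), rfl⟩
  · rcases lg_alc f a k c with h1 | h1 | h1
    all_goals
      rw [h1]
      exact ⟨fun h => (by cases h), rfl⟩
  · exact ⟨fun h => (by cases h), rfl⟩

private theorem lg_fln (L : List ℕ) (q : St) (h : q ≠ .ini) :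
    rn q L ≠ .ini ∧ lg_fl (rn q L) = lg_fl q := by
  induction L generalizing q with
  | nil => exact ⟨h, rfl⟩
  | cons p L ih =>
    obtain ⟨h1, h2⟩ := lg_fls q (p % 12) h
    obtain ⟨h3, h4⟩ := ih _ h1
    exact ⟨h3, h4.trans h2⟩

private theorem lg_rn (L : List ℕ) (q : St) (h : q ≠ .ini) :
    (un (rn q L) ↔ un q) ∧ rn q L ≠ .ini := by
  obtain ⟨h1, h2⟩ := lg_fln L q h
  rw [lg_un, lg_un, h2]
  exact ⟨Iff.rfl, h1⟩

/-- the first letter `O` -/
theorem run_un {L : List ℕ} : un (run L) ↔ ∃ t L', L = t :: L' ∧ t % 12 = 11 := by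
  cases L with
  | nil =>
    constructor
    · intro h
      exact h.elim
    · rintro ⟨t, L', h, -⟩
      exact absurd h (by simp)
  | cons t L =>
    have h1 : un (run (t :: L)) ↔ un (stp .ini (t % 12)) := (lg_rn L _ (lg_ini _)).1
    rw [h1]
    constructor
    · intro h
      refine ⟨t, L, rfl, ?_⟩
      by_contra h11
      have h2 : stp .ini (t % 12) = if t % 12 = 10 then .hd true 0 else .bad := by
        show (if t % 12 = 11 then St.hd false 0 else if t % 12 = 10 then St.hd true 0 else St.bad) = _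
        rw [if_neg h11]
      rw [h2] at h
      by_cases h10 : t % 12 = 10
      · rw [if_pos h10] at h
        exact h
      · rw [if_neg h10] at h
        exact h
    · rintro ⟨t', L', h, h11⟩
      obtain ⟨rfl, rfl⟩ := List.cons.inj h
      rw [lg_ini11 h11]
      trivial

private theorem lg_fgs (q : St) (c : ℕ) (h : q ≠ .ini) : stp (fg q) c = fg (stp q c) := by
  rcases q with _ | _ | f | ⟨f, j⟩ | f | f | f | ⟨f, a, k⟩ | ⟨f, a, b, k⟩
  · exact absurd rfl h
  · rfl
  · rfl
  · have h1 : ∀ g : Bool, stp (.hd g j) c = if j = 0 ∨ j = 5 then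
        (if c = 4 then .hd g 1 else if c = 3 then .ac g else if c = 1 then .v0 g
          else if j = 0 ∧ 6 ≤ c then .db g else .dk g)
      else if (j = 1 ∨ j = 3) ∧ c = 8 then .hd g (j + 1)
      else if (j = 2 ∨ j = 4) ∧ c = 6 then .hd g (j + 1)
      else .dk g := fun g => rfl
    have h2 : fg (.hd f j) = .hd true j := rfl
    rw [h2, h1, h1]
    split_ifs
    all_goals rfl
  · rfl
  · rfl
  · rfl
  · have h1 : ∀ g : Bool, stp (.al g a k) c = if k = 0 then (if c = 6 then .al g a 1 else .al g a 2)
      else if k = 1 then .be g a c 0 else .al g a 2 := fun g => rfl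
    have h2 : fg (.al f a k) = .al true a k := rfl
    rw [h2, h1, h1]
    split_ifs
    all_goals rfl
  · rfl

private theorem lg_fgn (L : List ℕ) (q : St) (h : q ≠ .ini) : rn (fg q) L = fg (rn q L) := by
  induction L generalizing q with
  | nil => rfl
  | cons p L ih =>
    rw [rn_cons, rn_cons, lg_fgs q _ h]
    exact ih _ (lg_fls q _ h).1

/-- changing the first letter from `O` to `O'` -/
theorem run_fg {t t' : ℕ} {L : List ℕ} (h : t % 12 = 11) (h' : t' % 12 = 10) :
    run (t' :: L) = fg (run (t :: L)) := by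
  have h1 : run (t' :: L) = rn (stp .ini (t' % 12)) L := rfl
  have h2 : run (t :: L) = rn (stp .ini (t % 12)) L := rfl
  rw [h1, h2, lg_ini10 h', lg_ini11 h]
  exact lg_fgn L (.hd false 0) (fun h => (by cases h))

/-- the state is flagged -/
def flg : St → Prop
  | .db true => True
  | .hd true _ => True
  | .v0 true => True
  | .dk true => True
  | .ac true => True
  | .al true _ _ => True
  | .be true _ _ _ => True
  | _ => False

private theorem lg_flg (q : St) : flg q ↔ lg_fl q = some true := by
  rcases q with _ | _ | f | ⟨f, j⟩ | f | f | f | ⟨f, a, k⟩ | ⟨f, a, b, k⟩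
  · exact ⟨fun h => h.elim, fun h => (by cases h)⟩
  · exact ⟨fun h => h.elim, fun h => (by cases h)⟩
  all_goals
    cases f
    · exact ⟨fun h => h.elim, fun h => (by cases h)⟩
    · exact ⟨fun _ => rfl, fun _ => trivial⟩

theorem run_flg {L : List ℕ} : flg (run L) ↔ ∃ t L', L = t :: L' ∧ t % 12 = 10 := by
  cases L with
  | nil =>
    constructor
    · intro h
      exact h.elim
    · rintro ⟨t, L', h, -⟩
      exact absurd h (by simp)
  | cons t L =>
    have h1 : flg (run (t :: L)) ↔ flg (stp .ini (t % 12)) := by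
      rw [lg_flg, lg_flg]
      have h := (lg_fln L _ (lg_ini (t % 12))).2
      have h0 : run (t :: L) = rn (stp .ini (t % 12)) L := rfl
      rw [h0, h]
    rw [h1]
    constructor
    · intro h
      refine ⟨t, L, rfl, ?_⟩
      by_contra h10
      by_cases h11 : t % 12 = 11
      · rw [lg_ini11 h11] at h
        exact h
      · rw [lg_inib h11 h10] at h
        exact h
    · rintro ⟨t', L', h, h10⟩
      obtain ⟨rfl, rfl⟩ := List.cons.inj h
      rw [lg_ini10 h10]
      trivial

private theorem lg_tbf {q : St} (h : tb q) : lg_fl q = some true := by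
  rcases q with _ | _ | f | ⟨f, j⟩ | f | f | f | ⟨f, a, k⟩ | ⟨f, a, b, k⟩
  · exact h.elim
  · exact h.elim
  · exact h.elim
  all_goals
    cases f
    · exact h.elim
    · rfl

private theorem lg_tbs {q : St} (c : ℕ) (h : tb q) : tb (stp q c) := by
  rcases q with _ | _ | f | ⟨f, j⟩ | f | f | f | ⟨f, a, k⟩ | ⟨f, a, b, k⟩
  · exact h.elim
  · exact h.elim
  · exact h.elim
  · cases f
    · exact h.elim
    · have hj : j ≠ 0 := h
      have h1 : stp (.hd true j) c = if j = 0 ∨ j = 5 then
        (if c = 4 then .hd true 1 else if c = 3 then .ac true else if c = 1 then .v0 true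
          else if j = 0 ∧ 6 ≤ c then .db true else .dk true)
      else if (j = 1 ∨ j = 3) ∧ c = 8 then .hd true (j + 1)
      else if (j = 2 ∨ j = 4) ∧ c = 6 then .hd true (j + 1)
      else .dk true := rfl
      rw [h1]
      split_ifs with a1 a2 a3 a4 a5 a6 a7
      · exact one_ne_zero
      · trivial
      · trivial
      · exact absurd a5.1 hj
      · trivial
      · exact Nat.succ_ne_zero j
      · exact Nat.succ_ne_zero j
      · trivial
  · cases f
    · exact h.elim
    · trivial
  · cases f
    · exact h.elim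
    · trivial
  · cases f
    · exact h.elim
    · trivial
  · cases f
    · exact h.elim
    · rcases lg_alc true a k c with h1 | h1 | h1
      all_goals
        rw [h1]
        trivial
  · cases f
    · exact h.elim
    · trivial

private theorem lg_tbn (L : List ℕ) {q : St} (h : tb q) : tb (rn q L) := by
  induction L generalizing q with
  | nil => exact h
  | cons p L ih => exact ih (lg_tbs _ h)

theorem tb_iff {L : List ℕ} : tb (run L) ↔ ∃ t s L', L = t :: s :: L' ∧ t % 12 = 10 ∧ s % 12 ≤ 5 := by
  constructor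
  · intro h
    have hf := lg_tbf h
    obtain ⟨t, L1, rfl, ht⟩ := run_flg.1 ((lg_flg _).2 hf)
    have h0 : run (t :: L1) = rn (.hd true 0) L1 := by
      have : run (t :: L1) = rn (stp .ini (t % 12)) L1 := rfl
      rw [this, lg_ini10 ht]
    rw [h0] at h
    cases L1 with
    | nil => exact absurd rfl (show (0 : ℕ) ≠ 0 from h)
    | cons s L2 =>
      refine ⟨t, s, L2, rfl, ht, ?_⟩
      by_contra hs
      have h2 : stp (.hd true 0) (s % 12) = .db true := by
        show (if (0 : ℕ) = 0 ∨ (0 : ℕ) = 5 then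
          (if s % 12 = 4 then St.hd true 1 else if s % 12 = 3 then .ac true else if s % 12 = 1 then .v0 true
            else if (0 : ℕ) = 0 ∧ 6 ≤ s % 12 then .db true else .dk true)
          else if ((0 : ℕ) = 1 ∨ (0 : ℕ) = 3) ∧ s % 12 = 8 then .hd true (0 + 1)
          else if ((0 : ℕ) = 2 ∨ (0 : ℕ) = 4) ∧ s % 12 = 6 then .hd true (0 + 1)
          else .dk true) = _
        rw [if_pos (Or.inl rfl), if_neg (by omega), if_neg (by omega), if_neg (by omega),
          if_pos ⟨rfl, by omega⟩]
      rw [rn_cons, h2, (rn_abs L2).2.1 true] at h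
      exact h
  · rintro ⟨t, s, L', rfl, ht, hs⟩
    have h0 : run (t :: s :: L') = rn (stp (.hd true 0) (s % 12)) L' := by
      have : run (t :: s :: L') = rn (stp (stp .ini (t % 12)) (s % 12)) L' := rfl
      rw [this, lg_ini10 ht]
    rw [h0]
    apply lg_tbn
    show tb (if (0 : ℕ) = 0 ∨ (0 : ℕ) = 5 then
          (if s % 12 = 4 then St.hd true 1 else if s % 12 = 3 then .ac true else if s % 12 = 1 then .v0 true
            else if (0 : ℕ) = 0 ∧ 6 ≤ s % 12 then .db true else .dk true)
          else if ((0 : ℕ) = 1 ∨ (0 : ℕ) = 3) ∧ s % 12 = 8 then .hd true (0 + 1)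
          else if ((0 : ℕ) = 2 ∨ (0 : ℕ) = 4) ∧ s % 12 = 6 then .hd true (0 + 1)
          else .dk true)
    rw [if_pos (Or.inl rfl)]
    by_cases h4 : s % 12 = 4
    · rw [if_pos h4]
      exact one_ne_zero
    · rw [if_neg h4]
      by_cases h3 : s % 12 = 3
      · rw [if_pos h3]
        trivial
      · rw [if_neg h3]
        by_cases h1 : s % 12 = 1
        · rw [if_pos h1]
          trivial
        · rw [if_neg h1, if_neg (by omega)]
          trivial

/-- states with a good second letter -/
def pr : St → Prop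
  | .v0 false => True
  | .ac false => True
  | .al false _ _ => True
  | .be false _ _ _ => True
  | _ => False

theorem pr_run {L : List ℕ} (h : pr (run L)) :
    ∃ t s L', L = t :: s :: L' ∧ t % 12 = 11 ∧ (s % 12 = 4 ∨ s % 12 = 3 ∨ s % 12 = 1) := by
  have hu : un (run L) := by
    generalize run L = q at h
    rcases q with _ | _ | f | ⟨f, j⟩ | f | f | f | ⟨f, a, k⟩ | ⟨f, a, b, k⟩
    · exact h.elim
    · exact h.elim
    all_goals
      cases f
      · trivial
      · exact h.elim
  obtain ⟨t, L1, rfl, ht⟩ := run_un.1 hu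
  have h0 : run (t :: L1) = rn (.hd false 0) L1 := by
    have : run (t :: L1) = rn (stp .ini (t % 12)) L1 := rfl
    rw [this, lg_ini11 ht]
  rw [h0] at h
  cases L1 with
  | nil => exact h.elim
  | cons s L2 =>
    refine ⟨t, s, L2, rfl, ht, ?_⟩
    by_contra hs
    have h4 : ¬ s % 12 = 4 := fun h => hs (Or.inl h)
    have h3 : ¬ s % 12 = 3 := fun h => hs (Or.inr (Or.inl h))
    have h1 : ¬ s % 12 = 1 := fun h => hs (Or.inr (Or.inr h))
    have h2 : stp (.hd false 0) (s % 12) = if (0 : ℕ) = 0 ∧ 6 ≤ s % 12 then .db false else .dk false := by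
      show (if (0 : ℕ) = 0 ∨ (0 : ℕ) = 5 then
          (if s % 12 = 4 then St.hd false 1 else if s % 12 = 3 then .ac false else if s % 12 = 1 then .v0 false
            else if (0 : ℕ) = 0 ∧ 6 ≤ s % 12 then .db false else .dk false)
          else if ((0 : ℕ) = 1 ∨ (0 : ℕ) = 3) ∧ s % 12 = 8 then .hd false (0 + 1)
          else if ((0 : ℕ) = 2 ∨ (0 : ℕ) = 4) ∧ s % 12 = 6 then .hd false (0 + 1)
          else .dk false) = _
      rw [if_pos (Or.inl rfl), if_neg h4, if_neg h3, if_neg h1]
    rw [rn_cons, h2] at h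
    by_cases h6 : (0 : ℕ) = 0 ∧ 6 ≤ s % 12
    · rw [if_pos h6, (rn_abs L2).2.1 false] at h
      exact h
    · rw [if_neg h6, (rn_abs L2).2.2.2 false] at h
      exact h

/-- the bounds of the states which occur -/
private def lg_bd : St → Prop
  | .hd _ j => j ≤ 5
  | .al _ a k => a < 12 ∧ k ≤ 2
  | .be _ a b k => a < 12 ∧ b < 12 ∧ k ≤ 8
  | _ => True

private theorem lg_nx {k : ℕ} (c : ℕ) (h : k ≤ 8) : nx k c ≤ 8 := by
  unfold nx
  split_ifs
  all_goals omega

private theorem lg_bds {q : St} {c : ℕ} (hc : c < 12) (h : lg_bd q) : lg_bd (stp q c) := by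
  rcases q with _ | _ | f | ⟨f, j⟩ | f | f | f | ⟨f, a, k⟩ | ⟨f, a, b, k⟩
  · show lg_bd (if c = 11 then St.hd false 0 else if c = 10 then St.hd true 0 else St.bad)
    split_ifs
    · exact Nat.zero_le 5
    · exact Nat.zero_le 5
    · trivial
  · trivial
  · trivial
  · rcases lg_hd f j c with h1 | h1 | h1 | h1 | h1 | ⟨h1, h2⟩
    · rw [h1]
      exact Nat.le_add_left 1 4
    · rw [h1]
      trivial
    · rw [h1]
      trivial
    · rw [h1]
      trivial
    · rw [h1]
      trivial
    · rw [h1]
      exact Nat.succ_le_succ h2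
  · trivial
  · trivial
  · exact ⟨hc, Nat.zero_le 2⟩
  · rcases lg_alc f a k c with h1 | h1 | h1
    · rw [h1]
      exact ⟨h.1, by omega⟩
    · rw [h1]
      exact ⟨h.1, le_rfl⟩
    · rw [h1]
      exact ⟨h.1, hc, Nat.zero_le 8⟩
  · exact ⟨h.1, h.2.1, lg_nx c h.2.2⟩

private theorem lg_bdn (L : List ℕ) {q : St} (h : lg_bd q) : lg_bd (rn q L) := by
  induction L generalizing q with
  | nil => exact h
  | cons p L ih => exact ih (lg_bds (Nat.mod_lt _ (by norm_num)) h)

/-- the list of the states which occur -/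
private def lg_dec : Fin 9 × Bool × Fin 12 × Fin 12 × Fin 9 → St
  | (0, _, _, _, _) => .ini
  | (1, _, _, _, _) => .bad
  | (2, f, _, _, _) => .db f
  | (3, f, _, _, k) => .hd f k
  | (4, f, _, _, _) => .v0 f
  | (5, f, _, _, _) => .dk f
  | (6, f, _, _, _) => .ac f
  | (7, f, a, _, k) => .al f a k
  | (8, f, a, b, k) => .be f a b k

private theorem lg_dc {q : St} (h : lg_bd q) : q ∈ Set.range lg_dec := by
  rcases q with _ | _ | f | ⟨f, j⟩ | f | f | f | ⟨f, a, k⟩ | ⟨f, a, b, k⟩
  · exact ⟨(0, true, 0, 0, 0), rfl⟩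
  · exact ⟨(1, true, 0, 0, 0), rfl⟩
  · exact ⟨(2, f, 0, 0, 0), rfl⟩
  · have h1 : j ≤ 5 := h
    exact ⟨(3, f, 0, 0, ⟨j, by omega⟩), rfl⟩
  · exact ⟨(4, f, 0, 0, 0), rfl⟩
  · exact ⟨(5, f, 0, 0, 0), rfl⟩
  · exact ⟨(6, f, 0, 0, 0), rfl⟩
  · have h1 : a < 12 ∧ k ≤ 2 := h
    exact ⟨(7, f, ⟨a, h1.1⟩, 0, ⟨k, by omega⟩), rfl⟩
  · have h1 : a < 12 ∧ b < 12 ∧ k ≤ 8 := h
    exact ⟨(8, f, ⟨a, h1.1⟩, ⟨b, h1.2.1⟩, ⟨k, by omega⟩), rfl⟩

/-- only finitely many states occur -/
theorem run_fin : (Set.range run).Finite := by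
  refine (Set.finite_range lg_dec).subset ?_
  rintro q ⟨L, rfl⟩
  exact lg_dc (lg_bdn L (q := .ini) trivial)

end Pool.Agent.STF
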