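import Pool.Agent.STF.La
import Pool.Agent.STF.Lg
import Pool.Agent.STF.Lh

/-!
# Project STF, module Wb: headers with given unary gaps

`hdr h l` is the header with the entries of the list `l` (the two gaps of every entry), shifted by `12 h`; the end
letter is `1 + 12 h`.
-/

set_option autoImplicit false

namespace Pool.Agent.STF

open Pool.Agent.STN

/-- base of the next entry -/
def hdb (h : ℕ) : List (ℕ × ℕ) → ℕ
  | [] => h
  | p :: l => hdb h l + p.2 + p.1 + 2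

/-- the entries -/
def hde (h : ℕ) : List (ℕ × ℕ) → List ℕ
  | [] => []
  | p :: l => (4 + 12 * (hdb h l + p.2 + p.1 + 2)) :: (8 + 12 * (hdb h l + p.2 + 1 + p.1)) ::
      (6 + 12 * (hdb h l + p.2 + 1)) :: (8 + 12 * (hdb h l + p.2)) :: (6 + 12 * hdb h l) :: hde h l

/-- the header -/
def hdr (h : ℕ) (l : List (ℕ × ℕ)) : List ℕ := (11 + 12 * hdb h l) :: hde h l

private theorem wb_sd (h : ℕ) (l : List (ℕ × ℕ)) :
    SD (hde h l ++ [1 + 12 * h]) ∧ ∀ x ∈ hde h l ++ [1 + 12 * h], x ≤ 4 + 12 * hdb h l := by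
  induction l with
  | nil =>
    refine ⟨List.pairwise_singleton _ _, fun x hx => ?_⟩
    rw [hde, List.nil_append, List.mem_singleton] at hx
    rw [hdb]
    omega
  | cons p l ih =>
    obtain ⟨h1, h2⟩ := ih
    have e1 : hde h (p :: l) ++ [1 + 12 * h] = (4 + 12 * (hdb h l + p.2 + p.1 + 2)) ::
      (8 + 12 * (hdb h l + p.2 + 1 + p.1)) :: (6 + 12 * (hdb h l + p.2 + 1)) :: (8 + 12 * (hdb h l + p.2)) ::
      (6 + 12 * hdb h l) :: (hde h l ++ [1 + 12 * h]) := rfl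
    have e2 : hdb h (p :: l) = hdb h l + p.2 + p.1 + 2 := rfl
    rw [e1, e2]
    constructor
    · simp only [sd_cons]
      refine ⟨?_, ?_, ?_, ?_, ?_, h1⟩ <;> intro b hb <;> try simp only [List.mem_cons] at hb
      · rcases hb with hb | hb | hb | hb | hb
        · omega
        · omega
        · omega
        · omega
        · have := h2 b hb
          omega
      · rcases hb with hb | hb | hb | hb
        · omega
        · omega
        · omega
        · have := h2 b hb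
          omega
      · rcases hb with hb | hb | hb
        · omega
        · omega
        · have := h2 b hb
          omega
      · rcases hb with hb | hb
        · omega
        · have := h2 b hb
          omega
      · have := h2 b hb
        omega
    · intro x hx
      simp only [List.mem_cons] at hx
      rcases hx with hx | hx | hx | hx | hx | hx
      · omega
      · omega
      · omega
      · omega
      · omega
      · have := h2 x hx
        omega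

theorem hdr_sd (h : ℕ) (l : List (ℕ × ℕ)) : SD (hdr h l ++ [1 + 12 * h]) := by
  obtain ⟨h1, h2⟩ := wb_sd h l
  have e1 : hdr h l ++ [1 + 12 * h] = (11 + 12 * hdb h l) :: (hde h l ++ [1 + 12 * h]) := rfl
  rw [e1, sd_cons]
  refine ⟨fun b hb => ?_, h1⟩
  have := h2 b hb
  omega

/-- reading one entry -/
private theorem wb_ent {q : St} (hq : bd q) {s t1 r1 t2 r2 : ℕ} (hs : s % 12 = 4) (h1 : t1 % 12 = 8)
    (h2 : r1 % 12 = 6) (h3 : t2 % 12 = 8) (h4 : r2 % 12 = 6) :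
    rn q [s] = .hd false 1 ∧ rn q [s, t1] = .hd false 2 ∧ rn q [s, t1, r1] = .hd false 3 ∧
      rn q [s, t1, r1, t2] = .hd false 4 ∧ rn q [s, t1, r1, t2, r2] = .hd false 5 := by
  simp only [rn_cons, rn_nil, hs, h1, h2, h3, h4]
  rcases hq with h | h <;> rw [h] <;> exact ⟨rfl, rfl, rfl, rfl, rfl⟩

private theorem wb_m4 (n : ℕ) : (4 + 12 * n) % 12 = 4 := by omega

private theorem wb_m6 (n : ℕ) : (6 + 12 * n) % 12 = 6 := by omega

private theorem wb_m8 (n : ℕ) : (8 + 12 * n) % 12 = 8 := by omega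

private theorem wb_bd (h : ℕ) (l : List (ℕ × ℕ)) : ∀ q, bd q → bd (rn q (hde h l)) := by
  induction l with
  | nil => exact fun q hq => hq
  | cons p l ih =>
    intro q hq
    have e : hde h (p :: l) = [4 + 12 * (hdb h l + p.2 + p.1 + 2), 8 + 12 * (hdb h l + p.2 + 1 + p.1),
      6 + 12 * (hdb h l + p.2 + 1), 8 + 12 * (hdb h l + p.2), 6 + 12 * hdb h l] ++ hde h l := rfl
    rw [e, rn_append, (wb_ent hq (wb_m4 _) (wb_m8 _) (wb_m6 _) (wb_m8 _) (wb_m6 _)).2.2.2.2]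
    exact ih _ (Or.inr rfl)

theorem hdr_bd (h : ℕ) (l : List (ℕ × ℕ)) : bd (run (hdr h l)) := by
  have e : run (hdr h l) = rn (stp .ini ((11 + 12 * hdb h l) % 12)) (hde h l) := rfl
  have e2 : (11 + 12 * hdb h l) % 12 = 11 := by omega
  rw [e, e2]
  exact wb_bd h l _ (Or.inl rfl)

private theorem wb_hb (h : ℕ) (l : List (ℕ × ℕ)) : hdb h l = hdb 0 l + h := by
  induction l with
  | nil => simp [hdb]
  | cons p l ih =>
    rw [hdb, hdb, ih]
    ring

private theorem wb_pw (c b h : ℕ) : 3 ^ (c + 12 * (b + h)) = 3 ^ (c + 12 * b) * 3 ^ (12 * h) := by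
  rw [← pow_add]
  ring_nf

private theorem wb_ofl (h : ℕ) (l : List (ℕ × ℕ)) : ofl (hde h l) = ofl (hde 0 l) * 3 ^ (12 * h) := by
  induction l with
  | nil => simp [hde, ofl_nil]
  | cons p l ih =>
    have e : ∀ h, ofl (hde h (p :: l)) = 3 ^ (4 + 12 * (hdb h l + p.2 + p.1 + 2)) +
      (3 ^ (8 + 12 * (hdb h l + p.2 + 1 + p.1)) + (3 ^ (6 + 12 * (hdb h l + p.2 + 1)) +
      (3 ^ (8 + 12 * (hdb h l + p.2)) + (3 ^ (6 + 12 * hdb h l) + ofl (hde h l))))) := by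
      intro h
      rw [hde, ofl_cons, ofl_cons, ofl_cons, ofl_cons, ofl_cons]
    have e1 : hdb h l + p.2 + p.1 + 2 = (hdb 0 l + p.2 + p.1 + 2) + h := by rw [wb_hb]; ring
    have e2 : hdb h l + p.2 + 1 + p.1 = (hdb 0 l + p.2 + 1 + p.1) + h := by rw [wb_hb]; ring
    have e3 : hdb h l + p.2 + 1 = (hdb 0 l + p.2 + 1) + h := by rw [wb_hb]; ring
    have e4 : hdb h l + p.2 = (hdb 0 l + p.2) + h := by rw [wb_hb]; ring
    rw [e h, e 0, e1, e2, e3, e4, wb_hb h l, ih, wb_pw, wb_pw, wb_pw, wb_pw, wb_pw]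
    ring

theorem hdr_ofl (h : ℕ) (l : List (ℕ × ℕ)) :
    ofl (hdr h l ++ [1 + 12 * h]) = ofl (hdr 0 l ++ [1]) * 3 ^ (12 * h) := by
  have e : (1 + 12 * h : ℕ) = 1 + 12 * (0 + h) := by ring
  have e0 : (1 : ℕ) = 1 + 12 * 0 := rfl
  rw [ofl_append, ofl_append, hdr, hdr, ofl_cons, ofl_cons, ofl_cons, ofl_cons, ofl_nil, wb_ofl h l, wb_hb h l,
    wb_pw 11, e, wb_pw 1 0 h]
  ring

private theorem wb_fwd (h : ℕ) (l : List (ℕ × ℕ)) : ∀ q, bd q → ∀ A s t1 r1 t2 r2 B,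
    hde h l = A ++ s :: t1 :: r1 :: t2 :: r2 :: B → bd (rn q A) → s % 12 = 4 →
    ∃ p ∈ l, uu t1 r1 = p.1 ∧ uu t2 r2 = p.2 := by
  induction l with
  | nil =>
    intro q _ A s t1 r1 t2 r2 B hA _ _
    exfalso
    have h1 := congrArg List.length hA
    rw [List.length_append] at h1
    simp [hde] at h1
  | cons p l ih =>
    intro q hq A s t1 r1 t2 r2 B hA hb' hs
    obtain ⟨f1, f2, f3, f4, f5⟩ := wb_ent hq (wb_m4 (hdb h l + p.2 + p.1 + 2)) (wb_m8 (hdb h l + p.2 + 1 + p.1))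
      (wb_m6 (hdb h l + p.2 + 1)) (wb_m8 (hdb h l + p.2)) (wb_m6 (hdb h l))
    have nb : ∀ j, j = 1 ∨ j = 2 ∨ j = 3 ∨ j = 4 → ¬ bd (.hd false j) := by
      rintro j hj (h1 | h1) <;> injection h1 with _ h2 <;> omega
    rw [hde] at hA
    rcases A with _ | ⟨x1, _ | ⟨x2, _ | ⟨x3, _ | ⟨x4, _ | ⟨x5, A⟩⟩⟩⟩⟩ <;>
      simp only [List.nil_append, List.cons_append, List.cons.injEq] at hA
    · obtain ⟨e1, e2, e3, e4, e5, -⟩ := hA
      refine ⟨p, List.mem_cons_self, ?_, ?_⟩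
      · rw [← e2, ← e3, uu_fmt]
      · rw [← e4, ← e5, uu_fmt]
    · obtain ⟨e1, -⟩ := hA
      rw [← e1, f1] at hb'
      exact absurd hb' (nb 1 (by omega))
    · obtain ⟨e1, e2, -⟩ := hA
      rw [← e1, ← e2, f2] at hb'
      exact absurd hb' (nb 2 (by omega))
    · obtain ⟨e1, e2, e3, -⟩ := hA
      rw [← e1, ← e2, ← e3, f3] at hb'
      exact absurd hb' (nb 3 (by omega))
    · obtain ⟨e1, e2, e3, e4, -⟩ := hA
      rw [← e1, ← e2, ← e3, ← e4, f4] at hb'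
      exact absurd hb' (nb 4 (by omega))
    · obtain ⟨e1, e2, e3, e4, e5, e6⟩ := hA
      have e7 : x1 :: x2 :: x3 :: x4 :: x5 :: A = [x1, x2, x3, x4, x5] ++ A := rfl
      rw [e7, rn_append, ← e1, ← e2, ← e3, ← e4, ← e5, f5] at hb'
      obtain ⟨p', hp', h1⟩ := ih _ (Or.inr rfl) A s t1 r1 t2 r2 B e6 hb' hs
      exact ⟨p', List.mem_cons_of_mem _ hp', h1⟩

private theorem wb_bwd (h : ℕ) (l : List (ℕ × ℕ)) (p : ℕ × ℕ) (hp : p ∈ l) : ∀ q, bd q →
    ∃ A s t1 r1 t2 r2 B, hde h l = A ++ s :: t1 :: r1 :: t2 :: r2 :: B ∧ bd (rn q A) ∧ s % 12 = 4 ∧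
      uu t1 r1 = p.1 ∧ uu t2 r2 = p.2 := by
  induction l with
  | nil => exact absurd hp List.not_mem_nil
  | cons p' l ih =>
    intro q hq
    rcases List.mem_cons.1 hp with rfl | hp
    · exact ⟨[], _, _, _, _, _, _, rfl, hq, wb_m4 _, uu_fmt _ _, uu_fmt _ _⟩
    · have f5 := (wb_ent hq (wb_m4 (hdb h l + p'.2 + p'.1 + 2)) (wb_m8 (hdb h l + p'.2 + 1 + p'.1))
        (wb_m6 (hdb h l + p'.2 + 1)) (wb_m8 (hdb h l + p'.2)) (wb_m6 (hdb h l))).2.2.2.2
      obtain ⟨A, s, t1, r1, t2, r2, B, h1, h2, h3, h4⟩ := ih hp (.hd false 5) (Or.inr rfl)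
      refine ⟨[4 + 12 * (hdb h l + p'.2 + p'.1 + 2), 8 + 12 * (hdb h l + p'.2 + 1 + p'.1),
        6 + 12 * (hdb h l + p'.2 + 1), 8 + 12 * (hdb h l + p'.2), 6 + 12 * hdb h l] ++ A, s, t1, r1, t2, r2, B, ?_,
        ?_, h3, h4⟩
      · rw [hde, h1]
        rfl
      · rw [rn_append, f5]
        exact h2

theorem hdr_bx (h : ℕ) (l : List (ℕ × ℕ)) (z : ℕ) : z ∈ Bx (hdr h l) ↔
    ∃ p ∈ l, ∃ P Q, SD P ∧ SD Q ∧ ix P = p.1 ∧ ix Q = p.2 ∧ ofl P + z = 2 * ofl Q := by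
  have e2 : (11 + 12 * hdb h l) % 12 = 11 := by omega
  constructor
  · rintro ⟨A, s, t1, r1, t2, r2, B, h1, h2, h3, P, Q, h4, h5, h6, h7, h8⟩
    rcases A with _ | ⟨x, A⟩
    · rcases h2 with h2 | h2 <;> rw [run_nil] at h2 <;> cases h2
    · rw [hdr, List.cons_append, List.cons.injEq] at h1
      obtain ⟨rfl, h1⟩ := h1
      have e : run ((11 + 12 * hdb h l) :: A) = rn (stp .ini ((11 + 12 * hdb h l) % 12)) A := rfl
      rw [e, e2] at h2
      obtain ⟨p, hp, k1, k2⟩ := wb_fwd h l (.hd false 0) (Or.inl rfl) A s t1 r1 t2 r2 B h1 h2 h3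
      exact ⟨p, hp, P, Q, h4, h5, h6.trans k1, h7.trans k2, h8⟩
  · rintro ⟨p, hp, P, Q, h4, h5, h6, h7, h8⟩
    obtain ⟨A, s, t1, r1, t2, r2, B, h1, h2, h3, k1, k2⟩ := wb_bwd h l p hp (.hd false 0) (Or.inl rfl)
    refine ⟨(11 + 12 * hdb h l) :: A, s, t1, r1, t2, r2, B, ?_, ?_, h3, P, Q, h4, h5, h6.trans k1.symm,
      h7.trans k2.symm, h8⟩
    · rw [hdr, h1]
      rfl
    · have e : run ((11 + 12 * hdb h l) :: A) = rn (stp .ini ((11 + 12 * hdb h l) % 12)) A := rfl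
      rw [e, e2]
      exact h2

end Pool.Agent.STF
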