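import Pool.Agent.STF.Wa
import Pool.Agent.STF.Wb

/-!
# Project STF, module Wz: the windows

`T` is a greedy subset of `U`, `a` a Stanley sequence (greedy from index `k` on).  For the header `H1` whose entries
list all `m ≤ a k` which are not terms of `a`, and its shifts by `12 h`, the window of `T` is the range of `a`.
-/

set_option autoImplicit false

namespace Pool.Agent.STF

open Pool.Agent.STN

private theorem wz_list (F : Finset ℕ) : ∃ l : List (ℕ × ℕ), ∀ z,
    (∃ p ∈ l, ∃ P Q, SD P ∧ SD Q ∧ ix P = p.1 ∧ ix Q = p.2 ∧ ofl P + z = 2 * ofl Q) ↔ z ∈ F := by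
  classical
  induction F using Finset.induction_on with
  | empty =>
    refine ⟨[], fun z => ?_⟩
    constructor
    · rintro ⟨p, hp, -⟩
      exact absurd hp List.not_mem_nil
    · intro h
      exact absurd h (Finset.notMem_empty z)
  | insert m F hm ih =>
    obtain ⟨l, hl⟩ := ih
    obtain ⟨W, hW, hmW⟩ := exists_w m
    have hcan := w_can W
    rw [← hmW] at hcan
    refine ⟨(ix (one W), ix (pos W)) :: l, fun z => ?_⟩
    rw [Finset.mem_insert, ← hl z]
    constructor
    · rintro ⟨p, hp, P, Q, h1, h2, h3, h4, h5⟩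
      rcases List.mem_cons.1 hp with rfl | hp
      · left
        have e1 := ix_inj h1 (sd_one hW) h3
        have e2 := ix_inj h2 hW h4
        rw [e1, e2] at h5
        omega
      · exact Or.inr ⟨p, hp, P, Q, h1, h2, h3, h4, h5⟩
    · rintro (rfl | ⟨p, hp, h⟩)
      · exact ⟨_, List.mem_cons_self, one W, pos W, sd_one hW, hW, rfl, rfl, hcan⟩
      · exact ⟨p, List.mem_cons_of_mem _ hp, h⟩

theorem window {a : ℕ → ℕ} (ha : StrictMono a) (hf : ThreeAPFree (Set.range a))
    (hk : ∃ k : ℕ, ∀ n : ℕ, k ≤ n → ∀ m : ℕ, a n < m → m < a (n + 1) →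
      ¬ ThreeAPFree (insert m (a '' Set.Iic n)))
    {T : Set ℕ} (hTU : T ⊆ UU) (hTf : Fre T)
    (hT : ∀ n ∈ UU, n ∉ T → ∃ x ∈ T, ∃ y ∈ T, x < y ∧ x + n = 2 * y) :
    ∃ P : ℕ, 0 < P ∧ ∀ h m : ℕ, m ∈ Set.range a → 2 * m < 3 ^ (1 + 12 * h) → P * 3 ^ (12 * h) + m ∈ T := by
  classical
  obtain ⟨k, hk⟩ := hk
  obtain ⟨l, hl⟩ := wz_list ((Finset.range (a k + 1)).filter fun m => m ∉ Set.range a)
  refine ⟨ofl (hdr 0 l ++ [1]), ?_, ?_⟩
  · rw [ofl_append, ofl_cons]
    positivity
  intro h
  rw [← hdr_ofl]
  have hs := hdr_sd h l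
  have hb := hdr_bd h l
  have he : (1 + 12 * h) % 12 = 1 := by omega
  have hbx : ∀ z, z ∈ Bx (hdr h l) ↔ z ≤ a k ∧ z ∉ Set.range a := by
    intro z
    rw [hdr_bx, hl, Finset.mem_filter, Finset.mem_range, Nat.lt_succ_iff]
  suffices key : ∀ m, 2 * m < 3 ^ (1 + 12 * h) →
      (ofl (hdr h l ++ [1 + 12 * h]) + m ∈ T ↔ m ∈ Set.range a) from fun m hm hm2 => (key m hm2).2 hm
  intro m
  induction m using Nat.strong_induction_on with
  | _ m ih =>
    intro hm
    have hU := u_mem hs hb he hm
    constructor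
    · intro hmT
      by_contra hma
      have hkm : a k < m := by
        by_contra hc
        exact (hU.1 (hTU hmT)) ((hbx m).2 ⟨not_lt.1 hc, hma⟩)
      have hex : ∃ n, m ≤ a n := ⟨m, ha.id_le m⟩
      obtain ⟨n, hn⟩ : ∃ n, n = Nat.find hex := ⟨_, rfl⟩
      have h1 : m ≤ a n := hn ▸ Nat.find_spec hex
      have h2 : m ≠ a n := fun h2 => hma ⟨n, h2.symm⟩
      have h3 : k < n := by
        by_contra hc
        have := ha.monotone (not_lt.1 hc)
        omega
      obtain ⟨n', rfl⟩ : ∃ n', n = n' + 1 := ⟨n - 1, by omega⟩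
      have h4 : a n' < m := by
        by_contra hc
        have := Nat.find_min hex (m := n') (by omega)
        exact this (not_lt.1 hc)
      have h5 := hk n' (by omega) m h4 (by omega)
      apply h5
      have hsub : ∀ x ∈ a '' Set.Iic n', x ∈ Set.range a ∧ x < m := by
        rintro x ⟨i, hi, rfl⟩
        exact ⟨⟨i, rfl⟩, lt_of_le_of_lt (ha.monotone hi) h4⟩
      have habs : ∀ x y, x ∈ a '' Set.Iic n' → y ∈ a '' Set.Iic n' → x + m = y + y → False := by
        intro x y hx hy hxy
        obtain ⟨x1, x2⟩ := hsub x hx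
        obtain ⟨y1, y2⟩ := hsub y hy
        have h6 := (ih x x2 (by omega)).2 x1
        have h7 := (ih y y2 (by omega)).2 y1
        have h8 := hTf _ h6 _ h7 _ hmT (by omega)
        omega
      intro x hx y hy z hz hxyz
      rcases hx with hx | hx
      · rcases hy with hy | hy
        · rw [hx, hy]
        · rcases hz with hz | hz
          · subst hx hz
            obtain ⟨-, y2⟩ := hsub y hy
            omega
          · exfalso
            subst hx
            exact habs z y hz hy (by omega)
      · rcases hy with hy | hy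
        · exfalso
          subst hy
          obtain ⟨-, x2⟩ := hsub x hx
          rcases hz with hz | hz
          · subst hz
            omega
          · obtain ⟨-, z2⟩ := hsub z hz
            omega
        · rcases hz with hz | hz
          · exfalso
            subst hz
            exact habs x y hx hy hxyz
          · exact hf (hsub x hx).1 (hsub y hy).1 (hsub z hz).1 hxyz
    · intro hma
      by_contra hmT
      have hmU := hU.2 fun hx => ((hbx m).1 hx).2 hma
      obtain ⟨x, hx, y, hy, hxy, hrel⟩ := hT _ hmU hmT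
      obtain ⟨x', y', k1, k2, rfl, rfl, h1⟩ := u_prog hs hb he hm (hTU hx) (hTU hy) hrel
      have h2 := (ih x' (by omega) k1).1 hx
      have h3 := (ih y' (by omega) k2).1 hy
      have h4 := hf h2 h3 hma (by omega)
      omega

end Pool.Agent.STF
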