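import Pool.Agent.STF.Defs

/-!
# Project STF, module Zy: counting (section lead helper64)

Let `c = #{n | 2 * b n < 3 ^ (1 + 12 h)}`; since `b` is strictly increasing, these are `n = 0, ..., c - 1`, and the
corresponding `c` different values `N0 * (P * 3^(12h) + b n) + D` of `a` are at most `K * 3^(12h)`
(`K = N0 * (P + 3) + |D|`), so `a (c - 1) ≤ K * 3^(12h)`.  By `hbb`, every `n ≥ 1` with `2 * C0 * n^(1+ε/2) < 3^(12h)` is `< c`,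
so `c - 1 ≥ c1 * (3^(12h))^(1/(1+ε/2)) - 2` with `c1 = (2 * C0)^(-1/(1+ε/2))`; hence `(c - 1)^(1+ε)` grows like
`(3^(12h))^((1+ε)/(1+ε/2))`, faster than `3^(12h)`.
-/

set_option autoImplicit false

namespace Pool.Agent.STF

open Pool.Agent.STN

private theorem zy_le {a b : ℕ → ℕ} (ha : StrictMono a) (hb : StrictMono b) {N0 D : ℤ}
    (hN0 : 0 < N0) {P h : ℕ}
    (hw : ∀ n, 2 * b n < 3 ^ (1 + 12 * h) →
      ∃ j, (a j : ℤ) = N0 * ((P : ℤ) * 3 ^ (12 * h) + b n) + D) :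
    ∀ n, 2 * b n < 3 ^ (1 + 12 * h) →
      ∀ j, (a j : ℤ) = N0 * ((P : ℤ) * 3 ^ (12 * h) + b n) + D → n ≤ j := by
  intro n
  induction n with
  | zero => intro _ j _; exact Nat.zero_le j
  | succ n ih =>
    intro hn j hj
    have h1 : b n < b (n + 1) := hb (Nat.lt_succ_self n)
    have h2 : 2 * b n < 3 ^ (1 + 12 * h) := by omega
    obtain ⟨j', hj'⟩ := hw n h2
    have h3 := ih h2 j' hj'
    have h4 : (a j' : ℤ) < a j := by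
      rw [hj, hj']
      have h5 : (b n : ℤ) < b (n + 1) := by exact_mod_cast h1
      nlinarith
    have h5 : j' < j := ha.lt_iff_lt.1 (by exact_mod_cast h4)
    omega

/-- number of terms -/
theorem term_le {a b : ℕ → ℕ} (ha : StrictMono a) (hb : StrictMono b) {N0 D : ℤ} (hN0 : 0 < N0) {P h c : ℕ}
    (hc : 1 ≤ c) (hcb : 2 * b (c - 1) < 3 ^ (1 + 12 * h))
    (hw : ∀ n, 2 * b n < 3 ^ (1 + 12 * h) → ∃ j, (a j : ℤ) = N0 * ((P : ℤ) * 3 ^ (12 * h) + b n) + D) :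
    (a (c - 1) : ℤ) ≤ (N0 * (P + 3) + |D|) * 3 ^ (12 * h) := by
  obtain ⟨j, hj⟩ := hw (c - 1) hcb
  have h1 := zy_le ha hb hN0 hw (c - 1) hcb j hj
  have h2 : (a (c - 1) : ℤ) ≤ a j := by exact_mod_cast ha.monotone h1
  have h3 : 2 * (b (c - 1) : ℤ) < 3 * 3 ^ (12 * h) := by
    have h4 : 2 * b (c - 1) < 3 * 3 ^ (12 * h) := by
      rw [pow_add, pow_one] at hcb
      exact hcb
    exact_mod_cast h4
  have h4 : (1 : ℤ) ≤ 3 ^ (12 * h) := one_le_pow₀ (by norm_num)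
  have h5 : (b (c - 1) : ℤ) ≤ 3 * 3 ^ (12 * h) := by
    have h6 : (0 : ℤ) ≤ b (c - 1) := Int.natCast_nonneg _
    linarith
  have h6 : D ≤ |D| * 3 ^ (12 * h) :=
    (le_abs_self D).trans (le_mul_of_one_le_right (abs_nonneg D) h4)
  have h7 : N0 * (b (c - 1) : ℤ) ≤ N0 * (3 * 3 ^ (12 * h)) :=
    mul_le_mul_of_nonneg_left h5 hN0.le
  rw [hj] at h2
  linarith

theorem sparse {a b : ℕ → ℕ} (ha : StrictMono a) (hb : StrictMono b) {N0 D : ℤ} (hN0 : 0 < N0) {P : ℕ}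
    {ε C0 : ℝ} (hε : 0 < ε) (hC0 : 0 < C0) (hbb : ∀ n : ℕ, 1 ≤ n → (b n : ℝ) ≤ C0 * (n : ℝ) ^ (1 + ε / 2))
    (hw : ∀ h n, 2 * b n < 3 ^ (1 + 12 * h) → ∃ j, (a j : ℤ) = N0 * ((P : ℤ) * 3 ^ (12 * h) + b n) + D)
    (C : ℝ) (hC : 0 < C) (N : ℕ) : ∃ n : ℕ, N ≤ n ∧ (a n : ℝ) < C * (n : ℝ) ^ (1 + ε) := by
  obtain ⟨s, hs⟩ : ∃ s : ℝ, s = 1 + ε / 2 := ⟨_, rfl⟩
  have hs0 : 0 < s := by rw [hs]; linarith
  rw [← hs] at hbb
  obtain ⟨K, hK⟩ : ∃ K : ℝ, K = ((N0 * (P + 3) + |D| : ℤ) : ℝ) := ⟨_, rfl⟩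
  have hK0 : 0 < K := by
    rw [hK]
    have h1 : (0 : ℤ) < N0 * (P + 3) + |D| := by positivity
    exact_mod_cast h1
  obtain ⟨K', hK'⟩ : ∃ K' : ℝ, K' = K * (2 * C0 * 2 ^ s) := ⟨_, rfl⟩
  have hev : ∀ᶠ n : ℕ in Filter.atTop, K' / C < (n : ℝ) ^ (ε / 2) :=
    ((tendsto_rpow_atTop (half_pos hε)).comp tendsto_natCast_atTop_atTop).eventually_gt_atTop _
  obtain ⟨n0, hn0⟩ := Filter.eventually_atTop.1 hev
  obtain ⟨M, hM⟩ : ∃ M : ℕ, M = max (max n0 N) 1 := ⟨_, rfl⟩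
  obtain ⟨h, hh⟩ := pow_unbounded_of_one_lt (2 * C0 * ((M : ℝ) + 1) ^ s)
    (show (1 : ℝ) < 3 ^ 12 by norm_num)
  rw [← pow_mul] at hh
  obtain ⟨X, hX⟩ : ∃ X : ℝ, X = 3 ^ (12 * h) := ⟨_, rfl⟩
  rw [← hX] at hh
  have hX0 : 0 < X := by rw [hX]; positivity
  obtain ⟨y, hy⟩ : ∃ y : ℝ, y = (X / (2 * C0)) ^ s⁻¹ := ⟨_, rfl⟩
  have hXC : 0 < X / (2 * C0) := by positivity
  have hy0 : 0 < y := by rw [hy]; positivity
  have hys : y ^ s = X / (2 * C0) := by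
    rw [hy]
    exact Real.rpow_inv_rpow hXC.le hs0.ne'
  have hyX : 2 * C0 * y ^ s = X := by
    rw [hys]
    field_simp
  have hMy : (M : ℝ) + 1 < y := by
    rw [← Real.rpow_lt_rpow_iff (by positivity) hy0.le hs0, hys, lt_div_iff₀ (by positivity)]
    linarith
  have hf1 : ((⌊y⌋₊ : ℕ) : ℝ) ≤ y := Nat.floor_le hy0.le
  have hf2 : y < (⌊y⌋₊ : ℕ) + 1 := Nat.lt_floor_add_one y
  obtain ⟨n, hn⟩ : ∃ n : ℕ, n = ⌊y⌋₊ := ⟨_, rfl⟩
  rw [← hn] at hf1 hf2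
  have hMn : M < n := by
    have h1 : (M : ℝ) < n := by linarith
    exact_mod_cast h1
  have hn1 : 1 ≤ n := by omega
  have hn1' : (1 : ℝ) ≤ n := by exact_mod_cast hn1
  have hn0' : (0 : ℝ) < n := by linarith
  have hns : (n : ℝ) ^ s ≤ y ^ s := Real.rpow_le_rpow hn0'.le hf1 hs0.le
  have hb1 : 2 * (b n : ℝ) < 3 * X := by
    have h1 := hbb n hn1
    have h2 : C0 * (n : ℝ) ^ s ≤ C0 * y ^ s := mul_le_mul_of_nonneg_left hns hC0.le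
    linarith
  have hb2 : 2 * b n < 3 ^ (1 + 12 * h) := by
    rw [hX] at hb1
    rw [pow_add, pow_one]
    exact_mod_cast hb1
  have ht := term_le ha hb hN0 (c := n + 1) (by omega) (by simpa using hb2) (hw h)
  rw [Nat.add_sub_cancel] at ht
  have ht2 : (a n : ℝ) ≤ K * X := by
    rw [hK, hX]
    exact_mod_cast ht
  have h3 : y ^ s ≤ 2 ^ s * (n : ℝ) ^ s := by
    rw [← Real.mul_rpow (by norm_num) hn0'.le]
    exact Real.rpow_le_rpow hy0.le (by linarith) hs0.le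
  have h4 : K * X ≤ K' * (n : ℝ) ^ s := by
    rw [← hyX, hK']
    have h5 : K * (2 * C0) * y ^ s ≤ K * (2 * C0) * (2 ^ s * (n : ℝ) ^ s) :=
      mul_le_mul_of_nonneg_left h3 (by positivity)
    linarith
  have h5 : K' < C * (n : ℝ) ^ (ε / 2) := by
    have h6 := hn0 n (by omega)
    rw [div_lt_iff₀ hC] at h6
    linarith
  have h6 : (n : ℝ) ^ (1 + ε) = (n : ℝ) ^ (ε / 2) * (n : ℝ) ^ s := by
    rw [← Real.rpow_add hn0', hs]
    congr 1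
    ring
  refine ⟨n, by omega, ?_⟩
  have h7 : 0 < (n : ℝ) ^ s := by positivity
  calc (a n : ℝ) ≤ K' * (n : ℝ) ^ s := ht2.trans h4
    _ < C * (n : ℝ) ^ (ε / 2) * (n : ℝ) ^ s := mul_lt_mul_of_pos_right h5 h7
    _ = C * (n : ℝ) ^ (1 + ε) := by rw [h6, mul_assoc]

end Pool.Agent.STF
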