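import Pool.Agent.STF.Rl
import Pool.Agent.STF.Fi
import Pool.Agent.STF.Fr
import Pool.Agent.STF.Pz
import Pool.Agent.STF.Cz
import Pool.Agent.STF.Ez
import Pool.Agent.STF.Uz
import Pool.Agent.STF.Wz
import Pool.Agent.STF.Zy
import Pool.Agent.STN.Mu

/-!
# Project STF, module Zz: final assembly
-/

set_option autoImplicit false

namespace Pool.Agent.STF

open Pool.Agent.STN

/-- the index type of the base contents -/
abbrev QQ : Type := {q : SG // Ok q}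

theorem qq_finite : Finite QQ := ok_fin.to_subtype

/-- the base contents -/
def GQ (q : QQ) : Set ℕ := GG q.1

theorem gq_sub (q : QQ) : GQ q ⊆ S0 := gg_sub q.1

/-- the state of a word as an index -/
def qi (L : List ℕ) (h : SD L) : QQ := ⟨sgl L, L, h, rfl⟩

theorem fin_sub {P : SG → Prop} (hP : ∀ v, P v → Ok v) : Finite {v : SG // P v} :=
  (ok_fin.subset hP).to_subtype

/-- top contents -/
theorem compA_top {b : SG} (hb : okm 0 b) : CompA GQ (CC 0 b) := by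
  have := qq_finite
  refine compA_lines (ι := QQ) gq_sub (H := GQ) (fun q => ?_) (fun q => compA_base gq_sub q) 0
    fun n _ hn => Or.inl ?_
  · intro a ha b hb c hc h
    have h' := s0_ap (gq_sub q ha) (gq_sub q hb) (gq_sub q hc) h
    rw [h'.1, h'.2]
  · obtain ⟨X, Y, hX, hY, h1, h2, h3⟩ := top_compl hb hn
    exact ⟨qi X hX, qi Y hY, ofl X, mem_gg hX, ofl Y, mem_gg hY, h1, h2, h3⟩

theorem gq_fre (q : QQ) : Fre (GQ q) := by
  intro a ha b hb c hc h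
  have h' := s0_ap (gq_sub q ha) (gq_sub q hb) (gq_sub q hc) h
  rw [h'.1, h'.2]

/-- index of the contents used for `C_(m,v)`: base contents and top contents -/
abbrev I1 : Type := QQ ⊕ {b : SG // okm 0 b ∧ Ok b}

theorem i1_finite : Finite I1 := by
  have := qq_finite
  have h : Finite {b : SG // okm 0 b ∧ Ok b} := fin_sub fun v hv => hv.2
  exact inferInstance

def H1 : I1 → Set ℕ
  | .inl q => GQ q
  | .inr b => CC 0 b.1

theorem h1_fre : ∀ i, Fre (H1 i)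
  | .inl q => gq_fre q
  | .inr b => cc_fre b.2.1

theorem h1_comp : ∀ i, CompA GQ (H1 i)
  | .inl q => compA_base gq_sub q
  | .inr b => compA_top b.2.1

theorem compA_mid {m : ℕ} {v : SG} (hm : m = 1 ∨ m = 2 ∨ m = 3) (hv : okm m v) : CompA GQ (CC m v) := by
  have := qq_finite
  have := i1_finite
  refine compA_lines (ι := I1) gq_sub (H := H1) h1_fre h1_comp 0 fun n _ hn => Or.inl ?_
  rcases cc_compl hm hv hn with ⟨X, Y, hX, hY, h1, h2, h3⟩ | ⟨b, X, Y, hb, hb', hX, hY, h1, h2, h3⟩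
  · exact ⟨qi X hX, .inl (qi Y hY), ofl X, mem_gg hX, ofl Y, mem_gg hY, h1, h2, h3⟩
  · exact ⟨qi X hX, .inr ⟨b, hb, hb'⟩, ofl X, mem_gg hX, Y, hY, h1, h2.le, h3⟩

/-- index of the contents used for the base cells and for `T` -/
abbrev I2 : Type := I1 ⊕ {v : SG // Ok v} ⊕ {v : SG // Ok v} ⊕ {v : SG // okm 3 v ∧ Ok v}

theorem i2_finite : Finite I2 := by
  have := i1_finite
  have h : Finite {v : SG // Ok v} := qq_finite
  have h3 : Finite {v : SG // okm 3 v ∧ Ok v} := fin_sub fun v hv => hv.2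
  exact inferInstance

def H2 : I2 → Set ℕ
  | .inl i => H1 i
  | .inr (.inl v) => CC 1 v.1
  | .inr (.inr (.inl v)) => CC 2 v.1
  | .inr (.inr (.inr v)) => CC 3 v.1

theorem okm_one (v : SG) : okm 1 v := Or.inr (Or.inl rfl)

theorem okm_two (v : SG) : okm 2 v := Or.inr (Or.inr (Or.inl rfl))

theorem h2_fre : ∀ i, Fre (H2 i)
  | .inl i => h1_fre i
  | .inr (.inl v) => cc_fre (okm_one v.1)
  | .inr (.inr (.inl v)) => cc_fre (okm_two v.1)
  | .inr (.inr (.inr v)) => cc_fre v.2.1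

theorem h2_comp : ∀ i, CompA GQ (H2 i)
  | .inl i => h1_comp i
  | .inr (.inl v) => compA_mid (Or.inl rfl) (okm_one v.1)
  | .inr (.inr (.inl v)) => compA_mid (Or.inr (Or.inl rfl)) (okm_two v.1)
  | .inr (.inr (.inr v)) => compA_mid (Or.inr (Or.inr rfl)) v.2.1

/-- the content `T` can be completed -/
theorem compA_T {T : Set ℕ} (hTU : T ⊆ UU)
    (hT : ∀ n ∈ UU, n ∉ T → ∃ x ∈ T, ∃ y ∈ T, x < y ∧ x + n = 2 * y) : CompA GQ T := by
  have := qq_finite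
  have := i2_finite
  refine compA_lines (ι := I2) gq_sub (H := H2) h2_fre h2_comp 0 fun n _ hn => ?_
  by_cases hU : n ∈ UU
  · exact Or.inr (hT n hU hn)
  · refine Or.inl ?_
    rcases u_compl hU with ⟨X, Y, hX, hY, h1, h2, h3⟩ | ⟨b, X, Y, hb, hb', hX, hY, h1, h2, h3⟩ |
      ⟨v, X, Y, hv, hv', hX, hY, h1, h2, h3⟩
    · exact ⟨qi X hX, .inl (.inl (qi Y hY)), ofl X, mem_gg hX, ofl Y, mem_gg hY, h1, h2,
        fun X hX Y hY Z hZ => h3 X hX Y hY Z (hTU hZ)⟩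
    · exact ⟨qi X hX, .inl (.inr ⟨b, hb, hb'⟩), ofl X, mem_gg hX, Y, hY, h1, h2.le,
        fun X hX Y hY Z hZ => h3 X hX Y hY Z (hTU hZ)⟩
    · exact ⟨qi X hX, .inr (.inr (.inr ⟨v, hv, hv'⟩)), ofl X, mem_gg hX, Y, hY, h1, h2.le,
        fun X hX Y hY Z hZ => h3 X hX Y hY Z (hTU hZ)⟩

/-- the system -/
theorem sys_T2 {T : Set ℕ} (hTU : T ⊆ UU) (hTf : Fre T)
    (hT : ∀ n ∈ UU, n ∉ T → ∃ x ∈ T, ∃ y ∈ T, x < y ∧ x + n = 2 * y) :
    ∃ s : Sys, s.Free ∧ (∀ x ∈ s.X, s.Complete x) ∧ ∃ x ∈ s.X, s.T x = T := by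
  have := qq_finite
  have := i2_finite
  refine realise2 (ι := I2) gq_sub (H := H2) h2_fre h2_comp 1 (fun q m hm hm1 hmq => ?_) hTf
    (compA_T hTU hT)
  obtain ⟨L, hL, rfl⟩ := exists_list hm
  have h0 : L ≠ [] := by
    rintro rfl
    rw [ofl_nil] at hm1
    omega
  have hq : sgl L ≠ q.1 := by
    intro h
    exact hmq ⟨L, hL, h, rfl⟩
  rcases p_lines hL h0 hq with ⟨X, Y, hX, hY, h1, h2, h3⟩ |
    ⟨κ, m, v, X, Y, hκ, hm', hv, hX, hY, h1, h2, h3⟩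
  · exact ⟨qi X hX, .inl (.inl (qi Y hY)), ofl X, mem_gg hX, ofl Y, mem_gg hY, Or.inl ⟨h1, h2, h3⟩⟩
  · rcases hm' with rfl | rfl
    · refine ⟨qi X hX, .inr (.inl ⟨v, hv⟩), ofl X, mem_gg hX, Y, hY, ?_⟩
      rcases hκ with rfl | rfl
      · exact Or.inr ⟨by omega, by omega, h3⟩
      · exact Or.inl ⟨by omega, by omega, h3⟩
    · refine ⟨qi X hX, .inr (.inr (.inl ⟨v, hv⟩)), ofl X, mem_gg hX, Y, hY, ?_⟩
      rcases hκ with rfl | rfl
      · exact Or.inr ⟨by omega, by omega, h3⟩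
      · exact Or.inl ⟨by omega, by omega, h3⟩

/-- the main theorem: one Stanley sequence for all `ε` -/
theorem main2 : ∃ a : ℕ → ℕ, StrictMono a ∧ ThreeAPFree (Set.range a) ∧
    (∃ k : ℕ, ∀ n : ℕ, k ≤ n → ∀ m : ℕ, a n < m → m < a (n + 1) →
      ¬ ThreeAPFree (insert m (a '' Set.Iic n))) ∧
    ∀ ε : ℝ, 0 < ε → ∀ C : ℝ, 0 < C → ∀ N : ℕ, ∃ n : ℕ, N ≤ n ∧ (a n : ℝ) < C * (n : ℝ) ^ (1 + ε) := by
  obtain ⟨T, hTU, hTf, hT, -⟩ := greedy UU
  obtain ⟨s, hsf, hsc, x, hx, hxT⟩ := sys_T2 hTU hTf hT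
  obtain ⟨B⟩ := exists_board s.X
  obtain ⟨L, hL⟩ := bs_low B (s := s) rfl
  obtain ⟨a, ha1, ha2, ha3, ha4⟩ := stanley_of_set (bs B s) L hL (bs_inf B s)
    (fun u hu v hv w hw h => bs_free B rfl hsf hu hv hw h) (bs_compl B rfl hsc)
  refine ⟨a, ha1, ha2, ha3, fun ε hε C hC N => ?_⟩
  obtain ⟨b, hb1, hb2, hb3, C0, hC0, hb4⟩ := STN.main (ε / 2) (by positivity)
  obtain ⟨P, hP, hw⟩ := window hb1 hb2 hb3 hTU hTf hT
  refine sparse ha1 hb1 B.hN (D := (B.e0 + B.γ * x) + B.N * s.h x - L) (P := P) hε hC0 hb4 ?_ C hC N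
  intro h n hn
  have hmem := hw h (b n) ⟨n, rfl⟩ hn
  have hz : (B.e0 + B.γ * x) + B.N * (s.h x + ((P * 3 ^ (12 * h) + b n : ℕ) : ℤ)) ∈ bs B s :=
    Or.inr ⟨x, hx, P * 3 ^ (12 * h) + b n, by rw [hxT]; exact hmem, rfl⟩
  have hge := hL _ hz
  obtain ⟨k, hk⟩ : ∃ k : ℕ, (k : ℤ) + L =
      (B.e0 + B.γ * x) + B.N * (s.h x + ((P * 3 ^ (12 * h) + b n : ℕ) : ℤ)) :=
    ⟨((B.e0 + B.γ * x) + B.N * (s.h x + ((P * 3 ^ (12 * h) + b n : ℕ) : ℤ)) - L).toNat, by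
      rw [Int.toNat_of_nonneg (by linarith)]; ring⟩
  have hka : k ∈ Set.range a := (ha4 k).2 (by rw [hk]; exact hz)
  obtain ⟨j, hj⟩ := hka
  refine ⟨j, ?_⟩
  rw [hj]
  push_cast at hk ⊢
  linarith

end Pool.Agent.STF
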