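import Pool.Agent.STF.Lg
import Pool.Agent.STF.Ld
import Pool.Agent.STF.Lf

/-!
# Project STF, module Al: alignment of top mark lines (interface; used by Ez and Uz; section lead helper71)

Sizes.  `Y = 2 * 3^t + ofl M` with `SD (t :: M)`, head of `M` of class `≤ 5` (so `≤ t - 5`), hence `ofl M < 3^(t-4)`;
`X + Z = 4 * 3^t + 2 * ofl M`.  `Z = 3^o + z`, `o % 12 = 11`, `z < 3^(o-5)`.  If `o ≥ t + 2` then `o ≥ t + 13`: `Z` too big.
If `o ≤ t` then `o ≤ t - 11`: `X ≥ 4 * 3^t - small`; the first letter `x` of `X` has class `10`, and `3^x ≤ X < 3^(x+1) / 2`: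
impossible.  So `o = t + 1`, `X = 3^t + (2 * ofl M - z)`, the first letter of `X` is `t`.
-/

set_option autoImplicit false

namespace Pool.Agent.STF

open Pool.Agent.STN

private theorem al_ini {A : List ℕ} (h : run A = .ini) : A = [] := by
  cases A with
  | nil => rfl
  | cons t L =>
    exfalso
    by_cases h11 : t % 12 = 11
    · have hu : un (run (t :: L)) := run_un.2 ⟨t, L, rfl, h11⟩
      rw [h] at hu
      exact hu
    · by_cases h10 : t % 12 = 10
      · have hu : flg (run (t :: L)) := run_flg.2 ⟨t, L, rfl, h10⟩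
        rw [h] at hu
        exact hu
      · have h1 : run (t :: L) = rn (stp .ini (t % 12)) L := rfl
        have h2 : stp .ini (t % 12) = .bad := by
          show (if t % 12 = 11 then St.hd false 0 else if t % 12 = 10 then St.hd true 0 else St.bad) = _
          rw [if_neg h11, if_neg h10]
        rw [h1, h2, (rn_abs L).1] at h
        cases h

private theorem al_mark {b : SG} {Y : ℕ} (hb : okm 0 b) (hY : Y ∈ CC 0 b) :
    ∃ t M, t % 12 = 10 ∧ SD (t :: M) ∧ sgl (t :: M) = b ∧ Y = ofl M + 2 * 3 ^ t ∧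
      2 * ofl M + 1 ≤ 3 ^ (t - 4) := by
  obtain ⟨A, i, B, hs, -, hev, hsg, hYe⟩ := hY
  have hA : run A = .ini ∧ i % 12 = 10 := by
    rcases hev with ⟨-, h1, h2⟩ | ⟨h0, -⟩ | ⟨h0, -⟩
    · exact ⟨h1, h2⟩
    · omega
    · omega
  have hA0 : A = [] := al_ini hA.1
  subst hA0
  have htb : tb b.2.1 := by
    rcases hb with ⟨-, h1⟩ | h0 | h0 | ⟨h0, -⟩
    · exact h1
    · omega
    · omega
    · omega
  rw [← hsg] at htb
  have htb' : tb (run (i :: B)) := htb
  obtain ⟨t, s, L', hL, ht, hs5⟩ := tb_iff.1 htb'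
  obtain ⟨rfl, rfl⟩ := List.cons.inj hL
  have hs' : SD (i :: s :: L') := hs
  obtain ⟨h1, h2⟩ := sd_cons.1 hs'
  have h3 : s < i := h1 s List.mem_cons_self
  have h4 : s + 1 ≤ i - 4 := by omega
  have h5 := (ofl_head h2).2
  have h6 : 3 ^ (s + 1) ≤ 3 ^ (i - 4) := Nat.pow_le_pow_right (by norm_num) h4
  exact ⟨i, s :: L', hA.2, hs', hsg, hYe, h5.trans h6⟩

theorem align {b : SG} {X Y o z : ℕ} {q : SG} (hq : flg q.2.1) (hX : X ∈ GG q) (hb : okm 0 b) (hY : Y ∈ CC 0 b)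
    (ho : o % 12 = 11) (hz : z < 3 ^ (o - 5)) (he : X + (3 ^ o + z) = 2 * Y) :
    ∃ t x1 M, o = t + 1 ∧ SD (t :: x1) ∧ sgl (t :: x1) = q ∧ X = ofl (t :: x1) ∧ SD (t :: M) ∧
      sgl (t :: M) = b ∧ Y = ofl M + 2 * 3 ^ t ∧ ofl x1 + z = 2 * ofl M := by
  obtain ⟨L, hL, hLq, hXe⟩ := hX
  rw [← hLq] at hq
  obtain ⟨x, x1, rfl, hx10⟩ := run_flg.1 (show flg (run L) from hq)
  obtain ⟨t, M, ht10, hM, hMb, hYe, hM1⟩ := al_mark hb hY
  obtain ⟨hx1, hx2⟩ := ofl_head hL
  rw [← hXe] at hx1 hx2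
  have hT : 3 ^ t = 81 * 3 ^ (t - 4) := by
    have h1 : t = (t - 4) + 4 := by omega
    conv_lhs => rw [h1, pow_add]
    ring
  have hP : 0 < 3 ^ (t - 4) := by positivity
  have hO : 0 < 3 ^ o := by positivity
  have hT1 : 3 ^ (t + 1) = 3 * 3 ^ t := by rw [pow_succ]; ring
  have hT2 : 3 ^ (t + 2) = 9 * 3 ^ t := by rw [pow_add]; ring
  -- comparison of positions
  have hot : o = t + 1 := by
    rcases Nat.lt_or_ge (t + 1) o with h1 | h1
    · exfalso
      have h2 : 3 ^ (t + 2) ≤ 3 ^ o := Nat.pow_le_pow_right (by norm_num) h1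
      omega
    · by_contra h2
      have h3 : o ≤ t - 11 := by omega
      have h4 : 3 ^ o ≤ 3 ^ (t - 4) := Nat.pow_le_pow_right (by norm_num) (by omega)
      have h5 : 3 ^ (o - 5) ≤ 3 ^ (t - 4) := Nat.pow_le_pow_right (by norm_num) (by omega)
      rcases Nat.lt_or_ge t x with h6 | h6
      · have h7 : 3 ^ (t + 2) ≤ 3 ^ x := Nat.pow_le_pow_right (by norm_num) (by omega)
        omega
      · have h7 : 3 ^ (x + 1) ≤ 3 ^ (t + 1) := Nat.pow_le_pow_right (by norm_num) (by omega)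
        omega
  subst hot
  have hz' : z < 3 ^ (t - 4) := by
    have h1 : t + 1 - 5 = t - 4 := by omega
    rw [h1] at hz
    exact hz
  have hxt : x = t := by
    rcases Nat.lt_trichotomy x t with h1 | h1 | h1
    · exfalso
      have h2 : 3 ^ (x + 1) ≤ 3 ^ (t - 4) := Nat.pow_le_pow_right (by norm_num) (by omega)
      omega
    · exact h1
    · exfalso
      have h2 : 3 ^ (t + 2) ≤ 3 ^ x := Nat.pow_le_pow_right (by norm_num) (by omega)
      omega
  subst hxt
  refine ⟨x, x1, M, rfl, hL, hLq, hXe, hM, hMb, hYe, ?_⟩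
  rw [ofl_cons] at hXe
  omega

end Pool.Agent.STF
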