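import Pool.Agent.STF.Lg
import Pool.Agent.STF.Ld
import Pool.Agent.STF.Lf

/-!
# Project STF, module Cf: flips of general words (helper67)

`flip_a`: digits `(1, 2)` at `p + 1`, `p`.  `flip_b`: digits `(0, 2)`.
-/

set_option autoImplicit false

namespace Pool.Agent.STF

open Pool.Agent.STN

/-- the digit above a digit two which has no digit two above it -/
theorem above_two {A B : List (ℕ × Bool)} {p : ℕ} (h : SD (pos (A ++ (p, true) :: B)))
    (hA : (p + 1, true) ∉ A) : p + 1 ∉ pos A ∨ ∃ A', A = A' ++ [(p + 1, false)] := by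
  by_cases hp : p + 1 ∈ pos A
  · right
    rw [pos_append, pos_cons, sd_mid] at h
    obtain ⟨h1, _, h3, _, _⟩ := h
    rcases List.eq_nil_or_concat A with hA0 | ⟨A', ⟨r, d⟩, hA'⟩
    · rw [hA0, pos_nil] at hp
      exact absurd hp (by simp)
    · rw [List.concat_eq_append] at hA'
      have hr : p < r := by
        apply h3
        rw [hA', pos_append, pos_cons, pos_nil]
        simp
      have hr' : r = p + 1 := by
        rw [hA', pos_append, pos_cons, pos_nil] at hp h1
        rcases List.mem_append.1 hp with h4 | h4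
        · have := (sd_append.1 h1).2.2 _ h4 r (by simp)
          omega
        · simp at h4
          exact h4.symm
      subst hr'
      refine ⟨A', ?_⟩
      cases d
      · exact hA'
      · exact absurd (by rw [hA']; simp) hA
  · exact Or.inl hp

theorem flip_a_sd {A B : List (ℕ × Bool)} {p : ℕ} (h : SD (pos (A ++ (p + 1, false) :: (p, true) :: B))) :
    SD (one A ++ p :: one B) ∧ SD (pos A ++ (p + 1) :: pos B) := by
  rw [pos_append, pos_cons, pos_cons] at h
  obtain ⟨h1, h2, h3, h4, h5⟩ := sd_mid.1 h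
  obtain ⟨h6, h7⟩ := sd_cons.1 h2
  constructor
  · have : one A ++ p :: one B = one (A ++ (p, false) :: B) := by
      rw [one_append, one_cons_false]
    rw [this]
    apply sd_one
    rw [pos_append, pos_cons, sd_mid]
    refine ⟨h1, h7, fun a ha => ?_, h6, fun a ha b hb => ?_⟩
    · have := h3 a ha
      omega
    · exact h5 a ha b (List.mem_cons_of_mem _ hb)
  · rw [sd_mid]
    refine ⟨h1, h7, h3, fun b hb => ?_, fun a ha b hb => h5 a ha b (List.mem_cons_of_mem _ hb)⟩
    have := h6 b hb
    omega

theorem flip_a_eq (A B : List (ℕ × Bool)) (p : ℕ) :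
    ofl (one A ++ p :: one B) + ofw (A ++ (p + 1, false) :: (p, true) :: B) =
      2 * ofl (pos A ++ (p + 1) :: pos B) := by
  have hA := w_can A
  have hB := w_can B
  rw [ofl_append, ofl_cons, ofl_append, ofl_cons, ofw_append, ofw_cons_false, ofw_cons_true]
  have : 3 ^ (p + 1) = 3 * 3 ^ p := by ring
  omega

theorem flip_a_ct (A B : List (ℕ × Bool)) (p s : ℕ) :
    ct (pos A ++ (p + 1) :: pos B) s = ct (one A ++ p :: one B) s +
      (n2 (A ++ (p + 1, false) :: (p, true) :: B) s + ee (p % 12) s + ee ((p + 1) % 12) s) := by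
  rw [ct_append, ct_cons, ct_append, ct_cons, ct_can, ct_can, n2_append, n2_cons_false, n2_cons_true]
  have h3 : (3 : ZMod 3) = 0 := rfl
  linear_combination (-ee (p % 12) s) * h3

theorem flip_b_sd {A B : List (ℕ × Bool)} {p : ℕ} (h : SD (pos (A ++ (p, true) :: B)))
    (hp : p + 1 ∉ pos A) :
    SD (one A ++ (p + 1) :: p :: one B) ∧ SD (pos A ++ (p + 1) :: pos B) := by
  rw [pos_append, pos_cons] at h
  obtain ⟨_, h1, h2⟩ := sd_up h hp
  refine ⟨?_, h1⟩
  have : one A ++ (p + 1) :: p :: one B = one (A ++ (p + 1, false) :: (p, false) :: B) := by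
    rw [one_append, one_cons_false, one_cons_false]
  rw [this]
  apply sd_one
  rw [pos_append, pos_cons, pos_cons]
  exact h2

theorem flip_b_eq (A B : List (ℕ × Bool)) (p : ℕ) :
    ofl (one A ++ (p + 1) :: p :: one B) + ofw (A ++ (p, true) :: B) =
      2 * ofl (pos A ++ (p + 1) :: pos B) := by
  have hA := w_can A
  have hB := w_can B
  rw [ofl_append, ofl_cons, ofl_cons, ofl_append, ofl_cons, ofw_append, ofw_cons_true]
  have : 3 ^ (p + 1) = 3 * 3 ^ p := by ring
  omega

theorem flip_b_ct (A B : List (ℕ × Bool)) (p s : ℕ) :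
    ct (pos A ++ (p + 1) :: pos B) s = ct (one A ++ (p + 1) :: p :: one B) s +
      (n2 (A ++ (p, true) :: B) s + ee (p % 12) s) := by
  rw [ct_append, ct_cons, ct_append, ct_cons, ct_cons, ct_can, ct_can, n2_append, n2_cons_true]
  have h3 : (3 : ZMod 3) = 0 := rfl
  linear_combination (-ee (p % 12) s) * h3

/-- One flip at a digit two without a digit two above it: the flipped pair keeps everything above `p + 1`, and
changes the difference of the counts at the class of `p` by one.  `A1` = the part above `p + 1`. -/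
theorem flip_one {A B : List (ℕ × Bool)} {p : ℕ} (h : SD (pos (A ++ (p, true) :: B)))
    (hA : (p + 1, true) ∉ A) :
    ∃ A1 X1 Y1, (∀ q ∈ pos A1, p + 1 < q) ∧ (A = A1 ∨ A = A1 ++ [(p + 1, false)]) ∧
      (∀ q ∈ X1, q ≤ p + 1) ∧ (∀ q ∈ Y1, q ≤ p + 1) ∧
      SD (one A1 ++ X1) ∧ SD (pos A1 ++ Y1) ∧
      ofl (one A1 ++ X1) + ofw (A ++ (p, true) :: B) = 2 * ofl (pos A1 ++ Y1) ∧
      ct (pos A1 ++ Y1) (p % 12) = ct (one A1 ++ X1) (p % 12) + (n2 (A ++ (p, true) :: B) (p % 12) + 1) := by
  rcases above_two h hA with hp | ⟨A', rfl⟩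
  · obtain ⟨h1, h2⟩ := flip_b_sd h hp
    have h' := h
    rw [pos_append, pos_cons, sd_mid] at h'
    obtain ⟨_, h3, h4, h5, _⟩ := h'
    refine ⟨A, (p + 1) :: p :: one B, (p + 1) :: pos B, fun q hq => ?_, Or.inl rfl, ?_, ?_, h1, h2,
      flip_b_eq A B p, ?_⟩
    · have := h4 q hq
      have : q ≠ p + 1 := fun e => hp (e ▸ hq)
      omega
    · intro q hq
      simp only [List.mem_cons] at hq
      rcases hq with hq | hq | hq
      · omega
      · omega
      · have := h5 q (sub_one B q hq)
        omega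
    · intro q hq
      simp only [List.mem_cons] at hq
      rcases hq with hq | hq
      · omega
      · have := h5 q hq
        omega
    · rw [flip_b_ct, ee_self]
  · have e : A' ++ [(p + 1, false)] ++ (p, true) :: B = A' ++ (p + 1, false) :: (p, true) :: B := by simp
    rw [e] at h ⊢
    obtain ⟨h1, h2⟩ := flip_a_sd h
    have h' := h
    rw [pos_append, pos_cons, pos_cons, sd_mid] at h'
    obtain ⟨_, h3, h4, h5, _⟩ := h'
    have h6 := (sd_cons.1 h3).1
    refine ⟨A', p :: one B, (p + 1) :: pos B, h4, Or.inr rfl, ?_, ?_, h1, h2, flip_a_eq A' B p, ?_⟩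
    · intro q hq
      simp only [List.mem_cons] at hq
      rcases hq with hq | hq
      · omega
      · have := h6 q (sub_one B q hq)
        omega
    · intro q hq
      simp only [List.mem_cons] at hq
      rcases hq with hq | hq
      · omega
      · have := h6 q hq
        omega
    · rw [flip_a_ct, ee_self, ee_ne (c := (p + 1) % 12) (s := p % 12) (by omega), add_zero]

end Pool.Agent.STF
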