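import Pool.Agent.STN.Mr
import Pool.Agent.STN.Gh
import Pool.Agent.STN.Me
import Pool.Agent.STN.Mg

/-!
# Project STF (MP_680cfa_co, S09274): one Stanley sequence for all `ε`.  Definitions

Paper proof: /team-store/stanley_full64.md (without the bit `g` and the mark `E'`).
Classes of positions modulo `12`: `O = 11`, `O' = 10`, `T = 8`, `R = 6`, `S = 4`, `S' = 3`, `E = 1`.
-/

set_option autoImplicit false

namespace Pool.Agent.STF

open Pool.Agent.STN

/-! ### Words: strictly decreasing lists of positions -/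

/-- strictly decreasing lists -/
def SD (L : List ℕ) : Prop := L.Pairwise (fun a b => b < a)

/-- the number with the ones at the positions of the list -/
def ofl (L : List ℕ) : ℕ := (L.map (fun p => 3 ^ p)).sum

/-- positions of a general word (list of pairs: position, digit two) -/
def pos (W : List (ℕ × Bool)) : List ℕ := W.map Prod.fst

/-- positions of the digits one -/
def one (W : List (ℕ × Bool)) : List ℕ := (W.filter (fun t => !t.2)).map Prod.fst

/-- the number of a general word -/
def ofw (W : List (ℕ × Bool)) : ℕ := (W.map (fun t => (if t.2 then 2 else 1) * 3 ^ t.1)).sum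

/-- number of letters of the class `s`, modulo `3` -/
def ct (L : List ℕ) (s : ℕ) : ZMod 3 := ((L.countP (fun p => decide (p % 12 = s)) : ℕ) : ZMod 3)

/-- unit vector -/
def ee (c s : ℕ) : ZMod 3 := if s = c then 1 else 0

/-- `[j - 1, ..., 0]` -/
def dn (j : ℕ) : List ℕ := (List.range j).reverse

/-- index of a word of `S0` -/
def ix (L : List ℕ) : ℕ := (L.map (fun p => 2 ^ p)).sum

/-- number of the positions of class `8` strictly between `r` and `i` -/
def uu (i r : ℕ) : ℕ := ((Finset.Ioo r i).filter (fun p => p % 12 = 8)).card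

/-! ### The automaton -/

/-- states; the `Bool` is `true` iff the first letter is `O'` -/
inductive St
  | ini
  | bad
  | db (f : Bool)
  | hd (f : Bool) (j : ℕ)
  | v0 (f : Bool)
  | dk (f : Bool)
  | ac (f : Bool)
  | al (f : Bool) (a k : ℕ)
  | be (f : Bool) (a b k : ℕ)

/-- phases after the letter `β` -/
def nx (k c : ℕ) : ℕ :=
  if k = 0 then (if c = 6 then 1 else 8)
  else if k = 1 then (if c = 4 then 2 else if c = 1 then 6 else 8)
  else if k = 2 then (if c = 8 then 3 else 8)
  else if k = 3 then (if c = 6 then 4 else 8)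
  else if k = 4 then (if c = 8 then 5 else 8)
  else if k = 5 then (if c = 6 then 1 else 8)
  else if k = 6 then 7
  else k

/-- one step of the automaton: a letter of class `c` -/
def stp : St → ℕ → St
  | .ini, c => if c = 11 then .hd false 0 else if c = 10 then .hd true 0 else .bad
  | .hd f j, c =>
      if j = 0 ∨ j = 5 then
        (if c = 4 then .hd f 1 else if c = 3 then .ac f else if c = 1 then .v0 f
          else if j = 0 ∧ 6 ≤ c then .db f else .dk f)
      else if (j = 1 ∨ j = 3) ∧ c = 8 then .hd f (j + 1)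
      else if (j = 2 ∨ j = 4) ∧ c = 6 then .hd f (j + 1)
      else .dk f
  | .ac f, c => .al f c 0
  | .al f a k, c => if k = 0 then (if c = 6 then .al f a 1 else .al f a 2)
      else if k = 1 then .be f a c 0 else .al f a 2
  | .be f a b k, c => .be f a b (nx k c)
  | q, _ => q

/-- the state after a list of letters, from a given state -/
def rn (q : St) (L : List ℕ) : St := L.foldl (fun q p => stp q (p % 12)) q

/-- the state of a word -/
def run (L : List ℕ) : St := rn .ini L

/-- boundary states (unflagged) -/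
def bd (q : St) : Prop := q = .hd false 0 ∨ q = .hd false 5

/-- the slot before the letter `α` (`z = 1`), `β` (`z = 2`) -/
def slot (z : ℕ) (q : St) : Prop := (z = 1 ∧ q = .ac false) ∨ (z = 2 ∧ ∃ a, q = .al false a 1)

/-- the bit `z`, `z = 1, 2` -/
def bt (z : ℕ) (L : List ℕ) : Prop :=
  ∃ A i r B e C, L = A ++ i :: r :: (B ++ e :: C) ∧ slot z (run A) ∧ r % 12 = 6 ∧ e % 12 = 1 ∧
    (∃ a b, run (A ++ i :: r :: B) = .be false a b 1) ∧ ix C = uu i r

/-- states of words -/
abbrev SG : Type := (Fin 12 → ZMod 3) × St × Prop × Prop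

/-- the state of a word -/
def sgl (L : List ℕ) : SG := (fun s => ct L s, run L, bt 1 L, bt 2 L)

/-- the states which occur -/
def Ok (q : SG) : Prop := ∃ L, SD L ∧ sgl L = q

/-- the contents `G_q` -/
def GG (q : SG) : Set ℕ := {x | ∃ L, SD L ∧ sgl L = q ∧ x = ofl L}

/-- a letter of class `c`, read in the state `q`, is a mark of type `m`
(`0` top, `1` the letter `α`, `2` the letter `β`, `3` the letter `S'`) -/
def ev (m : ℕ) (q : St) (c : ℕ) : Prop :=
  (m = 0 ∧ q = .ini ∧ c = 10) ∨ ((m = 1 ∨ m = 2) ∧ slot m q) ∨ (m = 3 ∧ bd q ∧ c = 3)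

/-- the contents `C_(m,v)` -/
def CC (m : ℕ) (v : SG) : Set ℕ :=
  {n | ∃ A i B, SD (A ++ i :: B) ∧ i + 1 ∉ A ∧ ev m (run A) (i % 12) ∧ sgl (A ++ i :: B) = v ∧
    n = ofl (A ++ B) + 2 * 3 ^ i}

/-- flagged states with a good second letter -/
def tb : St → Prop
  | .hd true j => j ≠ 0
  | .v0 true => True
  | .dk true => True
  | .ac true => True
  | .al true _ _ => True
  | .be true _ _ _ => True
  | _ => False

/-- the admitted contents -/
def okm (m : ℕ) (v : SG) : Prop :=
  (m = 0 ∧ tb v.2.1) ∨ m = 1 ∨ m = 2 ∨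
    (m = 3 ∧ (v.2.1 = .be false 8 8 6 ∨ v.2.1 = .be false 8 8 7))

/-! ### The set `U` -/

/-- excluded low parts of a header `H` -/
def Bx (H : List ℕ) : Set ℕ :=
  {z | ∃ A s t1 r1 t2 r2 B, H = A ++ s :: t1 :: r1 :: t2 :: r2 :: B ∧ bd (run A) ∧ s % 12 = 4 ∧
    ∃ P Q, SD P ∧ SD Q ∧ ix P = uu t1 r1 ∧ ix Q = uu t2 r2 ∧ ofl P + z = 2 * ofl Q}

/-- the set `U` -/
def UU : Set ℕ :=
  {n | ∃ H e z, SD (H ++ [e]) ∧ bd (run H) ∧ e % 12 = 1 ∧ 2 * z < 3 ^ e ∧ z ∉ Bx H ∧
    n = ofl (H ++ [e]) + z}

end Pool.Agent.STF
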