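import Pool.Agent.STF.Ld

/-!
# Project STF, module Ez1: flips of digits two (representations `2 y - x = n` of a general word)

All four statements: `sd_append`, `sd_cons`, `sd_one`, `pos_append`, `one_append` .. and the `ofw_cons_..`, `ofl_cons`,
`ct_cons`, `n2_cons_..` formulas; the class counts are in `ZMod 3` (`3 * x = 0`: `have h3 : (3 : ZMod 3) = 0 := rfl`,
`linear_combination`).  SD: the elements of `pos A` are `> p` and `≠ p + 1`, hence `> p + 1`; those of `pos B` are `< p`.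
-/

set_option autoImplicit false

namespace Pool.Agent.STF

open Pool.Agent.STN

private theorem ez1_mk {X Y : List ℕ} {q : ℕ} (hX : SD X) (hY : SD Y) (h1 : ∀ a ∈ X, q < a) (h2 : ∀ b ∈ Y, b < q) :
    SD (X ++ q :: Y) :=
  sd_mid.2 ⟨hX, hY, h1, h2, fun a ha b hb => (h2 b hb).trans (h1 a ha)⟩

private theorem ez1_cons {Y : List ℕ} {q : ℕ} (hY : SD Y) (h2 : ∀ b ∈ Y, b < q) : SD (q :: Y) :=
  sd_cons.2 ⟨h2, hY⟩

private theorem ez1_get {A B : List (ℕ × Bool)} {p : ℕ} {d : Bool} (h : SD (pos (A ++ (p, d) :: B))) :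
    SD (pos A) ∧ SD (pos B) ∧ (∀ a ∈ pos A, p < a) ∧ ∀ b ∈ pos B, b < p := by
  rw [pos_append, pos_cons, sd_mid] at h
  exact ⟨h.1, h.2.1, h.2.2.1, h.2.2.2.1⟩

private theorem ez1_up {X : List ℕ} {p : ℕ} (h : ∀ a ∈ X, p < a) (hp : p + 1 ∉ X) : ∀ a ∈ X, p + 1 < a := by
  intro a ha
  have h1 := h a ha
  have h2 : a ≠ p + 1 := fun e => hp (e ▸ ha)
  omega

private theorem ez1_lt {X : List ℕ} {p q : ℕ} (h : ∀ b ∈ X, b < p) (hq : p ≤ q) : ∀ b ∈ X, b < q :=
  fun b hb => lt_of_lt_of_le (h b hb) hq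

private theorem ez1_one {W : List (ℕ × Bool)} {P : ℕ → Prop} (h : ∀ a ∈ pos W, P a) : ∀ a ∈ one W, P a :=
  fun a ha => h a (sub_one W a ha)

private theorem ez1_c {Y : List ℕ} {p q : ℕ} (h : ∀ b ∈ Y, b < p) (hq : p < q) : ∀ b ∈ p :: Y, b < q := by
  intro b hb
  rcases List.mem_cons.1 hb with rfl | hb
  · exact hq
  · exact (h b hb).trans hq

private theorem ez1_ap {X Y : List ℕ} {P : ℕ → Prop} (h : ∀ b ∈ X, P b) (h' : ∀ b ∈ Y, P b) :
    ∀ b ∈ X ++ Y, P b := by
  intro b hb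
  rcases List.mem_append.1 hb with hb | hb
  · exact h b hb
  · exact h' b hb

private theorem ez1_h3 : (3 : ZMod 3) = 0 := rfl

/-- digit two at `p`, digit zero at `p + 1` -/
theorem flip_a {A B : List (ℕ × Bool)} {p : ℕ} (h : SD (pos (A ++ (p, true) :: B))) (hp : p + 1 ∉ pos A) :
    SD (one A ++ (p + 1) :: p :: one B) ∧ SD (pos A ++ (p + 1) :: pos B) ∧
    ofl (one A ++ (p + 1) :: p :: one B) + ofw (A ++ (p, true) :: B) = 2 * ofl (pos A ++ (p + 1) :: pos B) ∧
    ∀ c, ct (pos A ++ (p + 1) :: pos B) c =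
      ct (one A ++ (p + 1) :: p :: one B) c + (n2 (A ++ (p, true) :: B) c + ee (p % 12) c) := by
  obtain ⟨hA, hB, h1, h2⟩ := ez1_get h
  have h3 := ez1_up h1 hp
  refine ⟨?_, ?_, ?_, ?_⟩
  · exact ez1_mk (sd_one hA) (ez1_cons (sd_one hB) (ez1_one h2)) (ez1_one h3) (ez1_c (ez1_one h2) (Nat.lt_succ_self p))
  · exact ez1_mk hA hB h3 (ez1_lt h2 (Nat.le_succ p))
  · have e1 := w_can A
    have e2 := w_can B
    rw [ofl_append, ofl_cons, ofl_cons, ofw_append, ofw_cons_true, ofl_append, ofl_cons, pow_succ]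
    omega
  · intro c
    have e1 := ct_can A c
    have e2 := ct_can B c
    rw [ct_append, ct_cons, ct_append, ct_cons, ct_cons, n2_append, n2_cons_true, e1, e2]
    linear_combination (-ee (p % 12) c) * ez1_h3

/-- digit two at `p`, digit one at `p + 1` -/
theorem flip_b {A B : List (ℕ × Bool)} {p : ℕ} (h : SD (pos (A ++ (p + 1, false) :: (p, true) :: B))) :
    SD (one A ++ p :: one B) ∧ SD (pos A ++ (p + 1) :: pos B) ∧
    ofl (one A ++ p :: one B) + ofw (A ++ (p + 1, false) :: (p, true) :: B) = 2 * ofl (pos A ++ (p + 1) :: pos B) ∧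
    ∀ c, ct (pos A ++ (p + 1) :: pos B) c =
      ct (one A ++ p :: one B) c +
        (n2 (A ++ (p + 1, false) :: (p, true) :: B) c + ee (p % 12) c + ee ((p + 1) % 12) c) := by
  obtain ⟨hA, hB0, h1, h20⟩ := ez1_get h
  rw [pos_cons, sd_cons] at hB0
  obtain ⟨h2, hB⟩ := hB0
  refine ⟨?_, ?_, ?_, ?_⟩
  · exact ez1_mk (sd_one hA) (sd_one hB) (fun a ha => lt_trans (Nat.lt_succ_self p) (ez1_one h1 a ha)) (ez1_one h2)
  · exact ez1_mk hA hB h1 (ez1_lt h2 (Nat.le_succ p))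
  · have e1 := w_can A
    have e2 := w_can B
    rw [ofl_append, ofl_cons, ofw_append, ofw_cons_false, ofw_cons_true, ofl_append, ofl_cons, pow_succ]
    omega
  · intro c
    have e1 := ct_can A c
    have e2 := ct_can B c
    rw [ct_append, ct_cons, ct_append, ct_cons, n2_append, n2_cons_false, n2_cons_true, e1, e2]
    linear_combination (-ee (p % 12) c) * ez1_h3

/-- digits two at `p + 1` and `p`, digit zero at `p + 2` -/
theorem flip_c {A B : List (ℕ × Bool)} {p : ℕ} (h : SD (pos (A ++ (p + 1, true) :: (p, true) :: B)))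
    (hp : p + 2 ∉ pos A) :
    SD (one A ++ (p + 2) :: p :: one B) ∧ SD (pos A ++ (p + 2) :: pos B) ∧
    ofl (one A ++ (p + 2) :: p :: one B) + ofw (A ++ (p + 1, true) :: (p, true) :: B) =
      2 * ofl (pos A ++ (p + 2) :: pos B) ∧
    ∀ c, ct (pos A ++ (p + 2) :: pos B) c =
      ct (one A ++ (p + 2) :: p :: one B) c +
        (n2 (A ++ (p + 1, true) :: (p, true) :: B) c + ee (p % 12) c - ee ((p + 1) % 12) c) := by
  obtain ⟨hA, hB0, h1, h20⟩ := ez1_get h
  rw [pos_cons, sd_cons] at hB0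
  obtain ⟨h2, hB⟩ := hB0
  have h3 : ∀ a ∈ pos A, p + 2 < a := ez1_up h1 hp
  refine ⟨?_, ?_, ?_, ?_⟩
  · exact ez1_mk (sd_one hA) (ez1_cons (sd_one hB) (ez1_one h2)) (ez1_one h3)
      (ez1_c (ez1_one h2) (by omega))
  · exact ez1_mk hA hB h3 (ez1_lt h2 (by omega))
  · have e1 := w_can A
    have e2 := w_can B
    rw [ofl_append, ofl_cons, ofl_cons, ofw_append, ofw_cons_true, ofw_cons_true, ofl_append, ofl_cons, pow_succ,
      pow_succ]
    omega
  · intro c
    have e1 := ct_can A c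
    have e2 := ct_can B c
    rw [ct_append, ct_cons, ct_append, ct_cons, ct_cons, n2_append, n2_cons_true, n2_cons_true, e1, e2]
    linear_combination (-ee (p % 12) c) * ez1_h3

/-- two digits two, digits zero above them -/
theorem flip_d {A B C : List (ℕ × Bool)} {p q : ℕ} (h : SD (pos (A ++ (p, true) :: (B ++ (q, true) :: C))))
    (hp : p + 1 ∉ pos A) (hq : q + 1 ∉ pos B) (hpq : q + 1 < p) :
    SD (one A ++ (p + 1) :: p :: (one B ++ (q + 1) :: q :: one C)) ∧
    SD (pos A ++ (p + 1) :: (pos B ++ (q + 1) :: pos C)) ∧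
    ofl (one A ++ (p + 1) :: p :: (one B ++ (q + 1) :: q :: one C)) + ofw (A ++ (p, true) :: (B ++ (q, true) :: C)) =
      2 * ofl (pos A ++ (p + 1) :: (pos B ++ (q + 1) :: pos C)) ∧
    ∀ c, ct (pos A ++ (p + 1) :: (pos B ++ (q + 1) :: pos C)) c =
      ct (one A ++ (p + 1) :: p :: (one B ++ (q + 1) :: q :: one C)) c +
        (n2 (A ++ (p, true) :: (B ++ (q, true) :: C)) c + ee (p % 12) c + ee (q % 12) c) := by
  obtain ⟨hA, hB0, h1, h20⟩ := ez1_get h
  obtain ⟨hB, hC, h4, h5⟩ := ez1_get hB0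
  have h3 := ez1_up h1 hp
  have h6 := ez1_up h4 hq
  have h7 : ∀ b ∈ pos B, b < p := by
    intro b hb
    apply h20
    rw [pos_append]
    exact List.mem_append_left _ hb
  have k1 : SD (one B ++ (q + 1) :: q :: one C) :=
    ez1_mk (sd_one hB) (ez1_cons (sd_one hC) (ez1_one h5)) (ez1_one h6) (ez1_c (ez1_one h5) (Nat.lt_succ_self q))
  have k2 : SD (pos B ++ (q + 1) :: pos C) := ez1_mk hB hC h6 (ez1_lt h5 (Nat.le_succ q))
  have k3 : ∀ b ∈ one B ++ (q + 1) :: q :: one C, b < p :=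
    ez1_ap (ez1_one h7) (ez1_c (ez1_c (ez1_one h5) (Nat.lt_succ_self q)) hpq)
  have k4 : ∀ b ∈ pos B ++ (q + 1) :: pos C, b < p :=
    ez1_ap h7 (ez1_c (ez1_lt h5 (Nat.le_succ q)) hpq)
  refine ⟨?_, ?_, ?_, ?_⟩
  · exact ez1_mk (sd_one hA) (ez1_cons k1 k3) (ez1_one h3) (ez1_c k3 (Nat.lt_succ_self p))
  · exact ez1_mk hA k2 h3 (ez1_lt k4 (Nat.le_succ p))
  · have e1 := w_can A
    have e2 := w_can B
    have e3 := w_can C
    simp only [ofl_append, ofl_cons, ofw_append, ofw_cons_true, pow_succ]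
    omega
  · intro c
    have e1 := ct_can A c
    have e2 := ct_can B c
    have e3 := ct_can C c
    simp only [ct_append, ct_cons, n2_append, n2_cons_true]
    rw [e1, e2, e3]
    linear_combination (-ee (p % 12) c - ee (q % 12) c) * ez1_h3

end Pool.Agent.STF
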