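import Pool.Agent.STF.La

/-!
# Project STF, module Lb: digits of `ofl L`

The digit at `p` of the number `ofl L` of a strictly decreasing list is one exactly for `p ∈ L`; every number of `S0`
is `ofl L` for exactly one such list; splitting of the list at a position.
-/

set_option autoImplicit false

namespace Pool.Agent.STF

open Pool.Agent.STN

theorem dg_ofl {L : List ℕ} (h : SD L) (p : ℕ) : dg (ofl L) p = if p ∈ L then 1 else 0 := by
  induction L generalizing p with
  | nil => rw [ofl_nil, dg_zero_left, if_neg (by simp)]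
  | cons a L ih =>
    obtain ⟨h1, h2⟩ := sd_cons.1 h
    have ha : a ∉ L := fun hm => lt_irrefl a (h1 a hm)
    have h3 : dg (ofl L) a = 0 := by rw [ih h2, if_neg ha]
    rw [ofl_cons, add_comm, dg_add_pow (by omega)]
    by_cases hp : p = a
    · rw [if_pos hp, h3, hp, if_pos (by simp)]
    · rw [if_neg hp, ih h2]
      by_cases hq : p ∈ L
      · rw [if_pos hq, if_pos (List.mem_cons_of_mem _ hq)]
      · rw [if_neg hq, if_neg (by rw [List.mem_cons, not_or]; exact ⟨hp, hq⟩)]

theorem ofl_mem {L : List ℕ} (h : SD L) : ofl L ∈ S0 := by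
  intro p
  rw [dg_ofl h]
  split_ifs <;> omega

theorem exists_list {x : ℕ} (hx : x ∈ S0) : ∃ L, SD L ∧ x = ofl L := by
  have hs : SD ((List.range x).filter fun p => decide (dg x p = 1)).reverse := by
    unfold SD
    rw [List.pairwise_reverse]
    exact List.Pairwise.filter _ List.pairwise_lt_range
  refine ⟨((List.range x).filter fun p => decide (dg x p = 1)).reverse, hs, ?_⟩
  refine dg_ext fun p => ?_
  have h1 := hx p
  rw [dg_ofl hs]
  have hm : p ∈ ((List.range x).filter fun p => decide (dg x p = 1)).reverse ↔ p < x ∧ dg x p = 1 := by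
    rw [List.mem_reverse, List.mem_filter, List.mem_range, decide_eq_true_iff]
  by_cases hp : dg x p = 1
  · have h2 : p < x := by
      by_contra hc
      have h3 : p < 3 ^ p := Nat.lt_pow_self (by norm_num)
      rw [dg_of_lt (lt_of_le_of_lt (not_lt.1 hc) h3)] at hp
      omega
    rw [if_pos (hm.2 ⟨h2, hp⟩), hp]
  · rw [if_neg (fun h => hp (hm.1 h).2)]
    omega

theorem ofl_inj {L L' : List ℕ} (h : SD L) (h' : SD L') (he : ofl L = ofl L') : L = L' := by
  refine sd_ext h h' fun p => ?_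
  have h1 := dg_ofl h p
  rw [he, dg_ofl h' p] at h1
  by_cases hp : p ∈ L <;> by_cases hq : p ∈ L' <;> simp [hp, hq] at h1 ⊢

/-- splitting a word at a position -/
theorem sd_split {L : List ℕ} (h : SD L) (p : ℕ) : ∃ A B, L = A ++ B ∧ (∀ a ∈ A, p ≤ a) ∧ ∀ b ∈ B, b < p := by
  induction L with
  | nil => exact ⟨[], [], rfl, by simp, by simp⟩
  | cons a L ih =>
    obtain ⟨h1, h2⟩ := sd_cons.1 h
    rcases Nat.lt_or_ge a p with ha | ha
    · refine ⟨[], a :: L, rfl, by simp, fun b hb => ?_⟩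
      rcases List.mem_cons.1 hb with hb | hb
      · rw [hb]
        exact ha
      · exact (h1 b hb).trans ha
    · obtain ⟨A, B, e, hA, hB⟩ := ih h2
      refine ⟨a :: A, B, by rw [e, List.cons_append], fun b hb => ?_, hB⟩
      rcases List.mem_cons.1 hb with hb | hb
      · rw [hb]
        exact ha
      · exact hA b hb

private theorem lb_dvd {A : List ℕ} {p : ℕ} (hA : ∀ a ∈ A, p ≤ a) : 3 ^ p ∣ ofl A := by
  induction A with
  | nil =>
    rw [ofl_nil]
    exact dvd_zero _
  | cons a A ih =>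
    rw [ofl_cons]
    exact dvd_add (pow_dvd_pow 3 (hA a (by simp))) (ih fun b hb => hA b (List.mem_cons_of_mem _ hb))

/-- quotient and rest -/
theorem ofl_divmod {A B : List ℕ} {p : ℕ} (h : SD (A ++ B)) (hA : ∀ a ∈ A, p ≤ a) (hB : ∀ b ∈ B, b < p) :
    ofl (A ++ B) % 3 ^ p = ofl B ∧ ofl A = 3 ^ p * (ofl (A ++ B) / 3 ^ p) := by
  have h1 := (sd_append.1 h).2.1
  have h2 := ofl_lt h1 hB
  obtain ⟨k, hk⟩ := lb_dvd hA
  have h3 : ofl B < 3 ^ p := by omega
  have hp : 0 < 3 ^ p := by positivity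
  rw [ofl_append, hk, Nat.mul_add_mod, Nat.mod_eq_of_lt h3, Nat.mul_add_div hp, Nat.div_eq_of_lt h3, add_zero]
  exact ⟨rfl, rfl⟩

theorem gg_sub (q : SG) : GG q ⊆ S0 := by
  rintro x ⟨L, h, _, rfl⟩
  exact ofl_mem h

theorem mem_gg {L : List ℕ} (h : SD L) : ofl L ∈ GG (sgl L) := ⟨L, h, rfl, rfl⟩

end Pool.Agent.STF
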