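import Pool.Agent.STF.Lc

/-!
# Project STF, module Le: the relations `X + Z = 2 W + 4 * 3^i` and `X + (W + 2 * 3^i) = 2 Y`

`hop4`: let `w = ofl (A ++ B)`; `w` has the digits `0` at `i`, `i + 1`.  `ofl X + ofl Z = 2 w + 3^i + 3^(i+1)`; all digits
on both sides are at most two, hence equal: `dg X p + dg Z p = 2 dg w p` for `p ≠ i, i + 1` and `= 1` for `p = i, i + 1`
(compare digits with `dg`, e.g. by the uniqueness of ternary expansions: split off the lowest digit by induction, or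
use `3 ∣`).  Then `sd_ext`.
`reps2`: `STN.two_reps` and `ofl_inj`.  `rel0`: `X + Z = 2 Y` in `S0`: `STN.s0_ap`.
-/

set_option autoImplicit false

namespace Pool.Agent.STF

open Pool.Agent.STN

theorem dg_mid {A B : List ℕ} {i : ℕ} (h : SD (A ++ i :: B)) (hi : i + 1 ∉ A) :
    dg (ofl (A ++ B)) i = 0 ∧ dg (ofl (A ++ B)) (i + 1) = 0 := by
  obtain ⟨h1, h2, h3, h4, h5⟩ := sd_mid.1 h
  have h6 : SD (A ++ B) := sd_append.2 ⟨h1, h2, h5⟩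
  constructor
  · rw [dg_ofl h6, if_neg]
    intro h7
    rcases List.mem_append.1 h7 with h8 | h8
    · exact lt_irrefl _ (h3 _ h8)
    · exact lt_irrefl _ (h4 _ h8)
  · rw [dg_ofl h6, if_neg]
    intro h7
    rcases List.mem_append.1 h7 with h8 | h8
    · exact hi h8
    · have := h4 _ h8
      omega

theorem sd_up {A B : List ℕ} {i : ℕ} (h : SD (A ++ i :: B)) (hi : i + 1 ∉ A) :
    SD (A ++ B) ∧ SD (A ++ (i + 1) :: B) ∧ SD (A ++ (i + 1) :: i :: B) := by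
  obtain ⟨h1, h2, h3, h4, h5⟩ := sd_mid.1 h
  have h6 : ∀ a ∈ A, i + 1 < a := by
    intro a ha
    have h7 := h3 a ha
    have h8 : a ≠ i + 1 := fun h9 => hi (h9 ▸ ha)
    omega
  refine ⟨sd_append.2 ⟨h1, h2, h5⟩, sd_mid.2 ⟨h1, h2, h6, fun b hb => ?_, h5⟩,
    sd_mid.2 ⟨h1, sd_cons.2 ⟨h4, h2⟩, h6, fun b hb => ?_, fun a ha b hb => ?_⟩⟩
  · have := h4 b hb
    omega
  · rcases List.mem_cons.1 hb with h7 | h7
    · omega
    · have := h4 b h7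
      omega
  · rcases List.mem_cons.1 hb with h7 | h7
    · rw [h7]
      exact h3 a ha
    · exact h5 a ha b h7

theorem rel0 {X Y Z : List ℕ} (hX : SD X) (hY : SD Y) (hZ : SD Z) (h : ofl X + ofl Z = 2 * ofl Y) :
    X = Y ∧ Z = Y := by
  obtain ⟨h1, h2⟩ := s0_ap (ofl_mem hX) (ofl_mem hY) (ofl_mem hZ) h
  exact ⟨ofl_inj hX hY h1, ofl_inj hZ hY h2⟩

private theorem le_dec {X : ℕ} (hX : X ∈ S0) (i : ℕ) : ∃ x a x' : ℕ, x ∈ S0 ∧ x' ∈ S0 ∧ 2 * x + 1 ≤ 3 ^ i ∧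
    (a = 0 ∨ a = 1 ∨ a = 3 ∨ a = 4) ∧ X = x + 3 ^ i * (a + 9 * x') ∧ a = dg X i + 3 * dg X (i + 1) := by
  have q := s0_div hX i
  obtain ⟨x1, x2⟩ := s0_step.1 q
  obtain ⟨x3, x4⟩ := s0_step.1 x2
  refine ⟨X % 3 ^ i, X / 3 ^ i % 3 + 3 * (X / 3 ^ i / 3 % 3), X / 3 ^ i / 3 / 3, s0_mod hX i, x4, s0_two hX i,
    by omega, ?_, ?_⟩
  · have h1 : X / 3 ^ i = X / 3 ^ i % 3 + 3 * (X / 3 ^ i / 3 % 3) + 9 * (X / 3 ^ i / 3 / 3) := by omega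
    calc X = X % 3 ^ i + 3 ^ i * (X / 3 ^ i) := (Nat.mod_add_div X (3 ^ i)).symm
      _ = _ := by rw [← h1]
  · unfold dg
    rw [Nat.div_div_eq_div_mul, ← pow_succ]

private theorem le_hop {w X Z i : ℕ} (hw : w ∈ S0) (h0 : dg w i = 0) (h1 : dg w (i + 1) = 0) (hX : X ∈ S0)
    (hZ : Z ∈ S0) (h : X + Z = 2 * w + 4 * 3 ^ i) :
    (X = w ∧ Z = w + 3 ^ (i + 1) + 3 ^ i) ∨ (X = w + 3 ^ i ∧ Z = w + 3 ^ (i + 1)) ∨
    (X = w + 3 ^ (i + 1) ∧ Z = w + 3 ^ i) ∨ (X = w + 3 ^ (i + 1) + 3 ^ i ∧ Z = w) := by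
  obtain ⟨x, a, x', hx, hx', tx, ha, eX, -⟩ := le_dec hX i
  obtain ⟨z, c, z', hz, hz', tz, hc, eZ, -⟩ := le_dec hZ i
  obtain ⟨u, b, u', hu, hu', tu, -, eW, hb⟩ := le_dec hw i
  have hb0 : b = 0 := by rw [hb, h0, h1]
  subst hb0
  have hM0 : 0 < 3 ^ i := by positivity
  rw [pow_succ]
  clear hb h0 h1
  generalize 3 ^ i = M at h tx tz tu eX eZ eW hM0 ⊢
  have e7 : (x + z) + M * (a + c + 9 * (x' + z')) = 2 * u + M * (4 + 9 * (2 * u')) := by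
    calc (x + z) + M * (a + c + 9 * (x' + z')) = (x + M * (a + 9 * x')) + (z + M * (c + 9 * z')) := by ring
      _ = X + Z := by rw [← eX, ← eZ]
      _ = 2 * w + 4 * M := h
      _ = 2 * (u + M * (0 + 9 * u')) + 4 * M := by rw [← eW]
      _ = _ := by ring
  have e8 : x + z = 2 * u := by
    have g1 : (x + z) % M = (2 * u) % M := by
      rw [← Nat.add_mul_mod_self_left (x + z) M (a + c + 9 * (x' + z')), e7, Nat.add_mul_mod_self_left]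
    have g2 : (x + z) % M = x + z := Nat.mod_eq_of_lt (by omega)
    have g3 : (2 * u) % M = 2 * u := Nat.mod_eq_of_lt (by omega)
    rw [← g2, g1, g3]
  have e9 : a + c + 9 * (x' + z') = 4 + 9 * (2 * u') := by
    rw [e8] at e7
    exact Nat.eq_of_mul_eq_mul_left hM0 (Nat.add_left_cancel e7)
  have e10 : a + c = 4 ∧ x' + z' = 2 * u' := by
    constructor <;> omega
  obtain ⟨f1, f2⟩ := s0_ap hx hu hz e8
  obtain ⟨f3, f4⟩ := s0_ap hx' hu' hz' e10.2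
  have hXw : X = w + M * a := by
    rw [eX, eW, f1, f3]
    ring
  have hZw : Z = w + M * c := by
    rw [eZ, eW, f2, f4]
    ring
  have hac : (a = 0 ∧ c = 4) ∨ (a = 1 ∧ c = 3) ∨ (a = 3 ∧ c = 1) ∨ (a = 4 ∧ c = 0) := by omega
  rcases hac with ⟨ga, gc⟩ | ⟨ga, gc⟩ | ⟨ga, gc⟩ | ⟨ga, gc⟩
  · left
    rw [hXw, hZw, ga, gc]
    exact ⟨by ring, by ring⟩
  · right; left
    rw [hXw, hZw, ga, gc]
    exact ⟨by ring, by ring⟩
  · right; right; left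
    rw [hXw, hZw, ga, gc]
    exact ⟨by ring, by ring⟩
  · right; right; right
    rw [hXw, hZw, ga, gc]
    exact ⟨by ring, by ring⟩

private theorem le_ofl (A B : List ℕ) (i : ℕ) :
    ofl (A ++ i :: B) = ofl (A ++ B) + 3 ^ i ∧ ofl (A ++ (i + 1) :: B) = ofl (A ++ B) + 3 ^ (i + 1) ∧
    ofl (A ++ (i + 1) :: i :: B) = ofl (A ++ B) + 3 ^ (i + 1) + 3 ^ i := by
  simp only [ofl_append, ofl_cons]
  refine ⟨by ring, by ring, by ring⟩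

theorem hop4 {A B X Z : List ℕ} {i : ℕ} (h : SD (A ++ i :: B)) (hi : i + 1 ∉ A) (hX : SD X) (hZ : SD Z)
    (he : ofl X + ofl Z = 2 * ofl (A ++ B) + 4 * 3 ^ i) :
    (X = A ++ B ∧ Z = A ++ (i + 1) :: i :: B) ∨ (X = A ++ i :: B ∧ Z = A ++ (i + 1) :: B) ∨
    (X = A ++ (i + 1) :: B ∧ Z = A ++ i :: B) ∨ (X = A ++ (i + 1) :: i :: B ∧ Z = A ++ B) := by
  obtain ⟨d0, d1⟩ := dg_mid h hi
  obtain ⟨s1, s2, s3⟩ := sd_up h hi
  obtain ⟨o1, o2, o3⟩ := le_ofl A B i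
  rcases le_hop (ofl_mem s1) d0 d1 (ofl_mem hX) (ofl_mem hZ) he with ⟨h1, h2⟩ | ⟨h1, h2⟩ | ⟨h1, h2⟩ | ⟨h1, h2⟩
  · exact Or.inl ⟨ofl_inj hX s1 h1, ofl_inj hZ s3 (h2.trans o3.symm)⟩
  · exact Or.inr (Or.inl ⟨ofl_inj hX h (h1.trans o1.symm), ofl_inj hZ s2 (h2.trans o2.symm)⟩)
  · exact Or.inr (Or.inr (Or.inl ⟨ofl_inj hX s2 (h1.trans o2.symm), ofl_inj hZ h (h2.trans o1.symm)⟩))
  · exact Or.inr (Or.inr (Or.inr ⟨ofl_inj hX s3 (h1.trans o3.symm), ofl_inj hZ s1 h2⟩))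

theorem reps2 {A B X Y : List ℕ} {i : ℕ} (h : SD (A ++ i :: B)) (hi : i + 1 ∉ A) (hX : SD X) (hY : SD Y)
    (he : ofl X + (ofl (A ++ B) + 2 * 3 ^ i) = 2 * ofl Y) :
    (X = A ++ B ∧ Y = A ++ i :: B) ∨ (X = A ++ (i + 1) :: i :: B ∧ Y = A ++ (i + 1) :: B) := by
  obtain ⟨d0, d1⟩ := dg_mid h hi
  obtain ⟨s1, s2, s3⟩ := sd_up h hi
  obtain ⟨o1, o2, o3⟩ := le_ofl A B i
  rcases two_reps (ofl_mem s1) d0 d1 (ofl_mem hX) (ofl_mem hY) he with ⟨h1, h2⟩ | ⟨h1, h2⟩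
  · exact Or.inl ⟨ofl_inj hX s1 h1, ofl_inj hY h (h2.trans o1.symm)⟩
  · refine Or.inr ⟨ofl_inj hX s3 (h1.trans ?_), ofl_inj hY s2 (h2.trans o2.symm)⟩
    rw [o3]
    ring

end Pool.Agent.STF
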