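import Pool.Agent.STF.Lg

/-!
# Project STF, module Pz1: reading an active word after a slot letter

`fk k D` is the phase reached from the phase `k` after the letters `D`; `KK z D k`: the letters `D` after the slot letter of
type `z` lead to a state `be` of the phase `k`.
-/

set_option autoImplicit false

namespace Pool.Agent.STF

open Pool.Agent.STN

/-- the phase after the letters `D` -/
def fk (k : ℕ) (D : List ℕ) : ℕ := D.foldl (fun k p => nx k (p % 12)) k

/-- the letters `D` after the slot letter of type `z` lead to a state `be` of phase `k` -/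
def KK (z : ℕ) (D : List ℕ) (k : ℕ) : Prop :=
  (z = 1 ∧ ∃ r b D', D = r :: b :: D' ∧ r % 12 = 6 ∧ fk 0 D' = k) ∨ (z = 2 ∧ fk 0 D = k)

/-- the class recorded for the slot letter of type `z` -/
def rc : ℕ → St → Option ℕ
  | 1, .al _ a _ => some a
  | 1, .be _ a _ _ => some a
  | 2, .be _ _ b _ => some b
  | _, _ => none

theorem fk_nil (k : ℕ) : fk k [] = k := rfl

theorem fk_cons (k p : ℕ) (D : List ℕ) : fk k (p :: D) = fk (nx k (p % 12)) D := rfl

theorem fk_append (k : ℕ) (D E : List ℕ) : fk k (D ++ E) = fk (fk k D) E := by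
  unfold fk
  rw [List.foldl_append]

theorem rn_be_fk (f : Bool) (a b k : ℕ) (D : List ℕ) : rn (.be f a b k) D = .be f a b (fk k D) := by
  induction D generalizing k with
  | nil => rfl
  | cons p D ih =>
    rw [rn_cons, fk_cons]
    exact ih (nx k (p % 12))

private theorem pz1_dead (f : Bool) (a : ℕ) (D : List ℕ) : rn (.al f a 2) D = .al f a 2 := by
  induction D with
  | nil => rfl
  | cons p D ih =>
    rw [rn_cons]
    exact ih

theorem slot_be {z : ℕ} {q : St} (hs : slot z q) (c : ℕ) (D : List ℕ) (k : ℕ) :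
    (∃ a b, rn (stp q c) D = .be false a b k) ↔ KK z D k := by
  rcases hs with ⟨rfl, rfl⟩ | ⟨rfl, a, rfl⟩
  · have h0 : stp (.ac false) c = .al false c 0 := rfl
    rw [h0]
    match D with
    | [] =>
      constructor
      · rintro ⟨a, b, h⟩
        rw [rn_nil] at h
        cases h
      · rintro (⟨-, r, b, D', h, -⟩ | ⟨h, -⟩)
        · cases h
        · omega
    | [r] =>
      constructor
      · rintro ⟨a, b, h⟩
        rw [rn_cons, rn_nil] at h
        by_cases hr : r % 12 = 6
        · have h1 : stp (.al false c 0) (r % 12) = .al false c 1 := by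
            simp [stp, hr]
          rw [h1] at h
          cases h
        · have h1 : stp (.al false c 0) (r % 12) = .al false c 2 := by
            simp [stp, hr]
          rw [h1] at h
          cases h
      · rintro (⟨-, r, b, D', h, -⟩ | ⟨h, -⟩)
        · cases h
        · omega
    | r :: b :: D' =>
      by_cases hr : r % 12 = 6
      · have h1 : rn (.al false c 0) (r :: b :: D') = .be false c (b % 12) (fk 0 D') := by
          rw [rn_cons, rn_cons, ← rn_be_fk]
          have h1 : stp (.al false c 0) (r % 12) = .al false c 1 := by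
            simp [stp, hr]
          rw [h1]
          rfl
        rw [h1]
        constructor
        · rintro ⟨a, b', h⟩
          injection h with _ _ _ h4
          exact Or.inl ⟨rfl, r, b, D', rfl, hr, h4⟩
        · rintro (⟨-, r', b', D'', h, -, h3⟩ | ⟨h, -⟩)
          · injection h with h4 h5
            injection h5 with h6 h7
            subst h7
            exact ⟨c, b % 12, by rw [h3]⟩
          · omega
      · have h1 : rn (.al false c 0) (r :: b :: D') = .al false c 2 := by
          rw [rn_cons]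
          have h1 : stp (.al false c 0) (r % 12) = .al false c 2 := by
            simp [stp, hr]
          rw [h1]
          exact pz1_dead _ _ _
        rw [h1]
        constructor
        · rintro ⟨a, b', h⟩
          cases h
        · rintro (⟨-, r', b', D'', h, h2, -⟩ | ⟨h, -⟩)
          · injection h with h4 h5
            subst h4
            exact absurd h2 hr
          · omega
  · have h0 : stp (.al false a 1) c = .be false a c 0 := rfl
    rw [h0, rn_be_fk]
    constructor
    · rintro ⟨a', b', h⟩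
      injection h with _ _ _ h4
      exact Or.inr ⟨rfl, h4⟩
    · rintro (⟨h, -⟩ | ⟨-, h⟩)
      · omega
      · exact ⟨a, c, by rw [h]⟩

theorem slot_rc {z : ℕ} {q : St} (hs : slot z q) (c : ℕ) (D : List ℕ) : rc z (rn (stp q c) D) = some c := by
  rcases hs with ⟨rfl, rfl⟩ | ⟨rfl, a, rfl⟩
  · have h0 : stp (.ac false) c = .al false c 0 := rfl
    rw [h0]
    rcases rn_al false c 0 D with ⟨k', h⟩ | ⟨b, k', h⟩
    · rw [h]
      rfl
    · rw [h]
      rfl
  · have h0 : stp (.al false a 1) c = .be false a c 0 := rfl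
    rw [h0, rn_be_fk]
    rfl

private theorem pz1_no {z : ℕ} {A E : List ℕ} {i : ℕ} (hs : slot z (run A)) : ¬ slot z (run (A ++ i :: E)) := by
  rw [run_append, rn_cons]
  rcases hs with ⟨rfl, h⟩ | ⟨rfl, a, h⟩
  · rw [h]
    have h0 : stp (.ac false) (i % 12) = .al false (i % 12) 0 := rfl
    rw [h0]
    rintro (⟨-, h1⟩ | ⟨h1, -⟩)
    · rcases rn_al false (i % 12) 0 E with ⟨k', h2⟩ | ⟨b, k', h2⟩
      · rw [h2] at h1
        cases h1
      · rw [h2] at h1
        cases h1
    · omega
  · rw [h]
    have h0 : stp (.al false a 1) (i % 12) = .be false a (i % 12) 0 := rfl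
    rw [h0, rn_be_fk]
    rintro (⟨h1, -⟩ | ⟨-, a', h1⟩)
    · omega
    · cases h1

theorem slot_uniq {z : ℕ} {A A' D D' : List ℕ} {i i' : ℕ} (h : A ++ i :: D = A' ++ i' :: D')
    (hs : slot z (run A)) (hs' : slot z (run A')) : A = A' ∧ i = i' ∧ D = D' := by
  rcases List.append_eq_append_iff.1 h with ⟨E, h1, h2⟩ | ⟨E, h1, h2⟩
  · cases E with
    | nil =>
      rw [List.append_nil] at h1
      rw [List.nil_append] at h2
      injection h2 with h3 h4
      exact ⟨h1.symm, h3, h4⟩
    | cons j E =>
      rw [List.cons_append] at h2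
      injection h2 with h3 h4
      subst h3
      rw [h1] at hs'
      exact absurd hs' (pz1_no hs)
  · cases E with
    | nil =>
      rw [List.append_nil] at h1
      rw [List.nil_append] at h2
      injection h2 with h3 h4
      exact ⟨h1, h3.symm, h4.symm⟩
    | cons j E =>
      rw [List.cons_append] at h2
      injection h2 with h3 h4
      subst h3
      rw [h1] at hs
      exact absurd hs (pz1_no hs')

private theorem pz1_nx6 {k c : ℕ} (h : nx k c = 6) : k = 1 ∧ c = 1 := by
  unfold nx at h
  split_ifs at h <;> omega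

private theorem pz1_nx7 {k c : ℕ} (h : nx k c = 7) : k = 6 ∨ k = 7 := by
  unfold nx at h
  split_ifs at h <;> omega

theorem fk_split {D : List ℕ} {k : ℕ} (h : fk 0 D = k) (hk : k = 6 ∨ k = 7) :
    ∃ B e C, D = B ++ e :: C ∧ fk 0 B = 1 ∧ e % 12 = 1 ∧ (k = 6 ↔ C = []) := by
  induction D using List.reverseRecOn generalizing k with
  | nil =>
    rw [fk_nil] at h
    omega
  | append_singleton D p ih =>
    rw [fk_append, fk_cons, fk_nil] at h
    rcases hk with rfl | rfl
    · obtain ⟨h1, h2⟩ := pz1_nx6 h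
      exact ⟨D, p, [], rfl, h1, h2, by simp⟩
    · obtain ⟨B, e, C, h1, h2, h3, -⟩ := ih rfl (pz1_nx7 h)
      refine ⟨B, e, C ++ [p], by rw [h1]; simp, h2, h3, ?_⟩
      constructor
      · intro h4
        omega
      · intro h4
        simp at h4

private theorem pz1_fk67 (E : List ℕ) : ∀ k, (k = 6 ∨ k = 7) → (fk k E = 6 ∨ fk k E = 7) := by
  induction E with
  | nil => exact fun k hk => hk
  | cons p E ih =>
    intro k hk
    rw [fk_cons]
    apply ih
    rcases hk with rfl | rfl
    · exact Or.inr rfl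
    · exact Or.inr rfl

private theorem pz1_nx1 (c : ℕ) (h : c = 1) : nx 1 c = 6 := by
  subst h
  rfl

private theorem pz1_fk1 {B E : List ℕ} {e : ℕ} (h : fk 0 B = 1) (he : e % 12 = 1) :
    fk 0 (B ++ e :: E) = 6 ∨ fk 0 (B ++ e :: E) = 7 := by
  rw [fk_append, fk_cons, h, pz1_nx1 _ he]
  exact pz1_fk67 E 6 (Or.inl rfl)

theorem fk_uniq {B B' C C' : List ℕ} {e e' : ℕ} (h : B ++ e :: C = B' ++ e' :: C') (h1 : fk 0 B = 1)
    (h1' : fk 0 B' = 1) (he : e % 12 = 1) (he' : e' % 12 = 1) : B = B' ∧ e = e' ∧ C = C' := by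
  rcases List.append_eq_append_iff.1 h with ⟨E, k1, k2⟩ | ⟨E, k1, k2⟩
  · cases E with
    | nil =>
      rw [List.append_nil] at k1
      rw [List.nil_append] at k2
      injection k2 with h3 h4
      exact ⟨k1.symm, h3, h4⟩
    | cons j E =>
      rw [List.cons_append] at k2
      injection k2 with h3 h4
      subst h3
      rw [k1] at h1'
      have := pz1_fk1 (E := E) h1 he
      omega
  · cases E with
    | nil =>
      rw [List.append_nil] at k1
      rw [List.nil_append] at k2
      injection k2 with h3 h4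
      exact ⟨k1, h3.symm, h4.symm⟩
    | cons j E =>
      rw [List.cons_append] at k2
      injection k2 with h3 h4
      subst h3
      rw [k1] at h1
      have := pz1_fk1 (E := E) h1' he'
      omega

private theorem pz1_nx0 {c : ℕ} (h : nx 0 c ≠ 8) : c = 6 := by
  by_contra hc
  apply h
  simp [nx, hc]

private theorem pz1_fk8 (E : List ℕ) : fk 8 E = 8 := by
  induction E with
  | nil => rfl
  | cons p E ih => exact ih

theorem KK_split {z : ℕ} {D : List ℕ} {k : ℕ} (h : KK z D k) (hk : k = 6 ∨ k = 7) :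
    ∃ r B e C, D = r :: (B ++ e :: C) ∧ r % 12 = 6 ∧ e % 12 = 1 ∧ KK z (r :: B) 1 ∧ (k = 6 ↔ C = []) := by
  rcases h with ⟨rfl, r, b, D', rfl, hr, h⟩ | ⟨rfl, h⟩
  · obtain ⟨B, e, C, rfl, h2, h3, h4⟩ := fk_split h hk
    exact ⟨r, b :: B, e, C, rfl, hr, h3, Or.inl ⟨rfl, r, b, B, rfl, hr, h2⟩, h4⟩
  · obtain ⟨B, e, C, rfl, h2, h3, h4⟩ := fk_split h hk
    cases B with
    | nil =>
      rw [fk_nil] at h2
      omega
    | cons r B =>
      have hr : r % 12 = 6 := by
        apply pz1_nx0
        intro h5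
        rw [fk_cons, h5, pz1_fk8] at h2
        omega
      exact ⟨r, B, e, C, rfl, hr, h3, Or.inr ⟨rfl, h2⟩, h4⟩

theorem KK_uniq {z r r' e e' : ℕ} {B B' C C' : List ℕ} (h : r :: (B ++ e :: C) = r' :: (B' ++ e' :: C'))
    (h1 : KK z (r :: B) 1) (h1' : KK z (r' :: B') 1) (he : e % 12 = 1) (he' : e' % 12 = 1) :
    r = r' ∧ B = B' ∧ e = e' ∧ C = C' := by
  rcases h1 with ⟨rfl, s, b, D, k1, -, k3⟩ | ⟨rfl, k1⟩
  · rcases h1' with ⟨-, s', b', D', l1, -, l3⟩ | ⟨l1, -⟩
    · injection k1 with k4 k5
      injection l1 with l4 l5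
      subst k5 l5
      injection h with h2 h3
      rw [List.cons_append, List.cons_append] at h3
      injection h3 with h4 h5
      obtain ⟨g1, g2, g3⟩ := fk_uniq h5 k3 l3 he he'
      exact ⟨h2, by rw [h4, g1], g2, g3⟩
    · omega
  · rcases h1' with ⟨l1, -⟩ | ⟨-, l1⟩
    · omega
    · have h2 : (r :: B) ++ e :: C = (r' :: B') ++ e' :: C' := h
      obtain ⟨g1, g2, g3⟩ := fk_uniq h2 k1 l1 he he'
      injection g1 with g4 g5
      exact ⟨g4, g5, g2, g3⟩

theorem KK_full {z r e : ℕ} {B C : List ℕ} (h1 : KK z (r :: B) 1) (he : e % 12 = 1) :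
    (C = [] ∧ KK z (r :: (B ++ e :: C)) 6) ∨ (C ≠ [] ∧ KK z (r :: (B ++ e :: C)) 7) := by
  have key : ∀ B', fk 0 B' = 1 → (C = [] ∧ fk 0 (B' ++ e :: C) = 6) ∨ (C ≠ [] ∧ fk 0 (B' ++ e :: C) = 7) := by
    intro B' h
    rw [fk_append, fk_cons, h, pz1_nx1 _ he]
    cases C with
    | nil => exact Or.inl ⟨rfl, rfl⟩
    | cons c C =>
      refine Or.inr ⟨by simp, ?_⟩
      rw [fk_cons]
      have h2 : nx 6 (c % 12) = 7 := rfl
      rw [h2]
      induction C with
      | nil => rfl
      | cons d C ih =>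
        rw [fk_cons]
        have h3 : nx 7 (d % 12) = 7 := rfl
        rw [h3]
        clear ih
        induction C with
        | nil => rfl
        | cons d' C ih => exact ih
  rcases h1 with ⟨rfl, s, b, D, k1, k2, k3⟩ | ⟨rfl, k1⟩
  · injection k1 with k4 k5
    subst k4 k5
    rcases key D k3 with ⟨g1, g2⟩ | ⟨g1, g2⟩
    · exact Or.inl ⟨g1, Or.inl ⟨rfl, r, b, D ++ e :: C, rfl, k2, g2⟩⟩
    · exact Or.inr ⟨g1, Or.inl ⟨rfl, r, b, D ++ e :: C, rfl, k2, g2⟩⟩
  · rcases key (r :: B) k1 with ⟨g1, g2⟩ | ⟨g1, g2⟩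
    · exact Or.inl ⟨g1, Or.inr ⟨rfl, g2⟩⟩
    · exact Or.inr ⟨g1, Or.inr ⟨rfl, g2⟩⟩

private theorem pz1_al {L : List ℕ} : ∀ {a k : ℕ}, run L = .al false a k →
    ∃ A i D, L = A ++ i :: D ∧ run A = .ac false ∧
      ((k = 0 ∧ D = []) ∨ (k = 1 ∧ ∃ r, D = [r] ∧ r % 12 = 6) ∨ k = 2) := by
  induction L using List.reverseRecOn with
  | nil =>
    intro a k h
    cases h
  | append_singleton L p ih =>
    intro a k h
    rw [run_append, rn_cons, rn_nil] at h
    cases hq : run L with
    | ini =>
      rw [hq] at h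
      simp only [stp] at h
      split_ifs at h
    | bad => rw [hq] at h; cases h
    | db f => rw [hq] at h; cases h
    | hd f j =>
      rw [hq] at h
      simp only [stp] at h
      split_ifs at h
    | v0 f => rw [hq] at h; cases h
    | dk f => rw [hq] at h; cases h
    | ac f =>
      rw [hq] at h
      have h0 : stp (.ac f) (p % 12) = .al f (p % 12) 0 := rfl
      rw [h0] at h
      injection h with h1 h2 h3
      subst h1
      exact ⟨L, p, [], rfl, hq, Or.inl ⟨h3.symm, rfl⟩⟩
    | al f a' k' =>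
      rw [hq] at h
      simp only [stp] at h
      split_ifs at h with g1 g2 g3
      · injection h with h1 h2 h3
        subst h1
        obtain ⟨A, i, D, e1, e2, e3⟩ := ih hq
        rcases e3 with ⟨-, e3⟩ | ⟨e3, -⟩ | e3
        · subst e3
          exact ⟨A, i, [p], by rw [e1]; simp, e2, Or.inr (Or.inl ⟨h3.symm, p, rfl, g2⟩)⟩
        · omega
        · omega
      · injection h with h1 h2 h3
        subst h1
        obtain ⟨A, i, D, e1, e2, -⟩ := ih hq
        exact ⟨A, i, D ++ [p], by rw [e1]; simp, e2, Or.inr (Or.inr h3.symm)⟩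
      · injection h with h1 h2 h3
        subst h1
        obtain ⟨A, i, D, e1, e2, -⟩ := ih hq
        exact ⟨A, i, D ++ [p], by rw [e1]; simp, e2, Or.inr (Or.inr h3.symm)⟩
    | be f a' b' k' => rw [hq] at h; cases h

private theorem pz1_snoc {z : ℕ} {D : List ℕ} {k : ℕ} (h : KK z D k) (p : ℕ) :
    KK z (D ++ [p]) (nx k (p % 12)) := by
  rcases h with ⟨rfl, r, b, D', rfl, hr, h⟩ | ⟨rfl, h⟩
  · refine Or.inl ⟨rfl, r, b, D' ++ [p], rfl, hr, ?_⟩
    rw [fk_append, fk_cons, fk_nil, h]
  · refine Or.inr ⟨rfl, ?_⟩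
    rw [fk_append, fk_cons, fk_nil, h]

/-- a word in a state `be` has slot letters of both types -/
theorem be_slot {L : List ℕ} {a b k : ℕ} (h : run L = .be false a b k) {z : ℕ} (hz : z = 1 ∨ z = 2) :
    ∃ A i D, L = A ++ i :: D ∧ slot z (run A) ∧ KK z D k := by
  induction L using List.reverseRecOn generalizing a b k with
  | nil => cases h
  | append_singleton L p ih =>
    rw [run_append, rn_cons, rn_nil] at h
    cases hq : run L with
    | ini =>
      rw [hq] at h
      simp only [stp] at h
      split_ifs at h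
    | bad => rw [hq] at h; cases h
    | db f => rw [hq] at h; cases h
    | hd f j =>
      rw [hq] at h
      simp only [stp] at h
      split_ifs at h
    | v0 f => rw [hq] at h; cases h
    | dk f => rw [hq] at h; cases h
    | ac f => rw [hq] at h; cases h
    | al f a' k' =>
      rw [hq] at h
      simp only [stp] at h
      split_ifs at h with g1 g2 g3
      injection h with h1 h2 h3 h4
      subst h1 g3
      rcases hz with rfl | rfl
      · obtain ⟨A, i, D, e1, e2, e3⟩ := pz1_al hq
        rcases e3 with ⟨e3, -⟩ | ⟨-, r, e3, e4⟩ | e3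
        · omega
        · subst e3
          refine ⟨A, i, [r, p], by rw [e1]; simp, Or.inl ⟨rfl, e2⟩,
            Or.inl ⟨rfl, r, p, [], rfl, e4, h4⟩⟩
        · omega
      · exact ⟨L, p, [], rfl, Or.inr ⟨rfl, a', hq⟩, Or.inr ⟨rfl, h4⟩⟩
    | be f a' b' k' =>
      rw [hq] at h
      have h0 : stp (.be f a' b' k') (p % 12) = .be f a' b' (nx k' (p % 12)) := rfl
      rw [h0] at h
      injection h with h1 h2 h3 h4
      subst h1
      obtain ⟨A, i, D, e1, e2, e3⟩ := ih hq
      refine ⟨A, i, D ++ [p], by rw [e1]; simp, e2, ?_⟩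
      rw [← h4]
      exact pz1_snoc e3 p

end Pool.Agent.STF
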