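import Pool.Agent.STF.Pz1

/-!
# Project STF, module Pz2 (section lead helper90): the bits of an active word

`bt_par`: `←`: the parse is the given one, `run (A ++ i :: r :: B)` is `be _ _ _ 1` by `run_append` and `slot_be`.
`→`: `slot_uniq` and `KK_uniq` (the `KK z (r :: B) 1` of the other parse by `slot_be`).
`bt_run`: `slot_be`, `KK_full`.  `parse`: `be_slot`, `KK_split`, `bt_par`.  `parse_at`: `slot_be`, `KK_split`.
`run_par`: `slot_be`, `KK_full`.  `rc_run`: `slot_rc`.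
-/

set_option autoImplicit false

namespace Pool.Agent.STF

open Pool.Agent.STN

private theorem pz2_run (A D : List ℕ) (i : ℕ) : run (A ++ i :: D) = rn (stp (run A) (i % 12)) D := by
  rw [run_append]
  rfl

theorem bt_par {z : ℕ} {A B C : List ℕ} {i r e : ℕ} (hs : slot z (run A)) (hr : r % 12 = 6) (he : e % 12 = 1)
    (hK : KK z (r :: B) 1) : bt z (A ++ i :: r :: (B ++ e :: C)) ↔ ix C = uu i r := by
  constructor
  · rintro ⟨A', i', r', B', e', C', h, hs', hr', he', hb, hx⟩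
    obtain ⟨h1, h2, h3⟩ := slot_uniq h hs hs'
    rw [pz2_run] at hb
    obtain ⟨h4, -, -, h7⟩ := KK_uniq h3 hK ((slot_be hs' (i' % 12) (r' :: B') 1).1 hb) he he'
    rw [h7, h2, h4]
    exact hx
  · intro h
    refine ⟨A, i, r, B, e, C, rfl, hs, hr, he, ?_, h⟩
    rw [pz2_run]
    exact (slot_be hs (i % 12) (r :: B) 1).2 hK

theorem run_par {z : ℕ} {A B C : List ℕ} {i r e : ℕ} (hs : slot z (run A)) (he : e % 12 = 1)
    (hK : KK z (r :: B) 1) :
    ∃ a b k, run (A ++ i :: r :: (B ++ e :: C)) = .be false a b k ∧ (k = 6 ∨ k = 7) ∧ (k = 6 ↔ C = []) := by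
  rw [pz2_run]
  rcases KK_full (C := C) hK he with ⟨h1, h2⟩ | ⟨h1, h2⟩
  · obtain ⟨a, b, h⟩ := (slot_be hs (i % 12) _ 6).2 h2
    exact ⟨a, b, 6, h, Or.inl rfl, fun _ => h1, fun _ => rfl⟩
  · obtain ⟨a, b, h⟩ := (slot_be hs (i % 12) _ 7).2 h2
    exact ⟨a, b, 7, h, Or.inr rfl, fun h => absurd h (by decide), fun h => absurd h h1⟩

theorem bt_run {z : ℕ} {L : List ℕ} (h : bt z L) : ∃ a b k, run L = .be false a b k ∧ (k = 6 ∨ k = 7) := by
  obtain ⟨A, i, r, B, e, C, rfl, hs, hr, he, hb, hx⟩ := h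
  rw [pz2_run] at hb
  obtain ⟨a, b, k, h1, h2, -⟩ := run_par (i := i) (C := C) hs he ((slot_be hs (i % 12) (r :: B) 1).1 hb)
  exact ⟨a, b, k, h1, h2⟩

theorem parse {L : List ℕ} {a b k : ℕ} (h : run L = .be false a b k) (hk : k = 6 ∨ k = 7) {z : ℕ}
    (hz : z = 1 ∨ z = 2) :
    ∃ A i r B e C, L = A ++ i :: r :: (B ++ e :: C) ∧ slot z (run A) ∧ r % 12 = 6 ∧ e % 12 = 1 ∧
      KK z (r :: B) 1 ∧ (k = 6 ↔ C = []) := by
  obtain ⟨A, i, D, h1, h2, h3⟩ := be_slot h hz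
  obtain ⟨r, B, e, C, h4, h5, h6, h7, h8⟩ := KK_split h3 hk
  exact ⟨A, i, r, B, e, C, by rw [h1, h4], h2, h5, h6, h7, h8⟩

theorem parse_at {z : ℕ} {A D : List ℕ} {i : ℕ} (hs : slot z (run A)) {a b k : ℕ}
    (h : run (A ++ i :: D) = .be false a b k) (hk : k = 6 ∨ k = 7) :
    ∃ r B e C, D = r :: (B ++ e :: C) ∧ r % 12 = 6 ∧ e % 12 = 1 ∧ KK z (r :: B) 1 ∧ (k = 6 ↔ C = []) := by
  rw [pz2_run] at h
  exact KK_split ((slot_be hs (i % 12) D k).1 ⟨a, b, h⟩) hk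

/-- the recorded class of a word with the slot letter `i` -/
theorem rc_run {z : ℕ} {A D : List ℕ} {i : ℕ} (hs : slot z (run A)) : rc z (run (A ++ i :: D)) = some (i % 12) := by
  rw [pz2_run]
  exact slot_rc hs (i % 12) D

end Pool.Agent.STF
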