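import Pool.Agent.STF.Lg
import Pool.Agent.STF.Lf

/-!
# Project STF, module Pz3 (section lead helper90): the canonical line of an element of `S0`

`L = M ++ [j]`, `X = M`, `Y = M ++ dn j` (`ofl_dn`).  Legality: for lists `X'`, `Y'`, `Z'` with the states of `X`, `Y`, `q`,
`kapl` gives `M'`, `j'`.  Counts (`ct_of_sgl`, `ct_append`, `ct_dn`): the case `X' = M' ++ [j']` is impossible by `STN.ej_ne`;
otherwise `ej 12 s j = ej 12 s j'` for `s < 12`, `j % 12 = j' % 12` (`STN.ej_inj`), so `Z' = M' ++ [j']` has the counts and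
the state `run` of `L` (`run_append`, `rn_cons`): contradiction to `hq`.
-/

set_option autoImplicit false

namespace Pool.Agent.STF

open Pool.Agent.STN

private theorem pz3_ct (M : List ℕ) (j s : ℕ) : ct (M ++ [j]) s = ct M s + ee (j % 12) s := by
  rw [ct_append, ct_cons, ct_nil, add_zero]

private theorem pz3_run (M : List ℕ) (j : ℕ) : run (M ++ [j]) = stp (run M) (j % 12) := by
  rw [run_append, rn_cons, rn_nil]

theorem can_line {L : List ℕ} (hL : SD L) (h0 : L ≠ []) {q : SG}
    (hq : ∀ L', SD L' → sgl L' = q → ¬ ((∀ s < 12, ct L s = ct L' s) ∧ run L = run L')) :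
    ∃ X Y, SD X ∧ SD Y ∧ ofl X + ofl L = 2 * ofl Y + 1 ∧ ofl X ≤ ofl Y ∧
      Leg 1 (GG (sgl X)) (GG (sgl Y)) (GG q) := by
  obtain ⟨M, j, rfl⟩ : ∃ M j, L = M ++ [j] := by
    rcases List.eq_nil_or_concat L with h | ⟨M, j, h⟩
    · exact absurd h h0
    · exact ⟨M, j, by rw [h, List.concat_eq_append]⟩
  obtain ⟨hM, -, hlt⟩ := sd_append.1 hL
  have hY : SD (M ++ dn j) := by
    refine sd_append.2 ⟨hM, sd_dn j, fun a ha b hb => ?_⟩
    exact lt_trans (mem_dn.1 hb) (hlt a ha j (List.mem_singleton.2 rfl))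
  have hj := ofl_dn j
  refine ⟨M, M ++ dn j, hM, hY, ?_, ?_, ?_⟩
  · rw [ofl_append, ofl_append, ofl_cons, ofl_nil]
    omega
  · rw [ofl_append]
    omega
  · rintro x ⟨LX, hX1, hX2, rfl⟩ y ⟨LY, hY1, hY2, rfl⟩ z ⟨LZ, hZ1, hZ2, rfl⟩ he
    obtain ⟨M', j', hs, hLY, hc⟩ := kapl hX1 hY1 hZ1 he
    have e1 : ∀ s < 12, ct M' s + ej 12 s j' = ct M s + ej 12 s j := by
      intro s hs'
      have h1 := ct_of_sgl hY2 s hs'
      rw [hLY, ct_append, ct_append, ct_dn, ct_dn] at h1
      exact h1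
    rcases hc with ⟨hx, hz⟩ | ⟨hx, -⟩
    · have e2 : ∀ s < 12, ct M' s = ct M s := by
        intro s hs'
        have h1 := ct_of_sgl hX2 s hs'
        rw [hx] at h1
        exact h1
      have e3 : j % 12 = j' % 12 := by
        refine ej_inj (by norm_num) fun s hs' => ?_
        have h1 := e1 s hs'
        rw [e2 s hs'] at h1
        exact (add_left_cancel h1).symm
      have e4 : run M' = run M := by
        have h1 : (sgl LX).2.1 = (sgl M).2.1 := by rw [hX2]
        rw [hx] at h1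
        exact h1
      refine hq LZ hZ1 hZ2 ⟨fun s hs' => ?_, ?_⟩
      · rw [hz, pz3_ct, pz3_ct, e2 s hs', e3]
      · rw [hz, pz3_run, pz3_run, e4, e3]
    · refine ej_ne (l := 12) (j := j) (j' := j') (by norm_num) fun s hs' => ?_
      have h1 := e1 s hs'
      have h2 := ct_of_sgl hX2 s hs'
      rw [hx, pz3_ct] at h2
      have h3 : ee (j' % 12) s = (if j' % 12 = s then (1 : ZMod 3) else 0) := by
        unfold ee
        by_cases h : j' % 12 = s
        · rw [if_pos h.symm, if_pos h]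
        · rw [if_neg (fun h' => h h'.symm), if_neg h]
      rw [← h3]
      have h4 : ct M' s + ej 12 s j' = ct M' s + ee (j' % 12) s + ej 12 s j := by rw [h1, h2]
      linear_combination -h4

end Pool.Agent.STF
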