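import Pool.Agent.STN.Gi

/-!
# Project STF (MP_680cfa_co, full negation): realisation with arbitrary contents

`CompA G D`: in every system with base cells of the contents `G q`, a cell of positive level with the
content `D` can be completed by a good extension.
-/

set_option autoImplicit false

namespace Pool.Agent.STF

open Pool.Agent.STN

private theorem rl_bound (X : Finset ℤ) : ∃ M : ℤ, ∀ z ∈ X, -M ≤ z ∧ z ≤ M := by
  refine ⟨∑ z ∈ X, |z|, fun z hz => ?_⟩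
  have h := Finset.single_le_sum (f := fun z : ℤ => |z|) (fun i _ => abs_nonneg i) hz
  exact abs_le.1 h

/-- adding a line `A = x - 2 t`, `B = x - t` through the cell `x` -/
theorem line_add {s : Sys} (hs : s.Free) {x : ℤ} (hx : x ∈ s.X) {GA GB : Set ℕ} (hAf : Fre GA)
    (hBf : Fre GB) {κ : ℕ} {lA lB : ℤ} (hl : 2 * lB = lA + s.h x + κ) (hleg : Leg κ GA GB (s.T x)) :
    ∃ (s1 : Sys) (A B : ℤ), s.Le s1 ∧ s1.Free ∧ A ∈ s1.X ∧ B ∈ s1.X ∧ s1.h A = lA ∧ s1.h B = lB ∧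
      s1.T A = GA ∧ s1.T B = GB ∧ A + x = 2 * B ∧ A < B ∧ ∀ z ∈ s1.X, z ∉ s.X → z = A ∨ z = B := by
  classical
  obtain ⟨M, hM⟩ := rl_bound s.X
  have hx' := hM x hx
  obtain ⟨A, hA⟩ : ∃ A : ℤ, A = x - 2 * (10 * M + 10) := ⟨_, rfl⟩
  obtain ⟨B, hB⟩ : ∃ B : ℤ, B = x - (10 * M + 10) := ⟨_, rfl⟩
  have hAB : A ≠ B := by omega
  have hBX : B ∉ s.X := fun h => by have := hM B h; omega
  have hAX : A ∉ s.X := fun h => by have := hM A h; omega
  obtain ⟨s1, hs1⟩ : ∃ s1 : Sys, s1 = ⟨insert A (insert B s.X),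
    fun z => if z = B then lB else if z = A then lA else s.h z,
    fun z => if z = B then GB else if z = A then GA else s.T z⟩ := ⟨_, rfl⟩
  have hX1 : ∀ z, z ∈ s1.X ↔ z = A ∨ z = B ∨ z ∈ s.X := by
    intro z
    rw [hs1]
    simp only [Finset.mem_insert]
  have hhB : s1.h B = lB := by rw [hs1]; exact if_pos rfl
  have hTB : s1.T B = GB := by rw [hs1]; exact if_pos rfl
  have hhA : s1.h A = lA := by
    rw [hs1]
    show (if A = B then lB else if A = A then lA else s.h A) = lA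
    rw [if_neg hAB, if_pos rfl]
  have hTA : s1.T A = GA := by
    rw [hs1]
    show (if A = B then GB else if A = A then GA else s.T A) = GA
    rw [if_neg hAB, if_pos rfl]
  have hold : ∀ z ∈ s.X, s1.h z = s.h z ∧ s1.T z = s.T z := by
    intro z hz
    have h1 : z ≠ B := fun h => hBX (h ▸ hz)
    have h2 : z ≠ A := fun h => hAX (h ▸ hz)
    rw [hs1]
    constructor
    · show (if z = B then lB else if z = A then lA else s.h z) = s.h z
      rw [if_neg h1, if_neg h2]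
    · show (if z = B then GB else if z = A then GA else s.T z) = s.T z
      rw [if_neg h1, if_neg h2]
  have holdX : ∀ z ∈ s.X, z ∈ s1.X := fun z hz => (hX1 z).2 (Or.inr (Or.inr hz))
  have hFree : s1.Free := by
    intro x1 h1 x2 h2 x3 h3 he a' ha b' hb c' hc heq
    have m1 : x1 = B ∨ x1 = A ∨ (x1 ∈ s.X ∧ -M ≤ x1 ∧ x1 ≤ M) := by
      rcases (hX1 x1).1 h1 with h | h | h
      · exact Or.inr (Or.inl h)
      · exact Or.inl h
      · exact Or.inr (Or.inr ⟨h, hM x1 h⟩)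
    have m2 : x2 = B ∨ x2 = A ∨ (x2 ∈ s.X ∧ -M ≤ x2 ∧ x2 ≤ M) := by
      rcases (hX1 x2).1 h2 with h | h | h
      · exact Or.inr (Or.inl h)
      · exact Or.inl h
      · exact Or.inr (Or.inr ⟨h, hM x2 h⟩)
    have m3 : x3 = B ∨ x3 = A ∨ (x3 ∈ s.X ∧ -M ≤ x3 ∧ x3 ≤ M) := by
      rcases (hX1 x3).1 h3 with h | h | h
      · exact Or.inr (Or.inl h)
      · exact Or.inl h
      · exact Or.inr (Or.inr ⟨h, hM x3 h⟩)
    rcases m1 with e1 | e1 | ⟨o1, p1, q1⟩ <;> rcases m2 with e2 | e2 | ⟨o2, p2, q2⟩ <;>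
      rcases m3 with e3 | e3 | ⟨o3, p3, q3⟩ <;> try (exfalso; omega)
    · -- B B B
      subst e1 e2 e3
      rw [hTB] at ha hb hc
      exact ⟨rfl, hBf a' ha b' hb c' hc (by omega)⟩
    · -- A B x
      exfalso
      have e3 : x3 = x := by omega
      rw [e1, hTA] at ha
      rw [e2, hTB] at hb
      rw [e3, (hold x hx).2] at hc
      rw [e1, e2, e3, hhA, hhB, (hold x hx).1] at heq
      exact hleg a' ha b' hb c' hc (by omega)
    · -- A A A
      subst e1 e2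
      rw [hTA] at ha hb
      rw [e3, hTA] at hc
      exact ⟨e3.symm, hAf a' ha b' hb c' hc (by rw [e3] at heq; omega)⟩
    · -- x B A
      exfalso
      have e1 : x1 = x := by omega
      rw [e1, (hold x hx).2] at ha
      rw [e2, hTB] at hb
      rw [e3, hTA] at hc
      rw [e1, e2, e3, hhA, hhB, (hold x hx).1] at heq
      exact hleg c' hc b' hb a' ha (by omega)
    · -- old
      rw [(hold x1 o1).2] at ha
      rw [(hold x2 o2).2] at hb
      rw [(hold x3 o3).2] at hc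
      rw [(hold x1 o1).1, (hold x2 o2).1, (hold x3 o3).1] at heq
      exact hs x1 o1 x2 o2 x3 o3 he a' ha b' hb c' hc heq
  refine ⟨s1, A, B, ⟨holdX, hold⟩, hFree, (hX1 A).2 (Or.inl rfl), (hX1 B).2 (Or.inr (Or.inl rfl)), hhA, hhB,
    hTA, hTB, by omega, by omega, ?_⟩
  intro z hz hzX
  rcases (hX1 z).1 hz with h | h | h
  · exact Or.inl h
  · exact Or.inr h
  · exact absurd h hzX

/-- cells of positive level with the content `D` can be completed -/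
def CompA {Q : Type} (G : Q → Set ℕ) (D : Set ℕ) : Prop :=
  ∀ (s : Sys) (c : Q → ℤ), BaseIn s G c → ∀ x ∈ s.X, 0 < s.h x → s.T x = D →
    ∃ s' : Sys, s.Good s' ∧ s'.Complete x

theorem compA_base {Q : Type} {G : Q → Set ℕ} (hG : ∀ q, G q ⊆ S0) (q : Q) : CompA G (G q) := by
  intro s c hs x hx hh hT
  exact copy_cell hs.free (hG q) (hs.mem q) (hs.con q) (hs.lev q) hx hT hh

private theorem fre_s0 {D : Set ℕ} (hD : D ⊆ S0) : Fre D := by
  intro a ha b hb d hd he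
  obtain ⟨h1, h2⟩ := s0_ap (hD ha) (hD hb) (hD hd) he
  rw [h1, h2]

/-- one line -/
theorem line_good {Q : Type} {s : Sys} {G : Q → Set ℕ} {c : Q → ℤ} (hs : BaseIn s G c)
    (hG : ∀ q, G q ⊆ S0) {x : ℤ} (hx : x ∈ s.X) (a : Q) {H : Set ℕ} (hHf : Fre H) (hHc : CompA G H)
    {κ : ℕ} {lA lB : ℤ} (hlA : 0 < lA) (hlB : 0 < lB) (hl : 2 * lB = lA + s.h x + κ)
    (hleg : Leg κ (G a) H (s.T x)) :
    ∃ s' : Sys, s.Good s' ∧ ∀ n X Y : ℕ, X ∈ G a → Y ∈ H → X + n = 2 * Y + κ →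
      (X : ℤ) + lA ≤ (Y : ℤ) + lB → s'.Cov x n := by
  obtain ⟨s1, A, B, hLe, hF1, hAX, hBX, hhA, hhB, hTA, hTB, hAB, hlt, hnew⟩ :=
    line_add hs.free hx (fre_s0 (hG a)) hHf hl hleg
  have hB1 : BaseIn s1 G c := ⟨hF1, fun q => hLe.1 (hs.mem q), fun q => by
    rw [(hLe.2 _ (hs.mem q)).1]; exact hs.lev q, fun q => by
    rw [(hLe.2 _ (hs.mem q)).2]; exact hs.con q⟩
  obtain ⟨s2, hg2, hc2⟩ := compA_base hG a s1 c hB1 A hAX (by rw [hhA]; exact hlA) hTA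
  have hB2 := base_good hB1 hg2
  have hB2' := hg2.1.2 B hBX
  obtain ⟨s3, hg3, hc3⟩ := hHc s2 c hB2 B (hg2.1.1 hBX) (by rw [hB2'.1, hhB]; exact hlB)
    (by rw [hB2'.2, hTB])
  have hg13 := good_trans hg2 hg3
  refine ⟨s3, good_of hLe hg13 ?_, ?_⟩
  · intro z hz hzX
    rcases hnew z hz hzX with h | h
    · rw [h]
      exact complete_mono hg3.1 (hg2.1.1 hAX) hc2
    · rw [h]
      exact hc3
  · intro n X Y hX hY hn hXY
    have hL := hg13.1
    have hx1 := hLe.1 hx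
    refine ⟨A, hL.1 hAX, B, hL.1 hBX, hAB, X, ?_, Y, ?_, ?_, ?_⟩
    · rw [(hL.2 _ hAX).2, hTA]
      exact hX
    · rw [(hL.2 _ hBX).2, hTB]
      exact hY
    · rw [(hL.2 _ hAX).1, (hL.2 _ hBX).1, (hL.2 _ hx1).1, (hLe.2 x hx).1, hhA, hhB]
      omega
    · rw [(hL.2 _ hAX).1, (hL.2 _ hBX).1, hhA, hhB]
      rcases hXY.lt_or_eq with h | h
      · exact Or.inl h
      · exact Or.inr ⟨h, hlt⟩

/-- completion of a content by lines -/
theorem compA_lines {Q ι : Type} [Finite Q] [Finite ι] {G : Q → Set ℕ} (hG : ∀ q, G q ⊆ S0)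
    {H : ι → Set ℕ} (hHf : ∀ i, Fre (H i)) (hHc : ∀ i, CompA G (H i)) {D : Set ℕ} (n0 : ℕ)
    (hD : ∀ n, n0 ≤ n → n ∉ D →
      (∃ (a : Q) (i : ι), ∃ X ∈ G a, ∃ Y ∈ H i, X + n = 2 * Y ∧ X ≤ Y ∧ Leg 0 (G a) (H i) D) ∨
      ∃ X ∈ D, ∃ Y ∈ D, X < Y ∧ X + n = 2 * Y) : CompA G D := by
  intro s c hs x hx hh hT
  obtain ⟨s', hg, hI, hP⟩ := iter (ι := Q × ι)
    (fun w => BaseIn w G c ∧ x ∈ w.X ∧ w.h x = s.h x ∧ w.T x = D)
    (fun p w => Leg 0 (G p.1) (H p.2) D →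
      ∀ n X Y : ℕ, X ∈ G p.1 → Y ∈ H p.2 → X + n = 2 * Y → X ≤ Y → w.Cov x n)
    (fun w w' hw hg => ⟨base_good hw.1 hg, hg.1.1 hw.2.1, (hg.1.2 x hw.2.1).1.trans hw.2.2.1,
      (hg.1.2 x hw.2.1).2.trans hw.2.2.2⟩)
    (fun p w w' hw hg hP hl n X Y h1 h2 h3 h4 => cov_mono hg.1 hw.2.1 (hP hl n X Y h1 h2 h3 h4))
    (fun p w hw => by
      by_cases hl : Leg 0 (G p.1) (H p.2) D
      · obtain ⟨w', hw', hc'⟩ := line_good (κ := 0) (lA := s.h x) (lB := s.h x) hw.1 hG hw.2.1 p.1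
          (hHf p.2) (hHc p.2) hh hh (by rw [hw.2.2.1]; push_cast; ring) (by rw [hw.2.2.2]; exact hl)
        exact ⟨w', hw', fun _ n X Y hX hY he hXY => hc' n X Y hX hY (by omega) (by omega)⟩
      · exact ⟨w, good_refl hw.1.free, fun h => absurd h hl⟩)
    (fun w hw => hw.1.free) s ⟨hs, hx, rfl, hT⟩
  refine ⟨s', hg, n0, fun n hn0 hn => ?_⟩
  rw [hI.2.2.2] at hn
  rcases hD n hn0 hn with ⟨a, i, X, hX, Y, hY, h1, h2, h3⟩ | ⟨X, hX, Y, hY, h1, h2⟩
  · exact hP (a, i) h3 n X Y hX hY h1 h2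
  · refine ⟨x, hI.2.1, x, hI.2.1, by ring, X, by rw [hI.2.2.2]; exact hX, Y, by rw [hI.2.2.2]; exact hY,
      ?_, Or.inl ?_⟩
    · omega
    · omega

private theorem rl_cell {i j k : ℕ} (h : (3 : ℤ) ^ i + 3 ^ k = 2 * 3 ^ j) : i = j ∧ k = j := by
  have h' : (3 : ℕ) ^ i + 3 ^ k = 2 * 3 ^ j := by exact_mod_cast h
  obtain ⟨h1, h2⟩ := s0_ap (s0_pow i) (s0_pow j) (s0_pow k) h'
  exact ⟨Nat.pow_right_injective (le_refl 2 |>.trans (by norm_num)) h1,
    Nat.pow_right_injective (le_refl 2 |>.trans (by norm_num)) h2⟩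

private theorem rl_inj {i j : ℕ} (h : (3 : ℤ) ^ i = 3 ^ j) : i = j := by
  have h' : (3 : ℕ) ^ i = 3 ^ j := by exact_mod_cast h
  exact Nat.pow_right_injective (by norm_num : 2 ≤ 3) h'

/-- the start system -/
private theorem rl_start {Q : Type} [Finite Q] {G : Q → Set ℕ} {T : Set ℕ} (hG : ∀ q, G q ⊆ S0)
    (hTf : Fre T) : ∃ (s : Sys) (c : Q → ℤ) (x0 : ℤ), BaseIn s G c ∧ x0 ∈ s.X ∧ s.h x0 = 1 ∧
      s.T x0 = T ∧ ∀ x ∈ s.X, x = x0 ∨ ∃ q, x = c q := by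
  classical
  have := Fintype.ofFinite Q
  obtain ⟨f, hf⟩ := exists_injective_nat (Option Q)
  obtain ⟨c, hc⟩ : ∃ c : Q → ℤ, c = fun q => (3 : ℤ) ^ f (some q) := ⟨_, rfl⟩
  obtain ⟨x0, hx0⟩ : ∃ x0 : ℤ, x0 = (3 : ℤ) ^ f none := ⟨_, rfl⟩
  have hc0 : ∀ q, c q ≠ x0 := by
    intro q h
    rw [hc, hx0] at h
    have := hf (rl_inj h)
    exact absurd this (by simp)
  have hci : ∀ q q', c q = c q' → q = q' := by
    intro q q' h
    rw [hc] at h
    exact Option.some_injective _ (hf (rl_inj h))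
  obtain ⟨s, hs⟩ : ∃ s : Sys, s = ⟨insert x0 (Finset.univ.image c),
    fun z => if z = x0 then 1 else 0,
    fun z => if z = x0 then T else {n | ∃ q, c q = z ∧ n ∈ G q}⟩ := ⟨_, rfl⟩
  have hX : ∀ z, z ∈ s.X ↔ z = x0 ∨ ∃ q, z = c q := by
    intro z
    rw [hs]
    simp only [Finset.mem_insert, Finset.mem_image, Finset.mem_univ, true_and]
    constructor
    · rintro (h | ⟨q, h⟩)
      · exact Or.inl h
      · exact Or.inr ⟨q, h.symm⟩
    · rintro (h | ⟨q, h⟩)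
      · exact Or.inl h
      · exact Or.inr ⟨q, h.symm⟩
  have hh0 : s.h x0 = 1 := by
    rw [hs]
    exact if_pos rfl
  have hhc : ∀ q, s.h (c q) = 0 := fun q => by
    rw [hs]
    exact if_neg (hc0 q)
  have hT0 : s.T x0 = T := by
    rw [hs]
    exact if_pos rfl
  have hTc : ∀ q, s.T (c q) = G q := fun q => by
    have h1 : s.T (c q) = {n | ∃ q', c q' = c q ∧ n ∈ G q'} := by
      rw [hs]
      exact if_neg (hc0 q)
    rw [h1]
    ext n
    constructor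
    · rintro ⟨q', h2, h3⟩
      rwa [hci q' q h2] at h3
    · intro h
      exact ⟨q, rfl, h⟩
  have hpow : ∀ z ∈ s.X, ∃ i, z = (3 : ℤ) ^ i := by
    intro z hz
    rcases (hX z).1 hz with h | ⟨q, h⟩
    · exact ⟨f none, by rw [h, hx0]⟩
    · exact ⟨f (some q), by rw [h, hc]⟩
  have hfre : ∀ z ∈ s.X, Fre (s.T z) := by
    intro z hz
    rcases (hX z).1 hz with h | ⟨q, h⟩
    · rw [h, hT0]
      exact hTf
    · rw [h, hTc]
      exact fre_s0 (hG q)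
  have hFree : s.Free := by
    intro x1 h1 x2 h2 x3 h3 hx a ha b hb d hd he
    obtain ⟨i, hi⟩ := hpow x1 h1
    obtain ⟨j, hj⟩ := hpow x2 h2
    obtain ⟨k, hk⟩ := hpow x3 h3
    have hx' := hx
    rw [hi, hj, hk] at hx'
    obtain ⟨e1, e2⟩ := rl_cell hx'
    have e12 : x1 = x2 := by rw [hi, hj, e1]
    have e32 : x3 = x2 := by rw [hk, hj, e2]
    subst e12 e32
    refine ⟨rfl, ?_⟩
    exact hfre x3 h3 a ha b hb d hd (by omega)
  exact ⟨s, c, x0, ⟨hFree, fun q => (hX _).2 (Or.inr ⟨q, rfl⟩), hhc, hTc⟩, (hX x0).2 (Or.inl rfl),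
    hh0, hT0, fun x hx => (hX x).1 hx⟩

/-- Realisation: `G q` the classes of `S0`, `H i` contents which can be completed, `T` a content which can
be completed.  The line contents may be classes `G b` (take `H` on `Q ⊕ V`). -/
theorem realise2 {Q ι : Type} [Finite Q] [Finite ι] {G : Q → Set ℕ} {H : ι → Set ℕ} {T : Set ℕ}
    (hG : ∀ q, G q ⊆ S0) (hHf : ∀ i, Fre (H i)) (hHc : ∀ i, CompA G (H i)) (n0 : ℕ)
    (hK : ∀ q, ∀ m ∈ S0, n0 ≤ m → m ∉ G q → ∃ (a : Q) (i : ι), ∃ X ∈ G a, ∃ Y ∈ H i,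
      (X + m = 2 * Y + 1 ∧ X ≤ Y ∧ Leg 1 (G a) (H i) (G q)) ∨
      (X + m = 2 * Y ∧ X < Y ∧ Leg 0 (G a) (H i) (G q)))
    (hTf : Fre T) (hTc : CompA G T) :
    ∃ s : Sys, s.Free ∧ (∀ x ∈ s.X, s.Complete x) ∧ ∃ x ∈ s.X, s.T x = T := by
  obtain ⟨s, c, x0, hB, hx0, hh0, hT0, hcells⟩ := rl_start (G := G) hG hTf
  obtain ⟨s0, hg0, hc0⟩ := hTc s c hB x0 hx0 (by rw [hh0]; norm_num) hT0
  have hB0 := base_good hB hg0
  obtain ⟨s', hg, hB', hP⟩ := iter (ι := Q ⊕ (Q × Q × ι) ⊕ (Q × Q × ι))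
    (fun w => BaseIn w G c)
    (Sum.elim (fun q w => ∀ n, n ∉ S0 → w.Cov (c q) n)
      (Sum.elim (fun p w => Leg 1 (G p.2.1) (H p.2.2) (G p.1) → ∀ n X Y : ℕ, X ∈ G p.2.1 →
          Y ∈ H p.2.2 → X + n = 2 * Y + 1 → X ≤ Y → w.Cov (c p.1) n)
        (fun p w => Leg 0 (G p.2.1) (H p.2.2) (G p.1) → ∀ n X Y : ℕ, X ∈ G p.2.1 →
          Y ∈ H p.2.2 → X + n = 2 * Y → X < Y → w.Cov (c p.1) n)))
    (fun w w' hw hg => base_good hw hg)
    (by
      rintro (q | ⟨q, a, i⟩ | ⟨q, a, i⟩) s1 s2 h1 h5 h6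
      · intro n hn
        exact cov_mono h5.1 (h1.mem q) (h6 n hn)
      · intro hl n X Y hX hY he hXY
        exact cov_mono h5.1 (h1.mem q) (h6 hl n X Y hX hY he hXY)
      · intro hl n X Y hX hY he hXY
        exact cov_mono h5.1 (h1.mem q) (h6 hl n X Y hX hY he hXY))
    (by
      rintro (q | ⟨q, a, i⟩ | ⟨q, a, i⟩) s1 h1
      · obtain ⟨s2, h5, h6⟩ := base_cell h1.free (hG q) (h1.mem q) (h1.con q) (h1.lev q)
        exact ⟨s2, h5, h6⟩
      · by_cases hl : Leg 1 (G a) (H i) (G q)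
        · obtain ⟨s2, h5, h6⟩ := line_good (κ := 1) (lA := 1) (lB := 1) h1 hG (h1.mem q) a (hHf i) (hHc i)
            (by norm_num) (by norm_num) (by rw [h1.lev q]; norm_num) (by rw [h1.con q]; exact hl)
          exact ⟨s2, h5, fun _ n X Y hX hY he hXY => h6 n X Y hX hY he (by omega)⟩
        · exact ⟨s1, good_refl h1.free, fun h => absurd h hl⟩
      · by_cases hl : Leg 0 (G a) (H i) (G q)
        · obtain ⟨s2, h5, h6⟩ := line_good (κ := 0) (lA := 2) (lB := 1) h1 hG (h1.mem q) a (hHf i) (hHc i)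
            (by norm_num) (by norm_num) (by rw [h1.lev q]; norm_num) (by rw [h1.con q]; exact hl)
          exact ⟨s2, h5, fun _ n X Y hX hY he hXY => h6 n X Y hX hY (by omega) (by omega)⟩
        · exact ⟨s1, good_refl h1.free, fun h => absurd h hl⟩)
    (fun s h => h.free) s0 hB0
  refine ⟨s', hB'.free, ?_, x0, hg.1.1 (hg0.1.1 hx0), ?_⟩
  · intro x hx
    by_cases hxs : x ∈ s0.X
    · by_cases hxs' : x ∈ s.X
      · rcases hcells x hxs' with rfl | ⟨q, rfl⟩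
        · exact complete_mono hg.1 hxs hc0
        · refine ⟨n0, fun n hn1 hn => ?_⟩
          rw [hB'.con q] at hn
          by_cases hS : n ∈ S0
          · obtain ⟨a, i, X, hX, Y, hY, ⟨he, hXY, hl⟩ | ⟨he, hXY, hl⟩⟩ := hK q n hS hn1 hn
            · exact hP (Sum.inr (Sum.inl (q, a, i))) hl n X Y hX hY he hXY
            · exact hP (Sum.inr (Sum.inr (q, a, i))) hl n X Y hX hY he hXY
          · exact hP (Sum.inl q) n hS
      · exact complete_mono hg.1 hxs (hg0.2.2 x hxs hxs')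
    · exact hg.2.2 x hx hxs
  · rw [(hg.1.2 x0 (hg0.1.1 hx0)).2, (hg0.1.2 x0 hx0).2, hT0]

end Pool.Agent.STF
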