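import Pool.Agent.STF.Lg
import Pool.Agent.STF.Lf

/-!
# Project STF, module Ub: relations with an element of `U` (section 8, (LU))

Divisibility of `ofl` by a power of three, the splitting of a relation `X + Z = 2 Y` with `Z` in `U` at the end of the
header of `Z`, and its consequence for the states.
-/

set_option autoImplicit false

namespace Pool.Agent.STF

open Pool.Agent.STN

theorem ofl_dvd {A : List ℕ} {p : ℕ} (h : ∀ a ∈ A, p ≤ a) : 3 ^ p ∣ ofl A := by
  induction A with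
  | nil =>
    rw [ofl_nil]
    exact dvd_zero _
  | cons a A ih =>
    rw [ofl_cons]
    exact dvd_add (pow_dvd_pow 3 (h a List.mem_cons_self)) (ih fun b hb => h b (List.mem_cons_of_mem _ hb))

private theorem ub_eq {P a c b r s : ℕ} (hr : r < P) (hs : s < P) (h : P * a + P * c + r = 2 * (P * b) + s) :
    r = s := by
  have h1 : (r + P * (a + c)) % P = (s + P * (2 * b)) % P := by
    have e1 : r + P * (a + c) = P * a + P * c + r := by ring
    have e2 : s + P * (2 * b) = 2 * (P * b) + s := by ring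
    rw [e1, e2, h]
  rw [Nat.add_mul_mod_self_left, Nat.add_mul_mod_self_left, Nat.mod_eq_of_lt hr, Nat.mod_eq_of_lt hs] at h1
  exact h1

private theorem ub_stp {q : St} (h : bd q) : stp q 1 = .v0 false := by
  rcases h with h | h
  · rw [h]
    rfl
  · rw [h]
    rfl

/-- splitting a relation `X + Z = 2 Y` with `Z ∈ U` at the end of the header of `Z` -/
theorem u_split {X Y H : List ℕ} {e z : ℕ} (hX : SD X) (hY : SD Y) (hH : SD (H ++ [e]))
    (hz : 2 * z < 3 ^ e) (he : ofl X + (ofl (H ++ [e]) + z) = 2 * ofl Y) :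
    ∃ x y, X = H ++ e :: x ∧ Y = H ++ e :: y ∧ ofl x + z = 2 * ofl y := by
  obtain ⟨X2, x, hx, hx1, hx2⟩ := sd_split hX e
  obtain ⟨Y2, y, hy, hy1, hy2⟩ := sd_split hY e
  rw [hx] at hX
  rw [hy] at hY
  have hH1 : ∀ a ∈ H ++ [e], e ≤ a := by
    intro a ha
    rcases List.mem_append.1 ha with h | h
    · exact ((sd_append.1 hH).2.2 a h e List.mem_cons_self).le
    · rw [List.mem_singleton.1 h]
  obtain ⟨a, ha⟩ := ofl_dvd hx1
  obtain ⟨b, hb⟩ := ofl_dvd hy1
  obtain ⟨c, hc⟩ := ofl_dvd hH1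
  have h1 := ofl_lt (sd_append.1 hX).2.1 hx2
  have h2 := ofl_lt (sd_append.1 hY).2.1 hy2
  rw [hx, hy, ofl_append X2, ofl_append Y2] at he
  have h3 : ofl x + z = 2 * ofl y := by
    rw [ha, hb, hc] at he
    refine ub_eq (P := 3 ^ e) (a := a) (c := c) (b := b) (by omega) (by omega) ?_
    omega
  have h4 : ofl X2 + ofl (H ++ [e]) = 2 * ofl Y2 := by omega
  obtain ⟨h5, h6⟩ := rel0 (sd_append.1 hX).1 (sd_append.1 hY).1 hH h4
  refine ⟨x, y, ?_, ?_, h3⟩
  · rw [hx, h5, ← h6, List.append_assoc, List.singleton_append]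
  · rw [hy, ← h6, List.append_assoc, List.singleton_append]

theorem run_hdr {H : List ℕ} {e : ℕ} (h : bd (run H)) (he : e % 12 = 1) (x : List ℕ) :
    run (H ++ e :: x) = .v0 false := by
  rw [run_append, rn_cons, he, ub_stp h]
  exact (rn_abs x).2.2.1 false

theorem u_leg0 {p q : SG} (h : ¬ (p.2.1 = .v0 false ∧ q.2.1 = .v0 false)) :
    Leg 0 (GG p) (GG q) UU := by
  rintro X ⟨L, hL, hp, hX⟩ Y ⟨M, hM, hq, hY⟩ Z ⟨H, e, z, hH, hb, hm, hz, _, hZ⟩ heq
  apply h
  rw [hX, hY, hZ, add_zero] at heq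
  obtain ⟨x, y, h1, h2, _⟩ := u_split hL hM hH hz heq
  rw [← hp, ← hq]
  refine ⟨?_, ?_⟩
  · show run L = _
    rw [h1]
    exact run_hdr hb hm x
  · show run M = _
    rw [h2]
    exact run_hdr hb hm y

end Pool.Agent.STF
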