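import Pool.Agent.STF.Al
import Pool.Agent.STF.Ub
import Pool.Agent.STF.Uh

/-!
# Project STF, module Uc: top mark lines with `Z ∈ U` (section 8, (LUt))

PLAN.
* `hdr_low`: `o :: H1 ++ [e]` (second letter `s`): if `H1 = []` the second letter is `e`.  `hdr_snd`: the second letter `s` has class `4` or `1`, `s < o`, `o % 12 = 11`: `s + 7 ≤ o`.  `ofl_head` (or `ofl_lt`) for
  `H1 ++ [e]` (head `s`): `2 * ofl (H1 ++ [e]) + 1 ≤ 3 ^ (s + 1)`, and `2 * z < 3 ^ e ≤ 3 ^ s`; so the sum is `< 3 ^ (s + 1) ≤ 3 ^ (o - 5)`.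
* `u_legt`: take `X = .. ∈ GG q`, `Y ∈ CC 0 b`, `Z = ofl (H ++ [e]) + z ∈ UU`, `H = o :: H1` (`hdr_top`), `Z = 3 ^ o + z1` with `z1 = ofl (H1 ++ [e]) + z`.  `align` gives `t`, `x1`, `M` with `o = t + 1`,
  `sgl (t :: M) = b`, `ofl x1 + z1 = 2 * ofl M`; `u_split` for `x1`, `M`, `H1` gives `M = H1 ++ e :: y`; `run_fg`: `run (t :: M) = fg (run (o :: M)) = fg (.v0 false) = .v0 true` (`run_hdr`), so
  `b.2.1 = .v0 true`: contradiction.
-/

set_option autoImplicit false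

namespace Pool.Agent.STF

open Pool.Agent.STN

theorem hdr_low {H1 : List ℕ} {o e z : ℕ} (hs : SD (o :: H1 ++ [e])) (hb : bd (run (o :: H1)))
    (he : e % 12 = 1) (hz : 2 * z < 3 ^ e) : ofl (H1 ++ [e]) + z < 3 ^ (o - 5) := by
  have ho : o % 12 = 11 := by
    obtain ⟨o', H', h1, h2⟩ := hdr_top hb
    rw [List.cons.injEq] at h1
    rw [h1.1]
    exact h2
  have hs' : SD (o :: (H1 ++ [e])) := hs
  obtain ⟨h1, h2⟩ := sd_cons.1 hs'
  obtain ⟨s, L, hL⟩ : ∃ s L, H1 ++ [e] = s :: L := by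
    cases H1 with
    | nil => exact ⟨e, [], rfl⟩
    | cons a A => exact ⟨a, A ++ [e], rfl⟩
  have h3 : s % 12 = 4 ∨ s % 12 = 1 := by
    refine hdr_snd (H := o :: H1) (L := L) (o := o) hb he ?_
    rw [List.cons_append, hL]
  have hem : e ∈ H1 ++ [e] := List.mem_append_right _ List.mem_cons_self
  rw [hL] at h1 h2 hem
  have h4 : s < o := h1 s List.mem_cons_self
  have h5 : e ≤ s := by
    rcases List.mem_cons.1 hem with h | h
    · exact h.le
    · exact ((sd_cons.1 h2).1 e h).le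
  have h6 := (ofl_head h2).2
  have h7 : 3 ^ e ≤ 3 ^ s := Nat.pow_le_pow_right (by norm_num) h5
  have h8 : 3 ^ (s + 1) ≤ 3 ^ (o - 5) := Nat.pow_le_pow_right (by norm_num) (by omega)
  have h9 : 3 ^ (s + 1) = 3 * 3 ^ s := by
    rw [pow_succ]
    ring
  rw [hL]
  omega

theorem u_legt {q b : SG} (hq : flg q.2.1) (hb : okm 0 b) (hb' : b.2.1 ≠ .v0 true) :
    Leg 0 (GG q) (CC 0 b) UU := by
  rintro X hX Y hY Z ⟨H, e, z, hH, hbd, hm, hz, -, hZ⟩ heq
  obtain ⟨o, H1, rfl, ho⟩ := hdr_top hbd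
  have hlow := hdr_low hH hbd hm hz
  have hH' : SD (o :: (H1 ++ [e])) := hH
  have hZ' : Z = 3 ^ o + (ofl (H1 ++ [e]) + z) := by
    rw [hZ, List.cons_append, ofl_cons, add_assoc]
  rw [hZ', add_zero] at heq
  obtain ⟨t, x1, M, hot, hx1, -, -, hM, hMb, -, hrel⟩ := align hq hX hb hY ho hlow heq
  obtain ⟨x, y, -, h2, -⟩ := u_split (sd_cons.1 hx1).2 (sd_cons.1 hM).2 (sd_cons.1 hH').2 hz hrel
  have ht : t % 12 = 10 := by omega
  have h3 : run (o :: M) = .v0 false := by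
    rw [h2]
    exact run_hdr hbd hm y
  have h4 : run (t :: M) = .v0 true := by
    rw [run_fg ho ht, h3]
    rfl
  apply hb'
  rw [← hMb]
  exact h4

end Pool.Agent.STF
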