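import Pool.Agent.STF.Lg

/-!
# Project STF, module Ud: parsing of entries

Case analysis of the automaton: the entries of the header, the phases after an active entry, and the uniqueness of
the decompositions of a word at the marks.
-/

set_option autoImplicit false

namespace Pool.Agent.STF

open Pool.Agent.STN

private theorem ud_hd (f : Bool) (j c : ℕ) : stp (.hd f j) c = if j = 0 ∨ j = 5 then
        (if c = 4 then .hd f 1 else if c = 3 then .ac f else if c = 1 then .v0 f
          else if j = 0 ∧ 6 ≤ c then .db f else .dk f)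
      else if (j = 1 ∨ j = 3) ∧ c = 8 then .hd f (j + 1)
      else if (j = 2 ∨ j = 4) ∧ c = 6 then .hd f (j + 1)
      else .dk f := rfl

private theorem ud_alc (f : Bool) (a k c : ℕ) : stp (.al f a k) c =
    if k = 0 then (if c = 6 then .al f a 1 else .al f a 2)
      else if k = 1 then .be f a c 0 else .al f a 2 := rfl

/-- states which never return to the header -/
private def ud_nh : St → Prop
  | .ini => False
  | .hd _ _ => False
  | _ => True

/-- states which never return to the state of the first letter -/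
private def ud_nz : St → Prop
  | .ini => False
  | .hd _ j => j ≠ 0
  | _ => True

private theorem ud_nhs {q : St} (c : ℕ) (h : ud_nh q) : ud_nh (stp q c) := by
  rcases q with _ | _ | f | ⟨f, j⟩ | f | f | f | ⟨f, a, k⟩ | ⟨f, a, b, k⟩
  · exact h.elim
  · trivial
  · trivial
  · exact h.elim
  · trivial
  · trivial
  · trivial
  · rw [ud_alc]
    split_ifs
    all_goals trivial
  · trivial

private theorem ud_nhn (L : List ℕ) {q : St} (h : ud_nh q) : ud_nh (rn q L) := by
  induction L generalizing q with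
  | nil => exact h
  | cons p L ih => exact ih (ud_nhs _ h)

private theorem ud_nzs {q : St} (c : ℕ) (h : ud_nz q) : ud_nz (stp q c) := by
  rcases q with _ | _ | f | ⟨f, j⟩ | f | f | f | ⟨f, a, k⟩ | ⟨f, a, b, k⟩
  · exact h.elim
  · trivial
  · trivial
  · rw [ud_hd]
    split_ifs
    · exact one_ne_zero
    · trivial
    · trivial
    · trivial
    · trivial
    · exact Nat.succ_ne_zero j
    · exact Nat.succ_ne_zero j
    · trivial
  · trivial
  · trivial
  · trivial
  · rw [ud_alc]
    split_ifs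
    all_goals trivial
  · trivial

private theorem ud_nzn (L : List ℕ) {q : St} (h : ud_nz q) : ud_nz (rn q L) := by
  induction L generalizing q with
  | nil => exact h
  | cons p L ih => exact ih (ud_nzs _ h)

private theorem ud_no {L : List ℕ} {q : St} {f : Bool} {j : ℕ} (h : ud_nh q) (h' : rn q L = .hd f j) :
    False := by
  have h1 := ud_nhn L h
  rw [h'] at h1
  exact h1

private theorem ud_odd {f : Bool} {j c : ℕ} {L : List ℕ} (hj : j = 1 ∨ j = 3)
    (h : rn (stp (.hd f j) c) L = .hd f 5) : c = 8 ∧ rn (.hd f (j + 1)) L = .hd f 5 := by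
  rw [ud_hd, if_neg (by omega)] at h
  by_cases hc : c = 8
  · rw [if_pos ⟨hj, hc⟩] at h
    exact ⟨hc, h⟩
  · rw [if_neg (fun h' => hc h'.2), if_neg (by omega)] at h
    exact (ud_no (q := .dk f) trivial h).elim

private theorem ud_even {f : Bool} {j c : ℕ} {L : List ℕ} (hj : j = 2 ∨ j = 4)
    (h : rn (stp (.hd f j) c) L = .hd f 5) : c = 6 ∧ rn (.hd f (j + 1)) L = .hd f 5 := by
  rw [ud_hd, if_neg (by omega), if_neg (by omega)] at h
  by_cases hc : c = 6
  · rw [if_pos ⟨hj, hc⟩] at h
    exact ⟨hc, h⟩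
  · rw [if_neg (fun h' => hc h'.2)] at h
    exact (ud_no (q := .dk f) trivial h).elim

private theorem ud_five {f : Bool} {c : ℕ} {L : List ℕ}
    (h : rn (stp (.hd f 5) c) L = .hd f 5) : c = 4 ∧ rn (.hd f 1) L = .hd f 5 := by
  rw [ud_hd, if_pos (Or.inr rfl)] at h
  by_cases hc : c = 4
  · rw [if_pos hc] at h
    exact ⟨hc, h⟩
  · rw [if_neg hc] at h
    by_cases h3 : c = 3
    · rw [if_pos h3] at h
      exact (ud_no (q := .ac f) trivial h).elim
    · rw [if_neg h3] at h
      by_cases h1 : c = 1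
      · rw [if_pos h1] at h
        exact (ud_no (q := .v0 f) trivial h).elim
      · rw [if_neg h1, if_neg (by omega)] at h
        exact (ud_no (q := .dk f) trivial h).elim

/-- the rest of an entry after the letter `S` -/
theorem hdr_entry {B : List ℕ} (h : bd (rn (.hd false 1) B)) :
    ∃ t1 r1 t2 r2 B', B = t1 :: r1 :: t2 :: r2 :: B' ∧ t1 % 12 = 8 ∧ r1 % 12 = 6 ∧ t2 % 12 = 8 ∧
      r2 % 12 = 6 ∧ rn (.hd false 5) B' = .hd false 5 := by
  have h5 : rn (.hd false 1) B = .hd false 5 := by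
    rcases h with h | h
    · have h1 := ud_nzn B (q := .hd false 1) one_ne_zero
      rw [h] at h1
      exact absurd rfl h1
    · exact h
  clear h
  rcases B with _ | ⟨t1, B⟩
  · rw [rn_nil] at h5
    cases h5
  obtain ⟨a1, h5⟩ := ud_odd (Or.inl rfl) h5
  rcases B with _ | ⟨r1, B⟩
  · rw [rn_nil] at h5
    cases h5
  obtain ⟨a2, h5⟩ := ud_even (Or.inl rfl) h5
  rcases B with _ | ⟨t2, B⟩
  · rw [rn_nil] at h5
    cases h5
  obtain ⟨a3, h5⟩ := ud_odd (Or.inr rfl) h5
  rcases B with _ | ⟨r2, B⟩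
  · rw [rn_nil] at h5
    cases h5
  obtain ⟨a4, h5⟩ := ud_even (Or.inr rfl) h5
  exact ⟨t1, r1, t2, r2, B, rfl, a1, a2, a3, a4, h5⟩

private theorem ud_ph (a b : ℕ) (B : List ℕ) (j : ℕ) (hj : 1 ≤ j) (hj' : j ≤ 5)
    (h : rn (.hd false j) B = .hd false 5) :
    rn (.be false a b (if j = 5 then 1 else j + 1)) B = .be false a b 1 := by
  induction B generalizing j with
  | nil =>
    rw [rn_nil] at h
    have h5 : j = 5 := by
      cases h
      rfl
    rw [h5, rn_nil, if_pos rfl]
  | cons p B ih =>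
    have hc : j = 1 ∨ j = 2 ∨ j = 3 ∨ j = 4 ∨ j = 5 := by omega
    have hs : ∀ k, stp (.be false a b k) (p % 12) = .be false a b (nx k (p % 12)) := fun k => rfl
    rw [rn_cons] at h
    rw [rn_cons, hs]
    rcases hc with rfl | rfl | rfl | rfl | rfl
    · obtain ⟨h1, h2⟩ := ud_odd (Or.inl rfl) h
      rw [h1]
      exact ih 2 (by omega) (by omega) h2
    · obtain ⟨h1, h2⟩ := ud_even (Or.inl rfl) h
      rw [h1]
      exact ih 3 (by omega) (by omega) h2
    · obtain ⟨h1, h2⟩ := ud_odd (Or.inr rfl) h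
      rw [h1]
      exact ih 4 (by omega) (by omega) h2
    · obtain ⟨h1, h2⟩ := ud_even (Or.inr rfl) h
      rw [h1]
      exact ih 5 (by omega) (by omega) h2
    · obtain ⟨h1, h2⟩ := ud_five h
      rw [h1]
      exact ih 1 (by omega) (by omega) h2

/-- the following entries are read in the same way after an active entry -/
theorem phase {B : List ℕ} (a b : ℕ) (h : rn (.hd false 5) B = .hd false 5) :
    rn (.be false a b 1) B = .be false a b 1 := by
  exact ud_ph a b B 5 (by omega) le_rfl h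

/-- comparison of two decompositions -/
private theorem ud_cmp {A A' B B' : List ℕ} (h : A ++ B = A' ++ B')
    (h1 : ∀ p R R', B = p :: R' → A' = A ++ p :: R → False)
    (h2 : ∀ p R R', B' = p :: R' → A = A' ++ p :: R → False) : A = A' ∧ B = B' := by
  rcases List.append_eq_append_iff.1 h with ⟨R, h3, h4⟩ | ⟨R, h3, h4⟩
  · rcases R with _ | ⟨p, R⟩
    · rw [List.append_nil] at h3
      exact ⟨h3.symm, h4⟩
    · exact (h1 p R (R ++ B') h4 h3).elim
  · rcases R with _ | ⟨p, R⟩
    · rw [List.append_nil] at h3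
      exact ⟨h3, h4.symm⟩
    · exact (h2 p R (R ++ B) h4 h3).elim

private theorem ud_ac {A A' R : List ℕ} {f f' : Bool} {p : ℕ} (h1 : run A = .ac f)
    (h2 : run A' = .ac f') (h : A' = A ++ p :: R) : False := by
  rw [h, run_append, h1, rn_cons] at h2
  have h3 : stp (.ac f) (p % 12) = .al f (p % 12) 0 := rfl
  rw [h3] at h2
  rcases rn_al f (p % 12) 0 R with ⟨k', h4⟩ | ⟨b, k', h4⟩
  · rw [h4] at h2
    cases h2
  · rw [h4] at h2
    cases h2

theorem uniq_ac {A A' B B' : List ℕ} {f f' : Bool} (h : A ++ B = A' ++ B') (h1 : run A = .ac f)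
    (h2 : run A' = .ac f') : A = A' ∧ B = B' := by
  exact ud_cmp h (fun p R R' _ h' => ud_ac h1 h2 h') (fun p R R' _ h' => ud_ac h2 h1 h')

private theorem ud_al {A A' R : List ℕ} {f f' : Bool} {a a' p : ℕ} (h1 : run A = .al f a 1)
    (h2 : run A' = .al f' a' 1) (h : A' = A ++ p :: R) : False := by
  rw [h, run_append, h1, rn_cons] at h2
  have h3 : stp (.al f a 1) (p % 12) = .be f a (p % 12) 0 := rfl
  rw [h3] at h2
  obtain ⟨k', h4⟩ := rn_be f a (p % 12) 0 R
  rw [h4] at h2
  cases h2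

theorem uniq_al {A A' B B' : List ℕ} {f f' : Bool} {a a' : ℕ} (h : A ++ B = A' ++ B')
    (h1 : run A = .al f a 1) (h2 : run A' = .al f' a' 1) : A = A' ∧ B = B' := by
  exact ud_cmp h (fun p R R' _ h' => ud_al h1 h2 h') (fun p R R' _ h' => ud_al h2 h1 h')

private theorem ud_be (f : Bool) (a b k : ℕ) (hk : k = 6 ∨ k = 7) (L : List ℕ) :
    ∃ k', (k' = 6 ∨ k' = 7) ∧ rn (.be f a b k) L = .be f a b k' := by
  induction L generalizing k with
  | nil => exact ⟨k, hk, rfl⟩
  | cons p L ih =>
    rw [rn_cons]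
    have hs : stp (.be f a b k) (p % 12) = .be f a b (nx k (p % 12)) := rfl
    rw [hs]
    have hn : nx k (p % 12) = 7 := by
      rcases hk with rfl | rfl
      · rfl
      · rfl
    rw [hn]
    exact ih 7 (Or.inr rfl)

private theorem ud_en {A A' R : List ℕ} {f f' : Bool} {a b a' b' p : ℕ} (h1 : run A = .be f a b 1)
    (h2 : run A' = .be f' a' b' 1) (hp : p % 12 = 1) (h : A' = A ++ p :: R) : False := by
  rw [h, run_append, h1, rn_cons, hp] at h2
  have h3 : stp (.be f a b 1) 1 = .be f a b 6 := rfl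
  rw [h3] at h2
  obtain ⟨k', hk, h4⟩ := ud_be f a b 6 (Or.inl rfl) R
  rw [h4] at h2
  have h5 : k' = 1 := by
    cases h2
    rfl
  omega

theorem uniq_end {A A' C C' : List ℕ} {e e' : ℕ} {f f' : Bool} {a b a' b' : ℕ}
    (h : A ++ e :: C = A' ++ e' :: C') (h1 : run A = .be f a b 1) (h2 : run A' = .be f' a' b' 1)
    (he : e % 12 = 1) (he' : e' % 12 = 1) : A = A' ∧ e = e' ∧ C = C' := by
  have h3 : A = A' ∧ e :: C = e' :: C' := by
    refine ud_cmp h (fun p R R' h3 h4 => ?_) (fun p R R' h3 h4 => ?_)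
    · obtain ⟨rfl, -⟩ := List.cons.inj h3
      exact ud_en h1 h2 he h4
    · obtain ⟨rfl, -⟩ := List.cons.inj h3
      exact ud_en h2 h1 he' h4
  obtain ⟨h4, h5⟩ := List.cons.inj h3.2
  exact ⟨h3.1, h4, h5⟩

private theorem ud_v0 {H H' R : List ℕ} {p : ℕ} (h1 : bd (run H))
    (h2 : bd (run H')) (hp : p % 12 = 1) (h : H' = H ++ p :: R) : False := by
  have h3 : stp (run H) 1 = .v0 false := by
    rcases h1 with h1 | h1
    · rw [h1]
      rfl
    · rw [h1]
      rfl
  rw [h, run_append, rn_cons, hp, h3, (rn_abs R).2.2.1 false] at h2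
  rcases h2 with h2 | h2
  · cases h2
  · cases h2

theorem uniq_v0 {H H' x x' : List ℕ} {e e' : ℕ} (h : H ++ e :: x = H' ++ e' :: x') (h1 : bd (run H))
    (h2 : bd (run H')) (he : e % 12 = 1) (he' : e' % 12 = 1) : H = H' ∧ e = e' ∧ x = x' := by
  have h3 : H = H' ∧ e :: x = e' :: x' := by
    refine ud_cmp h (fun p R R' h3 h4 => ?_) (fun p R R' h3 h4 => ?_)
    · obtain ⟨rfl, -⟩ := List.cons.inj h3
      exact ud_v0 h1 h2 he h4
    · obtain ⟨rfl, -⟩ := List.cons.inj h3
      exact ud_v0 h2 h1 he' h4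
  obtain ⟨h4, h5⟩ := List.cons.inj h3.2
  exact ⟨h3.1, h4, h5⟩

end Pool.Agent.STF
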