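import Pool.Agent.STF.Ub

/-!
# Project STF, module Ue: splitting `X + Z = 2 (A B + 2 * 3^i)` with `Z ∈ U` at the end of the header of `Z`

PLAN.  `i % 12 = 3`, `e % 12 = 1`: `i ≠ e` and, if `i < e`, `i + 10 ≤ e`.
* `e < i`: all letters of `A` are `> i > e`.  Split `B = B2 ++ w`, `X = X2 ++ x` at `e`.  `ofl x + z < 3 ^ e`, `2 * ofl w < 3 ^ e` (`ofl_lt`), everything else is divisible by `3 ^ e` (`ofl_dvd`; `3 ^ e ∣ 4 * 3 ^ i`): as in
  `u_split`: `ofl x + z = 2 * ofl w` and the relation of the upper parts: second alternative.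
* `i < e`: split `A = A2 ++ A1`, `X = X2 ++ x` at `e`.  The lower part of `A ++ B` is `w = A1 ++ B`, `SD (A1 ++ i :: B)` with `i + 1 ∉ A1`, so `A1 ++ (i + 1) :: B` is `SD` (`sd_up`) with letters `< e`:
  `2 * (ofl w + 3 ^ (i + 1)) + 1 ≤ 3 ^ e`, hence `2 * (ofl w + 2 * 3 ^ i) < 3 ^ e`.  As above `ofl x + z = 2 * (ofl w + 2 * 3 ^ i)` and `ofl X2 + ofl (H ++ [e]) = 2 * ofl A2`; `rel0`: `A2 = H ++ [e]`: first
  alternative with `A' = A1`.
-/

set_option autoImplicit false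

namespace Pool.Agent.STF

open Pool.Agent.STN

private theorem ue_eq {P a c b r s : ℕ} (hr : r < P) (hs : s < P) (h : P * a + P * c + r = 2 * (P * b) + s) :
    r = s := by
  have h1 : (r + P * (a + c)) % P = (s + P * (2 * b)) % P := by
    have e1 : r + P * (a + c) = P * a + P * c + r := by ring
    have e2 : s + P * (2 * b) = 2 * (P * b) + s := by ring
    rw [e1, e2, h]
  rw [Nat.add_mul_mod_self_left, Nat.add_mul_mod_self_left, Nat.mod_eq_of_lt hr, Nat.mod_eq_of_lt hs] at h1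
  exact h1

theorem u_split3 {X A B H : List ℕ} {i e z : ℕ} (hX : SD X) (h : SD (A ++ i :: B)) (hi : i + 1 ∉ A)
    (hi3 : i % 12 = 3) (he1 : e % 12 = 1) (hH : SD (H ++ [e])) (hz : 2 * z < 3 ^ e)
    (he : ofl X + (ofl (H ++ [e]) + z) = 2 * (ofl (A ++ B) + 2 * 3 ^ i)) :
    (∃ A', A = H ++ e :: A') ∨
    ∃ X2 B2 x w, X = X2 ++ x ∧ B = B2 ++ w ∧ SD X2 ∧ SD x ∧ SD w ∧ SD (A ++ i :: B2) ∧
      ofl x + z = 2 * ofl w ∧ ofl X2 + ofl (H ++ [e]) = 2 * ofl (A ++ B2) + 4 * 3 ^ i := by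
  obtain ⟨m1, m2, m3, m4, m5⟩ := sd_mid.1 h
  obtain ⟨X2, x, hx, hx1, hx2⟩ := sd_split hX e
  rw [hx] at hX
  have hXa := sd_append.1 hX
  have hH1 : ∀ a ∈ H ++ [e], e ≤ a := by
    intro a ha
    rcases List.mem_append.1 ha with h | h
    · exact ((sd_append.1 hH).2.2 a h e List.mem_cons_self).le
    · rw [List.mem_singleton.1 h]
  obtain ⟨a, ha⟩ := ofl_dvd hx1
  obtain ⟨c, hc⟩ := ofl_dvd hH1
  have h1 := ofl_lt hXa.2.1 hx2
  rw [hx, ofl_append X2, ofl_append A] at he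
  rcases Nat.lt_trichotomy e i with hei | hei | hei
  · right
    obtain ⟨B2, w, hB, hB1, hB2⟩ := sd_split m2 e
    rw [hB] at m2 m4 m5
    have hBa := sd_append.1 m2
    have hA1 : ∀ a ∈ A, e ≤ a := fun a ha => hei.le.trans (m3 a ha).le
    obtain ⟨b1, hb1⟩ := ofl_dvd hA1
    obtain ⟨b2, hb2⟩ := ofl_dvd hB1
    obtain ⟨b3, hb3⟩ : 3 ^ e ∣ 3 ^ i := pow_dvd_pow 3 hei.le
    have h2 := ofl_lt hBa.2.1 hB2
    rw [hB, ofl_append B2] at he
    have h3 : ofl x + z = 2 * ofl w := by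
      refine ue_eq (P := 3 ^ e) (a := a) (c := c) (b := b1 + b2 + 2 * b3) (by omega) (by omega) ?_
      have e1 : 2 * (3 ^ e * (b1 + b2 + 2 * b3)) = 2 * (3 ^ e * b1) + 2 * (3 ^ e * b2) + 4 * (3 ^ e * b3) := by
        ring
      rw [e1, ← ha, ← hc, ← hb1, ← hb2, ← hb3]
      omega
    refine ⟨X2, B2, x, w, hx, hB, hXa.1, hXa.2.1, hBa.2.1, ?_, h3, ?_⟩
    · refine sd_mid.2 ⟨m1, hBa.1, m3, fun b hb => m4 b (List.mem_append_left _ hb),
        fun a ha b hb => m5 a ha b (List.mem_append_left _ hb)⟩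
    · rw [ofl_append A B2]
      omega
  · exfalso
    omega
  · left
    have hie : i + 1 < e := by omega
    obtain ⟨A2, A1, hA, hA1, hA2⟩ := sd_split m1 e
    have hAa := m1
    rw [hA] at hAa
    have hAb := sd_append.1 hAa
    have hin : ∀ a ∈ A1, a ∈ A := fun a ha => by
      rw [hA]
      exact List.mem_append_right _ ha
    have h5 : SD (A1 ++ i :: B) := sd_mid.2 ⟨hAb.2.1, m2, fun a ha => m3 a (hin a ha), m4,
      fun a ha b hb => m5 a (hin a ha) b hb⟩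
    have h6 := (sd_up h5 (fun hm => hi (hin _ hm))).2.1
    have h7 : ∀ q ∈ A1 ++ (i + 1) :: B, q < e := by
      intro q hq
      rcases List.mem_append.1 hq with hq | hq
      · exact hA2 q hq
      · rcases List.mem_cons.1 hq with hq | hq
        · rw [hq]
          exact hie
        · have := m4 q hq
          omega
    have h8 := ofl_lt h6 h7
    rw [ofl_append, ofl_cons, pow_succ] at h8
    obtain ⟨b, hb⟩ := ofl_dvd hA1
    rw [hA, ofl_append A2] at he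
    have h3 : ofl x + z = 2 * (ofl A1 + ofl B + 2 * 3 ^ i) := by
      refine ue_eq (P := 3 ^ e) (a := a) (c := c) (b := b) (by omega) (by omega) ?_
      rw [← ha, ← hc, ← hb]
      omega
    have h4 : ofl X2 + ofl (H ++ [e]) = 2 * ofl A2 := by omega
    obtain ⟨_, h9⟩ := rel0 hXa.1 hAb.1 hH h4
    refine ⟨A1, ?_⟩
    rw [hA, ← h9, List.append_assoc, List.singleton_append]

end Pool.Agent.STF
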