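import Pool.Agent.STF.Ud
import Pool.Agent.STF.Ue
import Pool.Agent.STF.Lh

/-!
# Project STF, module Uf: lines with the mark `S'` and `Z ∈ U` (section 8, (LUs))

PLAN.
* `u_core`.  `e` is the last letter and `(i + 1) % 12 = 4`, so `B2 = B3 ++ [e]`, `H = A ++ (i + 1) :: B3` (`List.eq_nil_or_concat`).  `run (A ++ [i + 1]) = .hd false 1` (both cases of `bd (run A)`), `hdr_entry`:
  `B3 = t1 :: r1 :: t2 :: r2 :: B4`, `rn (.hd false 5) B4 = .hd false 5`.  `run (A ++ [i]) = .ac false`, `run (A ++ [i, t1, r1]) = .al false 8 1`, `run (A ++ i :: t1 :: r1 :: t2 :: r2 :: B4) = .be false 8 8 1` (`phase`).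
  `h1` gives `A'`, `i'`, `r'`, `B'`, `e'`, `C'` with `slot 1 (run A')`, i.e. `run A' = .ac false`: `uniq_ac`: `A' = A ++ [i]`, then `i' = t1`, `r' = r1`; `uniq_end`: `e' = e`, `C' = x`: `ix x = uu t1 r1`.
  `h2`: `slot 2 (run A')`: `run A' = .al false _ 1`: `uniq_al`: `A' = A ++ [i, t1, r1]`, `i' = t2`, `r' = r2`; `uniq_end`: `C' = w`: `ix w = uu t2 r2`.  So `z ∈ Bx H` with `s = i + 1`, `P = x`, `Q = w`.
* `u_legs`.  `X = ofl L`, `sgl L = q`, so `bt 1 L` (rewrite `hq` with `sgl L = q`); `Y = ofl (A ++ B) + 2 * 3 ^ i` with `ev 3 (run A) (i % 12)`: `bd (run A)`, `i % 12 = 3`; `bt 2 (A ++ i :: B)`; `Z = ofl (H ++ [e]) + z`,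
  `z ∉ Bx H`.  `u_split3`: first alternative: `run A = .v0 false` (`run_hdr`), not `bd`.  Second: `hop4` for `X2`, `Z = H ++ [e]`, `A`, `B2`:
  - `H ++ [e] = A ++ (i + 1) :: i :: B2`: the state after `S` and a letter of class `3` is `.dk false`, but `run (H ++ [e]) = .v0 false` (`run_hdr` with `x = []`);
  - `X2 = A ++ i :: B2`, `H ++ [e] = A ++ (i + 1) :: B2`: `u_core`: contradiction to `z ∉ Bx H`;
  - `H ++ [e] = A ++ i :: B2`: `rn (.ac false) B2` is never `.v0 false` (`rn_al`);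
  - `X2 = A ++ (i + 1) :: i :: B2`: `run L = .dk false`, but `bt 1 L` implies `run L = .be false _ _ _` (`rn_be`).
-/

set_option autoImplicit false

namespace Pool.Agent.STF

open Pool.Agent.STN

private theorem uf_bd4 {q : St} {c : ℕ} (h : bd q) (hc : c = 4) : stp q c = .hd false 1 := by
  subst hc
  rcases h with h | h
  · rw [h]
    rfl
  · rw [h]
    rfl

private theorem uf_bd3 {q : St} {c : ℕ} (h : bd q) (hc : c = 3) : stp q c = .ac false := by
  subst hc
  rcases h with h | h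
  · rw [h]
    rfl
  · rw [h]
    rfl

private theorem uf_dk {A B : List ℕ} {i : ℕ} (hA : bd (run A)) (hi : i % 12 = 3) :
    run (A ++ (i + 1) :: i :: B) = .dk false := by
  rw [run_append, rn_cons, uf_bd4 hA (by omega), rn_cons, hi]
  exact (rn_abs B).2.2.2 false

private theorem uf_ac {A B : List ℕ} {i : ℕ} (hA : bd (run A)) (hi : i % 12 = 3) :
    run (A ++ i :: B) = rn (.ac false) B := by
  rw [run_append, rn_cons, uf_bd3 hA hi]

private theorem uf_nov0 (B : List ℕ) : rn (.ac false) B ≠ .v0 false := by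
  cases B with
  | nil => exact fun h => (by cases h)
  | cons b B =>
    have e : rn (.ac false) (b :: B) = rn (.al false (b % 12) 0) B := rfl
    rw [e]
    rcases rn_al false (b % 12) 0 B with ⟨k, h⟩ | ⟨c, k, h⟩
    · rw [h]
      exact fun h => (by cases h)
    · rw [h]
      exact fun h => (by cases h)

private theorem uf_bt {L : List ℕ} (h : bt 1 L) : run L ≠ .dk false := by
  obtain ⟨A, i, r, B, e, C, rfl, -, -, -, ⟨a, b, h⟩, -⟩ := h
  have e1 : A ++ i :: r :: (B ++ e :: C) = (A ++ i :: r :: B) ++ e :: C := by simp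
  rw [e1, run_append, h]
  obtain ⟨k, hk⟩ := rn_be false a b 1 (e :: C)
  rw [hk]
  exact fun h => (by cases h)

theorem u_core {A B2 H x w : List ℕ} {i e z : ℕ} (hA : bd (run A)) (hi : i % 12 = 3)
    (hH : bd (run H)) (he : e % 12 = 1) (hHe : H ++ [e] = A ++ (i + 1) :: B2)
    (h1 : bt 1 (A ++ i :: (B2 ++ x))) (h2 : bt 2 (A ++ i :: (B2 ++ w))) (hx : SD x) (hw : SD w)
    (hz : ofl x + z = 2 * ofl w) : z ∈ Bx H := by
  -- the last letter
  obtain ⟨B3, rfl, rfl⟩ : ∃ B3, B2 = B3 ++ [e] ∧ H = A ++ (i + 1) :: B3 := by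
    rcases List.eq_nil_or_concat B2 with rfl | ⟨B3, e', rfl⟩
    · obtain ⟨-, h⟩ := List.append_inj' hHe rfl
      have h' : e = i + 1 := (List.cons.inj h).1
      omega
    · rw [List.concat_eq_append] at hHe
      have h : H ++ [e] = (A ++ (i + 1) :: B3) ++ [e'] := by
        rw [hHe]
        simp
      obtain ⟨h3, h4⟩ := List.append_inj' h rfl
      have h' : e = e' := (List.cons.inj h4).1
      subst h'
      exact ⟨B3, by rw [List.concat_eq_append], h3⟩
  -- the rest of the entry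
  have hr : run (A ++ (i + 1) :: B3) = rn (.hd false 1) B3 := by
    rw [run_append, rn_cons, uf_bd4 hA (by omega)]
  rw [hr] at hH
  obtain ⟨t1, r1, t2, r2, B4, rfl, ht1, hr1, ht2, hr2, h5⟩ := hdr_entry hH
  have ra : run (A ++ [i]) = .ac false := uf_ac hA hi
  have rb : run (A ++ [i, t1, r1]) = .al false 8 1 := by
    rw [uf_ac hA hi, rn_cons, rn_cons, rn_nil, ht1, hr1]
    rfl
  have rc : run (A ++ i :: t1 :: r1 :: t2 :: r2 :: B4) = .be false 8 8 1 := by
    rw [uf_ac hA hi, rn_cons, rn_cons, rn_cons, rn_cons, ht1, hr1, ht2, hr2]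
    exact phase 8 8 h5
  -- the bit one
  have hP : ix x = uu t1 r1 := by
    obtain ⟨A', i', r', B', e', C', hL, hs, -, he', ⟨a, b, hab⟩, hC⟩ := h1
    have hA' : run A' = .ac false := by
      rcases hs with hs | hs
      · exact hs.2
      · exact absurd hs.1 (by norm_num)
    have e1 : (A ++ [i]) ++ (t1 :: r1 :: (t2 :: r2 :: (B4 ++ e :: x))) = A' ++ i' :: r' :: (B' ++ e' :: C') := by
      rw [← hL]
      simp
    obtain ⟨-, h6⟩ := uniq_ac e1 ra hA'
    obtain ⟨h7, h8⟩ := List.cons.inj h6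
    obtain ⟨h9, -⟩ := List.cons.inj h8
    have e2 : (A ++ i :: t1 :: r1 :: t2 :: r2 :: B4) ++ e :: x = (A' ++ i' :: r' :: B') ++ e' :: C' := by
      have e3 : (A' ++ i' :: r' :: B') ++ e' :: C' = A' ++ i' :: r' :: (B' ++ e' :: C') := by simp
      rw [e3, ← hL]
      simp
    obtain ⟨-, -, h10⟩ := uniq_end e2 rc hab he he'
    rw [h10, hC, ← h7, ← h9]
  -- the bit two
  have hQ : ix w = uu t2 r2 := by
    obtain ⟨A', i', r', B', e', C', hL, hs, -, he', ⟨a, b, hab⟩, hC⟩ := h2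
    obtain ⟨a', hA'⟩ : ∃ a', run A' = .al false a' 1 := by
      rcases hs with hs | hs
      · exact absurd hs.1 (by norm_num)
      · exact hs.2
    have e1 : (A ++ [i, t1, r1]) ++ (t2 :: r2 :: (B4 ++ e :: w)) = A' ++ i' :: r' :: (B' ++ e' :: C') := by
      rw [← hL]
      simp
    obtain ⟨-, h6⟩ := uniq_al e1 rb hA'
    obtain ⟨h7, h8⟩ := List.cons.inj h6
    obtain ⟨h9, -⟩ := List.cons.inj h8
    have e2 : (A ++ i :: t1 :: r1 :: t2 :: r2 :: B4) ++ e :: w = (A' ++ i' :: r' :: B') ++ e' :: C' := by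
      have e3 : (A' ++ i' :: r' :: B') ++ e' :: C' = A' ++ i' :: r' :: (B' ++ e' :: C') := by simp
      rw [e3, ← hL]
      simp
    obtain ⟨-, -, h10⟩ := uniq_end e2 rc hab he he'
    rw [h10, hC, ← h7, ← h9]
  exact ⟨A, i + 1, t1, r1, t2, r2, B4, rfl, hA, by omega, x, w, hx, hw, hP, hQ, hz⟩

theorem u_legs {q v : SG} (hq : q.2.2.1) (hv : v.2.2.2) : Leg 0 (GG q) (CC 3 v) UU := by
  rintro X ⟨L, hL, hLq, rfl⟩ Y ⟨A, i, B, hs, hi, hev, hBv, rfl⟩ Z ⟨H, e, z, hH, hbH, he, hz, hzB, rfl⟩ heq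
  have b1 : bt 1 L := by
    rw [← hLq] at hq
    exact hq
  have b2 : bt 2 (A ++ i :: B) := by
    rw [← hBv] at hv
    exact hv
  have hbi : bd (run A) ∧ i % 12 = 3 := by
    rcases hev with h | h | h
    · exact absurd h.1 (by norm_num)
    · rcases h.1 with h' | h'
      · exact absurd h' (by norm_num)
      · exact absurd h' (by norm_num)
    · exact h.2
  obtain ⟨hA, hi3⟩ := hbi
  rw [add_zero] at heq
  have rH : run (H ++ [e]) = .v0 false := run_hdr hbH he []
  rcases u_split3 hL hs hi hi3 he hH hz heq with ⟨A', rfl⟩ | ⟨X2, B2, x, w, rfl, rfl, hX2, hx, hw, hs2, h1, h2⟩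
  · rw [run_hdr hbH he A'] at hA
    rcases hA with h | h
    · cases h
    · cases h
  · rcases hop4 hs2 hi hX2 hH h2 with ⟨-, h4⟩ | ⟨h3, h4⟩ | ⟨-, h4⟩ | ⟨h3, -⟩
    · rw [h4, uf_dk hA hi3] at rH
      cases rH
    · subst h3
      refine hzB (u_core hA hi3 hbH he h4 ?_ b2 hx hw h1)
      have e1 : A ++ i :: (B2 ++ x) = (A ++ i :: B2) ++ x := by simp
      rw [e1]
      exact b1
    · rw [h4, uf_ac hA hi3] at rH
      exact uf_nov0 B2 rH
    · subst h3
      have e1 : (A ++ (i + 1) :: i :: B2) ++ x = A ++ (i + 1) :: i :: (B2 ++ x) := by simp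
      rw [e1] at b1
      exact uf_bt b1 (uf_dk hA hi3)

end Pool.Agent.STF
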