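import Pool.Agent.STF.Ub
import Pool.Agent.STF.Ug

/-!
# Project STF, module Ui: low parts above the bound (section 8, `2 z > 3 ^ e`)

The low part is written as a difference `2 y - x` of numbers below `3 ^ (e - 1)`; the first element of the relation continues the
header by a letter of class `0`, so it is in a dead state and the relation is not a relation with an element of `U`.
-/

set_option autoImplicit false

namespace Pool.Agent.STF

open Pool.Agent.STN

private theorem ui_dk {q : St} (h : bd q) : stp q 0 = .dk false := by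
  rcases h with h | h
  · rw [h]
    rfl
  · rw [h]
    rfl

theorem u_high {H : List ℕ} {e z : ℕ} (hH : SD (H ++ [e])) (hb : bd (run H)) (he : e % 12 = 1)
    (h1 : 3 ^ e < 2 * z) (h2 : z < 3 ^ e) :
    ∃ X Y, SD X ∧ SD Y ∧ ofl X + (ofl (H ++ [e]) + z) = 2 * ofl Y ∧ ofl X ≤ ofl Y ∧
      Leg 0 (GG (sgl X)) (GG (sgl Y)) UU := by
  obtain ⟨k, rfl⟩ : ∃ k, e = k + 1 := ⟨e - 1, by omega⟩
  have hk : k % 12 = 0 := by omega
  have hM := ofl_dn k
  have hp : 3 ^ (k + 1) = 3 * 3 ^ k := by ring
  rw [hp] at h1 h2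
  obtain ⟨x, y, hx, hy, hxk, hyk, hxy⟩ := rep_all k (z + ofl (dn k) - 2 * 3 ^ k) (by omega)
  obtain ⟨hH1, _, hH2⟩ := sd_append.1 hH
  have hH3 : ∀ a ∈ H, k + 1 < a := fun a ha => hH2 a ha (k + 1) List.mem_cons_self
  have hX : SD (H ++ k :: x) := by
    refine sd_append.2 ⟨hH1, sd_cons.2 ⟨hxk, hx⟩, ?_⟩
    intro a ha b hb
    have h3 := hH3 a ha
    rcases List.mem_cons.1 hb with h | h
    · omega
    · have := hxk b h
      omega
  have hY : SD (H ++ (k + 1) :: y) := by
    refine sd_append.2 ⟨hH1, sd_cons.2 ⟨fun b hb => ?_, hy⟩, ?_⟩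
    · have := hyk b hb
      omega
    · intro a ha b hb
      have h3 := hH3 a ha
      rcases List.mem_cons.1 hb with h | h
      · omega
      · have := hyk b h
        omega
  have hx1 := ofl_lt hx hxk
  have hrel : ofl (H ++ k :: x) + (ofl (H ++ [k + 1]) + z) = 2 * ofl (H ++ (k + 1) :: y) := by
    rw [ofl_append, ofl_append, ofl_append, ofl_cons, ofl_cons, ofl_cons, ofl_nil, hp]
    omega
  have hle : ofl (H ++ k :: x) ≤ ofl (H ++ (k + 1) :: y) := by
    rw [ofl_append, ofl_append, ofl_cons, ofl_cons, hp]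
    omega
  refine ⟨H ++ k :: x, H ++ (k + 1) :: y, hX, hY, hrel, hle, u_leg0 fun h => ?_⟩
  have hr : run (H ++ k :: x) = .dk false := by
    rw [run_append, rn_cons, hk, ui_dk hb]
    exact (rn_abs x).2.2.2 false
  have h3 : run (H ++ k :: x) = .v0 false := h.1
  rw [hr] at h3
  exact St.noConfusion h3

end Pool.Agent.STF
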