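import Pool.Agent.STF.Ld
import Pool.Agent.STF.Le
import Pool.Agent.STF.Lg

/-!
# Project STF, module Wa: relations inside `U`

Three numbers of `U` in an arithmetic progression have the same header and the same end letter (compare with the
highest end letter).
-/

set_option autoImplicit false

namespace Pool.Agent.STF

open Pool.Agent.STN

private theorem wa_le {B : List ℕ} {e p : ℕ} (hs : SD B) (h1 : ∀ b ∈ B, e ≤ b) (h2 : ∀ b ∈ B, b < p) (hp : e ≤ p) :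
    2 * ofl B + 3 ^ e ≤ 3 ^ p := by
  induction B generalizing p with
  | nil =>
    rw [ofl_nil, mul_zero, zero_add]
    exact Nat.pow_le_pow_right (by norm_num) hp
  | cons b B ih =>
    obtain ⟨h3, h4⟩ := sd_cons.1 hs
    have h5 := ih h4 (fun c hc => h1 c (List.mem_cons_of_mem _ hc)) h3 (h1 b List.mem_cons_self)
    have h6 : 3 ^ (b + 1) ≤ 3 ^ p := Nat.pow_le_pow_right (by norm_num) (h2 b List.mem_cons_self)
    rw [pow_succ] at h6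
    rw [ofl_cons]
    omega

private theorem wa_ge {H : List ℕ} {e : ℕ} (hs : SD (H ++ [e])) : ∀ a ∈ H ++ [e], e ≤ a := by
  intro a ha
  rcases List.mem_append.1 ha with h | h
  · exact ((sd_append.1 hs).2.2 a h e (List.mem_singleton.2 rfl)).le
  · rw [List.mem_singleton.1 h]

/-- the word of a header split at a position -/
private theorem wa_split {H : List ℕ} {e z p : ℕ} (hs : SD (H ++ [e])) (hz : 2 * z < 3 ^ e) (hp : e ≤ p) :
    ∃ A B, H ++ [e] = A ++ B ∧ (∀ a ∈ A, p ≤ a) ∧ (∀ b ∈ B, b < p) ∧ 2 * (ofl B + z) < 3 ^ p := by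
  obtain ⟨A, B, hAB, hA, hB⟩ := sd_split hs p
  refine ⟨A, B, hAB, hA, hB, ?_⟩
  have hs' := hs
  rw [hAB, sd_append] at hs'
  have h1 := wa_le hs'.2.1 (fun b hb => wa_ge hs b (hAB ▸ List.mem_append_right A hb)) hB hp
  omega

private theorem wa_rel3 {A1 A2 A3 : List ℕ} {b1 b2 b3 p : ℕ} (s1 : SD A1) (s2 : SD A2) (s3 : SD A3)
    (h1 : ∀ a ∈ A1, p ≤ a) (h2 : ∀ a ∈ A2, p ≤ a) (h3 : ∀ a ∈ A3, p ≤ a)
    (k1 : 2 * b1 < 3 ^ p) (k2 : 2 * b2 < 3 ^ p) (k3 : 2 * b3 < 3 ^ p)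
    (h : ofl A1 + b1 + (ofl A3 + b3) = 2 * (ofl A2 + b2)) : A1 = A2 ∧ A3 = A2 ∧ b1 + b3 = 2 * b2 := by
  have key : ∀ {A : List ℕ}, SD A → (∀ a ∈ A, p ≤ a) → ∃ q, ofl A = 3 ^ p * q := by
    intro A hs hA
    have hs' : SD (A ++ []) := by rw [List.append_nil]; exact hs
    exact ⟨_, (ofl_divmod hs' hA (by simp)).2⟩
  obtain ⟨q1, e1⟩ := key s1 h1
  obtain ⟨q2, e2⟩ := key s2 h2
  obtain ⟨q3, e3⟩ := key s3 h3
  have hp : 0 < 3 ^ p := by positivity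
  have h4 : 3 ^ p * (q1 + q3) + (b1 + b3) = 3 ^ p * (2 * q2) + 2 * b2 := by
    rw [e1, e2, e3] at h
    have e4 : 3 ^ p * (q1 + q3) = 3 ^ p * q1 + 3 ^ p * q3 := by ring
    have e5 : 3 ^ p * (2 * q2) = 2 * (3 ^ p * q2) := by ring
    omega
  have h5 : b1 + b3 = 2 * b2 := by
    have h6 := congrArg (· % 3 ^ p) h4
    simp only [Nat.mul_add_mod] at h6
    rwa [Nat.mod_eq_of_lt (by omega), Nat.mod_eq_of_lt (by omega)] at h6
  have h7 : ofl A1 + ofl A3 = 2 * ofl A2 := by omega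
  obtain ⟨h8, h9⟩ := rel0 s1 s2 s3 h7
  exact ⟨h8, h9, h5⟩

private theorem wa_pre {H1 H2 A B1 B2 : List ℕ} {e1 e2 : ℕ} (hs1 : SD (H1 ++ [e1])) (b1 : bd (run H1))
    (b2 : bd (run H2)) (hE : e1 % 12 = 1) (h1 : H1 ++ [e1] = A ++ B1) (h2 : H2 ++ [e2] = A ++ B2)
    (hB1 : ∀ b ∈ B1, b < e1) : H2 = H1 ∧ e2 = e1 := by
  have h3 : B1 = [] := by
    rcases B1 with _ | ⟨b, B⟩
    · rfl
    · exfalso
      have h4 := wa_ge hs1 b (h1 ▸ List.mem_append_right A List.mem_cons_self)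
      have h5 := hB1 b List.mem_cons_self
      omega
  rw [h3, List.append_nil] at h1
  rw [← h1] at h2
  rcases List.eq_nil_or_concat B2 with h4 | ⟨B, b, h4⟩
  · rw [h4, List.append_nil] at h2
    obtain ⟨h5, h6⟩ := List.append_inj' h2 rfl
    exact ⟨h5, (List.cons.inj h6).1⟩
  · exfalso
    rw [h4, List.concat_eq_append, ← List.append_assoc] at h2
    obtain ⟨h5, h6⟩ := List.append_inj' h2 rfl
    have h7 : run H2 = .v0 false := by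
      rw [h5, run_append, run_append]
      have h8 : rn (run H1) [e1] = .v0 false := by
        rw [rn_cons, rn_nil, hE]
        rcases b1 with h | h <;> rw [h] <;> rfl
      rw [h8]
      exact (rn_abs B).2.2.1 false
    rcases b2 with h | h <;> rw [h7] at h <;> cases h

/-- the same header -/
theorem u_rel {H1 H2 H3 : List ℕ} {e1 e2 e3 z1 z2 z3 : ℕ} (s1 : SD (H1 ++ [e1])) (s2 : SD (H2 ++ [e2]))
    (s3 : SD (H3 ++ [e3])) (b1 : bd (run H1)) (b2 : bd (run H2)) (b3 : bd (run H3)) (c1 : e1 % 12 = 1)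
    (c2 : e2 % 12 = 1) (c3 : e3 % 12 = 1) (k1 : 2 * z1 < 3 ^ e1) (k2 : 2 * z2 < 3 ^ e2) (k3 : 2 * z3 < 3 ^ e3)
    (h : ofl (H1 ++ [e1]) + z1 + (ofl (H3 ++ [e3]) + z3) = 2 * (ofl (H2 ++ [e2]) + z2)) :
    H1 = H2 ∧ e1 = e2 ∧ H3 = H2 ∧ e3 = e2 ∧ z1 + z3 = 2 * z2 := by
  obtain ⟨p, hp⟩ : ∃ p, p = max e1 (max e2 e3) := ⟨_, rfl⟩
  obtain ⟨A1, B1, i1, j1, l1, m1⟩ := wa_split s1 k1 (p := p) (by omega)
  obtain ⟨A2, B2, i2, j2, l2, m2⟩ := wa_split s2 k2 (p := p) (by omega)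
  obtain ⟨A3, B3, i3, j3, l3, m3⟩ := wa_split s3 k3 (p := p) (by omega)
  have t1 := s1
  have t2 := s2
  have t3 := s3
  rw [i1, sd_append] at t1
  rw [i2, sd_append] at t2
  rw [i3, sd_append] at t3
  have h' : ofl A1 + (ofl B1 + z1) + (ofl A3 + (ofl B3 + z3)) = 2 * (ofl A2 + (ofl B2 + z2)) := by
    rw [i1, i2, i3, ofl_append, ofl_append, ofl_append] at h
    omega
  obtain ⟨q1, q3, -⟩ := wa_rel3 t1.1 t2.1 t3.1 j1 j2 j3 m1 m2 m3 h'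
  rw [q1] at i1
  rw [q3] at i3
  have hfin : H1 = H2 ∧ e1 = e2 ∧ H3 = H2 ∧ e3 = e2 := by
    have hc : p = e1 ∨ p = e2 ∨ p = e3 := by omega
    rcases hc with hc | hc | hc
    · obtain ⟨x1, x2⟩ := wa_pre s1 b1 b2 c1 i1 i2 (fun b hb => hc ▸ l1 b hb)
      obtain ⟨x3, x4⟩ := wa_pre s1 b1 b3 c1 i1 i3 (fun b hb => hc ▸ l1 b hb)
      exact ⟨x1.symm, x2.symm, x3.trans x1.symm, x4.trans x2.symm⟩
    · obtain ⟨x1, x2⟩ := wa_pre s2 b2 b1 c2 i2 i1 (fun b hb => hc ▸ l2 b hb)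
      obtain ⟨x3, x4⟩ := wa_pre s2 b2 b3 c2 i2 i3 (fun b hb => hc ▸ l2 b hb)
      exact ⟨x1, x2, x3, x4⟩
    · obtain ⟨x1, x2⟩ := wa_pre s3 b3 b1 c3 i3 i1 (fun b hb => hc ▸ l3 b hb)
      obtain ⟨x3, x4⟩ := wa_pre s3 b3 b2 c3 i3 i2 (fun b hb => hc ▸ l3 b hb)
      exact ⟨x1.trans x3.symm, x2.trans x4.symm, x3.symm, x4.symm⟩
  obtain ⟨x1, x2, x3, x4⟩ := hfin
  refine ⟨x1, x2, x3, x4, ?_⟩
  rw [x1, x2, x3, x4] at h
  omega

/-- members of `U` with a given header -/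
theorem u_mem {H : List ℕ} {e z : ℕ} (hs : SD (H ++ [e])) (hb : bd (run H)) (he : e % 12 = 1)
    (hz : 2 * z < 3 ^ e) : ofl (H ++ [e]) + z ∈ UU ↔ z ∉ Bx H := by
  constructor
  · rintro ⟨H', e', z', s, b, c, k, hx, h⟩
    have h1 : ofl (H' ++ [e']) + z' + (ofl (H' ++ [e']) + z') = 2 * (ofl (H ++ [e]) + z) := by
      rw [h]
      ring
    obtain ⟨x1, x2, -, -, x5⟩ := u_rel s hs s b hb b c he c k hz k h1
    have x6 : z' = z := by omega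
    rw [← x1, ← x6]
    exact hx
  · intro hx
    exact ⟨H, e, z, hs, hb, he, hz, hx, rfl⟩

/-- a progression in `U` whose last member has a given header -/
theorem u_prog {H : List ℕ} {e z x y : ℕ} (hs : SD (H ++ [e])) (hb : bd (run H)) (he : e % 12 = 1)
    (hz : 2 * z < 3 ^ e) (hx : x ∈ UU) (hy : y ∈ UU) (h : x + (ofl (H ++ [e]) + z) = 2 * y) :
    ∃ a b, 2 * a < 3 ^ e ∧ 2 * b < 3 ^ e ∧ x = ofl (H ++ [e]) + a ∧ y = ofl (H ++ [e]) + b ∧ a + z = 2 * b := by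
  obtain ⟨H1, e1, z1, s1, b1, c1, k1, -, rfl⟩ := hx
  obtain ⟨H2, e2, z2, s2, b2, c2, k2, -, rfl⟩ := hy
  obtain ⟨x1, x2, x3, x4, x5⟩ := u_rel s1 s2 hs b1 b2 hb c1 c2 he k1 k2 hz h
  subst x1 x2 x3 x4
  exact ⟨z1, z2, k1, k2, rfl, rfl, x5⟩

end Pool.Agent.STF
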